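import Pool.Agent.Helper93.SR.TopIrr

/-!
Partial Casimir operators of a graded irreducible Lie algebra and a count of ranks.
-/

open Module

namespace MTP

variable {K : Type*} [Field K] {V : Type*} [AddCommGroup V] [Module K V] [FiniteDimensional K V]
variable {L : Submodule K (Module.End K V)}

/-- Dual families of `L` for the trace form. -/
structure Dl (L : Submodule K (Module.End K V)) {ι : Type*} [Fintype ι]
    (x y : ι → Module.End K V) : Prop where
  xm : ∀ i, x i ∈ L
  ym : ∀ i, y i ∈ L
  ex : ∀ z ∈ L, ∑ i, LinearMap.trace K V (z * y i) • x i = z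
  ey : ∀ z ∈ L, ∑ i, LinearMap.trace K V (z * x i) • y i = z

omit [FiniteDimensional K V] in
lemma Dl.swap {ι : Type*} [Fintype ι] {x y : ι → Module.End K V} (h : Dl L x y) : Dl L y x :=
  ⟨h.ym, h.xm, h.ey, h.ex⟩

/-- Existence of dual families. -/
theorem exists_dl (hnd : ∀ z ∈ L, (∀ y ∈ L, LinearMap.trace K V (z * y) = 0) → z = 0) :
    ∃ (n : ℕ) (x y : Fin n → Module.End K V), Dl L x y ∧
      ∀ T : L →ₗ[K] L, ∀ T' : Module.End K V → Module.End K V, (∀ z : L, (T z : Module.End K V) = T' z) →
        LinearMap.trace K L T = ∑ i, LinearMap.trace K V (T' (x i) * y i) := by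
  let B : LinearMap.BilinForm K L :=
    LinearMap.mk₂ K (fun a b => LinearMap.trace K V ((a : Module.End K V) * (b : Module.End K V)))
      (by intro a b c; simp [add_mul]) (by intro c a b; simp)
      (by intro a b c; simp [mul_add]) (by intro c a b; simp)
  have hB : ∀ a b : L, B a b = LinearMap.trace K V ((a : Module.End K V) * (b : Module.End K V)) :=
    fun a b => rfl
  have hsym : B.IsSymm := ⟨fun a b => by
    rw [hB, hB, LinearMap.trace_mul_comm]⟩
  have hBn : B.Nondegenerate := by
    refine (LinearMap.IsRefl.nondegenerate_iff_separatingLeft (B := B) hsym.isRefl).mpr ?_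
    intro a ha
    apply Subtype.ext
    apply hnd _ a.2
    intro y hy
    exact ha ⟨y, hy⟩
  let b := Module.finBasis K L
  let b' := B.dualBasis hBn b
  have hb' : B.dualBasis hBn b' = b := LinearMap.BilinForm.dualBasis_dualBasis hBn hsym b
  refine ⟨_, fun i => (b i : Module.End K V), fun i => (b' i : Module.End K V), ⟨?_, ?_, ?_, ?_⟩, ?_⟩
  · intro i; exact (b i).2
  · intro i; exact (b' i).2
  · intro z hz
    have h1 := b.sum_repr ⟨z, hz⟩
    have h2 := congrArg (fun w : L => (w : Module.End K V)) h1
    simp only [Submodule.coe_sum, Submodule.coe_smul] at h2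
    rw [← h2]
    apply Finset.sum_congr rfl
    intro i _
    congr 1
    have h3 := LinearMap.BilinForm.dualBasis_repr_apply (B := B) hBn b' ⟨z, hz⟩ i
    rw [hb'] at h3
    rw [h3, hB, h2]
  · intro z hz
    have h1 := b'.sum_repr ⟨z, hz⟩
    have h2 := congrArg (fun w : L => (w : Module.End K V)) h1
    simp only [Submodule.coe_sum, Submodule.coe_smul] at h2
    rw [← h2]
    apply Finset.sum_congr rfl
    intro i _
    congr 1
    have h3 := LinearMap.BilinForm.dualBasis_repr_apply (B := B) hBn b ⟨z, hz⟩ i
    rw [h3, hB, h2]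
  · intro T T' hT
    rw [LinearMap.trace_eq_matrix_trace K b T, Matrix.trace]
    apply Finset.sum_congr rfl
    intro i _
    rw [Matrix.diag_apply, LinearMap.toMatrix_apply]
    have h3 := LinearMap.BilinForm.dualBasis_repr_apply (B := B) hBn b' (T (b i)) i
    rw [hb'] at h3
    rw [h3, hB, hT]

omit [FiniteDimensional K V] in
/-- Invariance of the Casimir tensor. -/
lemma Dl.inv {ι : Type*} [Fintype ι] {x y : ι → Module.End K V} (h : Dl L x y)
    (hbr : ∀ x ∈ L, ∀ y ∈ L, x * y - y * x ∈ L) {z : Module.End K V} (hz : z ∈ L)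
    (F : Module.End K V →ₗ[K] Module.End K V →ₗ[K] Module.End K V) :
    ∑ i, (F (z * x i - x i * z) (y i) + F (x i) (z * y i - y i * z)) = 0 := by
  rw [Finset.sum_add_distrib]
  have e1 : ∀ i, F (z * x i - x i * z) (y i) =
      ∑ j, LinearMap.trace K V ((z * x i - x i * z) * y j) • F (x j) (y i) := by
    intro i
    have := h.ex _ (hbr z hz _ (h.xm i))
    conv_lhs => rw [← this]
    rw [map_sum, LinearMap.sum_apply]
    apply Finset.sum_congr rfl
    intro j _
    rw [map_smul, LinearMap.smul_apply]
  have e2 : ∀ i, F (x i) (z * y i - y i * z) =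
      ∑ j, LinearMap.trace K V ((z * y i - y i * z) * x j) • F (x i) (y j) := by
    intro i
    have := h.ey _ (hbr z hz _ (h.ym i))
    conv_lhs => rw [← this]
    rw [map_sum]
    apply Finset.sum_congr rfl
    intro j _
    rw [map_smul]
  simp only [e1, e2]
  rw [Finset.sum_comm (f := fun i j => LinearMap.trace K V ((z * y i - y i * z) * x j) •
    F (x i) (y j))]
  rw [← Finset.sum_add_distrib]
  apply Finset.sum_eq_zero
  intro i _
  rw [← Finset.sum_add_distrib]
  apply Finset.sum_eq_zero
  intro j _
  rw [← add_smul]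
  have : LinearMap.trace K V ((z * x i - x i * z) * y j) +
      LinearMap.trace K V ((z * y j - y j * z) * x i) = 0 := by
    have t1 : LinearMap.trace K V (z * x i * y j) = LinearMap.trace K V (y j * z * x i) := by
      rw [LinearMap.trace_mul_comm, mul_assoc]
    have t2 : LinearMap.trace K V (x i * z * y j) = LinearMap.trace K V (z * y j * x i) := by
      rw [mul_assoc, LinearMap.trace_mul_comm]
    rw [sub_mul, sub_mul, map_sub, map_sub, t1, t2]
    ring
  rw [this, zero_smul]

/-- The bilinear map `(a,b) ↦ p a q b p`. -/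
noncomputable def sandF (p q : Module.End K V) :
    Module.End K V →ₗ[K] Module.End K V →ₗ[K] Module.End K V :=
  LinearMap.mk₂ K (fun a b => p * a * q * b * p) (by intro a b c; noncomm_ring)
    (by intro c a b; simp) (by intro a b c; noncomm_ring) (by intro c a b; simp)

omit [FiniteDimensional K V] in
lemma sandF_apply (p q a b : Module.End K V) : sandF p q a b = p * a * q * b * p := rfl

omit [FiniteDimensional K V] in
/-- The partial Casimir operator commutes with the degree zero part. -/
lemma Dl.comm [CharZero K] {ι : Type*} [Fintype ι] {x y : ι → Module.End K V} (h : Dl L x y)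
    (hbr : ∀ x ∈ L, ∀ y ∈ L, x * y - y * x ∈ L) {s : Module.End K V} {z : Module.End K V}
    (hz : z ∈ L) (hsz : s * z = z * s) :
    z * (∑ i, pp s * x i * qq s * y i * pp s) = (∑ i, pp s * x i * qq s * y i * pp s) * z := by
  have hp : z * pp s = pp s * z := by
    unfold pp; rw [smul_mul_assoc, mul_smul_comm, add_mul, mul_add, hsz, one_mul, mul_one]
  have hq : z * qq s = qq s * z := by
    unfold qq; rw [smul_mul_assoc, mul_smul_comm, sub_mul, mul_sub, hsz, one_mul, mul_one]
  have h1 := h.inv hbr hz (sandF (pp s) (qq s))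
  rw [← sub_eq_zero, Finset.mul_sum, Finset.sum_mul, ← Finset.sum_sub_distrib, ← h1]
  apply Finset.sum_congr rfl
  intro i _
  rw [sandF_apply, sandF_apply]
  have e1 : z * (pp s * x i * qq s * y i * pp s) = pp s * (z * x i) * qq s * y i * pp s := by
    calc z * (pp s * x i * qq s * y i * pp s) = (z * pp s) * x i * qq s * y i * pp s := by
          noncomm_ring
      _ = _ := by rw [hp]; noncomm_ring
  have e2 : (pp s * x i * qq s * y i * pp s) * z = pp s * x i * qq s * (y i * z) * pp s := by
    calc (pp s * x i * qq s * y i * pp s) * z = pp s * x i * qq s * y i * (pp s * z) := by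
          noncomm_ring
      _ = _ := by rw [← hp]; noncomm_ring
  have e3 : pp s * (x i * z) * qq s * y i * pp s = pp s * x i * qq s * (z * y i) * pp s := by
    calc pp s * (x i * z) * qq s * y i * pp s = pp s * x i * (z * qq s) * y i * pp s := by
          noncomm_ring
      _ = _ := by rw [hq]; noncomm_ring
  have e4 : pp s * (z * x i - x i * z) * qq s * y i * pp s
      + pp s * x i * qq s * (z * y i - y i * z) * pp s = pp s * (z * x i) * qq s * y i * pp s
      - pp s * (x i * z) * qq s * y i * pp s + (pp s * x i * qq s * (z * y i) * pp s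
      - pp s * x i * qq s * (y i * z) * pp s) := by noncomm_ring
  rw [e4, e3, e1, e2]
  abel

/-- The partial Casimir operator is a scalar on the `+1` eigenspace. -/
theorem Dl.scalar [IsAlgClosed K] [CharZero K] {ι : Type*} [Fintype ι] {x y : ι → Module.End K V}
    (h : Dl L x y) (hbr : ∀ x ∈ L, ∀ y ∈ L, x * y - y * x ∈ L)
    (hirr : ∀ W : Submodule K V, (∀ z ∈ L, ∀ w ∈ W, z w ∈ W) → W = ⊥ ∨ W = ⊤)
    {s : Module.End K V} (hss : s * s = 1) (hs : ∀ x ∈ L, s * x - x * s ∈ L) :
    ∃ lam : K, ∑ i, pp s * x i * qq s * y i * pp s = lam • pp s := by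
  have hcomm : ∀ z ∈ L, s * z = z * s →
      z * (∑ i, pp s * x i * qq s * y i * pp s) = (∑ i, pp s * x i * qq s * y i * pp s) * z :=
    fun z hz hsz => h.comm hbr hz hsz
  have hpP : pp s * (∑ i, pp s * x i * qq s * y i * pp s) = ∑ i, pp s * x i * qq s * y i * pp s := by
    rw [Finset.mul_sum]
    apply Finset.sum_congr rfl
    intro i _
    calc pp s * (pp s * x i * qq s * y i * pp s) = (pp s * pp s) * x i * qq s * y i * pp s := by
          noncomm_ring
      _ = _ := by rw [pp_mul_pp hss]
  have hPp : (∑ i, pp s * x i * qq s * y i * pp s) * pp s = ∑ i, pp s * x i * qq s * y i * pp s := by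
    rw [Finset.sum_mul]
    apply Finset.sum_congr rfl
    intro i _
    rw [mul_assoc, pp_mul_pp hss]
  generalize hΦ : (∑ i, pp s * x i * qq s * y i * pp s) = Φ at *
  by_cases hp0 : pp s = 0
  · refine ⟨0, ?_⟩
    rw [zero_smul, ← hPp, hp0, mul_zero]
  have hmap : ∀ v ∈ LinearMap.range (pp s), Φ v ∈ LinearMap.range (pp s) := by
    intro v _
    refine ⟨Φ v, ?_⟩
    rw [← Module.End.mul_apply, hpP]
  have hnt : Nontrivial (LinearMap.range (pp s)) := by
    rw [Submodule.nontrivial_iff_ne_bot]
    intro hb
    exact hp0 (LinearMap.range_eq_bot.mp hb)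
  obtain ⟨c, hc⟩ := Module.End.exists_eigenvalue (Φ.restrict hmap)
  obtain ⟨v, hv⟩ := hc.exists_hasEigenvector
  have hpv : ∀ w ∈ LinearMap.range (pp s), pp s w = w := by
    rintro _ ⟨w, rfl⟩
    rw [← Module.End.mul_apply, pp_mul_pp hss]
  refine ⟨c, ?_⟩
  let U : Submodule K V := LinearMap.ker (pp s - 1) ⊓ LinearMap.ker (Φ - c • 1)
  have hU : ∀ u, u ∈ U ↔ pp s u = u ∧ Φ u = c • u := by
    intro u
    simp only [U, Submodule.mem_inf, LinearMap.mem_ker, LinearMap.sub_apply, Module.End.one_apply,
      LinearMap.smul_apply, sub_eq_zero]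
  have key := top_irr (π := pp s) (U := U) hbr hirr (by
      intro x hx
      refine ⟨qq s * x * pp s, (comps_mem hss hs hx).2.1, ?_, ?_⟩
      · calc pp s * (qq s * x * pp s) = (pp s * qq s) * x * pp s := by noncomm_ring
          _ = 0 := by rw [pp_mul_qq hss]; simp
      · have e : qq s = 1 - pp s := by
          rw [← pp_add_qq (s := s)]; abel
        have e2 : qq s * x * pp s * pp s = qq s * x * (pp s * pp s) := by noncomm_ring
        rw [e2, pp_mul_pp hss, e]; noncomm_ring) (fun u hu => ((hU u).mp hu).1) (by
      intro hb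
      have hvU : (v : V) ∈ U := by
        rw [hU]
        refine ⟨hpv _ v.2, ?_⟩
        have := hv.apply_eq_smul
        exact congrArg Subtype.val this
      rw [hb, Submodule.mem_bot] at hvU
      exact hv.2 (Subtype.ext hvU)) (by
      intro x hx u hu
      obtain ⟨hu1, hu2⟩ := (hU u).mp hu
      have hx0 := (comps_mem hss hs hx).2.2
      have hcx : s * (pp s * x * pp s + qq s * x * qq s) =
          (pp s * x * pp s + qq s * x * qq s) * s := by
        have s1 : s * pp s = pp s := by
          nth_rewrite 1 [← pp_sub_qq (s := s)]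
          rw [sub_mul, pp_mul_pp hss, qq_mul_pp hss, sub_zero]
        have s2 : s * qq s = - qq s := by
          nth_rewrite 1 [← pp_sub_qq (s := s)]
          rw [sub_mul, qq_mul_qq hss, pp_mul_qq hss, zero_sub]
        have s3 : pp s * s = pp s := by
          nth_rewrite 2 [← pp_sub_qq (s := s)]
          rw [mul_sub, pp_mul_pp hss, pp_mul_qq hss, sub_zero]
        have s4 : qq s * s = - qq s := by
          nth_rewrite 2 [← pp_sub_qq (s := s)]
          rw [mul_sub, qq_mul_qq hss, qq_mul_pp hss, zero_sub]
        calc s * (pp s * x * pp s + qq s * x * qq s) =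
            (s * pp s) * x * pp s + (s * qq s) * x * qq s := by noncomm_ring
          _ = pp s * x * (pp s * s) + qq s * x * (qq s * s) := by rw [s1, s2, s3, s4]; noncomm_ring
          _ = _ := by noncomm_ring
      have hq0 : qq s u = 0 := by
        have := congrArg (fun z : Module.End K V => z u) (pp_add_qq (s := s))
        simp only [LinearMap.add_apply, Module.End.one_apply, hu1] at this
        simpa using this
      have e0 : (pp s * x * pp s + qq s * x * qq s) u = pp s (x u) := by
        simp only [LinearMap.add_apply, Module.End.mul_apply, hu1, hq0, map_zero, add_zero]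
      rw [hU]
      constructor
      · rw [← Module.End.mul_apply, pp_mul_pp hss]
      · have h3 := congrArg (fun z : Module.End K V => z u) (hcomm _ hx0 hcx)
        simp only [Module.End.mul_apply] at h3
        rw [hu2, map_smul] at h3
        simp only [Module.End.mul_apply, LinearMap.add_apply] at e0 h3
        rw [e0] at h3
        exact h3.symm)
  ext w
  have h1 := ((hU _).mp (key w)).2
  rw [LinearMap.smul_apply, ← h1, ← Module.End.mul_apply, hPp]

end MTP
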