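import Pool.Agent.Helper93.SR.Strong

/-!
A Lie algebra which is simple up to symmetries is simple, when a dense set of symmetries fix a
square zero element.
-/

set_option linter.unusedSimpArgs false
set_option linter.unusedSectionVars false

open Module

namespace MTP

/-- **Jordan's theorem.** A transitive group of permutations of a finite set with at least two
elements contains an element without fixed points. -/
theorem exists_derangement {X : Type*} [Finite X] (H : Subgroup (Equiv.Perm X))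
    (htrans : ∀ a b : X, ∃ h ∈ H, h a = b) {a b : X} (hab : a ≠ b) :
    ∃ h ∈ H, ∀ x, h x ≠ x := by
  classical
  have := Fintype.ofFinite X
  have : Fintype H := Fintype.ofFinite H
  by_contra hcon
  push Not at hcon
  have hB := MulAction.sum_card_fixedBy_eq_card_orbits_mul_card_group H X
  have hone : Fintype.card (Quotient (MulAction.orbitRel H X)) = 1 := by
    rw [Fintype.card_eq_one_iff]
    refine ⟨Quotient.mk _ a, ?_⟩
    intro q
    induction q using Quotient.inductionOn with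
    | h x =>
      apply Quotient.sound
      obtain ⟨h, hh, hx⟩ := htrans a x
      exact ⟨⟨h, hh⟩, hx⟩
  rw [hone, one_mul] at hB
  have h1 : ∀ h : H, 1 ≤ Fintype.card (MulAction.fixedBy X h) := by
    intro h
    obtain ⟨x, hx⟩ := hcon h h.2
    rw [Nat.one_le_iff_ne_zero, ← Nat.pos_iff_ne_zero, Fintype.card_pos_iff]
    exact ⟨⟨x, hx⟩⟩
  have h2 : 1 < Fintype.card (MulAction.fixedBy X (1 : H)) := by
    rw [Fintype.one_lt_card_iff]
    refine ⟨⟨a, ?_⟩, ⟨b, ?_⟩, fun h => hab (congrArg Subtype.val h)⟩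
    · exact one_smul H a
    · exact one_smul H b
  have h3 : ∑ _h : H, 1 < ∑ h : H, Fintype.card (MulAction.fixedBy X h) :=
    Finset.sum_lt_sum (fun h _ => h1 h) ⟨1, Finset.mem_univ _, h2⟩
  rw [Finset.sum_const, Finset.card_univ, smul_eq_mul, mul_one, hB] at h3
  exact lt_irrefl _ h3

variable {K : Type*} [Field K] {V : Type*} [AddCommGroup V] [Module K V] [FiniteDimensional K V]
variable {ω : LinearMap.BilinForm K V} {L I I' M : Submodule K (Module.End K V)}
  {S : Set (Module.End K V)}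

/-- Minimal ideals. -/
def IsMin (L I : Submodule K (Module.End K V)) : Prop :=
  IsId L I ∧ I ≠ ⊥ ∧ ∀ J ≤ I, IsId L J → J ≠ ⊥ → J = I

lemma IsMin.eq (h : IsMin L I) (h' : IsMin L I') (hne : I ⊓ I' ≠ ⊥) : I = I' := by
  rw [← h.2.2 (I ⊓ I') inf_le_left (inf_isId h.1 h'.1) hne]
  exact h'.2.2 (I ⊓ I') inf_le_right (inf_isId h.1 h'.1) hne

lemma IsMin.eq_of_mem (h : IsMin L I) (h' : IsMin L I') {x : Module.End K V} (hx : x ∈ I)
    (hx' : x ∈ I') (hx0 : x ≠ 0) : I = I' := by
  apply h.eq h'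
  intro hb
  have : x ∈ I ⊓ I' := ⟨hx, hx'⟩
  rw [hb, Submodule.mem_bot] at this
  exact hx0 this

lemma IsMin.comm (h : IsMin L I) (h' : IsMin L I') (hne : I ≠ I') {x y : Module.End K V}
    (hx : x ∈ I) (hy : y ∈ I') : x * y = y * x := by
  have hb : I ⊓ I' = ⊥ := by
    by_contra hb
    exact hne (h.eq h' hb)
  exact IrrSymp.comm_of_inf h.1 h'.1 hb hx hy

omit [FiniteDimensional K V] in
/-- The image of a minimal ideal. -/
lemma IsMin.im {τ : Module.End K V ≃+* Module.End K V} (hmem : ∀ x, τ x ∈ L ↔ x ∈ L)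
    {σ : K ≃+* K} (hσ : ∀ (c : K) (x : Module.End K V), τ (c • x) = σ c • τ x)
    (h : IsMin L I) : IsMin L (imT τ hσ I) := by
  obtain ⟨hI, hI0, hmin⟩ := h
  have hsymm : ∀ (c : K) (x : Module.End K V), τ.symm (c • x) = σ.symm c • τ.symm x := by
    intro c x
    apply τ.injective
    rw [hσ]; simp
  have hsL : ∀ y, τ.symm y ∈ L ↔ y ∈ L := by
    intro y
    rw [← hmem, RingEquiv.apply_symm_apply]
  have himI : IsId L (imT τ hσ I) := by
    refine ⟨fun y hy => (hsL y).mp (hI.1 hy), ?_⟩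
    intro x hx y hy
    rw [mem_imT, map_sub, map_mul, map_mul]
    exact hI.2 _ ((hsL x).mpr hx) _ hy
  refine ⟨himI, ?_, ?_⟩
  · intro h
    apply hI0
    rw [eq_bot_iff]
    intro x hx
    have h1 : τ x ∈ imT τ hσ I := by rw [mem_imT, RingEquiv.symm_apply_apply]; exact hx
    rw [h, Submodule.mem_bot] at h1
    rw [Submodule.mem_bot]
    have := congrArg τ.symm h1
    simpa using this
  · intro J hJ hJi hJ0
    have hJ' : imT τ.symm (σ := σ.symm) hsymm J = I := by
      apply hmin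
      · intro x hx
        rw [mem_imT] at hx
        have := hJ hx
        rw [mem_imT] at this
        simpa using this
      · refine ⟨fun y hy => ?_, ?_⟩
        · rw [mem_imT] at hy
          exact (hmem y).mp (hJi.1 hy)
        · intro x hx y hy
          rw [mem_imT, RingEquiv.symm_symm, map_sub, map_mul, map_mul]
          exact hJi.2 _ ((hmem x).mpr hx) _ hy
      · intro h
        apply hJ0
        rw [eq_bot_iff]
        intro x hx
        have h1 : τ.symm x ∈ imT τ.symm (σ := σ.symm) hsymm J := by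
          rw [mem_imT, RingEquiv.symm_symm, RingEquiv.apply_symm_apply]; exact hx
        rw [h, Submodule.mem_bot] at h1
        rw [Submodule.mem_bot]
        have := congrArg τ h1
        simpa using this
    apply le_antisymm hJ
    intro y hy
    rw [mem_imT, ← hJ', mem_imT, RingEquiv.symm_symm, RingEquiv.apply_symm_apply] at hy
    exact hy

/-- There are finitely many minimal ideals. -/
lemma IrrSymp.finite_min [IsAlgClosed K] [CharZero K] (hL : IrrSymp ω L)
    (hω : ω.Nondegenerate) : Finite {I : Submodule K (Module.End K V) // IsMin L I} := by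
  classical
  have hx : ∀ I : {I : Submodule K (Module.End K V) // IsMin L I},
      ∃ x ∈ I.1, x ≠ 0 := fun I => Submodule.exists_mem_ne_zero_of_ne_bot I.2.2.1
  choose x hx hx0 using hx
  have hli : LinearIndependent K x := by
    rw [linearIndependent_iff']
    intro s g hs i hi
    have h1 : g i • x i = - ∑ j ∈ s.erase i, g j • x j := by
      rw [← Finset.add_sum_erase s _ hi] at hs
      exact eq_neg_of_add_eq_zero_left hs
    have h2 : g i • x i ∈ orth L i.1 := by
      rw [hL.mem_orth_iff hω i.2.1 (L.smul_mem _ (i.2.1.1 (hx i)))]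
      intro y hy
      rw [h1, mul_neg, neg_mul, Finset.mul_sum, Finset.sum_mul]
      congr 1
      apply Finset.sum_congr rfl
      intro j hj
      have hij : i.1 ≠ j.1 := by
        intro h
        exact (Finset.mem_erase.mp hj).1 (Subtype.ext h).symm
      rw [mul_smul_comm, smul_mul_assoc, i.2.comm j.2 hij hy (hx j)]
    have h3 := hL.inf_orth hω i.2.1 (i.1.smul_mem _ (hx i)) h2
    exact (smul_eq_zero.mp h3).resolve_right (hx0 i)
  exact hli.finite

/-- An element commuting with all minimal ideals is zero. -/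
lemma IrrSymp.zero_of_comm_min [IsAlgClosed K] [CharZero K] (hL : IrrSymp ω L)
    (hω : ω.Nondegenerate) {z : Module.End K V} (hz : z ∈ L)
    (h : ∀ I, IsMin L I → ∀ x ∈ I, x * z = z * x) : z = 0 := by
  let C : Submodule K (Module.End K V) :=
    { carrier := {z | z ∈ L ∧ ∀ I, IsMin L I → ∀ x ∈ I, x * z = z * x}
      add_mem' := by
        rintro a b ⟨ha, ha'⟩ ⟨hb, hb'⟩
        refine ⟨L.add_mem ha hb, fun I hI x hx => ?_⟩
        rw [mul_add, add_mul, ha' I hI x hx, hb' I hI x hx]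
      zero_mem' := ⟨L.zero_mem, fun I hI x hx => by rw [mul_zero, zero_mul]⟩
      smul_mem' := by
        rintro c a ⟨ha, ha'⟩
        refine ⟨L.smul_mem c ha, fun I hI x hx => ?_⟩
        rw [mul_smul_comm, smul_mul_assoc, ha' I hI x hx] }
  have hC : IsId L C := by
    refine ⟨fun a ha => ha.1, ?_⟩
    rintro w hw a ⟨ha, ha'⟩
    refine ⟨hL.br w hw a ha, fun I hI x hx => ?_⟩
    have h1 := ha' I hI x hx
    have h2 := ha' I hI _ (hI.1.2 w hw x hx)
    have h3 : x * (w * a - a * w) - (w * a - a * w) * x =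
        w * (x * a - a * x) - (x * a - a * x) * w - ((w * x - x * w) * a - a * (w * x - x * w)) := by
      simp only [mul_sub, sub_mul, mul_assoc]
      abel
    rw [← sub_eq_zero, h3, h1, h2]
    simp
  by_contra hz0
  have hC0 : C ≠ ⊥ := by
    intro hb
    have : z ∈ C := ⟨hz, h⟩
    rw [hb, Submodule.mem_bot] at this
    exact hz0 this
  obtain ⟨I, hIC, hI, hI0, hImin⟩ := exists_min_ideal hC hC0
  apply hI0
  rw [eq_bot_iff]
  intro x hx
  rw [Submodule.mem_bot]
  apply hL.inf_orth hω hI hx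
  rw [hL.mem_orth_iff hω hI (hI.1 hx)]
  intro y hy
  exact (hIC hx).2 I ⟨hI, hI0, hImin⟩ y hy

/-- The symmetries act transitively on the minimal ideals. -/
lemma IrrSymp.min_trans [IsAlgClosed K] [CharZero K] (hL : IrrSymp ω L)
    (hω : ω.Nondegenerate) {T : Set (Module.End K V ≃+* Module.End K V)}
    (hT : ∀ τ ∈ T, Tw L τ) (hS : TSmp L T) (hmul : ∀ τ ∈ T, ∀ τ' ∈ T, τ'.trans τ ∈ T)
    (hone : RingEquiv.refl _ ∈ T) (hI : IsMin L I) (hI' : IsMin L I') :
    ∃ τ ∈ T, ∀ y, y ∈ I' ↔ τ.symm y ∈ I := by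
  by_contra hcon
  push Not at hcon
  let M : Submodule K (Module.End K V) := Submodule.span K {y | ∃ τ ∈ T, τ.symm y ∈ I}
  have hmin : ∀ τ ∈ T, ∃ I1, IsMin L I1 ∧ ∀ y, y ∈ I1 ↔ τ.symm y ∈ I := by
    intro τ hτ
    obtain ⟨σ, hσ⟩ := (hT τ hτ).semi
    exact ⟨imT τ hσ I, hI.im (hT τ hτ).mem hσ, fun y => Iff.rfl⟩
  have hM : IsId L M := by
    constructor
    · rw [Submodule.span_le]
      rintro y ⟨τ, hτ, hy⟩
      obtain ⟨I1, h1, h2⟩ := hmin τ hτ
      exact h1.1.1 ((h2 y).mpr hy)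
    · intro x hx y hy
      refine Submodule.span_induction ?_ ?_ ?_ ?_ hy
      · rintro z ⟨τ, hτ, hz⟩
        obtain ⟨I1, h1, h2⟩ := hmin τ hτ
        exact Submodule.subset_span ⟨τ, hτ, (h2 _).mp (h1.1.2 x hx z ((h2 z).mpr hz))⟩
      · simp
      · intro u v _ _ hu hv
        have e : x * (u + v) - (u + v) * x = (x * u - u * x) + (x * v - v * x) := by
          rw [mul_add, add_mul]; abel
        rw [e]; exact Submodule.add_mem _ hu hv
      · intro c u _ hu
        rw [mul_smul_comm, smul_mul_assoc, ← smul_sub]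
        exact Submodule.smul_mem _ _ hu
  rcases hS M hM (by
    intro τ hτ y hy
    obtain ⟨σ, hσ⟩ := (hT τ hτ).semi
    refine Submodule.span_induction ?_ ?_ ?_ ?_ hy
    · rintro z ⟨τ', hτ', hz⟩
      apply Submodule.subset_span
      refine ⟨τ'.trans τ, hmul τ hτ τ' hτ', ?_⟩
      change τ'.symm (τ.symm (τ z)) ∈ I
      rw [RingEquiv.symm_apply_apply]
      exact hz
    · rw [map_zero]; exact Submodule.zero_mem _
    · intro u v _ _ hu hv
      rw [map_add]; exact Submodule.add_mem _ hu hv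
    · intro c u _ hu
      rw [hσ]; exact Submodule.smul_mem _ _ hu) with h | h
  · apply hI.2.1
    rw [eq_bot_iff, ← h]
    intro z hz
    exact Submodule.subset_span ⟨_, hone, hz⟩
  · -- everything commutes with `I'`
    apply hI'.2.1
    rw [eq_bot_iff]
    intro x hx
    rw [Submodule.mem_bot]
    apply hL.center hω (hI'.1.1 hx)
    intro y hy
    rw [← h] at hy
    refine Submodule.span_induction ?_ ?_ ?_ ?_ hy
    · rintro z ⟨τ, hτ, hz⟩
      obtain ⟨I1, h1, h2⟩ := hmin τ hτ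
      apply hI'.comm h1 _ hx ((h2 z).mpr hz)
      rintro rfl
      obtain ⟨y, hy⟩ := hcon τ hτ
      rcases hy with ⟨h3, h4⟩ | ⟨h3, h4⟩
      · exact h4 ((h2 y).mp h3)
      · exact h3 ((h2 y).mpr h4)
    · rw [mul_zero, zero_mul]
    · intro u v _ _ hu hv
      rw [mul_add, add_mul, hu, hv]
    · intro c u _ hu
      rw [mul_smul_comm, smul_mul_assoc, hu]

/-- A square zero element lies in a minimal ideal. -/
lemma IrrSymp.exists_min_mem [IsAlgClosed K] [CharZero K] (hL : IrrSymp ω L)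
    (hω : ω.Nondegenerate) {N : Module.End K V} (hN : N ∈ L) (hNN : N * N = 0) (hN0 : N ≠ 0) :
    ∃ I, IsMin L I ∧ N ∈ I := by
  by_contra hcon
  push Not at hcon
  apply hN0
  apply hL.zero_of_comm_min hω hN
  intro I hI x hx
  have h1 := (hL.sq_dich hω hI.1 hN (c := 0) (by rw [hNN, zero_smul])).resolve_left (hcon I hI)
  exact (hL.mem_orth_iff hω hI.1 hN).mp h1 x hx

/-- **Rationality.** If the symmetries fixing some square zero element are dense in the group of
all symmetries, and there is no proper ideal stable under all symmetries, then the Lie algebra is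
simple. -/
theorem IrrSymp.smp_of_dense [IsAlgClosed K] [CharZero K] (hL : IrrSymp ω L)
    (hω : ω.Nondegenerate) {T : Set (Module.End K V ≃+* Module.End K V)}
    (hT : ∀ τ ∈ T, Tw L τ) (hS : TSmp L T) (hmul : ∀ τ ∈ T, ∀ τ' ∈ T, τ'.trans τ ∈ T)
    (hone : RingEquiv.refl _ ∈ T) (hinv : ∀ τ ∈ T, τ.symm ∈ T)
    (hd : ∀ τ ∈ T, ∀ E : Finset (Module.End K V), ∃ τ' ∈ T, (∀ x ∈ E, τ' x = τ x) ∧
      ∃ N ∈ L, N * N = 0 ∧ N ≠ 0 ∧ τ' N = N) : Smp L := by
  classical
  have hfin := hL.finite_min hω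
  let X := {I : Submodule K (Module.End K V) // IsMin L I}
  let H : Subgroup (Equiv.Perm X) :=
    { carrier := {ρ | ∃ τ ∈ T, ∀ (I : X) (y : Module.End K V), y ∈ (ρ I).1 ↔ τ.symm y ∈ I.1}
      one_mem' := ⟨_, hone, fun I y => Iff.rfl⟩
      mul_mem' := by
        rintro ρ ρ' ⟨τ, hτ, h⟩ ⟨τ', hτ', h'⟩
        refine ⟨τ'.trans τ, hmul τ hτ τ' hτ', fun I y => ?_⟩
        rw [Equiv.Perm.mul_apply, h, h']
        rfl
      inv_mem' := by
        rintro ρ ⟨τ, hτ, h⟩
        refine ⟨τ.symm, hinv τ hτ, fun I y => ?_⟩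
        have h1 := h (ρ⁻¹ I) (τ y)
        have h0 : ρ (ρ⁻¹ I) = I := by
          rw [← Equiv.Perm.mul_apply, mul_inv_cancel, Equiv.Perm.one_apply]
        rw [RingEquiv.symm_apply_apply, h0] at h1
        rw [RingEquiv.symm_symm]
        exact h1.symm }
  have hperm : ∀ τ ∈ T, ∃ ρ ∈ H, ∀ (I : X) (y : Module.End K V),
      y ∈ (ρ I).1 ↔ τ.symm y ∈ I.1 := by
    intro τ hτ
    obtain ⟨σ, hσ⟩ := (hT τ hτ).semi
    obtain ⟨σ', hσ'⟩ := (hT _ (hinv τ hτ)).semi
    let ρ : Equiv.Perm X :=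
      { toFun := fun I => ⟨imT τ hσ I.1, I.2.im (hT τ hτ).mem hσ⟩
        invFun := fun I => ⟨imT τ.symm hσ' I.1, I.2.im (hT _ (hinv τ hτ)).mem hσ'⟩
        left_inv := by
          intro I
          apply Subtype.ext
          ext y
          change τ.symm (τ.symm.symm y) ∈ I.1 ↔ _
          rw [RingEquiv.symm_symm, RingEquiv.symm_apply_apply]
        right_inv := by
          intro I
          apply Subtype.ext
          ext y
          change τ.symm.symm (τ.symm y) ∈ I.1 ↔ _
          rw [RingEquiv.symm_symm, RingEquiv.apply_symm_apply] }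
    exact ⟨ρ, ⟨τ, hτ, fun I y => Iff.rfl⟩, fun I y => Iff.rfl⟩
  have htrans : ∀ I J : X, ∃ ρ ∈ H, ρ I = J := by
    intro I J
    obtain ⟨τ, hτ, h⟩ := hL.min_trans hω hT hS hmul hone I.2 J.2
    obtain ⟨ρ, hρ, h'⟩ := hperm τ hτ
    refine ⟨ρ, hρ, Subtype.ext ?_⟩
    ext y
    rw [h', h]
  have hx : ∀ I : X, ∃ x ∈ I.1, x ≠ 0 := fun I => Submodule.exists_mem_ne_zero_of_ne_bot I.2.2.1
  choose x hx hx0 using hx
  have hX : ∀ I J : X, I = J := by
    by_contra hcon
    push Not at hcon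
    obtain ⟨A, B, hAB⟩ := hcon
    obtain ⟨ρ, ⟨τ, hτ, hρ⟩, hfix⟩ := exists_derangement H htrans hAB
    have := Fintype.ofFinite X
    obtain ⟨τ', hτ', hE, N, hN, hNN, hN0, hτN⟩ := hd τ hτ (Finset.univ.image x)
    obtain ⟨I, hI, hNI⟩ := hL.exists_min_mem hω hN hNN hN0
    obtain ⟨ρ', -, hρ'⟩ := hperm τ' hτ'
    apply hfix ⟨I, hI⟩
    have h1 : ρ' ⟨I, hI⟩ = ⟨I, hI⟩ := by
      apply Subtype.ext
      apply (ρ' ⟨I, hI⟩).2.eq_of_mem hI (x := N) _ hNI hN0
      rw [hρ']
      have : τ'.symm N = N := by rw [RingEquiv.symm_apply_eq]; exact hτN.symm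
      rw [this]; exact hNI
    refine Eq.trans ?_ h1
    apply Subtype.ext
    have h2 : τ' (x ⟨I, hI⟩) = τ (x ⟨I, hI⟩) :=
      hE _ (Finset.mem_image_of_mem _ (Finset.mem_univ _))
    apply (ρ ⟨I, hI⟩).2.eq_of_mem (ρ' ⟨I, hI⟩).2 (x := τ (x ⟨I, hI⟩))
    · rw [hρ, RingEquiv.symm_apply_apply]; exact hx _
    · rw [hρ', ← h2, RingEquiv.symm_apply_apply]; exact hx _
    · intro h
      apply hx0 ⟨I, hI⟩
      have := congrArg τ.symm h
      simpa using this
  intro M hM hMi
  by_cases hM0 : M = ⊥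
  · exact Or.inl hM0
  · right
    obtain ⟨I, hIM, hI⟩ := exists_min_ideal ⟨hM, hMi⟩ hM0
    rcases hS I hI.1 (by
      intro τ hτ y hy
      obtain ⟨ρ, -, hρ⟩ := hperm τ hτ
      have h1 := hX (ρ ⟨I, hI⟩) ⟨I, hI⟩
      have h2 : τ y ∈ (ρ ⟨I, hI⟩).1 := by
        rw [hρ, RingEquiv.symm_apply_apply]; exact hy
      rw [h1] at h2
      exact h2) with h | h
    · exact absurd h hI.2.1
    · exact le_antisymm hM (h ▸ hIM)

end MTP
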