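import Pool.Agent.Helper93.SR.Defs
import Pool.Agent.Helper21.MT.Trans

/-!
Strong Mumford-Tate pairs: conjugates of the cocharacter and normalisers of subspaces.
-/

set_option linter.unusedSimpArgs false
set_option linter.unusedSectionVars false

open Module MTPairs

namespace MTP

variable {K : Type*} [Field K] {m : Type*} [Fintype m] [DecidableEq m]
variable {Γ : Subgroup (Equiv.Perm (m → K))} {J : Matrix m m K}
  {G : Subgroup (Matrix.GeneralLinearGroup m K)} {π : Matrix m m K}

lemma GL_mul_inv (g : Matrix.GeneralLinearGroup m K) :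
    (g : Matrix m m K) * ((g⁻¹ : Matrix.GeneralLinearGroup m K) : Matrix m m K) = 1 := by
  rw [← Units.val_mul, mul_inv_cancel, Units.val_one]

lemma GL_inv_mul (g : Matrix.GeneralLinearGroup m K) :
    ((g⁻¹ : Matrix.GeneralLinearGroup m K) : Matrix m m K) * (g : Matrix m m K) = 1 := by
  rw [← Units.val_mul, inv_mul_cancel, Units.val_one]

omit [Field K] [Fintype m] [DecidableEq m] in
lemma perm_apply_inv (θ : Equiv.Perm (m → K)) (v : m → K) : θ (θ⁻¹ v) = v :=
  Equiv.apply_symm_apply θ v

omit [Field K] [Fintype m] [DecidableEq m] in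
lemma perm_inv_apply (θ : Equiv.Perm (m → K)) (v : m → K) : θ⁻¹ (θ v) = v :=
  Equiv.symm_apply_apply θ v

lemma mat_ext {A B : Matrix m m K} (h : ∀ v, A.mulVec v = B.mulVec v) : A = B := by
  apply Matrix.toLin'.injective
  apply LinearMap.ext
  intro v
  rw [Matrix.toLin'_apply, Matrix.toLin'_apply, h]

lemma gth_surj (θ : Equiv.Perm (m → K)) (g : Matrix.GeneralLinearGroup m K) (w : m → K) :
    ∃ v, w = (g : Matrix m m K).mulVec (θ v) := by
  refine ⟨θ⁻¹ (((g⁻¹ : Matrix.GeneralLinearGroup m K) : Matrix m m K).mulVec w), ?_⟩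
  rw [perm_apply_inv, Matrix.mulVec_mulVec, GL_mul_inv, Matrix.one_mulVec]

lemma exists_isConj (D : IsStrongMTPair Γ J G π) {θ : Equiv.Perm (m → K)} (hθ : θ ∈ Γ)
    (g : Matrix.GeneralLinearGroup m K) : ∃ P : Matrix m m K, ∀ v : m → K,
    P.mulVec ((g : Matrix m m K).mulVec (θ v)) = (g : Matrix m m K).mulVec (θ (π.mulVec v)) := by
  obtain ⟨σ, hadd, hσ⟩ := D.semi θ hθ
  have hσ' : ∀ (c : K) (v : m → K), θ⁻¹ (c • v) = σ.symm c • θ⁻¹ v := by
    intro c v
    apply θ.injective
    rw [hσ, perm_apply_inv, perm_apply_inv, RingEquiv.apply_symm_apply]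
  have hadd' : ∀ (v w : m → K), θ⁻¹ (v + w) = θ⁻¹ v + θ⁻¹ w := by
    intro v w
    apply θ.injective
    rw [hadd, perm_apply_inv, perm_apply_inv, perm_apply_inv]
  let f : (m → K) →ₗ[K] (m → K) :=
    { toFun := fun w => (g : Matrix m m K).mulVec (θ (π.mulVec
        (θ⁻¹ (((g⁻¹ : Matrix.GeneralLinearGroup m K) : Matrix m m K).mulVec w))))
      map_add' := by
        intro v w
        rw [Matrix.mulVec_add, hadd', Matrix.mulVec_add, hadd, Matrix.mulVec_add]
      map_smul' := by
        intro c v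
        rw [Matrix.mulVec_smul, hσ', Matrix.mulVec_smul, hσ, RingEquiv.apply_symm_apply,
          Matrix.mulVec_smul]
        rfl }
  refine ⟨LinearMap.toMatrix' f, fun v => ?_⟩
  rw [← Matrix.toLin'_apply, Matrix.toLin'_toMatrix']
  change (g : Matrix m m K).mulVec (θ (π.mulVec
        (θ⁻¹ (((g⁻¹ : Matrix.GeneralLinearGroup m K) : Matrix m m K).mulVec
          ((g : Matrix m m K).mulVec (θ v)))))) = _
  rw [Matrix.mulVec_mulVec, GL_inv_mul, Matrix.one_mulVec, perm_inv_apply]

lemma smat_cochar (D : IsStrongMTPair Γ J G π) {P : Matrix m m K} (hP : IsConj Γ G π P) :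
    IsCochar G P := by
  obtain ⟨hπ, ht⟩ := D.coch
  obtain ⟨θ, hθ, g, hg, hP⟩ := hP
  obtain ⟨σ, hadd, hσ⟩ := D.semi θ hθ
  have hsub : ∀ (v w : m → K), θ (v - w) = θ v - θ w := by
    intro v w
    rw [eq_sub_iff_add_eq, ← hadd, sub_add_cancel]
  constructor
  · apply mat_ext
    intro w
    obtain ⟨v, rfl⟩ := gth_surj θ g w
    rw [← Matrix.mulVec_mulVec, hP, hP, Matrix.mulVec_mulVec, hπ]
  · intro t ht0
    obtain ⟨h, hh, hht⟩ := ht (σ.symm t) (by
      intro h0
      apply ht0
      have := congrArg σ h0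
      simpa using this)
    obtain ⟨h', hh', hθh⟩ := D.norm θ hθ h hh
    refine ⟨g * h' * g⁻¹, G.mul_mem (G.mul_mem hg hh') (G.inv_mem hg), ?_⟩
    apply mat_ext
    intro w
    obtain ⟨v, rfl⟩ := gth_surj θ g w
    rw [Units.val_mul, Units.val_mul, ← Matrix.mulVec_mulVec, Matrix.mulVec_mulVec _
      (((g⁻¹ : Matrix.GeneralLinearGroup m K) : Matrix m m K)), GL_inv_mul, Matrix.one_mulVec,
      ← Matrix.mulVec_mulVec, hθh, hht, Matrix.add_mulVec, Matrix.sub_mulVec, Matrix.smul_mulVec,
      Matrix.one_mulVec, hadd, hsub, hσ, RingEquiv.apply_symm_apply, Matrix.mulVec_add,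
      Matrix.mulVec_smul, Matrix.mulVec_sub, Matrix.add_mulVec, Matrix.sub_mulVec,
      Matrix.smul_mulVec, Matrix.one_mulVec, hP]

/-- A strong pair is a pair. -/
lemma isMTPair_of_strong (D : IsStrongMTPair Γ J G π) : IsMTPair J G where
  skew := D.skew
  det := D.det
  sim := D.sim
  closed := D.closed
  gen := fun H hH h => D.gen H hH fun P hP => h _ (smat_cochar D hP)

/-- The matrix of polynomials `Y X adj(Y)` in the entries of `Y`. -/
noncomputable def cpol (X : Matrix m m K) : Matrix m m (MvPolynomial (m × m) K) :=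
  Matrix.mvPolynomialX m m K * (MvPolynomial.C (σ := m × m) (R := K)).mapMatrix X *
    (Matrix.mvPolynomialX m m K).adjugate

/-- Normalisers of subspaces of matrices are closed. -/
lemma closed_normaliser (G H : Subgroup (Matrix.GeneralLinearGroup m K))
    (hG : ZariskiClosed G) (N : Submodule K (Matrix m m K))
    (hH : ∀ g, g ∈ H ↔ g ∈ G ∧ ∀ X ∈ N, (g : Matrix m m K) * X *
      ((g⁻¹ : Matrix.GeneralLinearGroup m K) : Matrix m m K) ∈ N) : ZariskiClosed H := by
  obtain ⟨P, hP⟩ := hG
  refine ⟨P ∪ {p | ∃ φ ∈ N.dualAnnihilator, ∃ X ∈ N, p = ∑ ij : m × m,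
    MvPolynomial.C (φ (Matrix.single ij.1 ij.2 1)) *
      cpol X ij.1 ij.2}, fun g => ?_⟩
  have key : ∀ (φ : Module.Dual K (Matrix m m K)) (X : Matrix m m K), MvPolynomial.eval
      (fun ij => (g : Matrix m m K) ij.1 ij.2) (∑ ij : m × m,
      MvPolynomial.C (φ (Matrix.single ij.1 ij.2 1)) *
      cpol X ij.1 ij.2) =
      (g : Matrix m m K).det * φ ((g : Matrix m m K) * X *
        ((g⁻¹ : Matrix.GeneralLinearGroup m K) : Matrix m m K)) := by
    intro φ X
    set ev := MvPolynomial.eval (fun ij : m × m => (g : Matrix m m K) ij.1 ij.2) with hev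
    have h1 : ev.mapMatrix (cpol X) =
        (g : Matrix m m K).det • ((g : Matrix m m K) * X *
        ((g⁻¹ : Matrix.GeneralLinearGroup m K) : Matrix m m K)) := by
      have h2 : ev.mapMatrix (Matrix.mvPolynomialX m m K) = (g : Matrix m m K) :=
        Matrix.mvPolynomialX_mapMatrix_eval _
      have h3 : ev.mapMatrix ((MvPolynomial.C (σ := m × m) (R := K)).mapMatrix X) = X := by
        ext i j
        simp [hev]
      have h4 : (g : Matrix m m K).adjugate = (g : Matrix m m K).det •
          ((g⁻¹ : Matrix.GeneralLinearGroup m K) : Matrix m m K) := by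
        calc (g : Matrix m m K).adjugate
            = (((g⁻¹ : Matrix.GeneralLinearGroup m K) : Matrix m m K) * (g : Matrix m m K)) *
              (g : Matrix m m K).adjugate := by rw [GL_inv_mul, one_mul]
          _ = _ := by rw [mul_assoc, Matrix.mul_adjugate, mul_smul_comm, mul_one]
      rw [cpol, map_mul, map_mul, h2, h3, RingHom.map_adjugate, h2, h4, mul_smul_comm]
    rw [map_sum]
    have h5 : ∀ ij : m × m, ev (MvPolynomial.C (φ (Matrix.single ij.1 ij.2 1)) *
      cpol X ij.1 ij.2) =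
        φ (Matrix.single ij.1 ij.2 1) * ((g : Matrix m m K).det • ((g : Matrix m m K) * X *
        ((g⁻¹ : Matrix.GeneralLinearGroup m K) : Matrix m m K))) ij.1 ij.2 := by
      intro ij
      rw [map_mul, ← h1]
      congr 1
      exact MvPolynomial.eval_C _
    rw [Finset.sum_congr rfl (fun ij _ => h5 ij)]
    rw [← smul_eq_mul (a := (g : Matrix m m K).det), ← map_smul]
    set Y := (g : Matrix m m K).det • ((g : Matrix m m K) * X *
        ((g⁻¹ : Matrix.GeneralLinearGroup m K) : Matrix m m K)) with hY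
    conv_rhs => rw [Matrix.matrix_eq_sum_single Y]
    rw [map_sum, Fintype.sum_prod_type]
    apply Finset.sum_congr rfl
    intro i _
    rw [map_sum]
    apply Finset.sum_congr rfl
    intro j _
    have : Matrix.single i j (Y i j) = (Y i j) • Matrix.single i j (1 : K) := by
      rw [Matrix.smul_single, smul_eq_mul, mul_one]
    rw [this, map_smul, smul_eq_mul, mul_comm]
  have hdet : (g : Matrix m m K).det ≠ 0 :=
    ((Matrix.isUnit_iff_isUnit_det _).mp g.isUnit).ne_zero
  rw [hH, hP]
  constructor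
  · rintro ⟨h1, h2⟩ p (hp | ⟨φ, hφ, X, hX, rfl⟩)
    · exact h1 p hp
    · rw [key, (Submodule.mem_dualAnnihilator φ).mp hφ _ (h2 X hX), mul_zero]
  · intro h
    refine ⟨fun p hp => h p (Or.inl hp), fun X hX => ?_⟩
    rw [← Subspace.forall_mem_dualAnnihilator_apply_eq_zero_iff]
    intro φ hφ
    have h1 := h _ (Or.inr ⟨φ, hφ, X, hX, rfl⟩)
    rw [key] at h1
    exact (mul_eq_zero.mp h1).resolve_left hdet

/-- The normaliser of a subspace of matrices. -/
def Nrm (N : Submodule K (Matrix m m K)) : Subgroup (Matrix.GeneralLinearGroup m K) where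
  carrier := {g | ∀ X ∈ N, (g : Matrix m m K) * X *
    ((g⁻¹ : Matrix.GeneralLinearGroup m K) : Matrix m m K) ∈ N}
  one_mem' := fun X hX => by simpa using hX
  mul_mem' := by
    rintro g g' h1 h2 X hX
    have := h1 _ (h2 X hX)
    rw [mul_inv_rev, Units.val_mul, Units.val_mul]
    simpa only [mul_assoc] using this
  inv_mem' := by
    rintro g h1 X hX
    let f : N →ₗ[K] N :=
      { toFun := fun X => ⟨(g : Matrix m m K) * X *
          ((g⁻¹ : Matrix.GeneralLinearGroup m K) : Matrix m m K), h1 X X.2⟩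
        map_add' := by intro x y; ext1; simp [mul_add, add_mul]
        map_smul' := by intro c x; ext1; simp }
    have hinj : Function.Injective f := by
      rw [injective_iff_map_eq_zero]
      intro x hx
      have h2 : (g : Matrix m m K) * (x : Matrix m m K) *
          ((g⁻¹ : Matrix.GeneralLinearGroup m K) : Matrix m m K) = 0 :=
        congrArg Subtype.val hx
      apply Subtype.ext
      calc (x : Matrix m m K) = ((g⁻¹ : Matrix.GeneralLinearGroup m K) : Matrix m m K) *
            ((g : Matrix m m K) * (x : Matrix m m K) *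
            ((g⁻¹ : Matrix.GeneralLinearGroup m K) : Matrix m m K)) * g := by
            rw [← mul_assoc, ← mul_assoc, GL_inv_mul, one_mul, mul_assoc, GL_inv_mul,
              mul_one]
        _ = 0 := by rw [h2]; simp
    obtain ⟨Y, hY⟩ := (LinearMap.surjective_of_injective hinj) ⟨X, hX⟩
    have h2 : (g : Matrix m m K) * (Y : Matrix m m K) *
          ((g⁻¹ : Matrix.GeneralLinearGroup m K) : Matrix m m K) = X :=
        congrArg Subtype.val hY
    have h3 : ((g⁻¹ : Matrix.GeneralLinearGroup m K) : Matrix m m K) * X *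
        (g : Matrix m m K) = Y := by
      rw [← h2, ← mul_assoc, ← mul_assoc, GL_inv_mul, one_mul, mul_assoc, GL_inv_mul,
        mul_one]
    rw [inv_inv, h3]
    exact Y.2

lemma top_closed : ZariskiClosed (⊤ : Subgroup (Matrix.GeneralLinearGroup m K)) :=
  ⟨∅, fun g => by simp⟩

lemma Nrm_closed (N : Submodule K (Matrix m m K)) : ZariskiClosed (Nrm N) :=
  closed_normaliser ⊤ (Nrm N) top_closed N fun g =>
    ⟨fun h => ⟨Subgroup.mem_top g, h⟩, fun h => h.2⟩

/-- Subspaces of matrices normalised by the conjugates of the cocharacter are normalised by the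
whole group. -/
lemma smat_normal (D : IsStrongMTPair Γ J G π) (N : Submodule K (Matrix m m K))
    (hN : ∀ P, IsConj Γ G π P → ∀ t : K, t ≠ 0 → ∀ h ∈ G,
      (h : Matrix m m K) = t • P + (1 - P) → ∀ X ∈ N, (h : Matrix m m K) * X *
        ((h⁻¹ : Matrix.GeneralLinearGroup m K) : Matrix m m K) ∈ N)
    {g : Matrix.GeneralLinearGroup m K} (hg : g ∈ G) {X : Matrix m m K} (hX : X ∈ N) :
    (g : Matrix m m K) * X * ((g⁻¹ : Matrix.GeneralLinearGroup m K) : Matrix m m K) ∈ N := by
  have hclosed : ZariskiClosed (G ⊓ Nrm N) :=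
    closed_normaliser G (G ⊓ Nrm N) D.closed N fun g => Iff.rfl
  have hGH := D.gen _ hclosed (by
    intro P hP
    obtain ⟨h1, h2⟩ := smat_cochar D hP
    refine ⟨h1, fun t ht => ?_⟩
    obtain ⟨h, hh, hht⟩ := h2 t ht
    exact ⟨h, ⟨hh, hN P hP t ht h hh hht⟩, hht⟩)
  exact (hGH hg).2 X hX

end MTP
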