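import Pool.Agent.Helper93.SR.Defs

/-!
Density of the symmetries which fix a quadratic unipotent element.
-/

open Module

namespace MTPairs

variable {K : Type*} [Field K] {m : Type*} [Fintype m] [DecidableEq m]

/-- The elements of `Γ` which commute with an element of `G` that acts on `U` as a unipotent
operator `1 + N`, `N² = 0`, `N` of rank `r`, are dense in `Γ` for pointwise convergence on
`K^m`. -/
def DenseQuad (Γ : Subgroup (Equiv.Perm (m → K)))
    (G : Subgroup (Matrix.GeneralLinearGroup m K)) (U : Submodule K (m → K)) (r : ℕ) : Prop :=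
  ∀ γ ∈ Γ, ∀ E : Finset (m → K), ∃ γ' ∈ Γ, (∀ v ∈ E, γ' v = γ v) ∧
    ∃ u ∈ G, (∀ v : m → K, (u : Matrix m m K).mulVec (γ' v) =
      γ' ((u : Matrix m m K).mulVec v)) ∧ IsQuadraticOn u U r

end MTPairs
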