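import Pool.Agent.Helper93.SR.Iso
import Pool.Agent.Helper93.SR.Str

/-!
The decomposition into minimal ideals conjugate under the symmetries.
-/

set_option linter.unusedSimpArgs false
set_option linter.unusedSectionVars false
set_option linter.unusedVariables false

open Module

namespace MTP

variable {K : Type*} [Field K] {V : Type*} [AddCommGroup V] [Module K V] [FiniteDimensional K V]
variable {ω : LinearMap.BilinForm K V} {L I M : Submodule K (Module.End K V)}
  {S : Set (Module.End K V)}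

/-- The algebra generated by `I`. -/
noncomputable def alg (I : Submodule K (Module.End K V)) : Subalgebra K (Module.End K V) :=
  Algebra.adjoin K (I : Set (Module.End K V))

omit [FiniteDimensional K V] in
lemma le_alg {x : Module.End K V} (hx : x ∈ I) : x ∈ alg I := Algebra.subset_adjoin hx

omit [FiniteDimensional K V] in
lemma alg_mono (h : I ≤ M) : alg I ≤ alg M := Algebra.adjoin_mono h

/-- A marked element: nonzero, extremal, and self adjoint up to the sign `ε`. -/
structure Mark (ω : LinearMap.BilinForm K V) (A : Subalgebra K (Module.End K V)) (ε : K)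
    (a : Module.End K V) : Prop where
  mem : a ∈ A
  ne : a ≠ 0
  ext : ∀ y ∈ A, ∃ c : K, a * y * a = c • a
  adj : IsAdj ω a (ε • a)

lemma alg_adj (hI : ∀ x ∈ I, IsSk ω x) {a : Module.End K V} (ha : a ∈ alg I) :
    ∃ b ∈ alg I, IsAdj ω a b := by
  obtain ⟨b, hb, h1, _⟩ := adj_twist (ω := ω) (I := I) (I' := I) hI hI
    (τ := RingEquiv.refl _) (σ := RingEquiv.refl _) (fun c x => rfl) (fun x hx => hx) ha
  exact ⟨b, hb, h1⟩

/-- Existence of marked elements. -/
lemma exists_mark [IsAlgClosed K] (hω : ω.Nondegenerate) (halt : ω.IsAlt)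
    (hI : ∀ x ∈ I, IsSk ω x) {A' : Subalgebra K (Module.End K V)} (P : Pr (alg I) A')
    (hI0 : I ≠ ⊥) : ∃ (ε : K) (a : Module.End K V), (ε = 1 ∨ ε = -1) ∧ Mark ω (alg I) ε a := by
  obtain ⟨x, hx, hx0⟩ := Submodule.exists_mem_ne_zero_of_ne_bot hI0
  obtain ⟨a, ha⟩ := exists_minA (A := alg I) (le_alg hx) hx0
  obtain ⟨as, has, b, hb, ε, hadj, hm, hε, hsgn⟩ :=
    P.sign hω halt (fun a ha => alg_adj hI ha) ha
  refine ⟨ε, as * b * a, hε, mul_mem (mul_mem has hb) ha.1, hm, ?_, hsgn⟩
  intro y hy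
  obtain ⟨c, hc⟩ := ha.extremal (y := y * as * b) (mul_mem (mul_mem hy has) hb)
  refine ⟨c, ?_⟩
  calc as * b * a * y * (as * b * a) = as * b * (a * (y * as * b) * a) := by
        simp only [mul_assoc]
    _ = _ := by rw [hc, mul_smul_comm]

/-- The minimal ideals with a marked element of rank `ρ` and sign `ε`. -/
def QI (ω : LinearMap.BilinForm K V) (L : Submodule K (Module.End K V)) (ρ : ℕ) (ε : K)
    (I : Submodule K (Module.End K V)) : Prop :=
  IsId L I ∧ I ≠ ⊥ ∧ (∀ J ≤ I, IsId L J → J ≠ ⊥ → J = I) ∧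
    ∃ a, Mark ω (alg I) ε a ∧ rk a = ρ

/-- The image of a subspace under a symmetry. -/
def imT (τ : Module.End K V ≃+* Module.End K V) {σ : K ≃+* K}
    (hσ : ∀ (c : K) (x : Module.End K V), τ (c • x) = σ c • τ x)
    (N : Submodule K (Module.End K V)) : Submodule K (Module.End K V) where
  carrier := {y | τ.symm y ∈ N}
  add_mem' := by
    intro a b ha hb
    rw [Set.mem_ofPred_eq, map_add]; exact N.add_mem ha hb
  zero_mem' := by rw [Set.mem_ofPred_eq, map_zero]; exact N.zero_mem
  smul_mem' := by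
    intro c a ha
    have h : τ.symm (c • a) = σ.symm c • τ.symm a := by
      apply τ.injective
      rw [hσ]; simp
    rw [Set.mem_ofPred_eq, h]; exact N.smul_mem _ ha

omit [FiniteDimensional K V] in
lemma mem_imT {τ : Module.End K V ≃+* Module.End K V} {σ : K ≃+* K}
    {hσ : ∀ (c : K) (x : Module.End K V), τ (c • x) = σ c • τ x}
    {N : Submodule K (Module.End K V)} {y : Module.End K V} :
    y ∈ imT τ hσ N ↔ τ.symm y ∈ N := Iff.rfl

/-- Symmetries permute the ideals of the class `QI`. -/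
lemma QI.tw (hω : ω.Nondegenerate) (hsk : ∀ x ∈ L, IsSk ω x) {ρ : ℕ} {ε : K} (hε : ε = 1 ∨ ε = -1)
    {τ : Module.End K V ≃+* Module.End K V} (hτ : Tw L τ) {σ : K ≃+* K}
    (hσ : ∀ (c : K) (x : Module.End K V), τ (c • x) = σ c • τ x) (h : QI ω L ρ ε I) :
    QI ω L ρ ε (imT τ hσ I) := by
  obtain ⟨hI, hI0, hmin, a, ha, har⟩ := h
  have hsymm : ∀ (c : K) (x : Module.End K V), τ.symm (c • x) = σ.symm c • τ.symm x := by
    intro c x
    apply τ.injective
    rw [hσ]; simp
  have hsL : ∀ y, τ.symm y ∈ L ↔ y ∈ L := by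
    intro y
    rw [← hτ.mem, RingEquiv.apply_symm_apply]
  have himI : IsId L (imT τ hσ I) := by
    refine ⟨fun y hy => (hsL y).mp (hI.1 hy), ?_⟩
    intro x hx y hy
    rw [mem_imT, map_sub, map_mul, map_mul]
    exact hI.2 _ ((hsL x).mpr hx) _ hy
  refine ⟨himI, ?_, ?_, τ a, ?_, ?_⟩
  · intro h
    apply hI0
    rw [eq_bot_iff]
    intro x hx
    have h1 : τ x ∈ imT τ hσ I := by rw [mem_imT, RingEquiv.symm_apply_apply]; exact hx
    rw [h, Submodule.mem_bot] at h1
    rw [Submodule.mem_bot]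
    have := congrArg τ.symm h1
    simpa using this
  · intro J hJ hJi hJ0
    have hJ' : imT τ.symm (σ := σ.symm) hsymm J = I := by
      apply hmin
      · intro x hx
        rw [mem_imT] at hx
        have := hJ hx
        rw [mem_imT] at this
        simpa using this
      · refine ⟨fun y hy => ?_, ?_⟩
        · rw [mem_imT] at hy
          exact (hτ.mem y).mp (hJi.1 hy)
        · intro x hx y hy
          rw [mem_imT, RingEquiv.symm_symm, map_sub, map_mul, map_mul]
          exact hJi.2 _ ((hτ.mem x).mpr hx) _ hy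
      · intro h
        apply hJ0
        rw [eq_bot_iff]
        intro x hx
        have h1 : τ.symm x ∈ imT τ.symm (σ := σ.symm) hsymm J := by
          rw [mem_imT, RingEquiv.symm_symm, RingEquiv.apply_symm_apply]; exact hx
        rw [h, Submodule.mem_bot] at h1
        rw [Submodule.mem_bot]
        have := congrArg τ h1
        simpa using this
    apply le_antisymm hJ
    intro y hy
    rw [mem_imT, ← hJ', mem_imT, RingEquiv.symm_symm, RingEquiv.apply_symm_apply] at hy
    exact hy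
  · have hI1 : ∀ x ∈ I, IsSk ω x := fun x hx => hsk x (hI.1 hx)
    have hI2 : ∀ x ∈ imT τ hσ I, IsSk ω x := fun x hx => hsk x (himI.1 hx)
    have hmap : ∀ x ∈ I, τ x ∈ imT τ hσ I := by
      intro x hx; rw [mem_imT, RingEquiv.symm_apply_apply]; exact hx
    obtain ⟨b, hb, h1, h2, h3⟩ := adj_twist hI1 hI2 hσ hmap ha.mem
    have hsurA : ∀ y ∈ alg (imT τ hσ I), ∃ x ∈ alg I, τ x = y := by
      intro y hy
      unfold alg at hy ⊢
      induction hy using Algebra.adjoin_induction with
      | mem x hx => exact ⟨τ.symm x, Algebra.subset_adjoin hx, by simp⟩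
      | algebraMap r =>
        refine ⟨algebraMap K _ (σ.symm r), Subalgebra.algebraMap_mem _ _, ?_⟩
        rw [Algebra.algebraMap_eq_smul_one, hσ, map_one, RingEquiv.apply_symm_apply,
          Algebra.algebraMap_eq_smul_one]
      | add x y _ _ hx hy =>
        obtain ⟨b, hb, h1⟩ := hx
        obtain ⟨b', hb', h1'⟩ := hy
        exact ⟨b + b', add_mem hb hb', by rw [map_add, h1, h1']⟩
      | mul x y _ _ hx hy =>
        obtain ⟨b, hb, h1⟩ := hx
        obtain ⟨b', hb', h1'⟩ := hy
        exact ⟨b * b', mul_mem hb hb', by rw [map_mul, h1, h1']⟩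
    refine ⟨h2, ?_, ?_, ?_⟩
    · intro h
      apply ha.ne
      have := congrArg τ.symm h
      simpa using this
    · intro y hy
      obtain ⟨x, hx, rfl⟩ := hsurA y hy
      obtain ⟨c, hc⟩ := ha.ext x hx
      exact ⟨σ c, by rw [← map_mul, ← map_mul, hc, hσ]⟩
    · have hab : b = ε • a := h1.unique hω ha.adj
      rw [hab] at h3
      rcases hε with rfl | rfl
      · rw [one_smul] at h3 ⊢; exact h3
      · rw [neg_smul, one_smul, map_neg] at h3
        rw [neg_smul, one_smul]; exact h3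
  · rw [hτ.rk, har]

lemma sup_isId (hI : IsId L I) (hM : IsId L M) : IsId L (I ⊔ M) := by
  refine ⟨sup_le hI.1 hM.1, ?_⟩
  intro x hx y hy
  obtain ⟨a, ha, b, hb, rfl⟩ := Submodule.mem_sup.mp hy
  have e : x * (a + b) - (a + b) * x = (x * a - a * x) + (x * b - b * x) := by
    rw [mul_add, add_mul]; abel
  rw [e]
  exact Submodule.add_mem_sup (hI.2 x hx a ha) (hM.2 x hx b hb)

lemma IrrSymp.comm_of_inf (hI : IsId L I) (hM : IsId L M) (h : I ⊓ M = ⊥)
    {x y : Module.End K V} (hx : x ∈ I) (hy : y ∈ M) : x * y = y * x := by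
  rw [← sub_eq_zero, ← Submodule.mem_bot K, ← h]
  refine ⟨?_, hM.2 x (hI.1 hx) y hy⟩
  have := I.neg_mem (hI.2 y (hM.1 hy) x hx)
  rwa [neg_sub] at this

lemma IrrSymp.le_orth [IsAlgClosed K] [CharZero K] (hL : IrrSymp ω L) (hω : ω.Nondegenerate)
    (hI : IsId L I) (hM : IsId L M) (h : I ⊓ M = ⊥) : M ≤ orth L I := by
  intro z hz
  rw [hL.mem_orth_iff hω hI (hM.1 hz)]
  intro x hx
  exact IrrSymp.comm_of_inf hI hM h hx hz

omit [FiniteDimensional K V] in
lemma alg_comm (hcomm : ∀ x ∈ I, ∀ y ∈ M, x * y = y * x) {a b : Module.End K V}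
    (ha : a ∈ alg I) (hb : b ∈ alg M) : a * b = b * a := by
  have h1 : Commute a b := by
    apply Algebra.commute_of_mem_adjoin_of_forall_mem_commute hb
    intro y hy
    apply Commute.symm
    apply Algebra.commute_of_mem_adjoin_of_forall_mem_commute ha
    intro x hx
    exact (hcomm x hx y hy).symm
  exact h1

omit [FiniteDimensional K V] in
/-- The algebra of a sum of commuting ideals. -/
lemma alg_sup (hcomm : ∀ x ∈ I, ∀ y ∈ M, x * y = y * x) {y : Module.End K V}
    (hy : y ∈ alg (I ⊔ M)) :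
    y ∈ Submodule.span K {w | ∃ x ∈ alg I, ∃ z ∈ alg M, w = x * z} := by
  have key : ∀ x ∈ alg I, ∀ z ∈ alg M,
      y * (x * z) ∈ Submodule.span K {w | ∃ x ∈ alg I, ∃ z ∈ alg M, w = x * z} := by
    unfold alg at hy
    induction hy using Algebra.adjoin_induction with
    | mem g hg =>
      intro x hx z hz
      obtain ⟨i, hi, j, hj, rfl⟩ := Submodule.mem_sup.mp hg
      rw [add_mul]
      apply Submodule.add_mem
      · apply Submodule.subset_span
        exact ⟨i * x, mul_mem (le_alg hi) hx, z, hz, by rw [mul_assoc]⟩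
      · apply Submodule.subset_span
        refine ⟨x, hx, j * z, mul_mem (le_alg hj) hz, ?_⟩
        rw [← mul_assoc, ← alg_comm hcomm hx (le_alg hj), mul_assoc]
    | algebraMap r =>
      intro x hx z hz
      rw [Algebra.algebraMap_eq_smul_one, smul_mul_assoc, one_mul]
      exact Submodule.smul_mem _ _ (Submodule.subset_span ⟨x, hx, z, hz, rfl⟩)
    | add a b _ _ ha hb =>
      intro x hx z hz
      rw [add_mul]
      exact Submodule.add_mem _ (ha x hx z hz) (hb x hx z hz)
    | mul a b _ _ ha hb =>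
      intro x hx z hz
      rw [mul_assoc]
      refine Submodule.span_induction (p := fun w _ => a * w ∈ Submodule.span K
        {w | ∃ x ∈ alg I, ∃ z ∈ alg M, w = x * z}) ?_ ?_ ?_ ?_ (hb x hx z hz)
      · rintro _ ⟨x', hx', z', hz', rfl⟩
        exact ha x' hx' z' hz'
      · rw [mul_zero]; exact Submodule.zero_mem _
      · intro u v _ _ hu hv
        rw [mul_add]; exact Submodule.add_mem _ hu hv
      · intro c u _ hu
        rw [mul_smul_comm]; exact Submodule.smul_mem _ _ hu
  have := key 1 (one_mem _) 1 (one_mem _)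
  rwa [mul_one, mul_one] at this

/-- Products of marked elements. -/
lemma Mark.prod (hcomm : ∀ x ∈ I, ∀ y ∈ M, x * y = y * x) {ε ε' : K} {a b : Module.End K V}
    (ha : Mark ω (alg I) ε a) (hb : Mark ω (alg M) ε' b) (hab : a * b ≠ 0) :
    Mark ω (alg (I ⊔ M)) (ε * ε') (a * b) where
  mem := mul_mem (alg_mono le_sup_left ha.mem) (alg_mono le_sup_right hb.mem)
  ne := hab
  ext := by
    intro y hy
    refine Submodule.span_induction (p := fun y _ => ∃ c : K, a * b * y * (a * b) = c • (a * b))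
      ?_ ?_ ?_ ?_ (alg_sup hcomm hy)
    · rintro _ ⟨x, hx, z, hz, rfl⟩
      obtain ⟨c, hc⟩ := ha.ext x hx
      obtain ⟨c', hc'⟩ := hb.ext z hz
      refine ⟨c * c', ?_⟩
      have k1 : b * x = x * b := (alg_comm hcomm hx hb.mem).symm
      have k2 : z * a = a * z := (alg_comm hcomm ha.mem hz).symm
      have k3 : b * a = a * b := (alg_comm hcomm ha.mem hb.mem).symm
      calc a * b * (x * z) * (a * b) = a * (b * x) * (z * a) * b := by simp only [mul_assoc]
        _ = a * (x * b) * (a * z) * b := by rw [k1, k2]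
        _ = a * x * (b * a) * z * b := by simp only [mul_assoc]
        _ = (a * x * a) * (b * z * b) := by rw [k3]; simp only [mul_assoc]
        _ = _ := by rw [hc, hc', smul_mul_assoc, mul_smul_comm, smul_smul]
    · exact ⟨0, by rw [mul_zero, zero_mul, zero_smul]⟩
    · rintro u v _ _ ⟨c, hc⟩ ⟨c', hc'⟩
      exact ⟨c + c', by rw [mul_add, add_mul, hc, hc', add_smul]⟩
    · rintro t u _ ⟨c, hc⟩
      exact ⟨t * c, by rw [mul_smul_comm, smul_mul_assoc, hc, smul_smul]⟩
  adj := by
    have h1 := ha.adj.mul hb.adj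
    have h2 : ε' • b * ε • a = (ε * ε') • (a * b) := by
      rw [smul_mul_assoc, mul_smul_comm, smul_smul, alg_comm hcomm ha.mem hb.mem, mul_comm ε']
    rwa [h2] at h1

/-- `M` is a direct sum of `n` ideals of the class `QI`. -/
def Dec (ω : LinearMap.BilinForm K V) (L : Submodule K (Module.End K V)) (ρ : ℕ) (ε : K) :
    ℕ → Submodule K (Module.End K V) → Prop
  | 0, M => M = ⊥
  | n + 1, M => ∃ I M', QI ω L ρ ε I ∧ Dec ω L ρ ε n M' ∧ I ⊓ M' = ⊥ ∧ M = I ⊔ M'

/-- Dimensions for an ideal of the class `QI`. -/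
lemma QI.iso [IsAlgClosed K] [CharZero K] (hL : IrrSymp ω L) (hω : ω.Nondegenerate) {ρ d : ℕ}
    {ε : K} (hρ : finrank K V = ρ * d) (h : QI ω L ρ ε I) :
    ∃ a, Mark ω (alg I) ε a ∧ rk a = ρ ∧ ∀ W : Submodule K V,
      (∀ x ∈ alg I, ∀ w ∈ W, x w ∈ W) → ∃ n : ℕ, finrank K W = n * d ∧
        finrank K (W.map a) = n ∧ ∀ x ∈ alg I, ∃ k, finrank K (W.map x) = n * k := by
  obtain ⟨hI, hI0, hmin, a, ha, har⟩ := h
  have P := hL.pr (fun x hx y hy => hL.orth_comm hω hI hx hy)
    (fun z hz => hL.sup_orth hω hI hz)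
  obtain ⟨d', hd', hW⟩ := P.iso ha.mem ha.ne ha.ext
  refine ⟨a, ha, har, ?_⟩
  obtain ⟨n, h1, h2, -⟩ := hW ⊤ (fun _ _ _ _ => Submodule.mem_top)
  have h3 : n = ρ := by
    rw [← har, ← h2, Submodule.map_top]; rfl
  rw [finrank_top, h3, hρ] at h1
  have hρ0 : 0 < ρ := by
    rw [← har]; exact rk_pos.mpr ha.ne
  have h4 : d' = d := (Nat.eq_of_mul_eq_mul_left hρ0 h1).symm
  rw [← h4]
  exact hW

/-- The marked element of a sum. -/
lemma Dec.main [IsAlgClosed K] [CharZero K] (hL : IrrSymp ω L) (hω : ω.Nondegenerate) {ρ d : ℕ}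
    {ε : K} (hρ : finrank K V = ρ * d) (hV : Nontrivial V) : ∀ (n : ℕ)
    (M : Submodule K (Module.End K V)), Dec ω L ρ ε n M →
    IsId L M ∧ ∃ a, Mark ω (alg M) (ε ^ n) a ∧ rk a * d ^ n = finrank K V := by
  intro n
  induction n with
  | zero =>
    intro M hM
    change M = ⊥ at hM
    subst hM
    refine ⟨⟨bot_le, ?_⟩, 1, ⟨one_mem _, one_ne_zero, ?_, ?_⟩, ?_⟩
    · intro x hx y hy
      rw [Submodule.mem_bot] at *
      rw [hy]; simp
    · intro y hy
      unfold alg at hy
      rw [Submodule.bot_coe] at hy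
      have h1 : Algebra.adjoin K ({0} : Set (Module.End K V)) = ⊥ := by
        rw [Algebra.adjoin_singleton_zero]
      rw [h1, Algebra.mem_bot] at hy
      obtain ⟨c, rfl⟩ := hy
      exact ⟨c, by rw [mul_one, one_mul, Algebra.algebraMap_eq_smul_one]⟩
    · intro v w
      simp
    · rw [pow_zero, mul_one]
      unfold rk
      rw [Module.End.one_eq_id, LinearMap.range_id, finrank_top]
  | succ n ih =>
    rintro M ⟨I, M', hI, hM', hinf, rfl⟩
    obtain ⟨hM'id, b, hb, hbr⟩ := ih M' hM'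
    obtain ⟨a, ha, har, hW⟩ := hI.iso hL hω hρ
    have hcomm : ∀ x ∈ I, ∀ y ∈ M', x * y = y * x := fun x hx y hy =>
      IrrSymp.comm_of_inf hI.1 hM'id hinf hx hy
    have P := hL.pr (fun x hx y hy => hL.orth_comm hω hI.1 hx hy)
      (fun z hz => hL.sup_orth hω hI.1 hz)
    have hab : a * b ≠ 0 := by
      intro h
      rcases P.star ha.mem (alg_mono (hL.le_orth hω hI.1 hM'id hinf) hb.mem) h with h | h
      · exact ha.ne h
      · exact hb.ne h
    refine ⟨sup_isId hI.1 hM'id, a * b, ?_, ?_⟩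
    · have := Mark.prod hcomm ha hb hab
      rwa [← pow_succ'] at this
    · obtain ⟨k, h1, h2, -⟩ := hW (LinearMap.range b) (by
        rintro x hx _ ⟨v, rfl⟩
        refine ⟨x v, ?_⟩
        exact (congrArg (fun z : Module.End K V => z v) (alg_comm hcomm hx hb.mem)).symm)
      have h3 : rk (a * b) = k := by
        have e : LinearMap.range (a * b) = (LinearMap.range b).map a := LinearMap.range_comp b a
        unfold rk
        rw [e, h2]
      have h4 : rk b = k * d := h1
      rw [h3, ← hbr, h4, pow_succ]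
      ring

/-- Square zero elements lie in one of the ideals. -/
lemma Dec.find [IsAlgClosed K] [CharZero K] (hL : IrrSymp ω L) (hω : ω.Nondegenerate) {ρ d : ℕ}
    {ε : K} (hρ : finrank K V = ρ * d) (hV : Nontrivial V) {x : Module.End K V}
    (hxx : x * x = 0) (hx0 : x ≠ 0) : ∀ (n : ℕ) (M : Submodule K (Module.End K V)),
    Dec ω L ρ ε n M → x ∈ M → ∃ I, QI ω L ρ ε I ∧ x ∈ I := by
  intro n
  induction n with
  | zero =>
    intro M hM hx
    change M = ⊥ at hM
    rw [hM, Submodule.mem_bot] at hx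
    exact absurd hx hx0
  | succ n ih =>
    rintro M hMM hx
    obtain ⟨hMid, -⟩ := Dec.main hL hω hρ hV _ M hMM
    obtain ⟨I, M', hI, hM', hinf, rfl⟩ := hMM
    obtain ⟨hM'id, -⟩ := Dec.main hL hω hρ hV _ M' hM'
    rcases hL.sq_dich hω hI.1 (hMid.1 hx) (c := 0) (by rw [hxx, zero_smul]) with h | h
    · exact ⟨I, hI, h⟩
    · obtain ⟨i, hi, m, hm, hxe⟩ := Submodule.mem_sup.mp hx
      have h1 : i = 0 := by
        apply hL.inf_orth hω hI.1 hi
        have h2 := (orth L I).sub_mem h (hL.le_orth hω hI.1 hM'id hinf hm)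
        rwa [← hxe, add_sub_cancel_right] at h2
      have h2 : x = m := by rw [← hxe, h1, zero_add]
      exact ih M' hM' (by rw [h2]; exact hm)

/-- The class `QI` fills `L`. -/
lemma Dec.exists [IsAlgClosed K] [CharZero K] (hL : IrrSymp ω L) (hω : ω.Nondegenerate)
    {ρ d : ℕ} {ε : K} (hρ : finrank K V = ρ * d) (hV : Nontrivial V)
    (hspan : L ≤ Submodule.span K {x | ∃ I, QI ω L ρ ε I ∧ x ∈ I}) : ∃ n, Dec ω L ρ ε n L := by
  classical
  have hbdd : BddAbove {k | ∃ n M, Dec ω L ρ ε n M ∧ finrank K M = k} := by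
    refine ⟨finrank K (Module.End K V), ?_⟩
    rintro k ⟨n, M, -, rfl⟩
    exact Submodule.finrank_le M
  have hne : {k | ∃ n M, Dec ω L ρ ε n M ∧ finrank K M = k}.Nonempty :=
    ⟨finrank K (⊥ : Submodule K (Module.End K V)), 0, ⊥, rfl, rfl⟩
  obtain ⟨n, M, hM, hMk⟩ := Nat.sSup_mem hne hbdd
  obtain ⟨hMid, -⟩ := Dec.main hL hω hρ hV n M hM
  refine ⟨n, ?_⟩
  have hML : M = L := by
    apply le_antisymm hMid.1
    refine hspan.trans ?_
    rw [Submodule.span_le]
    rintro x ⟨I, hI, hx⟩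
    by_contra hxM
    have hinf : I ⊓ M = ⊥ := by
      by_contra h
      have h1 := hI.2.2.1 (I ⊓ M) inf_le_left (inf_isId hI.1 hMid) h
      apply hxM
      rw [← h1] at hx
      exact hx.2
    have h2 : Dec ω L ρ ε (n + 1) (I ⊔ M) := ⟨I, M, hI, hM, hinf, rfl⟩
    have h3 : finrank K (I ⊔ M : Submodule K (Module.End K V)) ≤
        sSup {k | ∃ n M, Dec ω L ρ ε n M ∧ finrank K M = k} :=
      le_csSup hbdd ⟨n + 1, I ⊔ M, h2, rfl⟩
    rw [← hMk] at h3
    have h4 := Submodule.finrank_sup_add_finrank_inf_eq I M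
    rw [hinf, finrank_bot] at h4
    have h5 : 0 < finrank K I := by
      rw [Module.finrank_pos_iff]
      exact (Submodule.nontrivial_iff_ne_bot).mpr hI.2.1
    omega
  rw [hML] at hM
  exact hM

/-- **Structure of Lie algebras which are simple up to symmetries.** -/
theorem IrrSymp.exact [IsAlgClosed K] [CharZero K] (hL : IrrSymp ω L) (hω : ω.Nondegenerate)
    (halt : ω.IsAlt) {T : Set (Module.End K V ≃+* Module.End K V)} (hT : ∀ τ ∈ T, Tw L τ)
    (hS : TSmp L T) {x : Module.End K V} (hx : x ∈ L) (hxx : x * x = 0) (hx0 : x ≠ 0) :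
    ∃ k d s : ℕ, Odd k ∧ finrank K V = d ^ k ∧ rk x = s * d ^ (k - 1) ∧ (k = 1 → Smp L) := by
  have hV : Nontrivial V := by
    by_contra hcon
    rw [not_nontrivial_iff_subsingleton] at hcon
    exact hx0 (LinearMap.ext fun v => Subsingleton.elim _ _)
  have hL0 : L ≠ ⊥ := by
    intro h
    rw [h, Submodule.mem_bot] at hx
    exact hx0 hx
  have hLid : IsId L L := ⟨le_rfl, hL.br⟩
  obtain ⟨I0, -, hI0, hI00, hI0min⟩ := exists_min_ideal hLid hL0
  have P := hL.pr (fun x hx y hy => hL.orth_comm hω hI0 hx hy)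
    (fun z hz => hL.sup_orth hω hI0 hz)
  obtain ⟨ε, a0, hε, ha0⟩ := exists_mark hω halt (fun x hx => hL.sk x (hI0.1 hx)) P hI00
  obtain ⟨d, hd, hW⟩ := P.iso ha0.mem ha0.ne ha0.ext
  obtain ⟨n0, h1, h2, -⟩ := hW ⊤ (fun _ _ _ _ => Submodule.mem_top)
  have hρ : finrank K V = rk a0 * d := by
    rw [finrank_top] at h1
    rw [h1, ← h2, Submodule.map_top]; rfl
  have hQ0 : QI ω L (rk a0) ε I0 := ⟨hI0, hI00, hI0min, a0, ha0, rfl⟩
  -- the span of the class
  have hspan : L ≤ Submodule.span K {x | ∃ I, QI ω L (rk a0) ε I ∧ x ∈ I} := by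
    have hid : IsId L (Submodule.span K {x | ∃ I, QI ω L (rk a0) ε I ∧ x ∈ I}) := by
      constructor
      · rw [Submodule.span_le]
        rintro x ⟨I, hI, hx⟩
        exact hI.1.1 hx
      · intro x hx y hy
        refine Submodule.span_induction ?_ ?_ ?_ ?_ hy
        · rintro z ⟨I, hI, hz⟩
          exact Submodule.subset_span ⟨I, hI, hI.1.2 x hx z hz⟩
        · simp
        · intro u v _ _ hu hv
          have e : x * (u + v) - (u + v) * x = (x * u - u * x) + (x * v - v * x) := by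
            rw [mul_add, add_mul]; abel
          rw [e]; exact Submodule.add_mem _ hu hv
        · intro c u _ hu
          rw [mul_smul_comm, smul_mul_assoc, ← smul_sub]
          exact Submodule.smul_mem _ _ hu
    rcases hS _ hid (by
      intro τ hτ y hy
      obtain ⟨σ, hσ⟩ := (hT τ hτ).semi
      refine Submodule.span_induction ?_ ?_ ?_ ?_ hy
      · rintro z ⟨I, hI, hz⟩
        apply Submodule.subset_span
        refine ⟨_, hI.tw hω hL.sk hε (hT τ hτ) hσ, ?_⟩
        rw [mem_imT, RingEquiv.symm_apply_apply]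
        exact hz
      · rw [map_zero]; exact Submodule.zero_mem _
      · intro u v _ _ hu hv
        rw [map_add]; exact Submodule.add_mem _ hu hv
      · intro c u _ hu
        rw [hσ]; exact Submodule.smul_mem _ _ hu) with h | h
    · exfalso
      apply hI00
      rw [eq_bot_iff, ← h]
      intro z hz
      exact Submodule.subset_span ⟨I0, hQ0, hz⟩
    · exact h.ge
  obtain ⟨k, hk⟩ := Dec.exists hL hω hρ hV hspan
  obtain ⟨-, b, hb, hbr⟩ := Dec.main hL hω hρ hV k L hk
  -- the marked element has rank one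
  obtain ⟨v, hv⟩ : ∃ v, b v ≠ 0 := by
    by_contra h
    push Not at h
    exact hb.ne (LinearMap.ext h)
  have hone : ∀ w, ∃ c : K, b w = c • b v := by
    intro w
    have htop : orb (alg L) (b v) = ⊤ := by
      rcases hL.irr (orb (alg L) (b v)) (by
        rintro z hz _ ⟨y, hy, rfl⟩
        exact ⟨z * y, (alg L).mul_mem (le_alg hz) hy, rfl⟩) with h | h
      · exfalso
        have h1 : b v ∈ orb (alg L) (b v) := ⟨1, (alg L).one_mem, rfl⟩
        rw [h, Submodule.mem_bot] at h1
        exact hv h1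
      · exact h
    have hw : w ∈ orb (alg L) (b v) := by rw [htop]; trivial
    obtain ⟨y, hy, hyw⟩ := mem_orb.mp hw
    obtain ⟨c, hc⟩ := hb.ext y hy
    refine ⟨c, ?_⟩
    rw [← hyw]
    exact congrArg (fun z : Module.End K V => z v) hc
  have hrb : rk b = 1 := by
    have e : LinearMap.range b = Submodule.span K {b v} := by
      apply le_antisymm
      · rintro _ ⟨w, rfl⟩
        obtain ⟨c, hc⟩ := hone w
        rw [hc]
        exact Submodule.smul_mem _ _ (Submodule.mem_span_singleton_self _)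
      · rw [Submodule.span_singleton_le_iff_mem]
        exact ⟨v, rfl⟩
    unfold rk
    rw [e]
    exact finrank_span_singleton hv
  rw [hrb, one_mul] at hbr
  -- the sign
  have hanti : ∀ u v : V, ω u v = - ω v u := fun u v => (halt.neg_eq v u).symm
  have hsgn : ε ^ k ≠ 1 := by
    intro h
    have hadj := hb.adj
    rw [h, one_smul] at hadj
    have h0 : ∀ x, ω (b x) x = 0 := by
      intro x
      have h1 := hadj x x
      rw [hanti x] at h1
      have h2 : (2 : K) * ω (b x) x = 0 := by linear_combination h1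
      exact (mul_eq_zero.mp h2).resolve_left two_ne_zero
    apply hv
    apply hω.1
    intro y
    by_contra hy
    have h1 := h0 v
    obtain ⟨c, hc⟩ := hone y
    have h2 := h0 y
    rw [hc, map_smul, LinearMap.smul_apply, smul_eq_mul] at h2
    have hc0 : c = 0 := (mul_eq_zero.mp h2).resolve_right hy
    have h3 := h0 (v + y)
    rw [map_add b, hc, hc0, zero_smul, add_zero, map_add, h1, zero_add] at h3
    exact hy h3
  have hodd : Odd k := by
    rw [← Nat.not_even_iff_odd]
    intro hev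
    apply hsgn
    rcases hε with h | h
    · rw [h, one_pow]
    · rw [h]; exact hev.neg_one_pow
  obtain ⟨I, hI, hxI⟩ := Dec.find hL hω hρ hV hxx hx0 k L hk hx
  obtain ⟨a, ha, har, hW'⟩ := hI.iso hL hω hρ
  obtain ⟨n, g1, g2, g3⟩ := hW' ⊤ (fun _ _ _ _ => Submodule.mem_top)
  obtain ⟨s, hs⟩ := g3 x (le_alg hxI)
  have hk1 : 1 ≤ k := hodd.pos
  have hn : n = d ^ (k - 1) := by
    rw [finrank_top] at g1
    have h3 : d ^ k = n * d := by rw [hbr, g1]
    have h4 : d ^ k = d ^ (k - 1) * d := by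
      rw [← pow_succ]; congr 1; omega
    rw [h4] at h3
    exact (Nat.eq_of_mul_eq_mul_right hd h3).symm
  refine ⟨k, d, s, hodd, hbr.symm, ?_, ?_⟩
  · have : rk x = n * s := by
      rw [← hs, Submodule.map_top]; rfl
    rw [this, hn, mul_comm]
  · intro hk1
    subst hk1
    obtain ⟨I', M', hI', hM', -, hLe⟩ := hk
    change M' = ⊥ at hM'
    rw [hM', sup_bot_eq] at hLe
    intro M hM hMi
    by_cases hM0 : M = ⊥
    · exact Or.inl hM0
    · right
      rw [hLe]
      exact hI'.2.2.1 M (by rw [← hLe]; exact hM) ⟨hM, hMi⟩ hM0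

/-- **Small rank theorem, exact form.** -/
theorem Ctx.eq_sp_exact [IsAlgClosed K] [CharZero K] (hC : Ctx ω L S) (halt : ω.IsAlt)
    {T : Set (Module.End K V ≃+* Module.End K V)} (hT : ∀ τ ∈ T, Tw L τ) (hS : TSmp L T)
    {x : Module.End K V} (hx : x ∈ L) (hxx : x * x = 0) (hx0 : x ≠ 0)
    (h4 : 4 * rk x < finrank K V)
    (hno : ∀ k d s, Odd k → 3 ≤ k → finrank K V = d ^ k → rk x ≠ s * d ^ (k - 1))
    {z : Module.End K V} (hz : IsSk ω z) : z ∈ L := by
  obtain ⟨k, d, s, hodd, h1, h2, h3⟩ := hC.irr.exact hC.nd halt hT hS hx hxx hx0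
  by_cases hk : k = 1
  · exact hC.eq_sp_of_small halt (h3 hk) hx hxx hx0 h4 hz
  · exfalso
    refine hno k d s hodd ?_ h1 h2
    obtain ⟨l, hl⟩ := hodd
    omega

/-- **The group theorem, abstract form.** -/
theorem Str.full_exact [IsAlgClosed K] [CharZero K] {G : Set (Module.End K V)}
    {T : Set (Module.End K V ≃+* Module.End K V)} {p0 : Module.End K V} (D : Str ω G T p0)
    {u : Module.End K V} (hu : u ∈ G) (hN : (u - 1) * (u - 1) = 0) (h0 : u - 1 ≠ 0)
    (h4 : 4 * MTP.rk (u - 1) < finrank K V)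
    (hno : ∀ k d s, Odd k → 3 ≤ k → finrank K V = d ^ k → MTP.rk (u - 1) ≠ s * d ^ (k - 1))
    {z : Module.End K V} (hz : IsSk ω z) : z ∈ SL ω G T p0 :=
  D.ctx.eq_sp_exact D.alt (fun τ hτ => D.isTw hτ) D.tsmp (D.quad_mem hu hN) hN h0 h4 hno hz

end MTP
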