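import Pool.Agent.Helper93.SR.Dec
import Pool.Agent.Helper88.MT.Simple

/-!
The group theorem for strong pairs, all ranks: Lie algebra form.
-/

set_option linter.unusedSimpArgs false
set_option linter.unusedSectionVars false
set_option linter.unusedVariables false

open Module

attribute [local instance 100] LieRing.ofAssociativeRing

namespace MTP

variable {K : Type*} [Field K] {V : Type*} [AddCommGroup V] [Module K V] [FiniteDimensional K V]
variable {ω : LinearMap.BilinForm K V} {L : Submodule K (Module.End K V)}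
  {S : Set (Module.End K V)}

/-- `L` as a Lie subalgebra. -/
def toLie (L : Submodule K (Module.End K V))
    (h : ∀ x ∈ L, ∀ y ∈ L, x * y - y * x ∈ L) : LieSubalgebra K (Module.End K V) :=
  { L with lie_mem' := fun {x y} hx hy => h x hx y hy }

lemma toLie_simple (h : ∀ x ∈ L, ∀ y ∈ L, x * y - y * x ∈ L) (hs : Smp L)
    {x y : Module.End K V} (hx : x ∈ L) (hy : y ∈ L) (hxy : x * y - y * x ≠ 0) :
    LieAlgebra.IsSimple K (toLie L h) := by
  have hnab : ¬ IsLieAbelian (toLie L h) := by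
    intro hab
    apply hxy
    have h1 := hab.trivial (⟨x, hx⟩ : toLie L h) ⟨y, hy⟩
    exact congrArg Subtype.val h1
  refine { eq_bot_or_eq_top := ?_, non_abelian := hnab }
  intro I
  let M : Submodule K (Module.End K V) := I.toSubmodule.map (toLie L h).toSubmodule.subtype
  have hM : M ≤ L := by
    rintro _ ⟨z, -, rfl⟩
    exact z.2
  rcases hs M hM (by
    rintro a ha _ ⟨z, hz, rfl⟩
    refine ⟨⁅(⟨a, ha⟩ : toLie L h), z⁆, I.lie_mem hz, rfl⟩) with h1 | h1
  · left
    rw [LieSubmodule.eq_bot_iff]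
    intro z hz
    have h2 : (z : Module.End K V) ∈ M := ⟨z, hz, rfl⟩
    rw [h1, Submodule.mem_bot] at h2
    exact Subtype.ext h2
  · right
    rw [eq_top_iff]
    intro z _
    have h2 : (z : Module.End K V) ∈ M := by rw [h1]; exact z.2
    obtain ⟨w, hw, hwz⟩ := h2
    have : w = z := Subtype.ext hwz
    rw [← this]; exact hw


/-- The exceptional pairs (rank, dimension) for simple Lie algebras. -/
def SimpExc (r D : ℕ) : Prop :=
  (∃ m, Odd m ∧ 3 ≤ m ∧ D = (2 * m).choose m ∧ r = (2 * m - 2).choose (m - 1)) ∨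
  (∃ n, (n % 4 = 1 ∨ n % 4 = 2) ∧ 5 ≤ n ∧ D = 2 ^ n ∧ (r = 2 ^ (n - 2) ∨ r = 2 ^ (n - 1)))

/-- The exceptional pairs (rank, dimension) for strong pairs. -/
def StrExc (r D : ℕ) : Prop :=
  (∃ d k s, Odd k ∧ 3 ≤ k ∧ D = d ^ k ∧ r = s * d ^ (k - 1)) ∨
  (∃ m, Odd m ∧ 3 ≤ m ∧ D = (2 * m).choose m ∧ r = (2 * m - 2).choose (m - 1)) ∨
  (∃ n, n % 4 = 1 ∧ 5 ≤ n ∧ D = 2 ^ n ∧ r = 2 ^ (n - 2))

lemma SimpExc.str {r D : ℕ} (h : SimpExc r D) : StrExc r D := by
  rcases h with h | ⟨n, hn, h5, hD, hr⟩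
  · exact Or.inr (Or.inl h)
  · rcases hn with hn | hn
    · rcases hr with hr | hr
      · exact Or.inr (Or.inr ⟨n, hn, h5, hD, hr⟩)
      · left
        refine ⟨2, n, 1, ?_, by omega, hD, by rw [hr, one_mul]⟩
        rw [Nat.odd_iff]; omega
    · left
      obtain ⟨l, rfl⟩ : ∃ l, n = 2 * l := ⟨n / 2, by omega⟩
      have e : ∀ i, (2 : ℕ) ^ (2 * i) = 4 ^ i := by
        intro i; rw [pow_mul]; norm_num
      have h4 : (2 : ℕ) ^ (2 * l - 2) = 4 ^ (l - 1) := by
        rw [← e]; congr 1; omega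
      rcases hr with hr | hr
      · refine ⟨4, l, 1, ?_, by omega, by rw [hD, e], by rw [hr, one_mul, h4]⟩
        rw [Nat.odd_iff]; omega
      · refine ⟨4, l, 2, ?_, by omega, by rw [hD, e], ?_⟩
        · rw [Nat.odd_iff]; omega
        · rw [hr, ← h4, ← pow_succ']
          congr 1
          omega

/-- The classification of square zero elements in simple Lie algebras, used as a hypothesis. -/
def SimpleClass (ω : LinearMap.BilinForm K V) : Prop :=
  ∀ (L : LieSubalgebra K (Module.End K V)) (S : Set (Module.End K V)),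
    Ctx ω L.toSubmodule S → ω.IsAlt → LieAlgebra.IsSimple K L →
    ∀ N ∈ L, N * N = 0 → N ≠ 0 →
    (∀ z, IsSk ω z → z ∈ L) ∨ SimpExc (rk N) (finrank K V)

lemma IrrSymp.exists_not_comm (hL : IrrSymp ω L) {x : Module.End K V} (hx : x ∈ L)
    (hxx : x * x = 0) (hx0 : x ≠ 0) : ∃ y ∈ L, x * y - y * x ≠ 0 := by
  by_contra hcon
  push Not at hcon
  rcases hL.irr (LinearMap.ker x) (by
    intro z hz v hv
    rw [LinearMap.mem_ker] at hv ⊢
    have h1 : x * z = z * x := sub_eq_zero.mp (hcon z hz)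
    have h2 := congrArg (fun f : Module.End K V => f v) h1
    simp only [Module.End.mul_apply] at h2
    rw [h2, hv, map_zero]) with h | h
  · apply hx0
    ext v
    have h1 : x v ∈ LinearMap.ker x := by
      rw [LinearMap.mem_ker]
      exact congrArg (fun f : Module.End K V => f v) hxx
    rw [h, Submodule.mem_bot] at h1
    exact h1
  · exact hx0 (LinearMap.ker_eq_top.mp h)

/-- **The Lie algebra theorem for strong pairs.** -/
theorem Ctx.eq_sp_or_strExc [IsAlgClosed K] [CharZero K] (hC : Ctx ω L S) (halt : ω.IsAlt)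
    (hSC : SimpleClass ω)
    {T : Set (Module.End K V ≃+* Module.End K V)} (hT : ∀ τ ∈ T, Tw L τ) (hS : TSmp L T)
    {x : Module.End K V} (hx : x ∈ L) (hxx : x * x = 0) (hx0 : x ≠ 0) :
    (∀ z, IsSk ω z → z ∈ L) ∨ StrExc (rk x) (finrank K V) := by
  obtain ⟨k, d, s, hodd, h1, h2, h3⟩ := hC.irr.exact hC.nd halt hT hS hx hxx hx0
  by_cases hk : k = 1
  · obtain ⟨y, hy, hxy⟩ := hC.irr.exists_not_comm hx hxx hx0
    have hsimp := toLie_simple hC.irr.br (h3 hk) hx hy hxy
    rcases hSC (toLie L hC.irr.br) S hC halt hsimp x hx hxx hx0 with h | h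
    · exact Or.inl h
    · exact Or.inr h.str
  · right; left
    refine ⟨d, k, s, hodd, ?_, h1, h2⟩
    obtain ⟨l, hl⟩ := hodd
    omega

/-- **The group theorem, abstract form.** -/
theorem Str.full_strong [IsAlgClosed K] [CharZero K] {G : Set (Module.End K V)}
    {T : Set (Module.End K V ≃+* Module.End K V)} {p0 : Module.End K V} (D : Str ω G T p0)
    (hSC : SimpleClass ω)
    {u : Module.End K V} (hu : u ∈ G) (hN : (u - 1) * (u - 1) = 0) (h0 : u - 1 ≠ 0)
    (hno : ¬ StrExc (MTP.rk (u - 1)) (finrank K V))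
    {z : Module.End K V} (hz : IsSk ω z) : z ∈ SL ω G T p0 :=
  (D.ctx.eq_sp_or_strExc D.alt hSC (fun τ hτ => D.isTw hτ) D.tsmp (D.quad_mem hu hN) hN
    h0).resolve_right hno z hz

end MTP
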