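import Pool.Agent.Helper93.SR.RatG

/-!
The exact criterion for rational toric ranks, from the classification and the examples.
-/

open Module MTPairs Matrix

namespace MTP

/-- An example with trivial symmetries. -/
def HasEx (K : Type*) [Field K] (r D : ℕ) : Prop :=
  ∃ (m : Type) (_ : Fintype m) (_ : DecidableEq m)
      (J : Matrix m m K) (G : Subgroup (Matrix.GeneralLinearGroup m K)) (π : Matrix m m K),
      Fintype.card m = D ∧ IsStrongMTPair ⊥ J G π ∧
      IsSplit J G (fun _ : Unit => (⊤ : Submodule K (m → K))) ∧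
      (∃ u ∈ G, IsQuadraticOn u ⊤ r) ∧
      ¬ IsFull J G (fun _ : Unit => (⊤ : Submodule K (m → K)))

lemma dense_bot {K : Type*} [Field K] {m : Type*} [Fintype m] [DecidableEq m]
    {G : Subgroup (Matrix.GeneralLinearGroup m K)} {U : Submodule K (m → K)} {r : ℕ}
    (h : ∃ u ∈ G, IsQuadraticOn u U r) : DenseQuad ⊥ G U r := by
  intro γ hγ E
  obtain ⟨u, hu, hq⟩ := h
  refine ⟨γ, hγ, fun v _ => rfl, u, hu, ?_, hq⟩
  rw [Subgroup.mem_bot] at hγ
  subst hγ
  intro v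
  rfl

/-- **The exact criterion**, with the classification and the examples as hypotheses. -/
theorem rational_criterion {K : Type*} [Field K] [IsAlgClosed K] [CharZero K] (R : Set (ℕ × ℕ))
    (hR : ∀ r D, (r, D) ∈ R → 0 < r)
    (hSC : ∀ (m : Type) [Fintype m] (U : Submodule K (m → K)) (ω : LinearMap.BilinForm K U),
      SimpleClass ω)
    (hw : ∀ n, Odd n → 3 ≤ n → HasEx K ((2 * n - 2).choose (n - 1)) ((2 * n).choose n))
    (hs : ∀ n, n % 4 = 1 ∨ n % 4 = 2 → 5 ≤ n → HasEx K (2 ^ (n - 2)) (2 ^ n) ∧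
      HasEx K (2 ^ (n - 1)) (2 ^ n)) :
    (∀ (m ι : Type) [Fintype m] [DecidableEq m] [Fintype ι] [DecidableEq ι]
      (Γ : Subgroup (Equiv.Perm (m → K))) (J : Matrix m m K)
      (G : Subgroup (Matrix.GeneralLinearGroup m K)) (π : Matrix m m K)
      (W : ι → Submodule K (m → K)), IsStrongMTPair Γ J G π → IsSplit J G W → IsStable Γ W →
      (∀ j, ∃ r, DenseQuad Γ G (W j) r ∧ (r, finrank K (W j)) ∈ R) → IsFull J G W) ↔
    (∀ n, Odd n → 3 ≤ n → ((2 * n - 2).choose (n - 1), (2 * n).choose n) ∉ R) ∧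
    (∀ n, n % 4 = 1 ∨ n % 4 = 2 → 5 ≤ n → (2 ^ (n - 2), 2 ^ n) ∉ R ∧ (2 ^ (n - 1), 2 ^ n) ∉ R) := by
  constructor
  · intro h
    have key : ∀ r D, HasEx K r D → (r, D) ∉ R := by
      rintro r D ⟨m, i1, i2, J, G, π, hm, h1, h2, h3, h4⟩ hmem
      apply h4
      apply h m Unit ⊥ J G π _ h1 h2
      · intro θ hθ _ v _
        trivial
      · intro _
        refine ⟨r, dense_bot h3, ?_⟩
        rw [finrank_top, Module.finrank_fintype_fun_eq_card, hm]
        exact hmem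
    exact ⟨fun n h1 h2 => key _ _ (hw n h1 h2), fun n h1 h2 =>
      ⟨key _ _ (hs n h1 h2).1, key _ _ (hs n h1 h2).2⟩⟩
  · rintro ⟨h1, h2⟩ m ι _ _ _ _ Γ J G π W D hW hΓ hq
    apply isFull_of_rational D hW hΓ (fun j => hSC m (W j) _)
    intro j
    obtain ⟨r, hd, hmem⟩ := hq j
    refine ⟨r, hR _ _ hmem, hd, ?_⟩
    rintro (⟨n, hn, hn3, hD, hr⟩ | ⟨n, hn, hn5, hD, hr | hr⟩)
    · rw [hD, hr] at hmem
      exact h1 n hn hn3 hmem
    · rw [hD, hr] at hmem
      exact (h2 n hn hn5).1 hmem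
    · rw [hD, hr] at hmem
      exact (h2 n hn hn5).2 hmem

end MTP
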