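import Pool.Agent.Helper93.SR.RatFin
import Pool.Agent.Helper21.TR.Simple
import Pool.Agent.Helper4.TR.Ws
import Pool.Agent.Helper83.TR.SpinMain

/-!
The classification and the exterior power examples plugged into the criterion.
-/

open Module MTPairs Matrix

attribute [local instance 100] LieRing.ofAssociativeRing

namespace MTP

/-- The classification of square zero elements in simple Lie algebras holds. -/
theorem simpleClass {K : Type*} [Field K] [IsAlgClosed K] [CharZero K] {V : Type*}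
    [AddCommGroup V] [Module K V] [FiniteDimensional K V] (ω : LinearMap.BilinForm K V) :
    SimpleClass ω := by
  intro L S hC halt hsimple N hN hNN hN0
  rcases TR.simple_class hC halt hsimple hN hNN hN0 with h | ⟨n, h1, h2, h3, h4⟩ |
    ⟨n, h1, h2, h3, h4⟩
  · exact Or.inl h
  · exact Or.inr (Or.inl ⟨n, h1, h2, h3, h4⟩)
  · exact Or.inr (Or.inr ⟨n, h1, h2, h3, h4⟩)

theorem hasEx_wedge (K : Type*) [Field K] [CharZero K] {n : ℕ} (hn : Odd n) (hn3 : 3 ≤ n) :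
    HasEx K ((2 * n - 2).choose (n - 1)) ((2 * n).choose n) := by
  obtain ⟨m, i1, i2, J, G, π, h1, h2, h3, h4, h5⟩ := TR.strong_wedge K hn hn3
  exact ⟨m, i1, i2, J, G, π, h1, h2, h3, h4, h5⟩

theorem hasEx_spin (K : Type*) [Field K] [CharZero K] {n : ℕ} (hn : n % 4 = 1 ∨ n % 4 = 2)
    (hn5 : 5 ≤ n) : HasEx K (2 ^ (n - 2)) (2 ^ n) ∧ HasEx K (2 ^ (n - 1)) (2 ^ n) := by
  obtain ⟨m, i1, i2, J, G, π, h1, h2, h3, h4, h5, h6⟩ := TR.strong_spin K hn hn5
  exact ⟨⟨m, i1, i2, J, G, π, h1, h2, h3, h4, h6⟩, ⟨m, i1, i2, J, G, π, h1, h2, h3, h5, h6⟩⟩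

/-- **The exact criterion for rational toric ranks.** -/
theorem rational {K : Type*} [Field K] [IsAlgClosed K] [CharZero K] (R : Set (ℕ × ℕ))
    (hR : ∀ r D, (r, D) ∈ R → 0 < r) :
    (∀ (m ι : Type) [Fintype m] [DecidableEq m] [Fintype ι] [DecidableEq ι]
      (Γ : Subgroup (Equiv.Perm (m → K))) (J : Matrix m m K)
      (G : Subgroup (Matrix.GeneralLinearGroup m K)) (π : Matrix m m K)
      (W : ι → Submodule K (m → K)), IsStrongMTPair Γ J G π → IsSplit J G W → IsStable Γ W →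
      (∀ j, ∃ r, DenseQuad Γ G (W j) r ∧ (r, finrank K (W j)) ∈ R) → IsFull J G W) ↔
    (∀ n, Odd n → 3 ≤ n → ((2 * n - 2).choose (n - 1), (2 * n).choose n) ∉ R) ∧
    (∀ n, n % 4 = 1 ∨ n % 4 = 2 → 5 ≤ n → (2 ^ (n - 2), 2 ^ n) ∉ R ∧ (2 ^ (n - 1), 2 ^ n) ∉ R) :=
  rational_criterion R hR (fun _ _ _ ω => simpleClass ω) (fun _ h1 h2 => hasEx_wedge K h1 h2)
    (fun _ h1 h2 => hasEx_spin K h1 h2)

end MTP
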