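import Pool.Agent.Helper93.SR.Ten4

/-!
Strong Mumford-Tate pairs from an orbit of Lagrangian idempotents.
-/

open Module MTPairs

namespace MTP

variable {K : Type*} [Field K] {m : Type*} [Fintype m] [DecidableEq m]

/-- The linear automorphisms which normalise the set `Λ` of matrices. -/
def NormG (Λ : Set (Matrix m m K)) : Subgroup (Matrix.GeneralLinearGroup m K) where
  carrier := {h | ∀ P ∈ Λ, (h : Matrix m m K) * P *
      ((h⁻¹ : Matrix.GeneralLinearGroup m K) : Matrix m m K) ∈ Λ ∧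
    ((h⁻¹ : Matrix.GeneralLinearGroup m K) : Matrix m m K) * P * (h : Matrix m m K) ∈ Λ}
  one_mem' := by
    intro P hP
    simpa using hP
  mul_mem' := by
    rintro g h hg hh P hP
    constructor
    · have := (hg _ (hh P hP).1).1
      rw [mul_inv_rev, Units.val_mul, Units.val_mul]
      simpa only [mul_assoc] using this
    · have := (hh _ (hg P hP).2).2
      rw [mul_inv_rev, Units.val_mul, Units.val_mul]
      simpa only [mul_assoc] using this
  inv_mem' := by
    rintro g hg P hP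
    rw [inv_inv]
    exact ⟨(hg P hP).2, (hg P hP).1⟩

/-- The group of bijections of `K^m` given by the elements of `N`. -/
def GamN (N : Subgroup (Matrix.GeneralLinearGroup m K)) : Subgroup (Equiv.Perm (m → K)) where
  carrier := {θ | ∃ h ∈ N, ∀ v, θ v = (h : Matrix m m K).mulVec v}
  one_mem' := ⟨1, Subgroup.one_mem _, fun v => by simp⟩
  mul_mem' := by
    rintro θ θ' ⟨h, hh, h1⟩ ⟨h', hh', h2⟩
    refine ⟨h * h', Subgroup.mul_mem _ hh hh', fun v => ?_⟩
    rw [Equiv.Perm.mul_apply, h1, h2, Matrix.mulVec_mulVec, Units.val_mul]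
  inv_mem' := by
    rintro θ ⟨h, hh, h1⟩
    refine ⟨h⁻¹, Subgroup.inv_mem _ hh, fun v => ?_⟩
    apply θ.injective
    rw [perm_apply_inv, h1, Matrix.mulVec_mulVec, GL_mul_inv, Matrix.one_mulVec]

/-- The conjugates of `π` under `N`. -/
def OrbN (N : Subgroup (Matrix.GeneralLinearGroup m K)) (π : Matrix m m K) :
    Set (Matrix m m K) :=
  {P | ∃ h ∈ N, P = (h : Matrix m m K) * π *
    ((h⁻¹ : Matrix.GeneralLinearGroup m K) : Matrix m m K)}

lemma OrbN_self (N : Subgroup (Matrix.GeneralLinearGroup m K)) (π : Matrix m m K) :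
    π ∈ OrbN N π := ⟨1, N.one_mem, by simp⟩

lemma OrbN_sub {Λ : Set (Matrix m m K)} {π P : Matrix m m K} (hπ : π ∈ Λ)
    (hP : P ∈ OrbN (NormG Λ) π) : P ∈ Λ := by
  obtain ⟨h, hh, rfl⟩ := hP
  exact (hh _ hπ).1

lemma OrbN_conj {N : Subgroup (Matrix.GeneralLinearGroup m K)} {π P : Matrix m m K}
    (hP : P ∈ OrbN N π) {h : Matrix.GeneralLinearGroup m K} (hh : h ∈ N) :
    (h : Matrix m m K) * P * ((h⁻¹ : Matrix.GeneralLinearGroup m K) : Matrix m m K) ∈
      OrbN N π := by
  obtain ⟨h', hh', rfl⟩ := hP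
  refine ⟨h * h', Subgroup.mul_mem _ hh hh', ?_⟩
  rw [mul_inv_rev, Units.val_mul, Units.val_mul]
  simp only [mul_assoc]

lemma GenG_conj {Λ : Set (Matrix m m K)} (hΛ : ∀ P ∈ Λ, P * P = P)
    {h g : Matrix.GeneralLinearGroup m K}
    (hh : ∀ P ∈ Λ, (h : Matrix m m K) * P *
      ((h⁻¹ : Matrix.GeneralLinearGroup m K) : Matrix m m K) ∈ Λ)
    (hg : g ∈ GenG Λ) : h * g * h⁻¹ ∈ GenG Λ := by
  rw [GenG, Subgroup.mem_sInf] at hg ⊢
  rintro H ⟨hH, hc⟩
  have h1 := hg (H.comap (MulAut.conj h).toMonoidHom) ⟨closed_conj hH h, by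
    intro P hP
    refine ⟨hΛ P hP, fun t ht => ?_⟩
    obtain ⟨g1, hg1, hgt⟩ := (hc _ (hh P hP)).2 t ht
    refine ⟨h⁻¹ * g1 * h, ?_, ?_⟩
    · rw [Subgroup.mem_comap]
      change h * (h⁻¹ * g1 * h) * h⁻¹ ∈ H
      have e : h * (h⁻¹ * g1 * h) * h⁻¹ = g1 := by group
      rw [e]; exact hg1
    · rw [Units.val_mul, Units.val_mul, hgt]
      simp only [mul_add, add_mul, mul_sub, sub_mul, mul_smul_comm, smul_mul_assoc, mul_one]
      have e : ((h⁻¹ : Matrix.GeneralLinearGroup m K) : Matrix m m K) *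
          ((h : Matrix m m K) * P *
          ((h⁻¹ : Matrix.GeneralLinearGroup m K) : Matrix m m K)) *
          (h : Matrix m m K) = P := by
        rw [← mul_assoc, ← mul_assoc, GL_inv_mul, one_mul, mul_assoc, GL_inv_mul, mul_one]
      rw [e, GL_inv_mul]⟩
  exact h1

/-- **Strong pairs from an orbit.** -/
theorem strong_of_orbit [CharZero K] {J : Matrix m m K} (h1 : J.transpose = -J)
    (h2 : J.det ≠ 0) (N : Subgroup (Matrix.GeneralLinearGroup m K)) (π : Matrix m m K)
    (hN : ∀ P ∈ OrbN N π, P ∈ LagSet J) :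
    IsStrongMTPair (GamN N) J (GenG (OrbN N π)) π where
  skew := h1
  det := h2
  sim := (isMTPair_gen h1 h2 (fun P hP => (hN P hP).1) (fun P hP => (hN P hP).2)).sim
  closed := GenG_closed _
  semi := by
    rintro θ ⟨h, hh, hθ⟩
    refine ⟨RingEquiv.refl K, fun v w => ?_, fun c v => ?_⟩
    · rw [hθ, hθ, hθ, Matrix.mulVec_add]
    · rw [hθ, hθ, Matrix.mulVec_smul]; rfl
  norm := by
    rintro θ ⟨h, hh, hθ⟩ g hg
    refine ⟨h * g * h⁻¹, GenG_conj (fun P hP => (hN P hP).1)
      (fun P hP => OrbN_conj hP hh) hg, fun v => ?_⟩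
    rw [hθ, hθ, Units.val_mul, Units.val_mul, Matrix.mulVec_mulVec, Matrix.mulVec_mulVec,
      mul_assoc, mul_assoc, GL_inv_mul, mul_one]
  coch := GenG_cochar (hN _ (OrbN_self N π)).1 (OrbN_self N π)
  gen := by
    intro H hH hc
    apply GenG_le hH
    rintro _ ⟨h, hh, rfl⟩
    apply hc
    refine ⟨toPerm h, ⟨h, hh, fun v => rfl⟩, 1, Subgroup.one_mem _, fun v => ?_⟩
    rw [Units.val_one, Matrix.one_mulVec, Matrix.one_mulVec]
    have e : ∀ v, toPerm h v = (h : Matrix m m K).mulVec v := fun v => rfl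
    rw [e, e, Matrix.mulVec_mulVec, Matrix.mulVec_mulVec, mul_assoc, GL_inv_mul, mul_one]

/-- Irreducibility from the idempotents. -/
theorem split_of_irr [CharZero K] {J : Matrix m m K} {Λ : Set (Matrix m m K)}
    (hΛ : ∀ P ∈ Λ, P * P = P)
    (hirr : ∀ U : Submodule K (m → K), (∀ P ∈ Λ, ∀ v ∈ U, P.mulVec v ∈ U) → U = ⊥ ∨ U = ⊤) :
    IsSplit J (GenG Λ) (fun _ : Unit => (⊤ : Submodule K (m → K))) := by
  refine ⟨?_, ?_, fun _ _ _ _ _ => trivial, ?_, ?_⟩
  · rw [DirectSum.isInternal_submodule_iff_iSupIndep_and_iSup_eq_top]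
    refine ⟨?_, by simp⟩
    intro i
    simp
  · intro i j hij
    exact absurd (Subsingleton.elim i j) hij
  · intro _ U _ hU
    apply hirr
    intro π hπ v hv
    obtain ⟨g, hg, hgt⟩ := (GenG_cochar (hΛ π hπ) hπ).2 2 two_ne_zero
    have h1 := hU g hg v hv
    have h2 : (g : Matrix _ _ K).mulVec v = π.mulVec v + v := by
      rw [hgt]
      have : (2 : K) • π + (1 - π) = π + 1 := by rw [two_smul]; abel
      rw [this, Matrix.add_mulVec, Matrix.one_mulVec]
    rw [h2] at h1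
    have := U.sub_mem h1 hv
    rwa [add_sub_cancel_right] at this
  · intro i j hij
    exact absurd (Subsingleton.elim i j) hij

/-- The unipotent `1 + x` lies in the group generated by the cocharacters of `P` and `P + x`. -/
theorem unip_mem [CharZero K] {Λ : Set (Matrix m m K)} {P x : Matrix m m K} (hP : P ∈ Λ)
    (hPx : P + x ∈ Λ) (h2 : x * P = 0) (h3 : x * x = 0) :
    ∃ u ∈ GenG Λ, (u : Matrix m m K) = 1 + x := by
  refine ⟨⟨1 + x, 1 - x, one_add_mul h3, one_sub_mul h3⟩, ?_, rfl⟩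
  rw [GenG, Subgroup.mem_sInf]
  rintro H ⟨hH, hc⟩
  obtain ⟨g1, hg1, e1⟩ := (hc _ hP).2 2 two_ne_zero
  obtain ⟨g2, hg2, e2⟩ := (hc _ hPx).2 2 two_ne_zero
  have e : (⟨1 + x, 1 - x, one_add_mul h3, one_sub_mul h3⟩ :
      Matrix.GeneralLinearGroup m K) * g1 = g2 := by
    apply Units.ext
    rw [Units.val_mul, e1, e2]
    change (1 + x) * _ = _
    simp only [mul_add, add_mul, mul_sub, sub_mul, one_mul, mul_one, mul_smul_comm,
      smul_mul_assoc, h2, smul_zero]
    module
  rw [eq_mul_inv_of_mul_eq e]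
  exact H.mul_mem hg2 (H.inv_mem hg1)

end MTP

namespace MTP

variable {K : Type*} [Field K] {m : Type*} [Fintype m] [DecidableEq m]

/-- **Strong pairs from an orbit, trivial symmetries.** If the group `N` is contained in the closed
group generated by the conjugates of `π` under `N`, then all these conjugates are conjugate to `π`
under that closed group. -/
theorem strong_of_orbit_self [CharZero K] {J : Matrix m m K} (h1 : J.transpose = -J)
    (h2 : J.det ≠ 0) (N : Subgroup (Matrix.GeneralLinearGroup m K)) (π : Matrix m m K)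
    (hN : ∀ P ∈ OrbN N π, P ∈ LagSet J) (hG : N ≤ GenG (OrbN N π)) :
    IsStrongMTPair ⊥ J (GenG (OrbN N π)) π where
  skew := h1
  det := h2
  sim := (isMTPair_gen h1 h2 (fun P hP => (hN P hP).1) (fun P hP => (hN P hP).2)).sim
  closed := GenG_closed _
  semi := by
    intro θ hθ
    rw [Subgroup.mem_bot] at hθ
    subst hθ
    exact ⟨RingEquiv.refl K, fun v w => rfl, fun c v => rfl⟩
  norm := by
    intro θ hθ g hg
    rw [Subgroup.mem_bot] at hθ
    subst hθ
    exact ⟨g, hg, fun v => rfl⟩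
  coch := GenG_cochar (hN _ (OrbN_self N π)).1 (OrbN_self N π)
  gen := by
    intro H hH hc
    apply GenG_le hH
    rintro _ ⟨h, hh, rfl⟩
    apply hc
    refine ⟨1, Subgroup.one_mem _, h, hG hh, fun v => ?_⟩
    rw [Equiv.Perm.one_apply, Equiv.Perm.one_apply, Matrix.mulVec_mulVec, Matrix.mulVec_mulVec,
      mul_assoc, GL_inv_mul, mul_one]

end MTP
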