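import Pool.Agent.Helper21.MT.Defs

/-!
Strong symplectic Mumford-Tate pairs of weights zero and one, in matrix form.
-/

open Module

namespace MTPairs

variable {K : Type*} [Field K] {m : Type*} [Fintype m] [DecidableEq m]

/-- The bijection `θ` of `K^m` is a semilinear automorphism: it is additive, and `σ`-linear for
some field automorphism `σ` of `K`. -/
def IsSemilinear (θ : Equiv.Perm (m → K)) : Prop :=
  ∃ σ : K ≃+* K, (∀ v w, θ (v + w) = θ v + θ w) ∧ ∀ (c : K) v, θ (c • v) = σ c • θ v

/-- The matrix `P` is a conjugate `(g θ) π (g θ)⁻¹` of the matrix `π`, with `θ` in the group `Γ`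
of bijections of `K^m` and `g` in `G`. -/
def IsConj (Γ : Subgroup (Equiv.Perm (m → K))) (G : Subgroup (Matrix.GeneralLinearGroup m K))
    (π P : Matrix m m K) : Prop :=
  ∃ θ ∈ Γ, ∃ g ∈ G, ∀ v : m → K,
    P.mulVec ((g : Matrix m m K).mulVec (θ v)) = (g : Matrix m m K).mulVec (θ (π.mulVec v))

/-- `G` is a Zariski closed group of similitudes of the symplectic form with Gram matrix `J`,
normalised by the group `Γ` of semilinear automorphisms of `K^m`, and it is generated, as a
Zariski closed group, by the conjugates under `Γ` and `G` of one cocharacter of `G` with weights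
`0` and `1`, given by the idempotent matrix `π`. -/
structure IsStrongMTPair (Γ : Subgroup (Equiv.Perm (m → K))) (J : Matrix m m K)
    (G : Subgroup (Matrix.GeneralLinearGroup m K)) (π : Matrix m m K) : Prop where
  skew : J.transpose = -J
  det : J.det ≠ 0
  sim : ∀ g ∈ G, ∃ c : K, (g : Matrix m m K).transpose * J * (g : Matrix m m K) = c • J
  closed : ZariskiClosed G
  semi : ∀ θ ∈ Γ, IsSemilinear θ
  norm : ∀ θ ∈ Γ, ∀ g ∈ G, ∃ g' ∈ G, ∀ v : m → K,
    (g' : Matrix m m K).mulVec (θ v) = θ ((g : Matrix m m K).mulVec v)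
  coch : IsCochar G π
  gen : ∀ H : Subgroup (Matrix.GeneralLinearGroup m K), ZariskiClosed H →
    (∀ P, IsConj Γ G π P → IsCochar H P) → G ≤ H

/-- The subspaces `W j` are stable under `Γ`. -/
def IsStable (Γ : Subgroup (Equiv.Perm (m → K))) {ι : Type*} (W : ι → Submodule K (m → K)) :
    Prop :=
  ∀ θ ∈ Γ, ∀ j, ∀ v ∈ W j, θ v ∈ W j

end MTPairs
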