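import Pool.Agent.Helper93.SR.Ten

/-!
The example: tensor powers of the standard representation of the symplectic group.
-/

set_option linter.unusedSimpArgs false
set_option linter.unusedSectionVars false

open Module MTPairs

namespace MTP

section lagr
variable {K : Type*} [Field K] {m : Type*} [Fintype m] [DecidableEq m]

/-- Conjugation by an isometry preserves the Lagrangian idempotents. -/
lemma lag_isom {J A B X : Matrix m m K} (hAB : A * B = 1) (hBA : B * A = 1)
    (hA : A.transpose * J * A = J) (hX : X ∈ LagSet J) : A * X * B ∈ LagSet J := by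
  obtain ⟨h1, h2⟩ := hX
  have e1 : A.transpose * J = J * B := by
    calc A.transpose * J = A.transpose * J * (A * B) := by rw [hAB, mul_one]
      _ = _ := by rw [← mul_assoc, hA]
  have hBA' : B.transpose * A.transpose = 1 := by
    rw [← Matrix.transpose_mul, hAB, Matrix.transpose_one]
  have e2 : J * A = B.transpose * J := by
    calc J * A = B.transpose * A.transpose * J * A := by rw [hBA', one_mul]
      _ = B.transpose * (A.transpose * J * A) := by simp only [mul_assoc]
      _ = _ := by rw [hA]
  constructor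
  · calc A * X * B * (A * X * B) = A * X * (B * A) * X * B := by simp only [mul_assoc]
      _ = A * (X * X) * B := by rw [hBA, mul_one]; simp only [mul_assoc]
      _ = _ := by rw [h1]
  · rw [Matrix.transpose_mul, Matrix.transpose_mul]
    calc B.transpose * (X.transpose * A.transpose) * J + J * (A * X * B)
        = B.transpose * X.transpose * (A.transpose * J) + (J * A) * X * B := by
          simp only [mul_assoc]
      _ = B.transpose * (X.transpose * J + J * X) * B := by
          rw [e1, e2, mul_add, add_mul]; simp only [mul_assoc]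
      _ = B.transpose * J * B := by rw [h2]
      _ = _ := by rw [← e2, mul_assoc, hAB, mul_one]

lemma isom_inv {J A B : Matrix m m K} (hAB : A * B = 1) (hA : A.transpose * J * A = J) :
    B.transpose * J * B = J := by
  have hBA' : B.transpose * A.transpose = 1 := by
    rw [← Matrix.transpose_mul, hAB, Matrix.transpose_one]
  calc B.transpose * J * B = B.transpose * (A.transpose * J * A) * B := by rw [hA]
    _ = (B.transpose * A.transpose) * J * (A * B) := by simp only [mul_assoc]
    _ = _ := by rw [hBA', hAB, one_mul, mul_one]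

/-- `1 + x` is an isometry. -/
lemma isom_one_add {J x : Matrix m m K} (hx : x * x = 0)
    (h : x.transpose * J + J * x = 0) : (1 + x).transpose * J * (1 + x) = J := by
  have h1 : x.transpose * J = - (J * x) := eq_neg_of_add_eq_zero_left h
  rw [Matrix.transpose_add, Matrix.transpose_one, add_mul, add_mul, one_mul, mul_add, mul_add,
    mul_one, mul_one, h1, neg_mul, mul_assoc, hx, mul_zero]
  abel

lemma one_add_mul {x : Matrix m m K} (hx : x * x = 0) : (1 + x) * (1 - x) = 1 := by
  rw [add_mul, mul_sub, mul_sub, one_mul, mul_one, hx, one_mul]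
  abel

lemma one_sub_mul {x : Matrix m m K} (hx : x * x = 0) : (1 - x) * (1 + x) = 1 := by
  rw [sub_mul, mul_add, mul_add, one_mul, mul_one, hx, one_mul]
  abel

/-- Conjugates of closed groups are closed. -/
lemma closed_conj {H : Subgroup (Matrix.GeneralLinearGroup m K)} (hH : ZariskiClosed H)
    (h : Matrix.GeneralLinearGroup m K) :
    ZariskiClosed (H.comap (MulAut.conj h).toMonoidHom) := by
  obtain ⟨P, hP⟩ := hH
  let f : Matrix m m K →ₗ[K] (m × m → K) :=
    { toFun := fun X ij => ((h : Matrix m m K) * X *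
        ((h⁻¹ : Matrix.GeneralLinearGroup m K) : Matrix m m K)) ij.1 ij.2
      map_add' := by intro X Y; ext ij; simp [mul_add, add_mul]
      map_smul' := by intro c X; ext ij; simp }
  choose q hq using fun p => exists_pullback (Matrix.stdBasis K m m) f p
  have hev : ∀ (p : MvPolynomial (m × m) K) (X : Matrix m m K),
      MvPolynomial.eval (fun ij => X ij.1 ij.2) p = ev (Matrix.stdBasis K m m) X p := by
    intro p X
    have : (fun ij : m × m => X ij.1 ij.2) = (Matrix.stdBasis K m m).repr X := by
      ext ij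
      rfl
    rw [ev, this, MvPolynomial.aeval_eq_eval]
  refine ⟨q '' P, fun g => ?_⟩
  rw [Subgroup.mem_comap, hP]
  have hval : ∀ p, MvPolynomial.eval (fun ij => (((MulAut.conj h).toMonoidHom g :
      Matrix.GeneralLinearGroup m K) : Matrix m m K) ij.1 ij.2) p =
      MvPolynomial.eval (fun ij => (g : Matrix m m K) ij.1 ij.2) (q p) := by
    intro p
    rw [hev (q p), hq]
    rfl
  constructor
  · rintro h1 _ ⟨p, hp, rfl⟩
    rw [← hval]
    exact h1 p hp
  · intro h1 p hp
    rw [hval]
    exact h1 _ ⟨p, hp, rfl⟩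

end lagr

section std
variable (K : Type*) [Field K] {n : ℕ}

/-- Signs. -/
def sg (p : Fin 2 × Fin n) : K := if p.1 = 0 then 1 else -1

/-- The standard symplectic form. -/
def J1 (n : ℕ) : Matrix (Fin 2 × Fin n) (Fin 2 × Fin n) K :=
  fun p q => if q = tau p then sg K p else 0

variable {K}

lemma sg_tau (p : Fin 2 × Fin n) : sg K (tau p) = - sg K p := by
  rcases p with ⟨s, a⟩
  fin_cases s <;> simp [sg, tau]

lemma sg_sq (p : Fin 2 × Fin n) : sg K p * sg K p = 1 := by
  unfold sg
  split_ifs <;> ring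

lemma eq_tau_iff {p q : Fin 2 × Fin n} : q = tau p ↔ p = tau q := by
  constructor
  · rintro rfl; rw [tau_tau]
  · rintro rfl; rw [tau_tau]

lemma J1_mul (M : Matrix (Fin 2 × Fin n) (Fin 2 × Fin n) K) (p q : Fin 2 × Fin n) :
    (J1 K n * M) p q = sg K p * M (tau p) q := by
  rw [Matrix.mul_apply]
  simp [J1]

lemma mul_J1 (M : Matrix (Fin 2 × Fin n) (Fin 2 × Fin n) K) (p q : Fin 2 × Fin n) :
    (M * J1 K n) p q = - (sg K q * M p (tau q)) := by
  rw [Matrix.mul_apply]
  have : ∀ r, (J1 K n) r q = if r = tau q then - sg K q else 0 := by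
    intro r
    simp only [J1]
    by_cases h : q = tau r
    · rw [if_pos h, if_pos (eq_tau_iff.mp h), h, sg_tau, neg_neg]
    · rw [if_neg h, if_neg (fun h' => h (eq_tau_iff.mp h'))]
  simp [this, mul_comm]

lemma J1_transpose : (J1 K n).transpose = - J1 K n := by
  ext p q
  rw [Matrix.transpose_apply, Matrix.neg_apply]
  simp only [J1]
  by_cases h : q = tau p
  · rw [if_pos h, if_pos (eq_tau_iff.mp h), h, sg_tau]
  · rw [if_neg h, if_neg (fun h' => h (eq_tau_iff.mp h')), neg_zero]

lemma J1_sq : J1 K n * J1 K n = (-1 : K) • 1 := by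
  ext p q
  rw [J1_mul, Matrix.smul_apply, smul_eq_mul]
  simp only [J1, tau_tau, Matrix.one_apply]
  by_cases h : p = q
  · subst h
    rw [if_pos rfl, if_pos rfl, sg_tau, mul_neg, sg_sq, mul_one]
  · rw [if_neg h, if_neg (Ne.symm h), mul_zero, mul_zero]

/-- The standard Lagrangian idempotent. -/
def X0 (K : Type*) [Field K] (n : ℕ) : Matrix (Fin 2 × Fin n) (Fin 2 × Fin n) K :=
  Matrix.diagonal (fun p => if p.1 = 0 then 1 else 0)

/-- Upper triangular elements. -/
def Up (S : Matrix (Fin n) (Fin n) K) : Matrix (Fin 2 × Fin n) (Fin 2 × Fin n) K :=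
  fun p q => if p.1 = 0 ∧ q.1 = 1 then S p.2 q.2 else 0

/-- Lower triangular elements. -/
def Lw (S : Matrix (Fin n) (Fin n) K) : Matrix (Fin 2 × Fin n) (Fin 2 × Fin n) K :=
  fun p q => if p.1 = 1 ∧ q.1 = 0 then S p.2 q.2 else 0

lemma X0_lag : X0 K n ∈ LagSet (J1 K n) := by
  constructor
  · rw [X0, Matrix.diagonal_mul_diagonal]
    congr 1
    ext p
    split_ifs <;> simp
  · ext p q
    rw [Matrix.add_apply, X0, Matrix.diagonal_transpose, Matrix.diagonal_mul, Matrix.mul_diagonal]
    simp only [J1]
    by_cases h : q = tau p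
    · subst h
      rcases p with ⟨s, a⟩
      fin_cases s <;> simp [tau]
    · simp [h]

lemma X0_Up (S : Matrix (Fin n) (Fin n) K) : X0 K n * Up S = Up S := by
  ext p q
  rw [X0, Matrix.diagonal_mul]
  simp only [Up]
  by_cases h : p.1 = 0 <;> simp [h]

lemma Up_X0 (S : Matrix (Fin n) (Fin n) K) : Up S * X0 K n = 0 := by
  ext p q
  rw [X0, Matrix.mul_diagonal]
  simp only [Up, Matrix.zero_apply]
  by_cases h : q.1 = 0 <;> simp [h]

lemma X0_Lw (S : Matrix (Fin n) (Fin n) K) : X0 K n * Lw S = 0 := by
  ext p q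
  rw [X0, Matrix.diagonal_mul]
  simp only [Lw, Matrix.zero_apply]
  by_cases h : p.1 = 0 <;> simp [h]

lemma Lw_X0 (S : Matrix (Fin n) (Fin n) K) : Lw S * X0 K n = Lw S := by
  ext p q
  rw [X0, Matrix.mul_diagonal]
  simp only [Lw]
  by_cases h : q.1 = 0 <;> simp [h]

lemma Up_sq (S : Matrix (Fin n) (Fin n) K) : Up S * Up S = 0 := by
  rw [← X0_Up S, ← mul_assoc, mul_assoc (X0 K n), Up_X0, mul_zero, zero_mul]

lemma Lw_sq (S : Matrix (Fin n) (Fin n) K) : Lw S * Lw S = 0 := by
  calc Lw S * Lw S = Lw S * X0 K n * Lw S := by rw [Lw_X0]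
    _ = 0 := by rw [mul_assoc, X0_Lw, mul_zero]

lemma Up_sp {S : Matrix (Fin n) (Fin n) K} (hS : S.transpose = S) :
    (Up S).transpose * J1 K n + J1 K n * Up S = 0 := by
  ext p q
  have hS' : ∀ a b, S a b = S b a := fun a b => by
    have := congrFun (congrFun hS b) a
    rwa [Matrix.transpose_apply] at this
  rw [Matrix.add_apply, mul_J1, J1_mul, Matrix.transpose_apply, Matrix.zero_apply]
  rcases p with ⟨s, a⟩
  rcases q with ⟨t, b⟩
  fin_cases s <;> fin_cases t <;> simp [Up, tau, sg, hS' b a]

lemma Lw_sp {S : Matrix (Fin n) (Fin n) K} (hS : S.transpose = S) :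
    (Lw S).transpose * J1 K n + J1 K n * Lw S = 0 := by
  ext p q
  have hS' : ∀ a b, S a b = S b a := fun a b => by
    have := congrFun (congrFun hS b) a
    rwa [Matrix.transpose_apply] at this
  rw [Matrix.add_apply, mul_J1, J1_mul, Matrix.transpose_apply, Matrix.zero_apply]
  rcases p with ⟨s, a⟩
  rcases q with ⟨t, b⟩
  fin_cases s <;> fin_cases t <;> simp [Lw, tau, sg, hS' b a]

lemma conj_Up (S : Matrix (Fin n) (Fin n) K) :
    (1 + Up S) * X0 K n * (1 - Up S) = X0 K n - Up S := by
  rw [add_mul, Up_X0, add_zero, one_mul, mul_sub, mul_one, X0_Up]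

lemma conj_Lw (S : Matrix (Fin n) (Fin n) K) :
    (1 + Lw S) * X0 K n * (1 - Lw S) = X0 K n + Lw S := by
  rw [add_mul, Lw_X0, one_mul, mul_sub, mul_one, add_mul, X0_Lw, Lw_sq, add_zero, sub_zero]

end std

end MTP
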