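import Pool.Agent.Helper93.SR.Res
import Pool.Agent.Helper93.SR.Dec
import Pool.Agent.Helper98.MT.GSplit

/-!
The group theorem for strong Mumford-Tate pairs.
-/

set_option linter.unusedSimpArgs false
set_option linter.unusedSectionVars false

open Module MTPairs

namespace MTP

variable {K : Type*} [Field K] {m : Type*} [Fintype m] [DecidableEq m]
  {ι : Type*} [Fintype ι] [DecidableEq ι] {W : ι → Submodule K (m → K)}
  {Γ : Subgroup (Equiv.Perm (m → K))} {J : Matrix m m K}
  {G : Subgroup (Matrix.GeneralLinearGroup m K)} {π : Matrix m m K}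

/-- The restrictions of the elements of `G`. -/
def GR (U : Submodule K (m → K)) (G : Subgroup (Matrix.GeneralLinearGroup m K)) :
    Set (Module.End K U) := {φ | ∃ g ∈ G, Res U (g : Matrix m m K) φ}

/-- The symmetries induced by `Γ`. -/
def TR (U : Submodule K (m → K)) (Γ : Subgroup (Equiv.Perm (m → K))) :
    Set (Module.End K U ≃+* Module.End K U) := {τ | ∃ θ ∈ Γ, IsInd U θ τ}

section one
variable {U : Submodule K (m → K)} (hU : ∀ g ∈ G, ∀ v ∈ U, (g : Matrix m m K).mulVec v ∈ U)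
include hU

omit [Fintype ι] [DecidableEq ι] in
lemma res_inv {g : Matrix.GeneralLinearGroup m K} (hg : g ∈ G) {a b : Module.End K U}
    (ha : Res U (g : Matrix m m K) a) (hba : b * a = 1) :
    Res U ((g⁻¹ : Matrix.GeneralLinearGroup m K) : Matrix m m K) b := by
  obtain ⟨c, hc⟩ := exists_res (hU g⁻¹ (G.inv_mem hg))
  have h1 := ha.mul hc
  rw [GL_mul_inv] at h1
  have h2 : a * c = 1 := h1.unique Res.one
  have h3 : b = c := by
    calc b = b * (a * c) := by rw [h2, mul_one]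
      _ = c := by rw [← mul_assoc, hba, one_mul]
  rw [h3]; exact hc

lemma res_conj (hΓ : ∀ θ ∈ Γ, ∀ v ∈ U, θ v ∈ U) {p0 : Module.End K U}
    (hp0 : Res U π p0) {τ : Module.End K U ≃+* Module.End K U} {θ : Equiv.Perm (m → K)}
    (hθ : θ ∈ Γ) (hτ : IsInd U θ τ) {a b : Module.End K U}
    {g : Matrix.GeneralLinearGroup m K} (hg : g ∈ G) (ha : Res U (g : Matrix m m K) a)
    (hba : b * a = 1) {P : Matrix m m K} (hP : ∀ v : m → K,
    P.mulVec ((g : Matrix m m K).mulVec (θ v)) = (g : Matrix m m K).mulVec (θ (π.mulVec v))) :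
    Res U P (a * τ p0 * b) := by
  have hb := res_inv hU hg ha hba
  intro w
  have hθ' : ∀ v ∈ U, θ⁻¹ v ∈ U := hΓ θ⁻¹ (Γ.inv_mem hθ)
  have e1 : ((b w : U) : m → K) = θ ((⟨_, hθ' _ (b w).2⟩ : U) : m → K) :=
    (perm_apply_inv θ _).symm
  have e2 : (g : Matrix m m K).mulVec (((g⁻¹ : Matrix.GeneralLinearGroup m K) :
      Matrix m m K).mulVec (w : m → K)) = w := by
    rw [Matrix.mulVec_mulVec, GL_mul_inv, Matrix.one_mulVec]
  rw [mul_assoc, Module.End.mul_apply, ha, Module.End.mul_apply, hτ p0 _ _ e1, hp0, ← hP,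
    ← e1, hb, e2]

lemma res_of_sc (D : IsStrongMTPair Γ J G π) (hΓ : ∀ θ ∈ Γ, ∀ v ∈ U, θ v ∈ U)
    {p0 p : Module.End K U} (hp0 : Res U π p0) (hp : p ∈ SC (GR U G) (TR U Γ) p0) :
    ∃ P, IsConj Γ G π P ∧ Res U P p := by
  obtain ⟨τ, ⟨θ, hθ, hτ⟩, a, ⟨g, hg, ha⟩, b, ⟨g', hg', hb⟩, hab, hba, rfl⟩ := hp
  obtain ⟨P, hP⟩ := exists_isConj D hθ g
  exact ⟨P, ⟨θ, hθ, g, hg, hP⟩, res_conj hU hΓ hp0 hθ hτ hg ha hba hP⟩

lemma sc_of_res (D : IsStrongMTPair Γ J G π) (hΓ : ∀ θ ∈ Γ, ∀ v ∈ U, θ v ∈ U)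
    {p0 p : Module.End K U} (hp0 : Res U π p0) {P : Matrix m m K} (hP : IsConj Γ G π P)
    (hp : Res U P p) : p ∈ SC (GR U G) (TR U Γ) p0 := by
  obtain ⟨θ, hθ, g, hg, hP⟩ := hP
  obtain ⟨a, ha⟩ := exists_res (hU g hg)
  obtain ⟨b, hb⟩ := exists_res (hU g⁻¹ (G.inv_mem hg))
  obtain ⟨σ, hadd, hσ⟩ := D.semi θ hθ
  have hτ := isInd_indE hadd hσ (fun v hv => hΓ θ hθ v hv)
    (fun v hv => hΓ θ⁻¹ (Γ.inv_mem hθ) v hv)
  have hba : b * a = 1 := by
    have h1 := hb.mul ha
    rw [GL_inv_mul] at h1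
    exact h1.unique Res.one
  refine ⟨_, ⟨θ, hθ, hτ⟩, a, ⟨g, hg, ha⟩, b, ⟨g⁻¹, G.inv_mem hg, hb⟩, ?_, hba, ?_⟩
  · have h1 := ha.mul hb
    rw [GL_mul_inv] at h1
    exact h1.unique Res.one
  · exact hp.unique (res_conj hU hΓ hp0 hθ hτ hg ha hba hP)

end one

lemma idem_inv {V : Type*} [AddCommGroup V] [Module K V] {p : Module.End K V} (hp : p * p = p)
    {t : K} (ht : t ≠ 0) : (1 + (t - 1) • p) * (1 + (t⁻¹ - 1) • p) = 1 := by
  simp only [mul_add, add_mul, mul_one, one_mul, smul_mul_assoc, mul_smul_comm, hp]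
  have : (t - 1) + (t⁻¹ - 1) + (t - 1) * (t⁻¹ - 1) = 0 := by field_simp; ring
  trans (1 + ((t - 1) + (t⁻¹ - 1) + (t - 1) * (t⁻¹ - 1)) • p)
  · module
  · rw [this, zero_smul, add_zero]

/-- The abstract data attached to a summand of a strong pair. -/
theorem strU [CharZero K] (D : IsStrongMTPair Γ J G π) (hW : IsSplit J G W)
    (hR : IsStable Γ W) (j : ι) (hne : W j ≠ ⊥) {p0 : Module.End K (W j)}
    (hp0 : Res (W j) π p0) : Str (form J W j) (GR (W j) G) (TR (W j) Γ) p0 := by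
  have hint := hW.internal
  have hU : ∀ g ∈ G, ∀ v ∈ W j, (g : Matrix m m K).mulVec v ∈ W j :=
    fun g hg => hW.stable g hg j
  have hΓ : ∀ θ ∈ Γ, ∀ v ∈ W j, θ v ∈ W j := fun θ hθ => hR θ hθ j
  have hΓ' : ∀ θ ∈ Γ, ∀ v ∈ W j, θ⁻¹ v ∈ W j := fun θ hθ => hΓ θ⁻¹ (Γ.inv_mem hθ)
  -- restrictions of one parameter subgroups
  have hone : ∀ (P : Matrix m m K) (p : Module.End K (W j)), Res (W j) P p → ∀ t : K,
      Res (W j) (t • P + (1 - P)) (1 + (t - 1) • p) := by
    intro P p hP t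
    have h1 := (Res.one (U := W j)).add (hP.smul (t - 1))
    have e : (1 : Matrix m m K) + (t - 1) • P = t • P + (1 - P) := by module
    rwa [e] at h1
  refine
    { nt := (Submodule.nontrivial_iff_ne_bot).mpr hne
      nd := form_nd D.skew D.det hint hW.orth j
      alt := form_alt D.skew j
      one := ⟨1, G.one_mem, Res.one⟩
      mul := ?_
      inv := ?_
      sim := ?_
      irr := ?_
      semi := ?_
      rk := ?_
      tone := ⟨1, Γ.one_mem, isInd_refl⟩
      tmul := ?_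
      tinv := ?_
      tgrp := ?_
      idem := ?_
      cpt := ?_
      genA := ?_
      genB := ?_ }
  · rintro a ⟨g, hg, ha⟩ b ⟨g', hg', hb⟩
    exact ⟨g * g', G.mul_mem hg hg', ha.mul hb⟩
  · rintro a ⟨g, hg, ha⟩
    obtain ⟨b, hb⟩ := exists_res (hU g⁻¹ (G.inv_mem hg))
    refine ⟨b, ⟨g⁻¹, G.inv_mem hg, hb⟩, ?_, ?_⟩
    · have h1 := ha.mul hb
      rw [GL_mul_inv] at h1
      exact h1.unique Res.one
    · have h1 := hb.mul ha
      rw [GL_inv_mul] at h1
      exact h1.unique Res.one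
  · rintro a ⟨g, hg, ha⟩
    obtain ⟨c, hc⟩ := D.sim g hg
    refine ⟨c, fun v w => ?_⟩
    rw [form_apply, form_apply, ha, ha]
    have e : ((g : Matrix m m K).mulVec (v : m → K)) ⬝ᵥ J.mulVec ((g : Matrix m m K).mulVec
        (w : m → K)) = (v : m → K) ⬝ᵥ ((g : Matrix m m K).transpose * J * g).mulVec
          (w : m → K) := by
      rw [← Matrix.mulVec_mulVec, ← Matrix.mulVec_mulVec, Matrix.dotProduct_mulVec (v : m → K),
        Matrix.vecMul_transpose]
    rw [e, hc, Matrix.smul_mulVec, dotProduct_smul, smul_eq_mul]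
  · intro W' hW'
    have := hW.irr j (W'.map (W j).subtype) (by
      rintro _ ⟨v, -, rfl⟩
      exact v.2) (by
      rintro g hg _ ⟨v, hv, rfl⟩
      obtain ⟨a, ha⟩ := exists_res (hU g hg)
      exact ⟨a v, hW' a ⟨g, hg, ha⟩ v hv, ha v⟩)
    rcases this with h1 | h1
    · left
      rw [eq_bot_iff]
      intro w hw
      have h2 : (w : m → K) ∈ W'.map (W j).subtype := ⟨w, hw, rfl⟩
      rw [h1, Submodule.mem_bot] at h2
      exact Subtype.ext h2
    · right
      rw [eq_top_iff]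
      rintro ⟨v, hv⟩ -
      rw [← h1] at hv
      obtain ⟨w, hw, hwv⟩ := hv
      have : w = ⟨v, by rw [← hwv]; exact w.2⟩ := Subtype.ext hwv
      rw [← this]; exact hw
  · rintro τ ⟨θ, hθ, hτ⟩
    obtain ⟨σ, hadd, hσ⟩ := D.semi θ hθ
    exact ⟨σ, fun c x => hτ.semi hσ (hΓ' θ hθ) c x⟩
  · rintro τ ⟨θ, hθ, hτ⟩ x
    obtain ⟨σ, hadd, hσ⟩ := D.semi θ hθ
    exact hτ.rk hadd hσ (hΓ θ hθ) (hΓ' θ hθ) x
  · rintro τ ⟨θ, hθ, hτ⟩ τ' ⟨θ', hθ', hτ'⟩
    exact ⟨θ * θ', Γ.mul_mem hθ hθ', hτ.trans hτ' (hΓ θ' hθ')⟩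
  · rintro τ ⟨θ, hθ, hτ⟩
    exact ⟨θ⁻¹, Γ.inv_mem hθ, hτ.symm⟩
  · rintro τ ⟨θ, hθ, hτ⟩ a ⟨g, hg, ha⟩
    obtain ⟨g', hg', h⟩ := D.norm θ hθ g hg
    exact ⟨g', hg', hτ.res (hΓ' θ hθ) h ha⟩
  · have h1 := hp0.mul hp0
    rw [D.coch.1] at h1
    exact h1.unique hp0
  · intro p hp t ht
    obtain ⟨P, hPc, hP⟩ := res_of_sc hU D hΓ hp0 hp
    obtain ⟨h, hh, hht⟩ := (smat_cochar D hPc).2 t ht
    refine ⟨h, hh, ?_⟩
    rw [hht]
    exact hone _ _ hP t
  · rintro M hM a ⟨g, hg, ha⟩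
    let N : Submodule K (Matrix m m K) :=
      { carrier := {A | ∃ φ ∈ M, Res (W j) A φ}
        add_mem' := by
          rintro A B ⟨φ, hφ, hA⟩ ⟨ψ, hψ, hB⟩
          exact ⟨φ + ψ, M.add_mem hφ hψ, hA.add hB⟩
        zero_mem' := ⟨0, M.zero_mem, Res.zero⟩
        smul_mem' := by
          rintro c A ⟨φ, hφ, hA⟩
          exact ⟨c • φ, M.smul_mem hφ c, hA.smul c⟩ }
    let H : Subgroup (Matrix.GeneralLinearGroup m K) :=
      { carrier := {g | g ∈ G ∧ (g : Matrix m m K) ∈ N}
        one_mem' := ⟨G.one_mem, 1, M.one_mem, Res.one⟩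
        mul_mem' := by
          rintro g g' ⟨hg, φ, hφ, hA⟩ ⟨hg', ψ, hψ, hB⟩
          exact ⟨G.mul_mem hg hg', φ * ψ, M.mul_mem hφ hψ, hA.mul hB⟩
        inv_mem' := by
          rintro g ⟨hg, φ, hφ, hA⟩
          obtain ⟨b, hb⟩ := exists_res (hU g⁻¹ (G.inv_mem hg))
          have h1 := hb.mul hA
          rw [GL_inv_mul] at h1
          have h2 : b * φ = 1 := h1.unique Res.one
          exact ⟨G.inv_mem hg, b, inv_mem_subalgebra (A := Module.End K (W j)) M hφ h2, hb⟩ }
    have hHclosed : ZariskiClosed H := closed_of_linear G H D.closed N fun g => Iff.rfl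
    have hGH := D.gen H hHclosed (by
      intro P hPc
      obtain ⟨h1, h2⟩ := smat_cochar D hPc
      refine ⟨h1, fun t ht => ?_⟩
      obtain ⟨h, hh, hht⟩ := h2 t ht
      have hPU : ∀ v ∈ W j, P.mulVec v ∈ W j := by
        intro v hv
        obtain ⟨h', hh', hht'⟩ := h2 2 two_ne_zero
        have h3 := hU h' hh' v hv
        rw [hht'] at h3
        have h4 : ((2 : K) • P + (1 - P)).mulVec v = P.mulVec v + v := by
          have : (2 : K) • P + (1 - P) = P + 1 := by module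
          rw [this, Matrix.add_mulVec, Matrix.one_mulVec]
        rw [h4] at h3
        have := (W j).sub_mem h3 hv
        rwa [add_sub_cancel_right] at this
      obtain ⟨p, hp⟩ := exists_res hPU
      refine ⟨h, ⟨hh, 1 + (t - 1) • p, M.add_mem M.one_mem (M.smul_mem
        (hM p (sc_of_res hU D hΓ hp0 hPc hp)) _), ?_⟩, hht⟩
      rw [hht]
      exact hone _ _ hp t)
    obtain ⟨-, φ, hφ, hA⟩ := hGH hg
    rw [ha.unique hA]; exact hφ
  · rintro M hM a ⟨γ, hγ, ha⟩ b hb hab hba x hx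
    let F : Module.End K (W j) →ₗ[K] Matrix m m K :=
      (matL hint) ∘ₗ (LinearMap.single K (fun j => Module.End K (W j)) j)
    have hF : ∀ x, F x = mat hint (Pi.single j x) := fun x => rfl
    have hFinj : Function.Injective F := by
      intro x y hxy
      have := mat_inj hint hxy
      exact Pi.single_injective j this
    -- conjugation
    have hconj : ∀ g ∈ G, ∀ (a b x : Module.End K (W j)), Res (W j) (g : Matrix m m K) a →
        b * a = 1 → (g : Matrix m m K) * F x *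
          ((g⁻¹ : Matrix.GeneralLinearGroup m K) : Matrix m m K) = F (a * x * b) := by
      intro g hg a b x ha hba
      obtain ⟨A, hA⟩ := exists_mat hint (hW.stable g hg)
      obtain ⟨B, hB⟩ := exists_mat hint (hW.stable g⁻¹ (G.inv_mem hg))
      have h1 : A j = a := by
        apply Res.unique (U := W j) (A := (g : Matrix m m K)) _ ha
        intro v
        rw [hA]; exact (mat_mulVec hint A j v).symm
      have h2 : B j = b := by
        apply Res.unique (U := W j)
          (A := ((g⁻¹ : Matrix.GeneralLinearGroup m K) : Matrix m m K)) _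
          (res_inv hU hg ha hba)
        intro v
        rw [hB]; exact (mat_mulVec hint B j v).symm
      rw [hF, hF, hA, hB, ← mat_mul, ← mat_mul]
      congr 1
      funext i
      by_cases hi : i = j
      · subst hi; simp [h1, h2]
      · simp [hi]
    have key := smat_normal D (M.map F) (by
      rintro P hPc t ht h hh hht _ ⟨x, hx, rfl⟩
      have hPU : ∀ v ∈ W j, P.mulVec v ∈ W j := by
        intro v hv
        obtain ⟨h', hh', hht'⟩ := (smat_cochar D hPc).2 2 two_ne_zero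
        have h3 := hU h' hh' v hv
        rw [hht'] at h3
        have h4 : ((2 : K) • P + (1 - P)).mulVec v = P.mulVec v + v := by
          have : (2 : K) • P + (1 - P) = P + 1 := by module
          rw [this, Matrix.add_mulVec, Matrix.one_mulVec]
        rw [h4] at h3
        have := (W j).sub_mem h3 hv
        rwa [add_sub_cancel_right] at this
      obtain ⟨p, hp⟩ := exists_res hPU
      have hpsc := sc_of_res hU D hΓ hp0 hPc hp
      have hpp : p * p = p := by
        have h1 := hp.mul hp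
        rw [(smat_cochar D hPc).1] at h1
        exact h1.unique hp
      have hres : Res (W j) (h : Matrix m m K) (1 + (t - 1) • p) := by
        rw [hht]; exact hone _ _ hp t
      have hinv : (1 + (t⁻¹ - 1) • p) * (1 + (t - 1) • p) = 1 := by
        have := idem_inv hpp (inv_ne_zero ht)
        rwa [inv_inv] at this
      refine ⟨_, hM p hpsc t ht x hx, ?_⟩
      exact (hconj h hh _ _ x hres hinv).symm) hγ (X := F x) ⟨x, hx, rfl⟩
    rw [hconj γ hγ a b x ha hba] at key
    obtain ⟨y, hy, hxy⟩ := key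
    rw [← hFinj hxy]; exact hy

/-- The restriction of a quadratic unipotent element. -/
lemma quad_of_res {U : Submodule K (m → K)} {u : Matrix.GeneralLinearGroup m K}
    {a : Module.End K U} (ha : Res U (u : Matrix m m K) a)
    {r : ℕ} (hq : IsQuadraticOn u U r) (hr0 : 0 < r) :
    (a - 1) * (a - 1) = 0 ∧ a - 1 ≠ 0 ∧ MTP.rk (a - 1) = r := by
  obtain ⟨hq1, hq2⟩ := hq
  have hres := ha.sub (Res.one (U := U))
  have hNN : (a - 1) * (a - 1) = 0 := by
    ext1 w
    apply Subtype.ext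
    rw [Module.End.mul_apply, hres, hres]
    exact hq1 w w.2
  have hrk : MTP.rk (a - 1) = r := by
    rw [← hq2]
    have e : U.map ((u : Matrix m m K) - 1).mulVecLin =
        (LinearMap.range (a - 1)).map U.subtype := by
      apply le_antisymm
      · rintro _ ⟨v, hv, rfl⟩
        exact ⟨(a - 1) ⟨v, hv⟩, ⟨_, rfl⟩, hres ⟨v, hv⟩⟩
      · rintro _ ⟨_, ⟨v, rfl⟩, rfl⟩
        exact ⟨v, v.2, (hres v).symm⟩
    rw [e, Submodule.finrank_map_subtype_eq]
    rfl
  refine ⟨hNN, ?_, hrk⟩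
  intro h0
  rw [h0] at hrk
  have : MTP.rk (0 : Module.End K U) = 0 := rk_eq_zero.mpr rfl
  omega

/-- The restriction of a quadratic unipotent element, existence. -/
lemma quad_res (hW : IsSplit J G W) {j : ι} {u : Matrix.GeneralLinearGroup m K} (hu : u ∈ G)
    {r : ℕ} (hq : IsQuadraticOn u (W j) r) (hr0 : 0 < r) :
    ∃ a ∈ GR (W j) G, (a - 1) * (a - 1) = 0 ∧ a - 1 ≠ 0 ∧ MTP.rk (a - 1) = r := by
  obtain ⟨a, ha⟩ := exists_res (hW.stable u hu j)
  exact ⟨a, ⟨u, hu, ha⟩, quad_of_res ha hq hr0⟩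

/-- **The group theorem**, from the Lie algebras of the summands. -/
theorem isFull_of_core [IsAlgClosed K] [CharZero K] (D : IsStrongMTPair Γ J G π)
    (hW : IsSplit J G W) (hR : IsStable Γ W) (hnt : ∀ j, W j ≠ ⊥)
    (hq : ∀ j, ∀ p0 : Module.End K (W j), Str (form J W j) (GR (W j) G) (TR (W j) Γ) p0 →
      ∀ z, IsSk (form J W j) z → z ∈ SL (form J W j) (GR (W j) G) (TR (W j) Γ) p0) :
    IsFull J G W := by
  classical
  have hG := isMTPair_of_strong D
  obtain ⟨n, ⟨b⟩⟩ := exists_basis (W := W)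
  have D' := grpCoreS b hG hW hnt
  have hfull : ∀ j, ∀ z, IsSk (form J W j) z →
      z ∈ GrpCore.LJ (form J W) (GS G hW.internal) j := by
    intro j z hz
    have hU : ∀ g ∈ G, ∀ v ∈ W j, (g : Matrix m m K).mulVec v ∈ W j :=
      fun g hg => hW.stable g hg j
    have hΓ : ∀ θ ∈ Γ, ∀ v ∈ W j, θ v ∈ W j := fun θ hθ => hR θ hθ j
    have hpres : ∀ (P : Matrix m m K), IsCochar G P → ∀ j, ∀ v ∈ W j, P.mulVec v ∈ W j := by
      rintro P ⟨hP, ht⟩ j v hv
      obtain ⟨g, hg, hgt⟩ := ht 2 two_ne_zero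
      have h1 := hW.stable g hg j v hv
      have h2 : (g : Matrix m m K).mulVec v = P.mulVec v + v := by
        rw [hgt]
        have : (2 : K) • P + (1 - P) = P + 1 := by rw [two_smul]; abel
        rw [this, Matrix.add_mulVec, Matrix.one_mulVec]
      rw [h2] at h1
      have := (W j).sub_mem h1 hv
      rwa [add_sub_cancel_right] at this
    obtain ⟨p0, hp0⟩ := exists_res (hpres π D.coch j)
    have S := strU D hW hR j (hnt j) hp0
    have hzS := hq j p0 S z hz
    have hle : SL (form J W j) (GR (W j) G) (TR (W j) Γ) p0 ≤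
        GrpCore.LJ (form J W) (GS G hW.internal) j := by
      apply lieGen_le
      · intro x hx y hy
        exact lieGen_comm hx hy
      · rintro s ⟨p, hp, hsk, rfl⟩
        obtain ⟨k0, k1⟩ := S.sk_ne_zero hsk
        obtain ⟨P, hPc, hP⟩ := res_of_sc hU D hΓ hp0 hp
        have hco := smat_cochar D hPc
        obtain ⟨A, hA⟩ := exists_mat hW.internal (hpres _ hco)
        have hAj : A j = p := by
          apply Res.unique (U := W j) _ hP
          intro v
          rw [hA]; exact (mat_mulVec hW.internal A j v).symm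
        have hAA : A * A = A := by
          apply mat_inj hW.internal
          rw [mat_mul, ← hA, hco.1]
        have hAt : ∀ t : K, t ≠ 0 → 1 + (t - 1) • A ∈ GS G hW.internal := by
          intro t ht
          obtain ⟨h, hh, hht⟩ := hco.2 t ht
          refine ⟨h, hh, ?_⟩
          rw [mat_add, mat_smul, mat_one, ← hA, hht]
          module
        rcases D'.trich hAA hAt with h | h | h
        · apply subset_lieGen
          refine ⟨_, ⟨A, h, rfl⟩, ?_⟩
          change (2 : K) • A j - 1 = _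
          rw [hAj]
        · exact absurd (by rw [← hAj, h]; rfl) k0
        · exact absurd (by rw [← hAj, h]; rfl) k1
    exact hle hzS
  rintro g ⟨c, hc⟩ hpres
  rcases isEmpty_or_nonempty ι with hι | hι
  · have hm : IsEmpty m := by
      by_contra hm
      rw [not_isEmpty_iff] at hm
      obtain ⟨i⟩ := hm
      have h1 : (Pi.single i (1 : K) : m → K) ∈ iSup W := by
        rw [hW.internal.submodule_iSup_eq_top]; trivial
      rw [iSup_of_empty, Submodule.mem_bot] at h1
      have h2 := congrFun h1 i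
      rw [Pi.single_eq_same] at h2
      exact one_ne_zero h2
    have : g = 1 := by
      apply Units.ext
      ext i
      exact hm.elim i
    rw [this]; exact G.one_mem
  obtain ⟨a, ha⟩ := exists_mat hW.internal hpres
  have hm : Nonempty m := by
    obtain ⟨j⟩ := hι
    by_contra hm
    rw [not_nonempty_iff] at hm
    obtain ⟨v, w, hvw⟩ := D'.exists_ne_form j
    apply hvw
    have : v = 0 := by
      apply Subtype.ext
      exact Subsingleton.elim _ _
    rw [this]; simp
  have hc0 : c ≠ 0 := by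
    rintro rfl
    rw [zero_smul] at hc
    have h1 := congrArg Matrix.det hc
    rw [Matrix.det_mul, Matrix.det_mul, Matrix.det_transpose, Matrix.det_zero] at h1
    have hg : (g : Matrix m m K).det ≠ 0 :=
      ((Matrix.isUnit_iff_isUnit_det _).mp g.isUnit).ne_zero
    exact (mul_ne_zero (mul_ne_zero hg hG.det) hg) h1
  obtain ⟨g', hg', hga⟩ := D'.gsp_of_LJ (fun L h1 h2 h3 h4 =>
    goursat (fun j => (Submodule.nontrivial_iff_ne_bot).mpr (hnt j)) (form J W)
      (form_nd hG.skew hG.det hW.internal hW.orth) (form_alt hG.skew) L h1 h2 h3 h4)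
    hfull hc0 (g := a) (fun j v w => sim_form hW.internal ha hc j v w)
  have : g = g' := Units.ext (by rw [ha, hga])
  rw [this]; exact hg'

/-- **The group theorem** for small ranks. -/
theorem isFull_of_small [IsAlgClosed K] [CharZero K] (D : IsStrongMTPair Γ J G π)
    (hW : IsSplit J G W) (hR : IsStable Γ W)
    (hq : ∀ j, ∃ u ∈ G, ∃ r, IsQuadraticOn u (W j) r ∧ 0 < r ∧ 4 * r < finrank K (W j) ∧
      ∀ k d s, Odd k → 3 ≤ k → finrank K (W j) = d ^ k → r ≠ s * d ^ (k - 1)) :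
    IsFull J G W := by
  apply isFull_of_core D hW hR
  · intro j hj
    obtain ⟨u, hu, r, -, h1, h2, -⟩ := hq j
    rw [hj, finrank_bot] at h2
    omega
  · intro j p0 S z hz
    obtain ⟨u, hu, r, hqr, hr0, hr4, hr3⟩ := hq j
    obtain ⟨a, ha, hNN, h0, hrk⟩ := quad_res hW hu hqr hr0
    exact S.full_exact ha hNN h0 (by rw [hrk]; exact hr4) (by rw [hrk]; exact hr3) hz

end MTP
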