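import Pool.Agent.Helper93.SR.Kay

/-!
The coordinate algebra.
-/

set_option linter.unusedSimpArgs false
set_option linter.unusedSectionVars false

open Module

namespace MTP

variable {K : Type*} [Field K] {V : Type*} [AddCommGroup V] [Module K V] [FiniteDimensional K V]

/-- The coordinate algebra. -/
def YY (L : Submodule K (Module.End K V)) (e1 f1 c d : Module.End K V) :
    Submodule K (Module.End K V) :=
  Submodule.span K {z | ∃ x ∈ L, ∃ y ∈ L, z = e1 * (f1 * (x * (d * (y * f1)))) ∨
    z = e1 * (f1 * (x * (c * (y * f1))))}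

namespace PTwo
variable {L : Submodule K (Module.End K V)} {e1 f1 e2 f2 c d : Module.End K V}
  (T : PTwo L e1 f1 e2 f2 c d) [CharZero K]
include T

lemma trace_ne : LinearMap.trace K V (f1 * e1) ≠ 0 := by
  intro h
  apply T.ne1
  apply T.nd _ T.me1
  intro y hy
  obtain ⟨t, ht⟩ := T.xe1 y hy
  have R := T.X.rules
  have e : LinearMap.trace K V (e1 * y) = LinearMap.trace K V (f1 * (e1 * y * e1)) := by
    have : f1 * (e1 * y * e1) = (f1 * (e1 * y)) * e1 := by simp only [mul_assoc]
    rw [this, LinearMap.trace_mul_comm K (f1 * (e1 * y)) e1]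
    congr 1
    simp only [mul_assoc, R]
  rw [e, ht, mul_smul_comm, map_smul, h, smul_zero]

/-- Some element of `L` joins `e1` with the complement. -/
lemma exists_out {k l : Module.End K V} {Q : K} (Y : KL L e1 f1 e2 f2 c d k l Q) :
    ∃ y ∈ L, e1 * (f1 * (y * c)) ≠ 0 ∨ e1 * (f1 * (y * d)) ≠ 0 := by
  by_contra hcon
  push Not at hcon
  have R := T.X.rules
  have R2 := Y.rules
  have a1 : ∀ y ∈ L, e1 * (f1 * (y * (c + d))) = 0 := by
    intro y hy
    obtain ⟨h1, h2⟩ := hcon y hy
    simp only [mul_add, h1, h2, add_zero]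
  have wc : ∀ z : Module.End K V, z * c = 0 → z * d = 0 → z * (c + d) = 0 := by
    intro z h1 h2; rw [mul_add, h1, h2, add_zero]
  have a2 : ∀ y ∈ L, e1 * (y * (c + d)) = 0 := by
    intro y hy
    have := a1 _ (T.br _ T.me1 y hy)
    simpa [mul_add, sub_mul, mul_assoc, R] using this
  have a3 : ∀ y ∈ L, e2 * (f2 * (y * (c + d))) = 0 := by
    intro y hy
    have h1 := a1 _ (T.br _ Y.hk y hy)
    have h2 : e1 * (f1 * (k * (y * (c + d)))) = 0 := by
      simpa [mul_add, sub_mul, mul_assoc, R, R2] using h1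
    have h3 : k * (e2 * (f2 * (y * (c + d)))) = 0 := by
      rw [← mul_assoc e2, ← mul_assoc k, Y.kef]
      simpa [mul_assoc] using h2
    have h4 : l * (k * (e2 * (f2 * (y * (c + d))))) = 0 := by rw [h3, mul_zero]
    rw [← mul_assoc l, Y.lk] at h4
    simpa [add_mul, mul_assoc, R] using h4
  have a4 : ∀ y ∈ L, e2 * (y * (c + d)) = 0 := by
    intro y hy
    have := a3 _ (T.br _ T.me2 y hy)
    simpa [mul_add, sub_mul, mul_assoc, R] using this
  have a5 : ∀ y ∈ L, (c + d) * (y * (c + d)) = y * (c + d) := by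
    intro y hy
    have hw : c + d = 1 - e1 * f1 - e2 * f2 - f1 * e1 - f2 * e2 := by
      rw [← T.X.sum]; abel
    have : (c + d) * (y * (c + d)) = (1 - e1 * f1 - e2 * f2 - f1 * e1 - f2 * e2) *
        (y * (c + d)) := by rw [← hw]
    rw [this]
    simp only [sub_mul, one_mul, mul_assoc, a1 y hy, a2 y hy, a3 y hy, a4 y hy, mul_zero, sub_zero]
  have hww : (c + d) * (c + d) = c + d := by
    simp only [mul_add, add_mul, R, add_zero, zero_add]
  rcases T.irr (LinearMap.range (c + d)) (by
      rintro z hz _ ⟨v, rfl⟩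
      refine ⟨z ((c + d) v), ?_⟩
      have := congrArg (fun u : Module.End K V => u v) (a5 z hz)
      exact this) with h | h
  · exact T.ncd (LinearMap.range_eq_bot.mp h)
  · apply T.ne1
    have he : e1 * (c + d) = 0 := by simp only [mul_add, R, add_zero]
    apply LinearMap.ext
    intro v
    have hv : v ∈ LinearMap.range (c + d) := by rw [h]; trivial
    obtain ⟨u, rfl⟩ := hv
    have := congrArg (fun w : Module.End K V => w u) he
    simpa using this

/-- A pair of blocks with commutator `e1`. -/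
lemma exists_bm {k l : Module.End K V} {Q : K} (Y : KL L e1 f1 e2 f2 c d k l Q) :
    ∃ x ∈ L, ∃ y ∈ L, ∃ t : K, t ≠ 0 ∧
      e1 * (f1 * (x * (d * (y * (f1 * e1))))) - e1 * (f1 * (y * (c * (x * (f1 * e1))))) = t • e1 := by
  have R := T.X.rules
  -- the commutator of two blocks
  have hcomm : ∀ x ∈ L, ∀ y ∈ L, ∃ t : K,
      e1 * (f1 * (x * (d * (y * (f1 * e1))))) - e1 * (f1 * (y * (c * (x * (f1 * e1)))))
        = t • e1 := by
    intro x hx y hy
    have h1 := T.br _ (T.B hx) _ (T.M hy)
    have e : (e1 * f1 * x * d + c * x * (f1 * e1)) * (e1 * f1 * y * c + d * y * (f1 * e1)) -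
        (e1 * f1 * y * c + d * y * (f1 * e1)) * (e1 * f1 * x * d + c * x * (f1 * e1)) =
        e1 * (f1 * (x * (d * (y * (f1 * e1))))) - e1 * (f1 * (y * (c * (x * (f1 * e1))))) := by
      simp only [mul_add, add_mul, mul_assoc, R, mul_zero, add_zero, zero_add]
    rw [e] at h1
    apply T.corner1 h1
    simp only [mul_sub, sub_mul, mul_assoc, R]
  obtain ⟨y, hy, h | h⟩ := T.exists_out Y
  · -- the block towards `c`
    have hM : e1 * f1 * y * c + d * y * (f1 * e1) ≠ 0 := by
      intro h0
      apply h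
      have := congrArg (fun w => e1 * (f1 * w)) h0
      simpa [mul_add, mul_assoc, R] using this
    obtain ⟨z, hz, hne⟩ : ∃ z ∈ L,
        LinearMap.trace K V ((e1 * f1 * y * c + d * y * (f1 * e1)) * z) ≠ 0 := by
      by_contra hcon
      push Not at hcon
      exact hM (T.nd _ (T.M hy) hcon)
    have hx := T.br _ T.me1 z hz
    obtain ⟨t, ht⟩ := hcomm _ hx y hy
    refine ⟨_, hx, y, hy, t, ?_, ht⟩
    rintro rfl
    apply hne
    rw [zero_smul] at ht
    have h2 := congrArg (fun w => LinearMap.trace K V (f1 * w)) ht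
    simp only [mul_sub, sub_mul, mul_assoc, R, map_sub, mul_zero, map_zero, sub_zero,
      zero_sub, mul_neg, neg_mul, sub_neg_eq_add, map_neg, mul_add, map_add] at h2
    rw [← h2, add_mul, map_add, add_comm]
    congr 1
    · have t1 : f1 * (e1 * (z * (d * (y * (f1 * e1))))) = (f1 * e1 * z) * (d * y * (f1 * e1)) := by
        simp only [mul_assoc]
      have t2 : d * y * (f1 * e1) * z = (d * y * (f1 * e1)) * (f1 * e1 * z) := by
        simp only [mul_assoc, R]
      rw [t1, t2, LinearMap.trace_mul_comm]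
    · have t1 : f1 * (y * (c * (z * e1))) = (f1 * y * c * z) * e1 := by
        simp only [mul_assoc]
      have t2 : e1 * f1 * y * c * z = e1 * (f1 * y * c * z) := by
        simp only [mul_assoc]
      rw [t1, t2, LinearMap.trace_mul_comm]
  · have hB : e1 * f1 * y * d + c * y * (f1 * e1) ≠ 0 := by
      intro h0
      apply h
      have := congrArg (fun w => e1 * (f1 * w)) h0
      simpa [mul_add, mul_assoc, R] using this
    obtain ⟨z, hz, hne⟩ : ∃ z ∈ L,
        LinearMap.trace K V ((e1 * f1 * y * d + c * y * (f1 * e1)) * z) ≠ 0 := by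
      by_contra hcon
      push Not at hcon
      exact hB (T.nd _ (T.B hy) hcon)
    have hx := T.br z hz _ T.me1
    obtain ⟨t, ht⟩ := hcomm y hy _ hx
    refine ⟨y, hy, _, hx, t, ?_, ht⟩
    rintro rfl
    apply hne
    rw [zero_smul] at ht
    have h2 := congrArg (fun w => LinearMap.trace K V (f1 * w)) ht
    simp only [mul_sub, sub_mul, mul_assoc, R, map_sub, mul_zero, map_zero, sub_zero,
      zero_sub, mul_neg, neg_mul, sub_neg_eq_add, map_neg, mul_add, map_add] at h2
    rw [← h2, add_mul, map_add]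
    congr 1
    · have t1 : f1 * (y * (d * (z * e1))) = (f1 * y * d * z) * e1 := by
        simp only [mul_assoc]
      have t2 : e1 * f1 * y * d * z = e1 * (f1 * y * d * z) := by
        simp only [mul_assoc]
      rw [t1, t2, LinearMap.trace_mul_comm]
    · have t1 : f1 * (e1 * (z * (c * (y * (f1 * e1))))) = (f1 * e1 * z) * (c * y * (f1 * e1)) := by
        simp only [mul_assoc]
      have t2 : c * y * (f1 * e1) * z = (c * y * (f1 * e1)) * (f1 * e1 * z) := by
        simp only [mul_assoc, R]
      rw [t1, t2, LinearMap.trace_mul_comm]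

end PTwo

end MTP
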