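import Pool.Agent.Helper93.SR.Coord

/-!
The coordinate algebra is closed under multiplication and contains the top corner of `L`.
-/

set_option linter.unusedSimpArgs false
set_option linter.unusedSectionVars false

open Module

namespace MTP

variable {K : Type*} [Field K] {V : Type*} [AddCommGroup V] [Module K V] [FiniteDimensional K V]

namespace PTwo
variable {L : Submodule K (Module.End K V)} {e1 f1 e2 f2 c d : Module.End K V}
  (T : PTwo L e1 f1 e2 f2 c d) [CharZero K]
include T

lemma gen1 {x y : Module.End K V} (hx : x ∈ L) (hy : y ∈ L) :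
    e1 * (f1 * (x * (d * (y * f1)))) ∈ YY L e1 f1 c d :=
  Submodule.subset_span ⟨x, hx, y, hy, Or.inl rfl⟩

lemma gen2 {x y : Module.End K V} (hx : x ∈ L) (hy : y ∈ L) :
    e1 * (f1 * (x * (c * (y * f1)))) ∈ YY L e1 f1 c d :=
  Submodule.subset_span ⟨x, hx, y, hy, Or.inr rfl⟩

lemma one_mem {k l : Module.End K V} {Q : K} (Y : KL L e1 f1 e2 f2 c d k l Q) :
    e1 * f1 ∈ YY L e1 f1 c d := by
  have R := T.X.rules
  obtain ⟨x, hx, y, hy, t, ht0, ht⟩ := T.exists_bm Y
  have h1 := congrArg (fun w => w * f1) ht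
  simp only [sub_mul, mul_assoc, R, smul_mul_assoc] at h1
  have h2 : e1 * f1 = t⁻¹ • (e1 * (f1 * (x * (d * (y * f1)))) - e1 * (f1 * (y * (c * (x * f1))))) := by
    rw [h1, smul_smul, inv_mul_cancel₀ ht0, one_smul]
  rw [h2]
  exact Submodule.smul_mem _ _ (Submodule.sub_mem _ (T.gen1 hx hy) (T.gen2 hy hx))

lemma YY_end {u : Module.End K V} (hu : u ∈ YY L e1 f1 c d) :
    u * (e1 * f1) = u ∧ e1 * (f1 * u) = u := by
  have R := T.X.rules
  refine Submodule.span_induction ?_ ?_ ?_ ?_ hu
  · rintro _ ⟨x, hx, y, hy, rfl | rfl⟩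
    · constructor <;> simp only [mul_assoc, R]
    · constructor <;> simp only [mul_assoc, R]
  · simp
  · rintro a b _ _ ⟨ha, ha'⟩ ⟨hb, hb'⟩
    exact ⟨by rw [add_mul, ha, hb], by rw [mul_add, mul_add, ha', hb']⟩
  · rintro t a _ ⟨ha, ha'⟩
    exact ⟨by rw [smul_mul_assoc, ha], by rw [mul_smul_comm, mul_smul_comm, ha']⟩

lemma YY_mul_A {u z : Module.End K V} (hu : u ∈ YY L e1 f1 c d) (hz : z ∈ L) :
    ∃ w ∈ L, u * (e1 * (f1 * (z * (e2 * f2)))) = e1 * (f1 * (w * (e2 * f2))) := by
  have R := T.X.rules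
  refine Submodule.span_induction ?_ ?_ ?_ ?_ hu
  · rintro _ ⟨x, hx, y, hy, rfl | rfl⟩
    · refine ⟨_, T.br _ (T.br _ (T.B hx) _ (T.br _ (T.M hy) _ T.mf1)) _ (T.A hz), ?_⟩
      have h1 : (e1 * f1 * y * c + d * y * (f1 * e1)) * f1 -
          f1 * (e1 * f1 * y * c + d * y * (f1 * e1)) = d * (y * f1) - f1 * (y * c) := by
        simp only [mul_add, add_mul, mul_assoc, R, mul_zero, add_zero, zero_add]
      have h2 : (e1 * f1 * x * d + c * x * (f1 * e1)) * (d * (y * f1) - f1 * (y * c)) -
          (d * (y * f1) - f1 * (y * c)) * (e1 * f1 * x * d + c * x * (f1 * e1)) =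
          e1 * (f1 * (x * (d * (y * f1)))) - c * (x * (f1 * (y * c))) - d * (y * (f1 * (x * d)))
            + f1 * (y * (c * (x * (f1 * e1)))) := by
        simp only [mul_add, add_mul, mul_sub, sub_mul, mul_assoc, R, mul_zero, add_zero, zero_add,
          zero_sub, sub_zero]
        abel
      rw [h1, h2]
      simp only [mul_add, add_mul, mul_sub, sub_mul, mul_assoc, R, mul_zero, zero_mul, add_zero,
        zero_add, zero_sub, sub_zero]
    · refine ⟨_, T.br _ (T.br _ (T.M hx) _ (T.br _ (T.B hy) _ T.mf1)) _ (T.A hz), ?_⟩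
      have h1 : (e1 * f1 * y * d + c * y * (f1 * e1)) * f1 -
          f1 * (e1 * f1 * y * d + c * y * (f1 * e1)) = c * (y * f1) - f1 * (y * d) := by
        simp only [mul_add, add_mul, mul_assoc, R, mul_zero, add_zero, zero_add]
      have h2 : (e1 * f1 * x * c + d * x * (f1 * e1)) * (c * (y * f1) - f1 * (y * d)) -
          (c * (y * f1) - f1 * (y * d)) * (e1 * f1 * x * c + d * x * (f1 * e1)) =
          e1 * (f1 * (x * (c * (y * f1)))) - d * (x * (f1 * (y * d))) - c * (y * (f1 * (x * c)))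
            + f1 * (y * (d * (x * (f1 * e1)))) := by
        simp only [mul_add, add_mul, mul_sub, sub_mul, mul_assoc, R, mul_zero, add_zero, zero_add,
          zero_sub, sub_zero]
        abel
      rw [h1, h2]
      simp only [mul_add, add_mul, mul_sub, sub_mul, mul_assoc, R, mul_zero, zero_mul, add_zero,
        zero_add, zero_sub, sub_zero]
  · exact ⟨0, L.zero_mem, by simp⟩
  · rintro a b _ _ ⟨w, hw, ha⟩ ⟨w', hw', hb⟩
    exact ⟨w + w', L.add_mem hw hw', by rw [add_mul, ha, hb]; simp only [mul_add, add_mul]⟩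
  · rintro t a _ ⟨w, hw, ha⟩
    exact ⟨t • w, L.smul_mem _ hw, by
      rw [smul_mul_assoc, ha]; simp only [smul_mul_assoc, mul_smul_comm]⟩

lemma AA_mul {k l : Module.End K V} {Q : K} (Y : KL L e1 f1 e2 f2 c d k l Q)
    {u z : Module.End K V} (hu : u ∈ YY L e1 f1 c d) (hz : z ∈ L) :
    e1 * (f1 * (z * (e2 * (f2 * (l * u))))) ∈ YY L e1 f1 c d := by
  have R := T.X.rules
  have R2 := Y.rules
  refine Submodule.span_induction ?_ ?_ ?_ ?_ hu
  · rintro _ ⟨x, hx, y, hy, rfl | rfl⟩
    · have hb := T.br _ (T.A hz) _ (T.br _ Y.hl _ (T.B hx))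
      have h1 : l * (e1 * f1 * x * d + c * x * (f1 * e1)) -
          (e1 * f1 * x * d + c * x * (f1 * e1)) * l =
          l * (e1 * (f1 * (x * d))) - c * (x * (f1 * (e1 * l))) := by
        simp only [mul_add, add_mul, mul_assoc, R, R2, mul_zero, add_zero, zero_add]
      have := T.gen1 hb hy
      rw [h1] at this
      have e : e1 * (f1 * (z * (e2 * (f2 * (l * (e1 * (f1 * (x * (d * (y * f1))))))))))
          = e1 * (f1 * (((e1 * f1 * z * (e2 * f2) + f2 * e2 * z * (f1 * e1)) *
            (l * (e1 * (f1 * (x * d))) - c * (x * (f1 * (e1 * l)))) -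
            (l * (e1 * (f1 * (x * d))) - c * (x * (f1 * (e1 * l)))) *
            (e1 * f1 * z * (e2 * f2) + f2 * e2 * z * (f1 * e1))) * (d * (y * f1)))) := by
        simp only [mul_add, add_mul, mul_sub, sub_mul, mul_assoc, R, R2, mul_zero, zero_mul,
          add_zero, zero_add, zero_sub, sub_zero, neg_mul, mul_neg, neg_zero]
      rw [e]; exact this
    · have hb := T.br _ (T.A hz) _ (T.br _ Y.hl _ (T.M hx))
      have h1 : l * (e1 * f1 * x * c + d * x * (f1 * e1)) -
          (e1 * f1 * x * c + d * x * (f1 * e1)) * l =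
          l * (e1 * (f1 * (x * c))) - d * (x * (f1 * (e1 * l))) := by
        simp only [mul_add, add_mul, mul_assoc, R, R2, mul_zero, add_zero, zero_add]
      have := T.gen2 hb hy
      rw [h1] at this
      have e : e1 * (f1 * (z * (e2 * (f2 * (l * (e1 * (f1 * (x * (c * (y * f1))))))))))
          = e1 * (f1 * (((e1 * f1 * z * (e2 * f2) + f2 * e2 * z * (f1 * e1)) *
            (l * (e1 * (f1 * (x * c))) - d * (x * (f1 * (e1 * l)))) -
            (l * (e1 * (f1 * (x * c))) - d * (x * (f1 * (e1 * l)))) *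
            (e1 * f1 * z * (e2 * f2) + f2 * e2 * z * (f1 * e1))) * (c * (y * f1)))) := by
        simp only [mul_add, add_mul, mul_sub, sub_mul, mul_assoc, R, R2, mul_zero, zero_mul,
          add_zero, zero_add, zero_sub, sub_zero, neg_mul, mul_neg, neg_zero]
      rw [e]; exact this
  · simp only [mul_zero]; exact Submodule.zero_mem _
  · intro a b _ _ ha hb
    simp only [mul_add]
    exact Submodule.add_mem _ ha hb
  · intro t a _ ha
    simp only [mul_smul_comm]
    exact Submodule.smul_mem _ _ ha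

lemma l_eq {k l : Module.End K V} {Q : K} (Y : KL L e1 f1 e2 f2 c d k l Q) :
    e2 * (f2 * l) = l * (e1 * f1) := by
  have R := T.X.rules
  have R2 := Y.rules
  have h1 : l = l * (e1 * f1) + l * (f2 * e2) := by
    have : l * (e1 * f1 + e2 * f2 + c + f1 * e1 + f2 * e2 + d) = l := by
      rw [T.X.sum, mul_one]
    nth_rewrite 1 [← this]
    simp only [mul_add, mul_assoc, R, R2, add_zero, zero_add]
  have h2 : e2 * (f2 * (l * (e1 * f1))) = l * (e1 * f1) := by
    rw [Y.lef]
    simp only [mul_smul_comm, mul_assoc, R]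
  nth_rewrite 1 [h1]
  simp only [mul_add]
  rw [h2]
  have h3 : f2 * (l * (f2 * e2)) = 0 := by
    rw [← mul_assoc l, ← mul_assoc, Y.flf, zero_mul]
  rw [h3, mul_zero, add_zero]

lemma AA_le {k l : Module.End K V} {Q : K} (Y : KL L e1 f1 e2 f2 c d k l Q)
    {z : Module.End K V} (hz : z ∈ L) :
    e1 * (f1 * (z * (e2 * (f2 * l)))) ∈ YY L e1 f1 c d := by
  have h1 := T.AA_mul Y (T.one_mem Y) hz
  have h2 : e2 * (f2 * (l * (e1 * f1))) = e2 * (f2 * l) := by
    rw [← T.l_eq Y]
    have R := T.X.rules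
    simp only [R]
  rw [h2] at h1
  exact h1

lemma YY_le {k l : Module.End K V} {Q : K} (Y : KL L e1 f1 e2 f2 c d k l Q)
    {u : Module.End K V} (hu : u ∈ YY L e1 f1 c d) :
    ∃ w ∈ L, u = e1 * (f1 * (w * (e2 * (f2 * l)))) := by
  have R := T.X.rules
  obtain ⟨w, hw, h⟩ := T.YY_mul_A hu Y.hk
  refine ⟨w, hw, ?_⟩
  have h1 := congrArg (fun v => v * l) h
  simp only [mul_assoc] at h1
  rw [← h1]
  have h2 : e1 * (f1 * (k * (e2 * (f2 * l)))) = e1 * f1 := by
    rw [← mul_assoc e2, ← mul_assoc k, Y.kef]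
    simp only [mul_assoc, R, Y.kl, mul_add, add_zero]
  rw [h2, (T.YY_end hu).1]

/-- The coordinate algebra is closed under multiplication. -/
lemma YY_mul {k l : Module.End K V} {Q : K} (Y : KL L e1 f1 e2 f2 c d k l Q)
    {u v : Module.End K V} (hu : u ∈ YY L e1 f1 c d) (hv : v ∈ YY L e1 f1 c d) :
    u * v ∈ YY L e1 f1 c d := by
  obtain ⟨w, hw, rfl⟩ := T.YY_le Y hu
  have := T.AA_mul Y hv hw
  simpa [mul_assoc] using this

/-- The top corner of a product. -/
lemma prod_mem {k l : Module.End K V} {Q : K} (Y : KL L e1 f1 e2 f2 c d k l Q)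
    {u v : Module.End K V} (hu : u ∈ L) (hv : v ∈ L) :
    e1 * (f1 * (u * ((f1 * e1 + f2 * e2 + d) * (v * (e1 * f1))))) ∈ YY L e1 f1 c d := by
  have R := T.X.rules
  have R2 := Y.rules
  have hv' := T.br v hv _ T.me1
  simp only [add_mul, mul_add, mul_assoc]
  refine Submodule.add_mem _ (Submodule.add_mem _ ?_ ?_) ?_
  · obtain ⟨t, ht⟩ := T.xf1 u hu
    obtain ⟨t', ht'⟩ := T.xe1 v hv
    have e : e1 * (f1 * (u * (f1 * (e1 * (v * (e1 * f1)))))) =
        e1 * (f1 * u * f1) * (e1 * v * e1) * f1 := by simp only [mul_assoc]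
    rw [e, ht, ht']
    have e' : e1 * (t • f1) * (t' • e1) * f1 = (t' * t) • (e1 * f1) := by
      simp only [smul_mul_assoc, mul_smul_comm, mul_assoc, R, smul_smul]
    rw [e']
    exact Submodule.smul_mem _ _ (T.one_mem Y)
  · have hu' := T.br u hu _ T.mf2
    obtain ⟨t, ht⟩ := T.polar hv' Y.hk
    have hα := T.AA_le Y hu'
    have hα2 := T.AA_le Y hv'
    set α := e1 * (f1 * ((u * f2 - f2 * u) * (e2 * (f2 * l)))) with hαd
    set α2 := e1 * (f1 * ((v * e1 - e1 * v) * (e2 * (f2 * l)))) with hα2d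
    have hαk : α * k = e1 * (f1 * (u * f2)) := by
      rw [hαd]
      simp only [mul_assoc, Y.lk, mul_sub, sub_mul, mul_add, R, add_zero, sub_zero, zero_mul,
        mul_zero]
    have h3 : e1 * (f1 * ((v * e1 - e1 * v) * (e2 * (k * f1)))) = Q • α2 := by
      have : e2 * (k * f1) = Q • (l * (e1 * f1)) := by
        rw [Y.lef, smul_smul, mul_inv_cancel₀ Y.Q0, one_smul]
      rw [this, ← T.l_eq Y, hα2d]
      simp only [mul_smul_comm]
    have h4 : e1 * (f1 * (k * (e2 * (v * (e1 * f1))))) = t • (e1 * f1) - Q • α2 := by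
      have h5 := congrArg (fun w => w * f1) ht
      simp only [add_mul, smul_mul_assoc, mul_assoc, R] at h5
      rw [← h5, ← h3]
      simp only [mul_sub, sub_mul, mul_assoc, R, mul_zero, sub_zero, zero_sub]
      abel
    have e : e1 * (f1 * (u * (f2 * (e2 * (v * (e1 * f1)))))) = t • α - Q • (α * α2) := by
      have e5 : e1 * (f1 * (u * (f2 * (e2 * (v * (e1 * f1)))))) =
          (α * k) * (e2 * (v * (e1 * f1))) := by
        rw [hαk]; simp only [mul_assoc]
      have e6 : (α * k) * (e2 * (v * (e1 * f1))) =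
          (α * (e1 * f1)) * (k * (e2 * (v * (e1 * f1)))) := by
        rw [(T.YY_end hα).1]; simp only [mul_assoc]
      rw [e5, e6]
      have e7 : (α * (e1 * f1)) * (k * (e2 * (v * (e1 * f1)))) =
          α * (e1 * (f1 * (k * (e2 * (v * (e1 * f1)))))) := by simp only [mul_assoc]
      rw [e7, h4, mul_sub, mul_smul_comm, mul_smul_comm, (T.YY_end hα).1]
    rw [e]
    exact Submodule.sub_mem _ (Submodule.smul_mem _ _ hα)
      (Submodule.smul_mem _ _ (T.YY_mul Y hα hα2))
  · have := T.gen1 hu hv'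
    have e : e1 * (f1 * (u * (d * ((v * e1 - e1 * v) * f1)))) =
        e1 * (f1 * (u * (d * (v * (e1 * f1))))) := by
      simp only [mul_sub, sub_mul, mul_assoc, R, mul_zero, sub_zero]
    rw [e] at this
    exact this

/-- The top corner of `L` lies in the coordinate algebra. -/
theorem top_mem {k l : Module.End K V} {Q : K} (Y : KL L e1 f1 e2 f2 c d k l Q)
    {x : Module.End K V} (hx : x ∈ L) : e1 * (f1 * (x * (e1 * f1))) ∈ YY L e1 f1 c d := by
  have R := T.X.rules
  set s := e1 * f1 + e2 * f2 + c - (f1 * e1 + f2 * e2 + d) with hs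
  set q := f1 * e1 + f2 * e2 + d with hq
  have hs1 : s = 1 - (2 : K) • q := by
    rw [hs, ← T.X.sum, hq]
    module
  have hqq : q * q = q := by
    rw [hq]
    simp only [mul_add, add_mul, mul_assoc, R, mul_zero, zero_mul, add_zero, zero_add]
  have hss : s * s = 1 := by
    rw [hs1]
    have : (1 - (2 : K) • q) * (1 - (2 : K) • q) = 1 - (4 : K) • q + (4 : K) • (q * q) := by
      simp only [mul_sub, sub_mul, mul_one, one_mul, smul_mul_assoc, mul_smul_comm]
      module
    rw [this, hqq]; module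
  have hse : s * (e1 * f1) = e1 * f1 := by
    rw [hs, hq]
    simp only [mul_add, add_mul, mul_sub, sub_mul, mul_assoc, R, mul_zero, zero_mul, add_zero,
      zero_add, sub_zero]
  have hes : e1 * (f1 * s) = e1 * f1 := by
    rw [hs, hq]
    simp only [mul_add, add_mul, mul_sub, sub_mul, mul_assoc, R, mul_zero, zero_mul, add_zero,
      zero_add, sub_zero]
  let N : Submodule K (Module.End K V) := L.map (adm s)
  have hN : N ≤ L := by
    rintro _ ⟨x, hx, rfl⟩
    exact T.hs x hx
  obtain ⟨hIL, hId⟩ := gen_ideal T.br hN (fun z => s * z = z * s) (by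
      intro x hx
      have h1 := T.hs x hx
      have h2 := T.hs _ h1
      have e1 : s * (s * x - x * s) - (s * x - x * s) * s = (2 : K) • x - (2 : K) • (s * x * s) := by
        have : s * (s * x - x * s) - (s * x - x * s) * s =
          (s * s) * x - s * x * s - s * x * s + x * (s * s) := by noncomm_ring
        rw [this, hss, one_mul, mul_one]
        module
      refine ⟨x - (4 : K)⁻¹ • (s * (s * x - x * s) - (s * x - x * s) * s),
        L.sub_mem hx (L.smul_mem _ h2), ?_, ?_⟩
      · rw [e1]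
        have a1 : s * (s * x * s) = x * s := by
          rw [← mul_assoc, ← mul_assoc, hss, one_mul]
        have a2 : s * x * s * s = s * x := by
          rw [mul_assoc, hss, mul_one]
        simp only [mul_sub, sub_mul, mul_smul_comm, smul_mul_assoc, a1, a2, smul_sub]
        module
      · refine ⟨(4 : K)⁻¹ • (s * x - x * s), L.smul_mem _ h1, ?_⟩
        rw [map_smul, adm_apply]
        abel) (by
      rintro z hz hc _ ⟨x, hx, rfl⟩
      refine ⟨z * x - x * z, T.br z hz x hx, ?_⟩
      rw [adm_apply, adm_apply]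
      have e : s * (z * x - x * z) - (z * x - x * z) * s = (s * z) * x - s * x * z - z * x * s +
        x * (z * s) := by noncomm_ring
      have e' : z * (s * x - x * s) - (s * x - x * s) * z = (z * s) * x - s * x * z - z * x * s +
        x * (s * z) := by noncomm_ring
      rw [e, e', hc])
  set I := N ⊔ Submodule.span K {c | ∃ a ∈ N, ∃ b ∈ N, c = a * b - b * a} with hI
  have he1 : e1 ∈ N := by
    refine ⟨(2 : K)⁻¹ • e1, L.smul_mem _ T.me1, ?_⟩
    rw [map_smul, adm_apply, hs, hq]
    simp only [mul_sub, sub_mul, mul_add, add_mul, mul_assoc, R, mul_zero, sub_zero, zero_sub,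
      add_zero, zero_add]
    match_scalars <;> norm_num
  have hIL2 : I = L := by
    rcases T.smp I hIL hId with h | h
    · exfalso
      have : e1 ∈ I := Submodule.mem_sup_left he1
      rw [h, Submodule.mem_bot] at this
      exact T.ne1 this
    · exact h
  rw [← hIL2] at hx
  have hzero : ∀ n ∈ N, e1 * (f1 * (n * (e1 * f1))) = 0 := by
    rintro _ ⟨y, hy, rfl⟩
    rw [adm_apply]
    have a1 : e1 * (f1 * ((s * y - y * s) * (e1 * f1))) =
        (e1 * (f1 * s)) * (y * (e1 * f1)) - e1 * (f1 * (y * (s * (e1 * f1)))) := by noncomm_ring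
    rw [a1, hse, hes]
    simp only [mul_assoc, sub_self]
  have hprod : ∀ n ∈ N, ∀ m ∈ N, e1 * (f1 * (n * m * (e1 * f1))) ∈ YY L e1 f1 c d := by
    rintro _ ⟨y, hy, rfl⟩ _ ⟨z, hz, rfl⟩
    rw [adm_apply, adm_apply]
    have a1 : e1 * (f1 * ((s * y - y * s) * (s * z - z * s) * (e1 * f1))) =
        (e1 * (f1 * s)) * y * s * z * (e1 * f1) - (e1 * (f1 * s)) * y * z * (s * (e1 * f1)) -
        e1 * f1 * y * (s * s) * z * (e1 * f1) + e1 * f1 * y * s * z * (s * (e1 * f1)) := by
      noncomm_ring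
    have a2 : e1 * (f1 * ((s * y - y * s) * (s * z - z * s) * (e1 * f1))) =
        (-4 : K) • (e1 * (f1 * (y * (q * (z * (e1 * f1)))))) := by
      rw [a1, hse, hes, hss, hs1]
      simp only [mul_sub, sub_mul, mul_one, one_mul, mul_smul_comm, smul_mul_assoc, mul_assoc]
      module
    rw [a2]
    exact Submodule.smul_mem _ _ (T.prod_mem Y hy hz)
  obtain ⟨n, hn, b, hb, rfl⟩ := Submodule.mem_sup.mp hx
  rw [add_mul, mul_add, mul_add, hzero n hn, zero_add]
  refine Submodule.span_induction ?_ ?_ ?_ ?_ hb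
  · rintro _ ⟨a, ha, a', ha', rfl⟩
    rw [sub_mul, mul_sub, mul_sub]
    exact Submodule.sub_mem _ (hprod a ha a' ha') (hprod a' ha' a ha)
  · simp
  · intro a a' _ _ ha ha'
    rw [add_mul, mul_add, mul_add]
    exact Submodule.add_mem _ ha ha'
  · intro t a _ ha
    rw [smul_mul_assoc, mul_smul_comm, mul_smul_comm]
    exact Submodule.smul_mem _ _ ha

end PTwo

end MTP
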