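import Pool.Agent.Helper93.SR.Cas

/-!
A count of ranks: existence of a nonzero corner outside a hyperbolic pair of small rank.
-/

open Module

namespace MTP

variable {K : Type*} [Field K] {V : Type*} [AddCommGroup V] [Module K V] [FiniteDimensional K V]
variable {L : Submodule K (Module.End K V)}

/-- The trace of an idempotent is a natural number. -/
lemma sr_trace_idem {W : Type*} [AddCommGroup W] [Module K W] [FiniteDimensional K W]
    (T : W →ₗ[K] W) (h : ∀ w, T (T w) = T w) : ∃ N : ℕ, LinearMap.trace K W T = N := by
  have hproj : LinearMap.IsProj (LinearMap.range T) T := by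
    constructor
    · intro z; exact ⟨z, rfl⟩
    · rintro _ ⟨z, rfl⟩
      exact h z
  exact ⟨_, hproj.trace⟩

/-- Some element of `L` has a nonzero corner outside a hyperbolic pair of small rank. -/
theorem exists_corner [IsAlgClosed K] [CharZero K] (hbr : ∀ x ∈ L, ∀ y ∈ L, x * y - y * x ∈ L)
    (hirr : ∀ W : Submodule K V, (∀ z ∈ L, ∀ w ∈ W, z w ∈ W) → W = ⊥ ∨ W = ⊤)
    (hnd : ∀ z ∈ L, (∀ y ∈ L, LinearMap.trace K V (z * y) = 0) → z = 0)
    {s : Module.End K V} (hss : s * s = 1) (hs : ∀ x ∈ L, s * x - x * s ∈ L)
    {e f : Module.End K V} (he : e ∈ L) (H : Hyp e f (pp s) (qq s)) {r a b : ℕ} (hr : 0 < r)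
    (htr : LinearMap.trace K V (e * f) = r)
    (hext : ∀ x ∈ L, f * x * f = (LinearMap.trace K V (f * x) / r) • f)
    (ha : LinearMap.trace K V (pp s) = a) (hb : LinearMap.trace K V (qq s) = b)
    (ha0 : 0 < a) (hb0 : 0 < b) (hle : r * (a + b) ≤ a * b) :
    ∃ x ∈ L, (pp s - e * f) * x * (qq s - f * e) ≠ 0 := by
  by_contra hcon
  push Not at hcon
  obtain ⟨n, x, y, hd, htrace⟩ := exists_dl hnd
  have hr0 : (r : K) ≠ 0 := by rw [Nat.cast_ne_zero]; exact hr.ne'
  -- the projection onto the top component
  let T : L →ₗ[K] L :=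
    { toFun := fun z => ⟨pp s * z * qq s, (comps_mem hss hs z.2).1⟩
      map_add' := by
        intro u v; apply Subtype.ext
        change pp s * ((u : Module.End K V) + v) * qq s = _
        simp [mul_add, add_mul]
      map_smul' := by
        intro c u; apply Subtype.ext
        change pp s * (c • (u : Module.End K V)) * qq s = _
        simp }
  have hT : ∀ z : L, (T z : Module.End K V) = pp s * z * qq s := fun z => rfl
  obtain ⟨N, hN⟩ := sr_trace_idem T (by
    intro z
    apply Subtype.ext
    rw [hT, hT]
    calc pp s * (pp s * (z : Module.End K V) * qq s) * qq s =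
        (pp s * pp s) * z * (qq s * qq s) := by noncomm_ring
      _ = _ := by rw [pp_mul_pp hss, qq_mul_qq hss])
  have hN2 := htrace T (fun z => pp s * z * qq s) hT
  rw [hN] at hN2
  -- the two partial Casimir operators
  obtain ⟨lam, hlam⟩ := hd.scalar hbr hirr hss hs
  obtain ⟨mu, hmu⟩ := hd.swap.scalar hbr hirr (s := -s) (by rw [neg_mul_neg, hss]) (by
    intro z hz
    have : -s * z - z * -s = -(s * z - z * s) := by noncomm_ring
    rw [this]; exact L.neg_mem (hs z hz))
  rw [pp_neg, qq_neg] at hmu
  have hla : lam * a = N := by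
    have h1 := congrArg (LinearMap.trace K V) hlam
    rw [map_sum, map_smul, ha, smul_eq_mul] at h1
    rw [← h1, hN2]
    apply Finset.sum_congr rfl
    intro i _
    rw [LinearMap.trace_mul_comm]
    congr 1
    calc pp s * (pp s * x i * qq s * y i) = (pp s * pp s) * x i * qq s * y i := by noncomm_ring
      _ = _ := by rw [pp_mul_pp hss]
  have hmb : mu * b = N := by
    have h1 := congrArg (LinearMap.trace K V) hmu
    rw [map_sum, map_smul, hb, smul_eq_mul] at h1
    rw [← h1, hN2]
    apply Finset.sum_congr rfl
    intro i _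
    rw [LinearMap.trace_mul_comm]
    have e1 : qq s * (qq s * y i * pp s * x i) = (qq s * y i) * (pp s * x i) := by
      calc qq s * (qq s * y i * pp s * x i) = (qq s * qq s) * y i * pp s * x i := by noncomm_ring
        _ = _ := by rw [qq_mul_qq hss]; noncomm_ring
    rw [e1, LinearMap.trace_mul_comm]
    congr 1
  have htr2 : LinearMap.trace K V (f * e) = r := by rw [LinearMap.trace_mul_comm, htr]
  have hs1 : ∑ i, LinearMap.trace K V (e * f * x i * qq s * y i) = lam * r := by
    have h1 := congrArg (fun z => LinearMap.trace K V (e * f * z)) hlam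
    simp only [Finset.mul_sum, map_sum] at h1
    rw [mul_smul_comm, mul_assoc e f, H.fp, map_smul, htr, smul_eq_mul] at h1
    rw [← h1]
    apply Finset.sum_congr rfl
    intro i _
    have e1 : e * f * (pp s * x i * qq s * y i * pp s) = e * (f * pp s) * x i * qq s * y i * pp s := by
      noncomm_ring
    rw [e1, H.fp, LinearMap.trace_mul_comm K (e * f * x i * qq s * y i) (pp s)]
    congr 1
    calc e * f * x i * qq s * y i = (pp s * e) * f * x i * qq s * y i := by rw [H.pe]
      _ = _ := by noncomm_ring
  have hs2 : ∑ i, LinearMap.trace K V (pp s * x i * (f * e) * y i) = mu * r := by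
    have h1 := congrArg (fun z => LinearMap.trace K V (f * e * z)) hmu
    simp only [Finset.mul_sum, map_sum] at h1
    rw [mul_smul_comm, mul_assoc f e, H.eq, map_smul, htr2, smul_eq_mul] at h1
    rw [← h1]
    apply Finset.sum_congr rfl
    intro i _
    have e1 : f * e * (qq s * y i * pp s * x i * qq s) = f * (e * qq s) * y i * pp s * x i * qq s := by
      noncomm_ring
    rw [e1, H.eq, LinearMap.trace_mul_comm K (f * e * y i * pp s * x i) (qq s)]
    have e2 : qq s * (f * e * y i * pp s * x i) = (f * e * y i) * (pp s * x i) := by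
      calc qq s * (f * e * y i * pp s * x i) = (qq s * f) * e * y i * pp s * x i := by noncomm_ring
        _ = _ := by rw [H.qf]; noncomm_ring
    rw [e2, LinearMap.trace_mul_comm K (f * e * y i) (pp s * x i)]
    congr 1
  have hs3 : ∑ i, LinearMap.trace K V (e * f * x i * (f * e) * y i) = 1 := by
    have e1 : ∀ i, LinearMap.trace K V (e * f * x i * (f * e) * y i) =
        (LinearMap.trace K V (e * y i) * LinearMap.trace K V (f * x i)) / r := by
      intro i
      have : e * f * x i * (f * e) * y i = e * (f * x i * f) * e * y i := by noncomm_ring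
      rw [this, hext _ (hd.xm i), mul_smul_comm, smul_mul_assoc, H.efe, smul_mul_assoc, map_smul,
        smul_eq_mul]
      ring
    rw [Finset.sum_congr rfl (fun i _ => e1 i), ← Finset.sum_div]
    have e2 : ∑ i, LinearMap.trace K V (e * y i) * LinearMap.trace K V (f * x i) =
        LinearMap.trace K V (f * ∑ i, LinearMap.trace K V (e * y i) • x i) := by
      rw [Finset.mul_sum, map_sum]
      apply Finset.sum_congr rfl
      intro i _
      rw [mul_smul_comm, map_smul, smul_eq_mul]
    rw [e2, hd.ex e he, htr2, div_self hr0]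
  have hsum : (N : K) = lam * r + mu * r - 1 := by
    rw [hN2, ← hs1, ← hs2, ← hs3, ← Finset.sum_add_distrib, ← Finset.sum_sub_distrib]
    apply Finset.sum_congr rfl
    intro i _
    have h1 := hcon _ (hd.xm i)
    have h2 : pp s * x i * qq s = e * f * x i * qq s + pp s * x i * (f * e)
        - e * f * x i * (f * e) := by
      have h3 : (pp s - e * f) * x i * (qq s - f * e) = pp s * x i * qq s - (e * f * x i * qq s
        + pp s * x i * (f * e) - e * f * x i * (f * e)) := by noncomm_ring
      rw [h3, sub_eq_zero] at h1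
      exact h1
    rw [h2, sub_mul, add_mul, map_sub, map_add]
  have hfin : ((N : K) + 1) * (a * b) = r * N * (a + b) := by
    have : (N : K) + 1 = (lam + mu) * r := by rw [hsum]; ring
    rw [this]
    calc (lam + mu) * r * (a * b) = r * (lam * a * b + mu * b * a) := by ring
      _ = _ := by rw [hla, hmb]; ring
  have hfin2 : (N + 1) * (a * b) = r * N * (a + b) := by exact_mod_cast hfin
  have h5 : r * N * (a + b) ≤ N * (a * b) := by
    calc r * N * (a + b) = N * (r * (a + b)) := by ring
      _ ≤ N * (a * b) := Nat.mul_le_mul_left _ hle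
  have h6 : 0 < a * b := Nat.mul_pos ha0 hb0
  nlinarith

end MTP
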