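import Pool.Agent.Helper21.MT.Span

/-!
Extraction of weight components from a space of operators stable under commutators with a
diagonal operator.
-/

open Module

namespace MTP

variable {K : Type*} [Field K] {V : Type*} [AddCommGroup V] [Module K V]

/-- Eigenvector components of an element of a stable subspace lie in the subspace. -/
lemma eig_mem {E : Type*} [AddCommGroup E] [Module K E] (D : E →ₗ[K] E) {M : Submodule K E}
    (hD : ∀ x ∈ M, D x ∈ M) (Λ : Finset K) :
    ∀ (f : K → E), (∀ μ ∈ Λ, D (f μ) = μ • f μ) → (∑ μ ∈ Λ, f μ) ∈ M → ∀ μ ∈ Λ, f μ ∈ M := by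
  classical
  induction Λ using Finset.induction_on with
  | empty => intro f _ _ μ hμ; simp at hμ
  | insert ν Λ hν ih =>
    intro f hf hs
    have h1 := hD _ hs
    have h2 := M.sub_mem h1 (M.smul_mem ν hs)
    have e : D (∑ μ ∈ insert ν Λ, f μ) - ν • (∑ μ ∈ insert ν Λ, f μ) =
        ∑ μ ∈ Λ, (μ - ν) • f μ := by
      rw [map_sum, Finset.smul_sum, ← Finset.sum_sub_distrib, Finset.sum_insert hν,
        hf ν (Finset.mem_insert_self _ _), sub_self, zero_add]
      apply Finset.sum_congr rfl
      intro μ hμ
      rw [hf μ (Finset.mem_insert_of_mem hμ), sub_smul]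
    rw [e] at h2
    have h3 := ih (fun μ => (μ - ν) • f μ) (by
      intro μ hμ
      rw [map_smul, hf μ (Finset.mem_insert_of_mem hμ), smul_comm]) h2
    have h4 : ∀ μ ∈ Λ, f μ ∈ M := by
      intro μ hμ
      have hne : μ - ν ≠ 0 := by
        intro h
        rw [sub_eq_zero] at h
        exact hν (h ▸ hμ)
      have := M.smul_mem (μ - ν)⁻¹ (h3 μ hμ)
      simpa [smul_smul, inv_mul_cancel₀ hne] using this
    intro μ hμ
    rcases Finset.mem_insert.mp hμ with rfl | hμ
    · rw [Finset.sum_insert hν] at hs
      have := M.sub_mem hs (M.sum_mem h4)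
      simpa using this
    · exact h4 μ hμ

/-- The commutator with `H`. -/
noncomputable def adm (H : Module.End K V) : Module.End K V →ₗ[K] Module.End K V where
  toFun x := H * x - x * H
  map_add' x y := by noncomm_ring
  map_smul' c x := by simp [mul_smul_comm, smul_mul_assoc, smul_sub]

lemma adm_apply (H x : Module.End K V) : adm H x = H * x - x * H := rfl

/-- Weight components of an element of `M` lie in `M`. -/
lemma extract {ι : Type*} [Fintype ι] [DecidableEq ι] [DecidableEq K] (P : ι → Module.End K V)
    (hP : ∀ i j, P i * P j = if i = j then P i else 0) (hsum : ∑ i, P i = 1) (v : ι → K)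
    {M : Submodule K (Module.End K V)}
    (hM : ∀ x ∈ M, (∑ i, v i • P i) * x - x * (∑ i, v i • P i) ∈ M) {x : Module.End K V}
    (hx : x ∈ M) (c : K) : (∑ i, ∑ j, if v i - v j = c then P i * x * P j else 0) ∈ M := by
  set H := ∑ i, v i • P i with hH
  have hL : ∀ i, H * P i = v i • P i := by
    intro i
    rw [hH, Finset.sum_mul]
    rw [Finset.sum_eq_single i]
    · rw [smul_mul_assoc, hP, if_pos rfl]
    · intro j _ hj
      rw [smul_mul_assoc, hP, if_neg hj, smul_zero]
    · intro h; exact absurd (Finset.mem_univ i) h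
  have hR : ∀ i, P i * H = v i • P i := by
    intro i
    rw [hH, Finset.mul_sum]
    rw [Finset.sum_eq_single i]
    · rw [mul_smul_comm, hP, if_pos rfl]
    · intro j _ hj
      rw [mul_smul_comm, hP, if_neg (Ne.symm hj), smul_zero]
    · intro h; exact absurd (Finset.mem_univ i) h
  let f : K → Module.End K V := fun c => ∑ i, ∑ j, if v i - v j = c then P i * x * P j else 0
  let Λ : Finset K := (Finset.univ : Finset (ι × ι)).image (fun p => v p.1 - v p.2)
  have hf : ∀ μ, adm H (f μ) = μ • f μ := by
    intro μ
    simp only [f, map_sum, Finset.smul_sum]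
    apply Finset.sum_congr rfl
    intro i _
    apply Finset.sum_congr rfl
    intro j _
    split_ifs with h
    · rw [adm_apply]
      have e1 : H * (P i * x * P j) = v i • (P i * x * P j) := by
        rw [← mul_assoc, ← mul_assoc, hL, smul_mul_assoc, smul_mul_assoc]
      have e2 : P i * x * P j * H = v j • (P i * x * P j) := by
        rw [mul_assoc, hR, mul_smul_comm]
      rw [e1, e2, ← sub_smul, h]
    · rw [map_zero, smul_zero]
  have hs : ∑ μ ∈ Λ, f μ = x := by
    simp only [f]
    rw [Finset.sum_comm]
    have e : x = (∑ i, P i) * x * (∑ j, P j) := by rw [hsum]; simp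
    conv_rhs => rw [e]
    rw [Finset.sum_mul, Finset.sum_mul]
    apply Finset.sum_congr rfl
    intro i _
    rw [Finset.sum_comm, Finset.mul_sum]
    apply Finset.sum_congr rfl
    intro j _
    rw [Finset.sum_eq_single (v i - v j)]
    · rw [if_pos rfl]
    · intro b _ hb
      rw [if_neg (Ne.symm hb)]
    · intro h
      exact absurd (Finset.mem_image.mpr ⟨(i, j), Finset.mem_univ _, rfl⟩) h
  by_cases hc : c ∈ Λ
  · exact eig_mem (adm H) hM Λ f (fun μ _ => hf μ) (by rw [hs]; exact hx) c hc
  · have : (∑ i, ∑ j, if v i - v j = c then P i * x * P j else 0) = (0 : Module.End K V) := by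
      apply Finset.sum_eq_zero
      intro i _
      apply Finset.sum_eq_zero
      intro j _
      rw [if_neg]
      intro h
      exact hc (Finset.mem_image.mpr ⟨(i, j), Finset.mem_univ _, h⟩)
    rw [this]
    exact M.zero_mem

end MTP
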