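import Pool.Agent.Helper93.SR.Ten3

/-!
The example: it is a strong Mumford-Tate pair which is not full, with quadratic unipotents.
-/

set_option linter.unusedSimpArgs false
set_option linter.unusedSectionVars false

open Module MTPairs

namespace MTP

variable {K : Type*} [Field K] {n k : ℕ}

/-- The example group. -/
def GT (K : Type*) [Field K] (n k : ℕ) :
    Subgroup (Matrix.GeneralLinearGroup (Ix n (k + 1)) K) := GenG (Lam K n k)

lemma Lam_lag {P : Matrix (Ix n (k + 1)) (Ix n (k + 1)) K} (hP : P ∈ Lam K n k) :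
    P ∈ LagSet (Jt (k + 1) (J1 K n)) := Lam0_lag (Lam_sub hP)

/-- The bijection given by an invertible matrix. -/
def toPerm {m : Type*} [Fintype m] [DecidableEq m] (h : Matrix.GeneralLinearGroup m K) :
    Equiv.Perm (m → K) where
  toFun := fun v => (h : Matrix m m K).mulVec v
  invFun := fun v => ((h⁻¹ : Matrix.GeneralLinearGroup m K) : Matrix m m K).mulVec v
  left_inv := by
    intro v
    change ((h⁻¹ : Matrix.GeneralLinearGroup m K) : Matrix m m K).mulVec
      ((h : Matrix m m K).mulVec v) = v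
    rw [Matrix.mulVec_mulVec, GL_inv_mul, Matrix.one_mulVec]
  right_inv := by
    intro v
    change (h : Matrix m m K).mulVec
      (((h⁻¹ : Matrix.GeneralLinearGroup m K) : Matrix m m K).mulVec v) = v
    rw [Matrix.mulVec_mulVec, GL_mul_inv, Matrix.one_mulVec]

lemma GT_norm {h g : Matrix.GeneralLinearGroup (Ix n (k + 1)) K} (hh : h ∈ NG K n (k + 1))
    (hg : g ∈ GT K n k) : h * g * h⁻¹ ∈ GT K n k := by
  rw [GT, GenG, Subgroup.mem_sInf] at hg ⊢
  rintro H ⟨hH, hc⟩
  have h1 := hg (H.comap (MulAut.conj h).toMonoidHom) ⟨closed_conj hH h, by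
    intro P hP
    refine ⟨(Lam_lag hP).1, fun t ht => ?_⟩
    obtain ⟨g1, hg1, hgt⟩ := (hc _ (Lam_conj hP hh)).2 t ht
    refine ⟨h⁻¹ * g1 * h, ?_, ?_⟩
    · rw [Subgroup.mem_comap]
      change h * (h⁻¹ * g1 * h) * h⁻¹ ∈ H
      have e : h * (h⁻¹ * g1 * h) * h⁻¹ = g1 := by group
      rw [e]; exact hg1
    · rw [Units.val_mul, Units.val_mul, hgt]
      simp only [mul_add, add_mul, mul_sub, sub_mul, mul_smul_comm, smul_mul_assoc, mul_one]
      have e : ((h⁻¹ : Matrix.GeneralLinearGroup (Ix n (k + 1)) K) :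
          Matrix (Ix n (k + 1)) (Ix n (k + 1)) K) *
          ((h : Matrix (Ix n (k + 1)) (Ix n (k + 1)) K) * P *
          ((h⁻¹ : Matrix.GeneralLinearGroup (Ix n (k + 1)) K) :
          Matrix (Ix n (k + 1)) (Ix n (k + 1)) K)) *
          (h : Matrix (Ix n (k + 1)) (Ix n (k + 1)) K) = P := by
        rw [← mul_assoc, ← mul_assoc, GL_inv_mul, one_mul, mul_assoc, GL_inv_mul, mul_one]
      rw [e, GL_inv_mul]⟩
  exact h1

/-- The example is a strong Mumford-Tate pair. -/
theorem strong_ex [CharZero K] (hk : Odd (k + 1)) : IsStrongMTPair (GamT K n (k + 1))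
    (Jt (k + 1) (J1 K n)) (GT K n k) (loc 0 (X0 K n)) where
  skew := Jt_transpose J1_transpose hk
  det := Jt_det (c := -1) (neg_ne_zero.mpr one_ne_zero) J1_sq
  sim := (isMTPair_gen (Jt_transpose J1_transpose hk)
    (Jt_det (c := -1) (neg_ne_zero.mpr one_ne_zero) J1_sq)
    (fun P hP => (Lam_lag hP).1) (fun P hP => (Lam_lag hP).2)).sim
  closed := GenG_closed _
  semi := by
    rintro θ ⟨h, hh, hθ⟩
    refine ⟨RingEquiv.refl K, fun v w => ?_, fun c v => ?_⟩
    · rw [hθ, hθ, hθ, Matrix.mulVec_add]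
    · rw [hθ, hθ, Matrix.mulVec_smul]; rfl
  norm := by
    rintro θ ⟨h, hh, hθ⟩ g hg
    refine ⟨h * g * h⁻¹, GT_norm hh hg, fun v => ?_⟩
    rw [hθ, hθ, Units.val_mul, Units.val_mul, Matrix.mulVec_mulVec, Matrix.mulVec_mulVec,
      mul_assoc, mul_assoc, GL_inv_mul, mul_one]
  coch := GenG_cochar (Lam_lag (loc_X0_mem 0)).1 (loc_X0_mem 0)
  gen := by
    intro H hH hc
    apply GenG_le hH
    rintro _ ⟨h, hh, rfl⟩
    apply hc
    refine ⟨toPerm h, ⟨h, hh, fun v => rfl⟩, 1, Subgroup.one_mem _, fun v => ?_⟩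
    rw [Units.val_one, Matrix.one_mulVec, Matrix.one_mulVec]
    have e : ∀ v, toPerm h v = (h : Matrix (Ix n (k + 1)) (Ix n (k + 1)) K).mulVec v :=
      fun v => rfl
    rw [e, e, Matrix.mulVec_mulVec, Matrix.mulVec_mulVec, mul_assoc, GL_inv_mul, mul_one]

/-- The standard representation is irreducible. -/
theorem split_ex [CharZero K] : IsSplit (Jt (k + 1) (J1 K n)) (GT K n k)
    (fun _ : Unit => ⊤) := by
  refine ⟨?_, ?_, fun _ _ _ _ _ => trivial, ?_, ?_⟩
  · rw [DirectSum.isInternal_submodule_iff_iSupIndep_and_iSup_eq_top]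
    refine ⟨?_, by simp⟩
    intro i
    simp
  · intro i j hij
    exact absurd (Subsingleton.elim i j) hij
  · intro _ U _ hU
    apply Lam_irr
    intro π hπ v hv
    obtain ⟨g, hg, hgt⟩ := (GenG_cochar (Lam_lag hπ).1 hπ).2 2 two_ne_zero
    have h1 := hU g hg v hv
    have h2 : (g : Matrix _ _ K).mulVec v = π.mulVec v + v := by
      rw [hgt]
      have : (2 : K) • π + (1 - π) = π + 1 := by rw [two_smul]; abel
      rw [this, Matrix.add_mulVec, Matrix.one_mulVec]
    rw [h2] at h1
    have := U.sub_mem h1 hv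
    rwa [add_sub_cancel_right] at this
  · intro i j hij
    exact absurd (Subsingleton.elim i j) hij

/-- The quadratic element. -/
def uT {S : Matrix (Fin n) (Fin n) K} : Matrix.GeneralLinearGroup (Ix n (k + 1)) K :=
  ⟨1 + loc 0 (Up S), 1 - loc 0 (Up S), one_add_mul (by rw [← loc_mul, Up_sq, loc_zero]),
    one_sub_mul (by rw [← loc_mul, Up_sq, loc_zero])⟩

lemma uT_mem [CharZero K] {S : Matrix (Fin n) (Fin n) K} (hS : S.transpose = S) :
    uT (k := k) (S := S) ∈ GT K n k := by
  rw [GT, GenG, Subgroup.mem_sInf]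
  rintro H ⟨hH, hc⟩
  obtain ⟨g1, hg1, h1⟩ := (hc _ (loc_X0_mem 0)).2 2 two_ne_zero
  obtain ⟨g2, hg2, h2⟩ := (hc _ (loc_Up_mem hS 0)).2 2 two_ne_zero
  have e : uT (k := k) (S := S) * g2 = g1 := by
    apply Units.ext
    rw [Units.val_mul, h1, h2]
    change (1 + loc 0 (Up S)) * _ = _
    have k1 : loc (0 : Fin (k + 1)) (Up S) * loc 0 (X0 K n) = 0 := by
      rw [← loc_mul, Up_X0, loc_zero]
    have k2 : loc (0 : Fin (k + 1)) (Up S) * loc 0 (Up S) = 0 := by
      rw [← loc_mul, Up_sq, loc_zero]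
    rw [loc_sub]
    simp only [mul_add, add_mul, mul_sub, one_mul, mul_one, mul_smul_comm, k1, k2]
    module
  have e2 : uT (k := k) (S := S) = g1 * g2⁻¹ := by rw [← e, mul_inv_cancel_right]
  rw [e2]
  exact H.mul_mem hg1 (H.inv_mem hg2)

/-- Partial identity matrices. -/
def Ss (K : Type*) [Field K] (n s : ℕ) : Matrix (Fin n) (Fin n) K :=
  Matrix.diagonal (fun a => if a.val < s then 1 else 0)

lemma Ss_transpose (s : ℕ) : (Ss K n s).transpose = Ss K n s := Matrix.diagonal_transpose _

/-- The support condition. -/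
def Sup (n k s : ℕ) (x : Ix n (k + 1)) : Prop := (x 0).1 = 0 ∧ (x 0).2.val < s

instance (n k s : ℕ) : DecidablePred (Sup n k s) := fun x => by unfold Sup; infer_instance

lemma loc_Up_mulVec (s : ℕ) (w : Ix n (k + 1) → K) (x : Ix n (k + 1)) :
    (loc 0 (Up (Ss K n s))).mulVec w x =
      if Sup n k s x then w (Function.update x 0 (1, (x 0).2)) else 0 := by
  rw [Matrix.mulVec, dotProduct]
  by_cases hx : Sup n k s x
  · rw [if_pos hx, Finset.sum_eq_single (Function.update x 0 (1, (x 0).2))]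
    · rw [loc_apply]
      simp only [Function.update_self, Up, Ss, hx.1, Matrix.diagonal_apply_eq, hx.2, and_self,
        if_true, one_mul]
      rw [if_pos, one_mul]
      intro i hi
      rw [Function.update_of_ne hi]
    · intro y _ hy
      rw [loc_apply]
      by_cases h : ∀ i, i ≠ (0 : Fin (k + 1)) → x i = y i
      · rw [if_pos h]
        have h2 : ¬ (y 0 = (1, (x 0).2)) := by
          intro h0
          apply hy
          funext i
          by_cases hi : i = 0
          · subst hi; rw [Function.update_self, h0]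
          · rw [Function.update_of_ne hi, h i hi]
        have h3 : Up (Ss K n s) (x 0) (y 0) = 0 := by
          simp only [Up, Ss]
          split_ifs with h4
          · apply Matrix.diagonal_apply_ne
            intro h5
            apply h2
            rw [h5]
            exact Prod.ext h4.2 rfl
          · rfl
        rw [h3]; simp
      · rw [if_neg h]; simp
    · intro h; exact absurd (Finset.mem_univ _) h
  · rw [if_neg hx]
    apply Finset.sum_eq_zero
    intro y _
    rw [loc_apply]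
    have h3 : Up (Ss K n s) (x 0) (y 0) = 0 := by
      simp only [Up, Ss]
      split_ifs with h4
      · by_cases h5 : (x 0).2 = (y 0).2
        · rw [h5, Matrix.diagonal_apply_eq, if_neg]
          intro h6
          exact hx ⟨h4.1, by rw [h5]; exact h6⟩
        · exact Matrix.diagonal_apply_ne _ h5
      · rfl
    rw [h3]; simp

lemma card_Sup {s : ℕ} (hs : s ≤ n) :
    Fintype.card {x : Ix n (k + 1) // Sup n k s x} = s * (2 * n) ^ k := by
  let e : {x : Ix n (k + 1) // Sup n k s x} ≃ Fin s × (Fin k → (Fin 2 × Fin n)) :=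
    { toFun := fun x => (⟨(x.1 0).2.val, x.2.2⟩, fun i => x.1 i.succ)
      invFun := fun p => ⟨Fin.cons (0, ⟨p.1.val, lt_of_lt_of_le p.1.2 hs⟩) p.2, by
        unfold Sup
        simp⟩
      left_inv := by
        rintro ⟨x, h1, h2⟩
        apply Subtype.ext
        funext i
        refine Fin.cases ?_ (fun j => ?_) i
        · simp only [Fin.cons_zero]
          exact Prod.ext h1.symm rfl
        · simp only [Fin.cons_succ]
      right_inv := by
        rintro ⟨a, y⟩
        simp }
  rw [Fintype.card_congr e]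
  simp [Fintype.card_prod]

lemma rank_Up {s : ℕ} (hs : s ≤ n) :
    finrank K ((⊤ : Submodule K (Ix n (k + 1) → K)).map
      (loc 0 (Up (Ss K n s))).mulVecLin) = s * (2 * n) ^ k := by
  rw [← card_Sup hs, ← Module.finrank_fintype_fun_eq_card K]
  let F : ({x : Ix n (k + 1) // Sup n k s x} → K) →ₗ[K] (Ix n (k + 1) → K) :=
    { toFun := fun f x => if h : Sup n k s x then f ⟨x, h⟩ else 0
      map_add' := by
        intro f g
        funext x
        by_cases h : Sup n k s x <;> simp [h]
      map_smul' := by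
        intro c f
        funext x
        by_cases h : Sup n k s x <;> simp [h] }
  have hF : ∀ f x (h : Sup n k s x), F f x = f ⟨x, h⟩ := by
    intro f x h
    change (if h : Sup n k s x then f ⟨x, h⟩ else 0) = _
    rw [dif_pos h]
  have hF0 : ∀ f x, ¬ Sup n k s x → F f x = 0 := by
    intro f x h
    change (if h : Sup n k s x then f ⟨x, h⟩ else 0) = _
    rw [dif_neg h]
  have hinj : Function.Injective F := by
    intro f g hfg
    funext ⟨x, h⟩
    rw [← hF f x h, ← hF g x h, hfg]
  rw [← LinearMap.finrank_range_of_inj hinj]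
  have e : (⊤ : Submodule K (Ix n (k + 1) → K)).map (loc 0 (Up (Ss K n s))).mulVecLin =
      LinearMap.range F := by
    apply le_antisymm
    · rintro _ ⟨w, -, rfl⟩
      refine ⟨fun x => w (Function.update x.1 0 (1, (x.1 0).2)), ?_⟩
      funext x
      rw [Matrix.mulVecLin_apply, loc_Up_mulVec]
      by_cases h : Sup n k s x
      · rw [if_pos h, hF _ _ h]
      · rw [if_neg h, hF0 _ _ h]
    · rintro _ ⟨f, rfl⟩
      refine ⟨fun y => F f (Function.update y 0 (0, (y 0).2)), trivial, ?_⟩
      funext x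
      rw [Matrix.mulVecLin_apply, loc_Up_mulVec]
      by_cases h : Sup n k s x
      · rw [if_pos h]
        have e3 : Function.update (Function.update x 0 (1, (x 0).2)) 0
            (0, (Function.update x 0 (1, (x 0).2) 0).2) = x := by
          rw [Function.update_idem, Function.update_self]
          funext i
          by_cases hi : i = 0
          · subst hi
            rw [Function.update_self]
            exact Prod.ext h.1.symm rfl
          · rw [Function.update_of_ne hi]
        rw [e3]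
      · rw [if_neg h, hF0 _ _ h]
  rw [e]

lemma uT_quad {s : ℕ} (hs : s ≤ n) :
    IsQuadraticOn (uT (K := K) (n := n) (k := k) (S := Ss K n s)) ⊤ (s * (2 * n) ^ k) := by
  have e : ((uT (K := K) (n := n) (k := k) (S := Ss K n s) :
      Matrix.GeneralLinearGroup (Ix n (k + 1)) K) : Matrix (Ix n (k + 1)) (Ix n (k + 1)) K) - 1 =
      loc 0 (Up (Ss K n s)) := by
    change 1 + loc 0 (Up (Ss K n s)) - 1 = _
    abel
  constructor
  · intro v _
    rw [e, Matrix.mulVec_mulVec, ← loc_mul, Up_sq, loc_zero, Matrix.zero_mulVec]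
  · rw [e]
    exact rank_Up hs

lemma Lam_nrm {P : Matrix (Ix n (k + 1)) (Ix n (k + 1)) K} (hP : P ∈ Lam K n k) :
    IsCochar (Nrm (LinearMap.range (locL K (Fin 2 × Fin n) (0 : Fin (k + 1))))) P := by
  have hPP : P * P = P := (Lam_lag hP).1
  refine ⟨hPP, fun t ht => ⟨⟨t • P + (1 - P), t⁻¹ • P + (1 - P), torus_mul hPP ht, by
    have := torus_mul hPP (inv_ne_zero ht)
    rwa [inv_inv] at this⟩, ?_, rfl⟩⟩
  rintro _ ⟨Z, rfl⟩
  change (t • P + (1 - P)) * loc 0 Z * (t⁻¹ • P + (1 - P)) ∈
    LinearMap.range (locL K (Fin 2 × Fin n) (0 : Fin (k + 1)))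
  obtain ⟨j, X, hX, rfl⟩ := Lam_sub hP
  by_cases hj : j = 0
  · subst hj
    refine ⟨(t • X + (1 - X)) * Z * (t⁻¹ • X + (1 - X)), ?_⟩
    change loc 0 _ = _
    have e : ∀ t : K, t • loc (0 : Fin (k + 1)) X + (1 - loc 0 X) =
        loc 0 (t • X + (1 - X)) := by
      intro t
      rw [loc_add, loc_smul, loc_sub, loc_one]
    rw [e, e, loc_mul, loc_mul]
  · refine ⟨Z, ?_⟩
    change loc 0 Z = _
    have h1 : (t • loc j X + (1 - loc j X)) * loc 0 Z =
        loc 0 Z * (t • loc j X + (1 - loc j X)) := by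
      have h2 := loc_comm hj X Z
      simp only [add_mul, sub_mul, mul_add, mul_sub, smul_mul_assoc, mul_smul_comm, h2, one_mul,
        mul_one]
    rw [h1, mul_assoc, torus_mul hPP ht, mul_one]

/-- The example is not full. -/
theorem not_full_ex [CharZero K] (hn : 0 < n) (hk : 0 < k) (hk2 : Odd (k + 1)) :
    ¬ IsFull (Jt (k + 1) (J1 K n)) (GT K n k) (fun _ : Unit => ⊤) := by
  intro hfull
  set z : Ix n (k + 1) := fun _ => (0, ⟨0, hn⟩) with hz
  set w : Ix n (k + 1) := fun i => tau (z i) with hw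
  have hzw : ∀ i, z i ≠ w i := fun i => (tau_ne (z i)).symm
  have hzw' : w ≠ z := fun h => hzw 0 (congrFun h 0).symm
  set N : Matrix (Ix n (k + 1)) (Ix n (k + 1)) K := Matrix.single z w 1 with hN
  have hNN : N * N = 0 := Matrix.single_mul_single_of_ne _ _ _ _ hzw' _
  have hleft : ∀ (A : Matrix (Ix n (k + 1)) (Ix n (k + 1)) K) y, (N * A) z y = A w y := by
    intro A y
    rw [Matrix.mul_apply, Finset.sum_eq_single w]
    · simp [hN]
    · intro b _ hb
      simp [hN, Matrix.single_apply, Ne.symm hb]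
    · intro h; exact absurd (Finset.mem_univ _) h
  have hright : ∀ (A : Matrix (Ix n (k + 1)) (Ix n (k + 1)) K) x y,
      (A * N) x y = if y = w then A x z else 0 := by
    intro A x y
    rw [Matrix.mul_apply, Finset.sum_eq_single z]
    · by_cases h : y = w
      · subst h; simp [hN]
      · simp [hN, Matrix.single_apply, h, Ne.symm h]
    · intro b _ hb
      simp [hN, Matrix.single_apply, Ne.symm hb]
    · intro h; exact absurd (Finset.mem_univ _) h
  have hJ : ∀ x, x ≠ w → Jt (k + 1) (J1 K n) x z = 0 := by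
    intro x hx
    obtain ⟨i, hi⟩ := Function.ne_iff.mp hx
    refine Finset.prod_eq_zero (Finset.mem_univ i) ?_
    simp only [J1]
    rw [if_neg]
    intro h
    exact hi (eq_tau_iff.mp h)
  have hsym : (Jt (k + 1) (J1 K n) * N).transpose = Jt (k + 1) (J1 K n) * N := by
    ext x y
    rw [Matrix.transpose_apply, hright, hright]
    by_cases hx : x = w <;> by_cases hy : y = w
    · rw [hx, hy]
    · rw [if_pos hx, if_neg hy, hJ y hy]
    · rw [if_neg hx, if_pos hy, hJ x hx]
    · rw [if_neg hx, if_neg hy]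
  have hsp : N.transpose * Jt (k + 1) (J1 K n) + Jt (k + 1) (J1 K n) * N = 0 := by
    rw [Matrix.transpose_mul, Jt_transpose J1_transpose hk2, mul_neg] at hsym
    rw [← hsym]; abel
  let t : Matrix.GeneralLinearGroup (Ix n (k + 1)) K :=
    ⟨1 + N, 1 - N, one_add_mul hNN, one_sub_mul hNN⟩
  have ht : t ∈ GT K n k := by
    apply hfull t ⟨1, ?_⟩ (fun _ _ _ => trivial)
    rw [one_smul]
    exact isom_one_add hNN hsp
  have hle : GT K n k ≤ Nrm (LinearMap.range (locL K (Fin 2 × Fin n) (0 : Fin (k + 1)))) :=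
    GenG_le (Nrm_closed _) (fun P hP => Lam_nrm hP)
  obtain ⟨Z, hZ⟩ := hle ht (loc 0 (Matrix.single (w 0) (w 0) 1)) ⟨_, rfl⟩
  change loc 0 Z = (1 + N) * loc 0 (Matrix.single (w 0) (w 0) 1) * (1 - N) at hZ
  set A : Matrix (Ix n (k + 1)) (Ix n (k + 1)) K := loc 0 (Matrix.single (w 0) (w 0) 1) with hA
  have h1 := congrFun (congrFun hZ z) w
  have hlast : (Fin.last k) ≠ (0 : Fin (k + 1)) := by
    intro h
    have := congrArg Fin.val h
    simp at this
    omega
  have hno : ¬ ∀ i, i ≠ (0 : Fin (k + 1)) → z i = w i := fun h => hzw (Fin.last k) (h _ hlast)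
  have hno' : ¬ ∀ i, i ≠ (0 : Fin (k + 1)) → w i = z i := fun h => hzw (Fin.last k) (h _ hlast).symm
  have hL : loc 0 Z z w = 0 := by rw [loc_apply, if_neg hno, mul_zero]
  have e : (1 + N) * A * (1 - N) = A + N * A - A * N - N * (A * N) := by
    simp only [add_mul, mul_sub, one_mul, mul_one, mul_assoc]
    abel
  have a1 : A z w = 0 := by rw [hA, loc_apply, if_neg hno, mul_zero]
  have a2 : A w w = 1 := by
    rw [hA, loc_apply, if_pos (fun _ _ => rfl), mul_one, Matrix.single_apply_same]
  have a3 : A z z = 0 := by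
    rw [hA, loc_apply, Matrix.single_apply_of_row_ne (hzw 0).symm, zero_mul]
  have a4 : A w z = 0 := by rw [hA, loc_apply, if_neg hno', mul_zero]
  rw [hL, e, Matrix.sub_apply, Matrix.sub_apply, Matrix.add_apply, hleft, hleft, hright, hright,
    if_pos rfl, if_pos rfl, a1, a2, a3, a4] at h1
  norm_num at h1

/-- **The examples.** -/
theorem exists_strong_ex (K : Type*) [Field K] [CharZero K] {n k s : ℕ} (hk : Odd k)
    (hk3 : 3 ≤ k) (hs0 : 0 < s) (hs : s ≤ n) :
    ∃ (Γ : Subgroup (Equiv.Perm (Ix n k → K))) (J : Matrix (Ix n k) (Ix n k) K)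
      (G : Subgroup (Matrix.GeneralLinearGroup (Ix n k) K)) (π : Matrix (Ix n k) (Ix n k) K),
      IsStrongMTPair Γ J G π ∧ IsSplit J G (fun _ : Unit => ⊤) ∧
      (∃ u ∈ G, IsQuadraticOn u ⊤ (s * (2 * n) ^ (k - 1))) ∧
      ¬ IsFull J G (fun _ : Unit => ⊤) ∧
      finrank K (⊤ : Submodule K (Ix n k → K)) = (2 * n) ^ k := by
  obtain ⟨k, rfl⟩ : ∃ l, k = l + 1 := ⟨k - 1, by omega⟩
  refine ⟨_, _, _, _, strong_ex hk, split_ex, ⟨_, uT_mem (Ss_transpose s), ?_⟩,
    not_full_ex (by omega) (by omega) hk, ?_⟩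
  · rw [Nat.add_sub_cancel]
    exact uT_quad hs
  · rw [finrank_top, Module.finrank_fintype_fun_eq_card]
    simp [Fintype.card_prod]

end MTP
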