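import Pool.Agent.Helper93.SR.Asm
import Pool.Agent.Helper93.SR.Ten4

/-!
The exact criterion for small ranks: auxiliary statements.
-/

open Module MTPairs Matrix

namespace MTP

/-- A nondegenerate alternating form lives on an even dimensional space. -/
lemma even_finrank_of_alt {K : Type*} [Field K] [CharZero K] {V : Type*} [AddCommGroup V]
    [Module K V] [FiniteDimensional K V] {ω : LinearMap.BilinForm K V} (hω : ω.Nondegenerate)
    (halt : ω.IsAlt) : Even (finrank K V) := by
  classical
  let b := Module.finBasis K V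
  have h1 : (LinearMap.BilinForm.toMatrix b ω).transpose =
      -(LinearMap.BilinForm.toMatrix b ω) := by
    ext i j
    rw [Matrix.transpose_apply, Matrix.neg_apply, LinearMap.BilinForm.toMatrix_apply,
      LinearMap.BilinForm.toMatrix_apply]
    exact (LinearMap.IsAlt.neg halt (b i) (b j)).symm
  have h2 : (LinearMap.BilinForm.toMatrix b ω).det ≠ 0 :=
    (LinearMap.BilinForm.nondegenerate_iff_det_ne_zero b).mp hω
  by_contra hodd
  rw [Nat.not_even_iff_odd] at hodd
  have h3 := congrArg Matrix.det h1
  rw [Matrix.det_transpose, Matrix.det_neg, Fintype.card_fin, hodd.neg_one_pow] at h3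
  apply h2
  have h4 : (2 : K) * (LinearMap.BilinForm.toMatrix b ω).det = 0 := by linear_combination h3
  exact (mul_eq_zero.mp h4).resolve_left two_ne_zero

end MTP

namespace MTP

/-- **The exact criterion.** Let `R` be a set of pairs `(r, D)` with `0 < r` and `4 * r < D`.
Every strong symplectic Mumford-Tate pair of weights `0` and `1`, whose standard representation
is an orthogonal sum of pairwise non isomorphic irreducible summands stable under the semilinear
group `Γ`, on each of which some element of the group is unipotent of the form `1 + N` with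
`N² = 0` and `(rank N, dimension)` in `R`, is the full group of similitudes preserving the
summands, if and only if `R` contains no pair `(s * d ^ (k - 1), d ^ k)` with `d` even and
`k ≥ 3` odd. -/
theorem criterion {K : Type*} [Field K] [IsAlgClosed K] [CharZero K] (R : Set (ℕ × ℕ))
    (hR : ∀ r D, (r, D) ∈ R → 0 < r ∧ 4 * r < D) :
    (∀ (m ι : Type) [Fintype m] [DecidableEq m] [Fintype ι] [DecidableEq ι]
      (Γ : Subgroup (Equiv.Perm (m → K))) (J : Matrix m m K)
      (G : Subgroup (Matrix.GeneralLinearGroup m K)) (π : Matrix m m K)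
      (W : ι → Submodule K (m → K)), IsStrongMTPair Γ J G π → IsSplit J G W → IsStable Γ W →
      (∀ j, ∃ u ∈ G, ∃ r, IsQuadraticOn u (W j) r ∧ (r, finrank K (W j)) ∈ R) →
      IsFull J G W) ↔
    ∀ d k s, Even d → Odd k → 3 ≤ k → (s * d ^ (k - 1), d ^ k) ∉ R := by
  constructor
  · rintro h d k s ⟨n, rfl⟩ hk hk3 hmem
    obtain ⟨h0, h4⟩ := hR _ _ hmem
    have hs0 : 0 < s := Nat.pos_of_mul_pos_right h0
    have hd : (n + n) ^ k = (n + n) ^ (k - 1) * (n + n) := by
      rw [← pow_succ]; congr 1; omega
    have hs : s ≤ n := by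
      rw [hd, ← mul_assoc, mul_comm ((n + n) ^ (k - 1)) (n + n)] at h4
      have h5 := Nat.lt_of_mul_lt_mul_right h4
      omega
    obtain ⟨Γ, J, G, π, h1, h2, ⟨u, hu, hq⟩, h5, h6⟩ :=
      exists_strong_ex K hk hk3 hs0 hs
    apply h5
    apply h _ _ Γ J G π _ h1 h2
    · intro θ _ j v _
      trivial
    · intro j
      refine ⟨u, hu, _, hq, ?_⟩
      rw [h6, two_mul]
      exact hmem
  · intro hex m ι _ _ _ _ Γ J G π W D hW hΓ hq
    apply isFull_of_small D hW hΓ
    intro j
    obtain ⟨u, hu, r, hur, hmem⟩ := hq j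
    obtain ⟨h0, h4⟩ := hR _ _ hmem
    refine ⟨u, hu, r, hur, h0, h4, ?_⟩
    rintro k d s hk hk3 hd rfl
    rw [hd] at hmem
    refine hex d k s ?_ hk hk3 hmem
    have hev : Even (finrank K (W j)) :=
      even_finrank_of_alt (form_nd D.skew D.det hW.internal hW.orth j) (form_alt D.skew j)
    rw [hd] at hev
    exact (Nat.even_pow.mp hev).1

end MTP
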