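import Pool.Agent.Helper93.SR.Sign

/-!
Ideals of irreducible Lie algebras of symplectic operators, and the non simple case.
-/

set_option linter.unusedSimpArgs false
set_option linter.unusedSectionVars false

open Module

namespace MTP

variable {K : Type*} [Field K] {V : Type*} [AddCommGroup V] [Module K V] [FiniteDimensional K V]
variable {ω : LinearMap.BilinForm K V} {L I J : Submodule K (Module.End K V)}
  {S : Set (Module.End K V)} {r : ℕ}

/-- `I` is an ideal of `L`. -/
def IsId (L I : Submodule K (Module.End K V)) : Prop :=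
  I ≤ L ∧ ∀ x ∈ L, ∀ y ∈ I, x * y - y * x ∈ I

/-- The orthogonal complement of `I` in `L` for the trace form. -/
noncomputable def orth (L I : Submodule K (Module.End K V)) : Submodule K (Module.End K V) where
  carrier := {z | z ∈ L ∧ ∀ y ∈ I, LinearMap.trace K V (z * y) = 0}
  add_mem' := by
    rintro a b ⟨ha, ha'⟩ ⟨hb, hb'⟩
    refine ⟨L.add_mem ha hb, fun y hy => ?_⟩
    rw [add_mul, map_add, ha' y hy, hb' y hy, add_zero]
  zero_mem' := ⟨L.zero_mem, fun y _ => by simp⟩
  smul_mem' := by
    rintro c a ⟨ha, ha'⟩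
    refine ⟨L.smul_mem c ha, fun y hy => ?_⟩
    rw [smul_mul_assoc, map_smul, ha' y hy, smul_zero]

lemma mem_orth {z : Module.End K V} :
    z ∈ orth L I ↔ z ∈ L ∧ ∀ y ∈ I, LinearMap.trace K V (z * y) = 0 := Iff.rfl

lemma orth_isId (hbr : ∀ x ∈ L, ∀ y ∈ L, x * y - y * x ∈ L) (hI : IsId L I) :
    IsId L (orth L I) := by
  refine ⟨fun z hz => hz.1, ?_⟩
  intro x hx z hz
  refine ⟨hbr x hx z hz.1, fun y hy => ?_⟩
  have h1 := hz.2 _ (hI.2 x hx y hy)
  rw [mul_sub, map_sub] at h1
  rw [sub_mul, map_sub]
  have e1 : LinearMap.trace K V (x * z * y) = LinearMap.trace K V (z * (y * x)) := by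
    rw [mul_assoc, LinearMap.trace_mul_comm, mul_assoc]
  have e2 : LinearMap.trace K V (z * x * y) = LinearMap.trace K V (z * (x * y)) := by
    rw [mul_assoc]
  rw [e1, e2]
  linear_combination -h1

/-- The centre is zero. -/
lemma IrrSymp.center [IsAlgClosed K] [CharZero K] (hL : IrrSymp ω L) (hω : ω.Nondegenerate)
    {x : Module.End K V} (hx : x ∈ L) (h : ∀ y ∈ L, x * y = y * x) : x = 0 := by
  by_contra hx0
  have hnt : Nontrivial V := by
    by_contra hcon
    rw [not_nontrivial_iff_subsingleton] at hcon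
    exact hx0 (LinearMap.ext fun v => Subsingleton.elim _ _)
  obtain ⟨c, hc⟩ := Module.End.exists_eigenvalue x
  obtain ⟨v, hv⟩ := hc.exists_hasEigenvector
  have h1 : LinearMap.ker (x - c • 1) = ⊤ := by
    rcases hL.irr (LinearMap.ker (x - c • 1)) (by
      intro z hz w hw
      rw [LinearMap.mem_ker, LinearMap.sub_apply, LinearMap.smul_apply, Module.End.one_apply,
        sub_eq_zero] at hw ⊢
      have := congrArg (fun t : Module.End K V => t w) (h z hz)
      simp only [Module.End.mul_apply] at this
      rw [this, hw, map_smul]) with h | h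
    · exfalso
      have : v ∈ LinearMap.ker (x - c • 1) := by
        rw [LinearMap.mem_ker, LinearMap.sub_apply, LinearMap.smul_apply, Module.End.one_apply,
          hv.apply_eq_smul, sub_self]
      rw [h, Submodule.mem_bot] at this
      exact hv.2 this
    · exact h
  have h2 : x = c • 1 := by
    apply LinearMap.ext
    intro w
    have : w ∈ LinearMap.ker (x - c • 1) := by rw [h1]; trivial
    rw [LinearMap.mem_ker, LinearMap.sub_apply, sub_eq_zero] at this
    exact this
  have h3 := trace_eq_zero_of_sk hω (hL.sk x hx)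
  rw [h2, map_smul, LinearMap.trace_one, smul_eq_mul] at h3
  rcases mul_eq_zero.mp h3 with h4 | h4
  · apply hx0; rw [h2, h4, zero_smul]
  · have : finrank K V = 0 := by exact_mod_cast h4
    have := Module.finrank_pos (R := K) (M := V)
    omega

lemma IrrSymp.inf_orth [IsAlgClosed K] [CharZero K] (hL : IrrSymp ω L) (hω : ω.Nondegenerate)
    (hI : IsId L I) {x : Module.End K V} (hx : x ∈ I) (hx' : x ∈ orth L I) : x = 0 := by
  refine hL.ideal_zero hω (I ⊓ orth L I) (fun z hz => hI.1 hz.1) ?_ ?_ x ⟨hx, hx'⟩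
  · intro z hz y hy
    exact ⟨hI.2 z hz y hy.1, (orth_isId hL.br hI).2 z hz y hy.2⟩
  · intro y hy y' hy'
    exact hy.2.2 y' hy'.1

lemma IrrSymp.orth_comm [IsAlgClosed K] [CharZero K] (hL : IrrSymp ω L) (hω : ω.Nondegenerate)
    (hI : IsId L I) {x y : Module.End K V} (hx : x ∈ I) (hy : y ∈ orth L I) : x * y = y * x := by
  rw [← sub_eq_zero]
  apply hL.inf_orth hω hI
  · have h1 := hI.2 y hy.1 x hx
    have h2 := I.neg_mem h1
    rwa [neg_sub] at h2
  · exact (orth_isId hL.br hI).2 x (hI.1 hx) y hy

lemma IrrSymp.sup_orth [IsAlgClosed K] [CharZero K] (hL : IrrSymp ω L) (hω : ω.Nondegenerate)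
    (hI : IsId L I) {z : Module.End K V} (hz : z ∈ L) : ∃ x ∈ I, z - x ∈ orth L I := by
  let Φ : I →ₗ[K] Module.Dual K I :=
    { toFun := fun a =>
        { toFun := fun b => LinearMap.trace K V ((a : Module.End K V) * (b : Module.End K V))
          map_add' := by intro b c; simp [mul_add]
          map_smul' := by intro c b; simp }
      map_add' := by intro a b; ext c; simp [add_mul]
      map_smul' := by intro c a; ext b; simp }
  have hinj : Function.Injective Φ := by
    rw [← LinearMap.ker_eq_bot, LinearMap.ker_eq_bot']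
    intro a ha
    apply Subtype.ext
    apply hL.inf_orth hω hI a.2
    refine ⟨hI.1 a.2, fun y hy => ?_⟩
    have := congrArg (fun f : Module.Dual K I => f ⟨y, hy⟩) ha
    exact this
  have hsurj : Function.Surjective Φ :=
    (LinearMap.injective_iff_surjective_of_finrank_eq_finrank
      (Subspace.dual_finrank_eq (K := K) (V := I)).symm).mp hinj
  let F : Module.Dual K I :=
    { toFun := fun b => LinearMap.trace K V (z * (b : Module.End K V))
      map_add' := by intro b c; simp [mul_add]
      map_smul' := by intro c b; simp }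
  obtain ⟨a, ha⟩ := hsurj F
  refine ⟨a, a.2, L.sub_mem hz (hI.1 a.2), fun y hy => ?_⟩
  have := congrArg (fun f : Module.Dual K I => f ⟨y, hy⟩) ha
  have h1 : LinearMap.trace K V ((a : Module.End K V) * y) = LinearMap.trace K V (z * y) := this
  rw [sub_mul, map_sub, h1, sub_self]

/-- Two complementary commuting ideals give an irreducible pair. -/
lemma IrrSymp.pr (hL : IrrSymp ω L) (hcomm : ∀ x ∈ I, ∀ y ∈ J, x * y = y * x)
    (hsup : ∀ z ∈ L, ∃ x ∈ I, z - x ∈ J) :
    Pr (Algebra.adjoin K (I : Set (Module.End K V)))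
      (Algebra.adjoin K (J : Set (Module.End K V))) := by
  constructor
  · intro a ha b hb
    have h1 : Commute a b := by
      apply Algebra.commute_of_mem_adjoin_of_forall_mem_commute hb
      intro y hy
      apply Commute.symm
      apply Algebra.commute_of_mem_adjoin_of_forall_mem_commute ha
      intro x hx
      exact (hcomm x hx y hy).symm
    exact h1
  · intro W h1 h2
    apply hL.irr W
    intro z hz w hw
    obtain ⟨x, hx, hy⟩ := hsup z hz
    have e : z w = x w + (z - x) w := by rw [LinearMap.sub_apply]; abel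
    rw [e]
    exact W.add_mem (h1 x (Algebra.subset_adjoin hx) w hw) (h2 _ (Algebra.subset_adjoin hy) w hw)

/-- Square zero elements of least rank lie in an ideal or in its complement. -/
lemma IrrSymp.EE_dich [IsAlgClosed K] [CharZero K] (hL : IrrSymp ω L) (hr : MinR L r)
    (hI : IsId L I) {e : Module.End K V} (he : e ∈ EE L r) : e ∈ I ∨ e ∈ orth L I := by
  by_cases h : e ∈ orth L I
  · exact Or.inr h
  · left
    obtain ⟨y, hy, hne⟩ : ∃ y ∈ I, LinearMap.trace K V (e * y) ≠ 0 := by
      by_contra hcon
      push Not at hcon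
      exact h ⟨he.1, hcon⟩
    have h1 := hI.2 e he.1 _ (hI.2 e he.1 y hy)
    have e1 : e * (e * y - y * e) - (e * y - y * e) * e = (-2 : K) • (e * y * e) := by
      have : e * (e * y - y * e) - (e * y - y * e) * e =
        (e * e) * y - e * y * e - e * y * e + y * (e * e) := by noncomm_ring
      rw [this, he.2.1, zero_mul, mul_zero, add_zero, zero_sub]
      module
    rw [e1, hL.extremalR hr he (hI.1 hy), smul_smul] at h1
    have hr0 : (r : K) ≠ 0 := by rw [Nat.cast_ne_zero]; exact hr.1.ne'
    have hc : (-2 : K) * (LinearMap.trace K V (e * y) / r) ≠ 0 :=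
      mul_ne_zero (by norm_num) (div_ne_zero hne hr0)
    have h2 := I.smul_mem ((-2 : K) * (LinearMap.trace K V (e * y) / r))⁻¹ h1
    rwa [smul_smul, inv_mul_cancel₀ hc, one_smul] at h2

/-- Nonzero ideals contain square zero elements of least rank. -/
lemma IrrSymp.EE_ideal [IsAlgClosed K] [CharZero K] (hL : IrrSymp ω L) (hω : ω.Nondegenerate)
    (hr : MinR L r) (hspan : L ≤ Submodule.span K (EE L r)) (hI : IsId L I) (hI0 : I ≠ ⊥) :
    ∃ e ∈ EE L r, e ∈ I := by
  by_contra hcon
  push Not at hcon
  apply hI0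
  rw [eq_bot_iff]
  intro x hx
  rw [Submodule.mem_bot]
  apply hL.inf_orth hω hI hx
  have h1 : Submodule.span K (EE L r) ≤ orth L I := by
    rw [Submodule.span_le]
    intro e he
    rcases hL.EE_dich hr hI he with h | h
    · exact absurd h (hcon e he)
    · exact h
  exact h1 (hspan (hI.1 hx))

/-- A symmetry of `L`: a semilinear ring automorphism of `End V` preserving ranks and `L`. -/
structure Tw (L : Submodule K (Module.End K V)) (τ : Module.End K V ≃+* Module.End K V) :
    Prop where
  semi : ∃ σ : K ≃+* K, ∀ (c : K) (x : Module.End K V), τ (c • x) = σ c • τ x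
  rk : ∀ x, rk (τ x) = rk x
  mem : ∀ x, τ x ∈ L ↔ x ∈ L

/-- `L` has no proper nonzero ideal stable under all elements of `T`. -/
def TSmp (L : Submodule K (Module.End K V)) (T : Set (Module.End K V ≃+* Module.End K V)) :
    Prop :=
  ∀ M : Submodule K (Module.End K V), IsId L M → (∀ τ ∈ T, ∀ x ∈ M, τ x ∈ M) → M = ⊥ ∨ M = L

/-- The span of the square zero elements of least rank. -/
lemma Ctx.span_twist [CharZero K] (hC : Ctx ω L S) (hr : MinR L r) (hE : (EE L r).Nonempty)
    {T : Set (Module.End K V ≃+* Module.End K V)} (hT : ∀ τ ∈ T, Tw L τ) (hS : TSmp L T) :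
    Submodule.span K (EE L r) = L := by
  rcases hS _ ⟨span_le L r, fun x hx y hy => hC.ideal hx hy⟩ (by
    intro τ hτ x hx
    obtain ⟨⟨σ, hσ⟩, h2, h3⟩ := hT τ hτ
    refine Submodule.span_induction ?_ ?_ ?_ ?_ hx
    · intro e he
      apply Submodule.subset_span
      exact ⟨(h3 e).mpr he.1, by rw [← map_mul, he.2.1, map_zero], by rw [h2, he.2.2]⟩
    · rw [map_zero]; exact Submodule.zero_mem _
    · intro a b _ _ ha hb
      rw [map_add]; exact Submodule.add_mem _ ha hb
    · intro c a _ ha
      rw [hσ]; exact Submodule.smul_mem _ _ ha) with h | h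
  · exfalso
    obtain ⟨x, hx⟩ := hE
    have h1 : x ∈ Submodule.span K (EE L r) := Submodule.subset_span hx
    rw [h, Submodule.mem_bot] at h1
    have h2 := hx.2.2
    rw [h1] at h2
    have h3 : MTP.rk (0 : Module.End K V) = 0 := rk_eq_zero.mpr rfl
    have := hr.1
    omega
  · exact h

end MTP
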