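import Pool.Agent.Helper93.SR.Twist

/-!
Stable subspaces of one of two commuting algebras acting irreducibly: dimensions and ranks.
-/

set_option linter.unusedSimpArgs false
set_option linter.unusedSectionVars false

open Module

namespace MTP

section core
variable {K : Type*} [Field K] {R : Type*} [Ring R] [Algebra K R] {M : Type*} [AddCommGroup M]
  [Module K M] [Module R M] [IsScalarTower K R M] [FiniteDimensional K M]

/-- The action of `x`. -/
noncomputable def act (K : Type*) [Field K] {R : Type*} [Ring R] [Algebra K R] (M : Type*)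
    [AddCommGroup M] [Module K M] [Module R M] [IsScalarTower K R M] (x : R) : M →ₗ[K] M :=
  Algebra.lsmul K K M x

lemma act_apply (x : R) (m : M) : act K M x m = x • m := rfl

lemma finrank_act_pow {S : Type*} [AddCommGroup S] [Module K S] [Module R S]
    [IsScalarTower K R S] [FiniteDimensional K S] {n : ℕ} (e : M ≃ₗ[R] Fin n → S) (x : R) :
    finrank K (LinearMap.range (act K M x)) = n * finrank K (LinearMap.range (act K S x)) := by
  let F : (Fin n → LinearMap.range (act K S x)) →ₗ[K] M :=
    { toFun := fun f => e.symm (fun i => (f i : S))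
      map_add' := by
        intro f g
        have h1 : (fun i => ((f + g) i : S)) = (fun i => (f i : S)) + fun i => (g i : S) := rfl
        rw [h1, map_add]
      map_smul' := by
        intro c f
        have h1 : (fun i => ((c • f) i : S)) = (algebraMap K R c) • (fun i => (f i : S)) := by
          funext i
          rw [Pi.smul_apply, Pi.smul_apply, algebraMap_smul]; rfl
        rw [h1, map_smul, algebraMap_smul]; rfl }
  have hF : ∀ f, F f = e.symm (fun i => (f i : S)) := fun f => rfl
  have hinj : Function.Injective F := by
    intro f g hfg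
    rw [hF, hF] at hfg
    have h1 := e.symm.injective hfg
    funext i
    exact Subtype.ext (congrFun h1 i)
  have hrange : LinearMap.range F = LinearMap.range (act K M x) := by
    apply le_antisymm
    · rintro _ ⟨f, rfl⟩
      have h1 : ∀ i, ∃ s : S, x • s = (f i : S) := fun i => (f i).2
      choose g hg using h1
      refine ⟨e.symm g, ?_⟩
      rw [hF, act_apply, ← map_smul]
      congr 1
      funext i
      rw [Pi.smul_apply, hg]
    · rintro _ ⟨w, rfl⟩
      refine ⟨fun i => ⟨x • e w i, ⟨_, rfl⟩⟩, ?_⟩
      rw [hF, act_apply]
      change e.symm (x • e w) = x • w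
      rw [map_smul, LinearEquiv.symm_apply_apply]
  rw [← hrange, LinearMap.finrank_range_of_inj hinj, Module.finrank_pi_fintype]
  simp

lemma finite_sub (W : Submodule R M) : FiniteDimensional K W :=
  Module.Finite.of_injective (W.subtype.restrictScalars K) W.subtype_injective

lemma isotypic_top (S : Submodule R M) [IsSimpleModule R S]
    (h : isotypicComponent R M S = ⊤) : IsSemisimpleModule R M ∧ IsIsotypicOfType R M S :=
  ⟨IsSemisimpleModule.congr (LinearEquiv.ofTop _ h).symm,
    IsIsotypicOfType.of_isotypicComponent_eq_top h⟩

lemma finrank_simple_pos (S : Submodule R M) [IsSimpleModule R S] : 0 < finrank K S := by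
  have f2 : FiniteDimensional K S := finite_sub S
  have := IsSimpleModule.nontrivial R S
  exact Module.finrank_pos

lemma iso_core {S : Submodule R M} (hiso : IsIsotypicOfType R M S) [IsSemisimpleModule R M]
    (W : Submodule R M) : ∃ n, finrank K W = n * finrank K S ∧
      ∀ x : R, finrank K (LinearMap.range (act K W x)) =
        n * finrank K (LinearMap.range (act K S x)) := by
  have hisoW : IsIsotypicOfType R W S := hiso.of_injective W.subtype W.subtype_injective
  have f1 : FiniteDimensional K W := finite_sub W
  have f2 : FiniteDimensional K S := finite_sub S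
  have : Module.Finite R W := Module.Finite.of_restrictScalars_finite K R W
  obtain ⟨n, ⟨e⟩⟩ := hisoW.linearEquiv_fun
  refine ⟨n, ?_, fun x => finrank_act_pow e x⟩
  rw [(e.restrictScalars K).finrank_eq, Module.finrank_pi_fintype]
  simp

lemma finrank_act_one {S : Submodule R M} (x : R) {s0 : S} (h : x • s0 ≠ 0)
    (hone : ∀ s : S, ∃ c : K, x • s = c • (x • s0)) :
    finrank K (LinearMap.range (act K S x)) = 1 := by
  have f2 : FiniteDimensional K S := finite_sub S
  have e : LinearMap.range (act K S x) = Submodule.span K {x • s0} := by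
    apply le_antisymm
    · rintro _ ⟨s, rfl⟩
      obtain ⟨c, hc⟩ := hone s
      rw [act_apply, hc]
      exact Submodule.smul_mem _ _ (Submodule.mem_span_singleton_self _)
    · rw [Submodule.span_singleton_le_iff_mem]
      exact ⟨s0, rfl⟩
  rw [e]
  exact finrank_span_singleton h

lemma finrank_act_map (W : Submodule R M) (x : R) : finrank K (LinearMap.range (act K W x)) =
    finrank K ((LinearMap.range (act K W x)).map (W.subtype.restrictScalars K)) :=
  (Submodule.equivMapOfInjective _ (by exact W.subtype_injective) _).finrank_eq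

end core

variable {K : Type*} [Field K] {V : Type*} [AddCommGroup V] [Module K V] [FiniteDimensional K V]

lemma exists_simple {K : Type*} [Field K] {R : Type*} [Ring R] [Algebra K R] {M : Type*}
    [AddCommGroup M] [Module K M] [Module R M] [IsScalarTower K R M] [FiniteDimensional K M]
    [Nontrivial M] : ∃ S : Submodule R M, IsSimpleModule R S := by
  have hart : IsArtinian R M := isArtinian_of_tower K inferInstance
  obtain ⟨S, hS⟩ := IsAtomic.exists_atom (Submodule R M)
  rw [← isSimpleModule_iff_isAtom] at hS
  exact ⟨S, hS⟩

/-- Dimensions of stable subspaces and ranks on them. -/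
theorem Pr.iso {A A' : Subalgebra K (Module.End K V)} (P : Pr A A') {a : Module.End K V}
    (ha : a ∈ A) (ha0 : a ≠ 0) (hext : ∀ y ∈ A, ∃ c : K, a * y * a = c • a) :
    ∃ d : ℕ, 0 < d ∧ ∀ W : Submodule K V, (∀ x ∈ A, ∀ w ∈ W, x w ∈ W) →
      ∃ n : ℕ, finrank K W = n * d ∧ finrank K (W.map a) = n ∧
        ∀ x ∈ A, ∃ k, finrank K (W.map x) = n * k := by
  classical
  have hnt : Nontrivial V := by
    by_contra hcon
    rw [not_nontrivial_iff_subsingleton] at hcon
    exact ha0 (LinearMap.ext fun v => Subsingleton.elim _ _)
  have hsm : ∀ (x : A) (v : V), x • v = (x : Module.End K V) v := fun x v => rfl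
  obtain ⟨S, hS⟩ := exists_simple (K := K) (R := A) (M := V)
  -- the isotypic component
  have hC : isotypicComponent A V S = ⊤ := by
    have h1 := P.irr ((isotypicComponent A V S).restrictScalars K) (by
      intro x hx w hw
      exact (isotypicComponent A V S).smul_mem ⟨x, hx⟩ hw) (by
      intro b hb w hw
      let bL : V →ₗ[A] V :=
        { toFun := fun v => b v
          map_add' := fun v w => map_add b v w
          map_smul' := by
            intro x v
            rw [RingHom.id_apply, hsm, hsm]
            exact (congrArg (fun z : Module.End K V => z v) (P.comm x x.2 b hb)).symm }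
      exact LinearMap.le_comap_isotypicComponent S bL hw)
    rcases h1 with h1 | h1
    · exfalso
      have h2 := bot_lt_isotypicComponent (R := A) (M := V) S
      have h3 : isotypicComponent A V S = ⊥ := by
        rw [eq_bot_iff]
        intro x hx
        have h4 : x ∈ (isotypicComponent A V S).restrictScalars K := hx
        rw [h1] at h4
        exact h4
      rw [h3] at h2
      exact lt_irrefl _ h2
    · rw [eq_top_iff]
      intro x _
      have h4 : x ∈ (isotypicComponent A V S).restrictScalars K := by rw [h1]; trivial
      exact h4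
  obtain ⟨hss, hiso⟩ := isotypic_top S hC
  have hSnt : Nontrivial S := IsSimpleModule.nontrivial A S
  -- the element `a` has rank one on `S`
  have haS : ∃ s : S, a s ≠ 0 := by
    by_contra hcon
    push Not at hcon
    obtain ⟨s, hs⟩ := exists_ne (0 : S)
    apply ha0
    apply P.kill ha (u := (s : V)) (fun h => hs (Subtype.ext h))
    intro b hb
    exact hcon ⟨_, S.smul_mem ⟨b, hb⟩ s.2⟩
  obtain ⟨s0, hs0⟩ := haS
  set s1 : S := ⟨a s0, S.smul_mem ⟨a, ha⟩ s0.2⟩ with hs1
  have hs1n : s1 ≠ 0 := fun h => hs0 (congrArg Subtype.val h)
  have hone : ∀ s : S, ∃ c : K, a s = c • a s0 := by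
    intro s
    obtain ⟨y, hy⟩ := IsSimpleModule.toSpanSingleton_surjective A hs1n s
    obtain ⟨c, hc⟩ := hext y y.2
    refine ⟨c, ?_⟩
    have h3 : (s : V) = (y : Module.End K V) (a s0) := (congrArg Subtype.val hy).symm
    rw [h3]
    exact congrArg (fun z : Module.End K V => z s0) hc
  refine ⟨finrank K S, finrank_simple_pos (K := K) S, ?_⟩
  intro W hW
  let WA : Submodule A V :=
    { carrier := W
      add_mem' := fun h h' => W.add_mem h h'
      zero_mem' := W.zero_mem
      smul_mem' := fun x w hw => hW x x.2 w hw }
  obtain ⟨n, h1, h2⟩ := iso_core (K := K) hiso WA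
  have hrk : ∀ x (hx : x ∈ A), finrank K (W.map x) =
      n * finrank K (LinearMap.range (act K S (⟨x, hx⟩ : A))) := by
    intro x hx
    rw [← h2]
    have e : W.map x = (LinearMap.range (act K WA (⟨x, hx⟩ : A))).map
        (WA.subtype.restrictScalars K) := by
      apply le_antisymm
      · rintro _ ⟨w, hw, rfl⟩
        exact ⟨_, ⟨⟨w, hw⟩, rfl⟩, rfl⟩
      · rintro _ ⟨_, ⟨w, rfl⟩, rfl⟩
        exact ⟨w, w.2, rfl⟩
    rw [e, finrank_act_map]
  refine ⟨n, h1, ?_, ?_⟩
  · rw [hrk a ha]
    have h3 : finrank K (LinearMap.range (act K S (⟨a, ha⟩ : A))) = 1 := by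
      apply finrank_act_one (s0 := s0)
      · intro h
        exact hs0 (congrArg Subtype.val h)
      · intro s
        obtain ⟨c, hc⟩ := hone s
        exact ⟨c, Subtype.ext hc⟩
    rw [h3, mul_one]
  · intro x hx
    exact ⟨_, hrk x hx⟩

end MTP
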