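import Pool.Agent.Helper93.SR.Peirce

/-!
The connecting elements.
-/

set_option linter.unusedSimpArgs false
set_option linter.unusedSectionVars false

open Module

namespace MTP

variable {K : Type*} [Field K] {V : Type*} [AddCommGroup V] [Module K V] [FiniteDimensional K V]

namespace PTwo
variable {L : Submodule K (Module.End K V)} {e1 f1 e2 f2 c d : Module.End K V}
  (T : PTwo L e1 f1 e2 f2 c d) [CharZero K]
include T

/-- Elements of `L` in the corner of `e1` are multiples of `e1`. -/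
lemma corner1 {x : Module.End K V} (hx : x ∈ L) (h : e1 * f1 * x * (f1 * e1) = x) :
    ∃ t : K, x = t • e1 := by
  obtain ⟨t, ht⟩ := T.xf1 x hx
  refine ⟨t, ?_⟩
  have R := T.X.rules
  calc x = e1 * (f1 * x * f1) * e1 := by rw [← h]; simp only [mul_assoc, R]
    _ = t • e1 := by rw [ht]; simp only [mul_smul_comm, smul_mul_assoc, mul_assoc, R]

/-- Elements of `L` in the corner of `f2` are multiples of `f2`. -/
lemma corner2 {x : Module.End K V} (hx : x ∈ L) (h : f2 * e2 * x * (e2 * f2) = x) :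
    ∃ t : K, x = t • f2 := by
  obtain ⟨t, ht⟩ := T.xe2 x hx
  refine ⟨t, ?_⟩
  have R := T.X.rules
  calc x = f2 * (e2 * x * e2) * f2 := by rw [← h]; simp only [mul_assoc, R]
    _ = t • f2 := by rw [ht]; simp only [mul_smul_comm, smul_mul_assoc, mul_assoc, R]

/-- The quadratic form on the joining block, polarised. -/
lemma polar {x y : Module.End K V} (hx : x ∈ L) (hy : y ∈ L) :
    ∃ t : K, e1 * (f1 * (x * (e2 * (y * (f1 * e1))))) + e1 * (f1 * (y * (e2 * (x * (f1 * e1)))))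
      = t • e1 := by
  have R := T.X.rules
  have h1 := T.br _ (T.A hx) _ (T.br _ (T.A hy) _ T.me2)
  have e : (e1 * f1 * x * (e2 * f2) + f2 * e2 * x * (f1 * e1)) *
      ((e1 * f1 * y * (e2 * f2) + f2 * e2 * y * (f1 * e1)) * e2 -
      e2 * (e1 * f1 * y * (e2 * f2) + f2 * e2 * y * (f1 * e1))) -
      ((e1 * f1 * y * (e2 * f2) + f2 * e2 * y * (f1 * e1)) * e2 -
      e2 * (e1 * f1 * y * (e2 * f2) + f2 * e2 * y * (f1 * e1))) *
      (e1 * f1 * x * (e2 * f2) + f2 * e2 * x * (f1 * e1)) =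
      -(e1 * (f1 * (x * (e2 * (y * (f1 * e1))))) + e1 * (f1 * (y * (e2 * (x * (f1 * e1)))))) := by
    simp only [mul_add, add_mul, mul_sub, sub_mul, mul_assoc, R, mul_zero, zero_mul, sub_zero,
      zero_sub, add_zero, zero_add]
    abel
  rw [e] at h1
  have h2 := L.neg_mem h1
  rw [neg_neg] at h2
  apply T.corner1 h2
  simp only [mul_add, add_mul, mul_assoc, R]

/-- Existence of the element joining the two pairs. -/
lemma exists_k : ∃ k ∈ L, ∃ Q : K, Q ≠ 0 ∧
    e1 * f1 * k * (e2 * f2) + f2 * e2 * k * (f1 * e1) = k ∧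
    k * e2 * k = Q • e1 ∧ k * f1 * k = Q • f2 := by
  have R := T.X.rules
  -- some element with nonzero square
  obtain ⟨x, hx, hne⟩ : ∃ x ∈ L, e1 * (f1 * (x * (e2 * (x * (f1 * e1))))) ≠ 0 := by
    by_contra hcon
    push Not at hcon
    have hpol : ∀ x ∈ L, ∀ y ∈ L,
        e1 * (f1 * (x * (e2 * (y * (f1 * e1))))) + e1 * (f1 * (y * (e2 * (x * (f1 * e1)))))
          = 0 := by
      intro x hx y hy
      have h1 := hcon _ (L.add_mem hx hy)
      have h2 := hcon x hx
      have h3 := hcon y hy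
      simp only [mul_add, add_mul] at h1
      rw [h2, h3] at h1
      rw [← h1]
      abel
    obtain ⟨x, hx, hA⟩ := T.A_ne
    apply hA
    apply T.nd _ (T.A hx)
    intro z hz
    have h1 := hpol x hx _ (L.neg_mem (T.br _ T.mf2 _ (T.br _ T.me1 z hz)))
    have e : e1 * (f1 * (x * (e2 * ((-(f2 * (e1 * z - z * e1) - (e1 * z - z * e1) * f2)) *
        (f1 * e1))))) + e1 * (f1 * ((-(f2 * (e1 * z - z * e1) - (e1 * z - z * e1) * f2)) *
        (e2 * (x * (f1 * e1))))) = e1 * (f1 * (x * (e2 * (f2 * (z * e1))))) +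
        e1 * (z * (f2 * (e2 * (x * (f1 * e1))))) := by
      simp only [neg_mul, mul_neg, mul_add, add_mul, mul_sub, sub_mul, mul_assoc, R, mul_zero,
        zero_mul, sub_zero, zero_sub, add_zero, zero_add, neg_neg, neg_zero]
    rw [e] at h1
    have h2 := congrArg (fun w => LinearMap.trace K V (f1 * w)) h1
    simp only [mul_add, map_add, mul_zero, map_zero] at h2
    rw [← h2, add_mul, map_add]
    congr 1
    · have t1 : f1 * (e1 * (f1 * (x * (e2 * (f2 * (z * e1)))))) =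
          (f1 * x * (e2 * f2) * z) * e1 := by
        simp only [mul_assoc, R]
      have t2 : e1 * f1 * x * (e2 * f2) * z = e1 * (f1 * x * (e2 * f2) * z) := by
        simp only [mul_assoc, R]
      rw [t1, t2, LinearMap.trace_mul_comm]
    · have t1 : f1 * (e1 * (z * (f2 * (e2 * (x * (f1 * e1)))))) =
          (f1 * e1 * z) * (f2 * e2 * x * (f1 * e1)) := by
        simp only [mul_assoc, R]
      have t2 : f2 * e2 * x * (f1 * e1) * z = (f2 * e2 * x * (f1 * e1)) * (f1 * e1 * z) := by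
        simp only [mul_assoc, R]
      rw [t1, t2, LinearMap.trace_mul_comm]
  obtain ⟨t, ht⟩ := T.polar hx hx
  set k := e1 * f1 * x * (e2 * f2) + f2 * e2 * x * (f1 * e1) with hk
  have hkL : k ∈ L := T.A hx
  have hkk : e1 * f1 * k * (e2 * f2) + f2 * e2 * k * (f1 * e1) = k := by
    rw [hk]
    simp only [mul_add, add_mul, mul_assoc, R, mul_zero, zero_mul, add_zero, zero_add]
  have h1 : k * e2 * k = e1 * (f1 * (x * (e2 * (x * (f1 * e1))))) := by
    rw [hk]
    simp only [mul_add, add_mul, mul_assoc, R, mul_zero, zero_mul, add_zero, zero_add]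
  have h2 : k * e2 * k = (t / 2) • e1 := by
    rw [← two_smul K] at ht
    have := congrArg (fun w => (2 : K)⁻¹ • w) ht
    rw [smul_smul, smul_smul, inv_mul_cancel₀ two_ne_zero, one_smul] at this
    rw [h1, this]
    congr 1
    ring
  have hQ : t / 2 ≠ 0 := by
    intro h
    rw [h, zero_smul] at h2
    exact hne (h1.symm.trans h2)
  -- the other product
  have h3 : ∃ Q' : K, k * f1 * k = Q' • f2 := by
    have h4 := T.br _ hkL _ (T.br _ hkL _ T.mf1)
    have e : k * (k * f1 - f1 * k) - (k * f1 - f1 * k) * k = (-2 : K) • (k * f1 * k) := by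
      have kk : k * k = 0 := by
        rw [hk]
        simp only [mul_add, add_mul, mul_assoc, R, mul_zero, zero_mul, add_zero, zero_add]
      have : k * (k * f1 - f1 * k) - (k * f1 - f1 * k) * k =
        (k * k) * f1 - k * f1 * k - k * f1 * k + f1 * (k * k) := by noncomm_ring
      rw [this, kk, zero_mul, mul_zero, add_zero, zero_sub]
      module
    rw [e] at h4
    have h5 := L.smul_mem (-2 : K)⁻¹ h4
    rw [smul_smul, inv_mul_cancel₀ (by norm_num), one_smul] at h5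
    apply T.corner2 h5
    rw [hk]
    simp only [mul_add, add_mul, mul_assoc, R, mul_zero, zero_mul, add_zero, zero_add]
  obtain ⟨Q', hQ'⟩ := h3
  have hkne : k * (e2 * f2) ≠ 0 := by
    intro h
    apply hne
    rw [← h1]
    have : k * e2 * k = (k * (e2 * f2)) * (e2 * k) := by
      simp only [mul_assoc, R]
    rw [this, h, zero_mul]
  have h6 : Q' • (k * (e2 * f2)) = (t / 2) • (k * (e2 * f2)) := by
    have a1 : (k * e2) * (k * f1 * k) = Q' • (k * (e2 * f2)) := by
      rw [hQ', mul_smul_comm, mul_assoc]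
    have a2 : (k * e2 * k) * (f1 * k) = (t / 2) • (k * (e2 * f2)) := by
      rw [h2, smul_mul_assoc]
      congr 1
      rw [hk]
      simp only [mul_add, add_mul, mul_assoc, R, mul_zero, zero_mul, add_zero, zero_add]
    rw [← a1, ← a2]
    noncomm_ring
  have h7 : Q' = t / 2 := by
    have h8 : (Q' - t / 2) • (k * (e2 * f2)) = 0 := by rw [sub_smul, h6, sub_self]
    rcases smul_eq_zero.mp h8 with h | h
    · exact sub_eq_zero.mp h
    · exact absurd h hkne
  exact ⟨k, hkL, t / 2, hQ, hkk, h2, by rw [hQ', h7]⟩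

end PTwo

/-- The rules for the joining elements `k`, `l`. -/
structure KL (L : Submodule K (Module.End K V)) (e1 f1 e2 f2 c d k l : Module.End K V) (Q : K) :
    Prop where
  hk : k ∈ L
  hl : l ∈ L
  Q0 : Q ≠ 0
  e1k : e1 * k = 0
  ke1 : k * e1 = 0
  f2k : f2 * k = 0
  kf2 : k * f2 = 0
  ck : c * k = 0
  kc : k * c = 0
  dk : d * k = 0
  kd : k * d = 0
  e2l : e2 * l = 0
  le2 : l * e2 = 0
  f1l : f1 * l = 0
  lf1 : l * f1 = 0
  cl : c * l = 0
  lc : l * c = 0
  dl : d * l = 0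
  ld : l * d = 0
  ele : e1 * (l * e1) = 0
  flf : f2 * (l * f2) = 0
  eke : e2 * (k * e2) = 0
  fkf : f1 * (k * f1) = 0
  kl : k * l = e1 * f1 + f2 * e2
  lk : l * k = e2 * f2 + f1 * e1
  kek : k * (e2 * k) = Q • e1
  kfk : k * (f1 * k) = Q • f2
  lef : l * (e1 * f1) = Q⁻¹ • (e2 * (k * f1))
  kef : k * (e2 * f2) = e1 * (f1 * k)
  kfe : k * (f1 * e1) = f2 * (e2 * k)

namespace KL
variable {L : Submodule K (Module.End K V)} {e1 f1 e2 f2 c d k l : Module.End K V} {Q : K}
  (Y : KL L e1 f1 e2 f2 c d k l Q)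
include Y

/-- All rewriting rules. -/
lemma rules :
    (e1 * k = 0 ∧ k * e1 = 0 ∧ f2 * k = 0 ∧ k * f2 = 0 ∧ c * k = 0 ∧ k * c = 0 ∧ d * k = 0 ∧
      k * d = 0 ∧ e2 * l = 0 ∧ l * e2 = 0 ∧ f1 * l = 0 ∧ l * f1 = 0 ∧ c * l = 0 ∧ l * c = 0 ∧
      d * l = 0 ∧ l * d = 0 ∧ e1 * (l * e1) = 0 ∧ f2 * (l * f2) = 0 ∧ e2 * (k * e2) = 0 ∧
      f1 * (k * f1) = 0) ∧
    (∀ z, e1 * (k * z) = 0 ∧ k * (e1 * z) = 0 ∧ f2 * (k * z) = 0 ∧ k * (f2 * z) = 0 ∧
      c * (k * z) = 0 ∧ k * (c * z) = 0 ∧ d * (k * z) = 0 ∧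
      k * (d * z) = 0 ∧ e2 * (l * z) = 0 ∧ l * (e2 * z) = 0 ∧ f1 * (l * z) = 0 ∧
      l * (f1 * z) = 0 ∧ c * (l * z) = 0 ∧ l * (c * z) = 0 ∧
      d * (l * z) = 0 ∧ l * (d * z) = 0 ∧ e1 * (l * (e1 * z)) = 0 ∧ f2 * (l * (f2 * z)) = 0 ∧
      e2 * (k * (e2 * z)) = 0 ∧ f1 * (k * (f1 * z)) = 0) := by
  refine ⟨⟨Y.e1k, Y.ke1, Y.f2k, Y.kf2, Y.ck, Y.kc, Y.dk, Y.kd, Y.e2l, Y.le2, Y.f1l, Y.lf1, Y.cl,
    Y.lc, Y.dl, Y.ld, Y.ele, Y.flf, Y.eke, Y.fkf⟩, ?_⟩
  intro z
  exact ⟨zz Y.e1k z, zz Y.ke1 z, zz Y.f2k z, zz Y.kf2 z, zz Y.ck z, zz Y.kc z, zz Y.dk z,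
    zz Y.kd z, zz Y.e2l z, zz Y.le2 z, zz Y.f1l z, zz Y.lf1 z, zz Y.cl z, zz Y.lc z, zz Y.dl z,
    zz Y.ld z, by rw [← mul_assoc l, ← mul_assoc, Y.ele, zero_mul],
    by rw [← mul_assoc l, ← mul_assoc, Y.flf, zero_mul],
    by rw [← mul_assoc k, ← mul_assoc, Y.eke, zero_mul],
    by rw [← mul_assoc k, ← mul_assoc, Y.fkf, zero_mul]⟩

end KL

namespace PTwo
variable {L : Submodule K (Module.End K V)} {e1 f1 e2 f2 c d : Module.End K V}
  (T : PTwo L e1 f1 e2 f2 c d) [CharZero K]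
include T

/-- Existence of the joining elements. -/
theorem exists_kl : ∃ k l : Module.End K V, ∃ Q : K, KL L e1 f1 e2 f2 c d k l Q := by
  have R := T.X.rules
  obtain ⟨k, hk, Q, hQ, hkk, h1, h2⟩ := T.exists_k
  have e1k : e1 * k = 0 := by rw [← hkk]; simp only [mul_add, mul_assoc, R, add_zero]
  have ke1 : k * e1 = 0 := by rw [← hkk]; simp only [add_mul, mul_assoc, R, mul_zero, add_zero]
  have f2k : f2 * k = 0 := by rw [← hkk]; simp only [mul_add, mul_assoc, R, add_zero]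
  have kf2 : k * f2 = 0 := by rw [← hkk]; simp only [add_mul, mul_assoc, R, mul_zero, add_zero]
  have ck : c * k = 0 := by rw [← hkk]; simp only [mul_add, mul_assoc, R, add_zero]
  have kc : k * c = 0 := by rw [← hkk]; simp only [add_mul, mul_assoc, R, mul_zero, add_zero]
  have dk : d * k = 0 := by rw [← hkk]; simp only [mul_add, mul_assoc, R, add_zero]
  have kd : k * d = 0 := by rw [← hkk]; simp only [add_mul, mul_assoc, R, mul_zero, add_zero]
  have eke : e2 * (k * e2) = 0 := by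
    rw [← hkk]
    simp only [mul_add, add_mul, mul_assoc, R, mul_zero, zero_mul, add_zero, zero_add]
  have fkf : f1 * (k * f1) = 0 := by
    rw [← hkk]
    simp only [mul_add, add_mul, mul_assoc, R, mul_zero, zero_mul, add_zero, zero_add]
  have kef : k * (e2 * f2) = e1 * (f1 * k) := by
    rw [← hkk]
    simp only [mul_add, add_mul, mul_assoc, R, mul_zero, zero_mul, add_zero, zero_add]
  have kfe : k * (f1 * e1) = f2 * (e2 * k) := by
    rw [← hkk]
    simp only [mul_add, add_mul, mul_assoc, R, mul_zero, zero_mul, add_zero, zero_add]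
  have kek : k * (e2 * k) = Q • e1 := by rw [← mul_assoc, h1]
  have kfk : k * (f1 * k) = Q • f2 := by rw [← mul_assoc, h2]
  have z1 := zz e1k
  have z2 := zz ke1
  have z3 := zz f2k
  have z4 := zz kf2
  have z5 := zz ck
  have z6 := zz kc
  have z7 := zz dk
  have z8 := zz kd
  have z9 : ∀ z, e2 * (k * (e2 * z)) = 0 := fun z => by
    rw [← mul_assoc k, ← mul_assoc, eke, zero_mul]
  have z10 : ∀ z, f1 * (k * (f1 * z)) = 0 := fun z => by
    rw [← mul_assoc k, ← mul_assoc, fkf, zero_mul]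
  set l := Q⁻¹ • (e2 * (k * f1) + f1 * (k * e2)) with hl
  have hlL : l ∈ L := by
    have h3 := T.br _ T.me2 _ (T.br _ T.mf1 _ hk)
    have e : e2 * (f1 * k - k * f1) - (f1 * k - k * f1) * e2 =
        -(e2 * (k * f1) + f1 * (k * e2)) := by
      simp only [mul_sub, sub_mul, mul_assoc, R, mul_zero, zero_mul, zero_sub, sub_zero]
      abel
    rw [e] at h3
    have h4 := L.neg_mem h3
    rw [neg_neg] at h4
    exact L.smul_mem _ h4
  refine ⟨k, l, Q, ⟨hk, hlL, hQ, e1k, ke1, f2k, kf2, ck, kc, dk, kd, ?_, ?_, ?_, ?_, ?_, ?_, ?_, ?_,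
    ?_, ?_, eke, fkf, ?_, ?_, kek, kfk, ?_, kef, kfe⟩⟩
  · rw [hl]; simp only [mul_smul_comm, mul_add, mul_assoc, R, z9, add_zero, smul_zero]
  · rw [hl]; simp only [smul_mul_assoc, add_mul, mul_assoc, R, mul_zero, add_zero, smul_zero]
  · rw [hl]; simp only [mul_smul_comm, mul_add, mul_assoc, R, z10, add_zero, smul_zero]
  · rw [hl]; simp only [smul_mul_assoc, add_mul, mul_assoc, R, mul_zero, add_zero, smul_zero]
  · rw [hl]; simp only [mul_smul_comm, mul_add, mul_assoc, R, z9, add_zero, smul_zero]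
  · rw [hl]; simp only [smul_mul_assoc, add_mul, mul_assoc, R, mul_zero, add_zero, smul_zero]
  · rw [hl]; simp only [mul_smul_comm, mul_add, mul_assoc, R, z9, add_zero, smul_zero]
  · rw [hl]; simp only [smul_mul_assoc, add_mul, mul_assoc, R, mul_zero, add_zero, smul_zero]
  · rw [hl]; simp only [smul_mul_assoc, mul_smul_comm, mul_add, add_mul, mul_assoc, R, mul_zero,
      add_zero, smul_zero]
  · rw [hl]; simp only [smul_mul_assoc, mul_smul_comm, mul_add, add_mul, mul_assoc, R, mul_zero,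
      add_zero, smul_zero]
  · have a1 : k * (e2 * (k * f1)) = Q • (e1 * f1) := by
      rw [← mul_assoc e2, ← mul_assoc k, kek, smul_mul_assoc]
    have a2 : k * (f1 * (k * e2)) = Q • (f2 * e2) := by
      rw [← mul_assoc f1, ← mul_assoc k, kfk, smul_mul_assoc]
    rw [hl, mul_smul_comm, mul_add, a1, a2, ← smul_add, smul_smul, inv_mul_cancel₀ hQ, one_smul]
  · have a1 : e2 * (k * f1) * k = Q • (e2 * f2) := by
      rw [mul_assoc, mul_assoc k, kfk, mul_smul_comm]
    have a2 : f1 * (k * e2) * k = Q • (f1 * e1) := by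
      rw [mul_assoc, mul_assoc k, kek, mul_smul_comm]
    rw [hl, smul_mul_assoc, add_mul, a1, a2, ← smul_add, smul_smul, inv_mul_cancel₀ hQ, one_smul]
  · rw [hl]
    simp only [smul_mul_assoc, mul_smul_comm, mul_add, add_mul, mul_assoc, R, mul_zero,
      add_zero, smul_zero]

end PTwo

end MTP
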