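import Pool.Agent.Helper93.SR.Coord2

/-!
In the symplectic case the least rank is one.
-/

set_option linter.unusedSimpArgs false
set_option linter.unusedSectionVars false

open Module

namespace MTP

variable {K : Type*} [Field K] {V : Type*} [AddCommGroup V] [Module K V] [FiniteDimensional K V]
variable {ω : LinearMap.BilinForm K V}

namespace PTwo
variable {L : Submodule K (Module.End K V)} {e1 f1 e2 f2 c d : Module.End K V}
  (T : PTwo L e1 f1 e2 f2 c d) [CharZero K]
include T

/-- The other polar form. -/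
lemma polar' {x y : Module.End K V} (hx : x ∈ L) (hy : y ∈ L) :
    ∃ t : K, f2 * (e2 * (x * (f1 * (y * (e2 * f2))))) + f2 * (e2 * (y * (f1 * (x * (e2 * f2)))))
      = t • f2 := by
  have R := T.X.rules
  have h1 := T.br _ (T.A hx) _ (T.br _ (T.A hy) _ T.mf1)
  have e : (e1 * f1 * x * (e2 * f2) + f2 * e2 * x * (f1 * e1)) *
      ((e1 * f1 * y * (e2 * f2) + f2 * e2 * y * (f1 * e1)) * f1 -
      f1 * (e1 * f1 * y * (e2 * f2) + f2 * e2 * y * (f1 * e1))) -
      ((e1 * f1 * y * (e2 * f2) + f2 * e2 * y * (f1 * e1)) * f1 -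
      f1 * (e1 * f1 * y * (e2 * f2) + f2 * e2 * y * (f1 * e1))) *
      (e1 * f1 * x * (e2 * f2) + f2 * e2 * x * (f1 * e1)) =
      -(f2 * (e2 * (x * (f1 * (y * (e2 * f2))))) + f2 * (e2 * (y * (f1 * (x * (e2 * f2)))))) := by
    simp only [mul_add, add_mul, mul_sub, sub_mul, mul_assoc, R, mul_zero, zero_mul, sub_zero,
      zero_sub, add_zero, zero_add]
    abel
  rw [e] at h1
  have h2 := L.neg_mem h1
  rw [neg_neg] at h2
  apply T.corner2 h2
  simp only [mul_add, add_mul, mul_assoc, R]

/-- Elements of the coordinate algebra are skew up to scalars for `ω(u, f1 v)`. -/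
lemma form_rel (hsk : ∀ z ∈ L, IsSk ω z) {k l : Module.End K V} {Q : K}
    (Y : KL L e1 f1 e2 f2 c d k l Q) {y : Module.End K V} (hy : y ∈ YY L e1 f1 c d) :
    ∃ t : K, ∀ u v : V, (e1 * f1) u = u → (e1 * f1) v = v →
      ω (y u) (f1 v) + ω u (f1 (y v)) = t * ω u (f1 v) := by
  have R := T.X.rules
  have R2 := Y.rules
  obtain ⟨w, hw, rfl⟩ := T.YY_le Y hy
  obtain ⟨t, ht⟩ := T.polar' hw Y.hk
  refine ⟨t * Q⁻¹, ?_⟩
  intro u v hu hv
  set a := e1 * f1 * w * (e2 * f2) + f2 * e2 * w * (f1 * e1) with ha
  have haL : a ∈ L := T.A hw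
  -- both vectors are images under `k l`
  have hkl : ∀ z : V, (e1 * f1) z = z → k (l z) = z := by
    intro z hz
    have h1 : (k * l) * (e1 * f1) = e1 * f1 := by
      rw [Y.kl]; simp only [add_mul, mul_assoc, R, mul_zero, add_zero]
    have h2 := congrArg (fun A : Module.End K V => A z) h1
    simp only [Module.End.mul_apply] at h2 hz
    rw [hz] at h2
    exact h2
  have hal : ∀ z : V, (e1 * f1) z = z → (e1 * (f1 * (w * (e2 * (f2 * l))))) z = a (l z) := by
    intro z hz
    have h1 : (e1 * (f1 * (w * (e2 * (f2 * l))))) * (e1 * f1) = a * l * (e1 * f1) := by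
      rw [ha]; simp only [add_mul, mul_assoc, R, R2, mul_zero, add_zero]
    have h2 := congrArg (fun A : Module.End K V => A z) h1
    have h3 : ∀ A : Module.End K V, (A * (e1 * f1)) z = A z := by
      intro A
      rw [Module.End.mul_apply, hz]
    simp only [h3] at h2
    rw [h2]; rfl
  have e1' : ω ((e1 * (f1 * (w * (e2 * (f2 * l))))) u) (f1 v) =
      - ω (l u) (a (f1 (k (l v)))) := by
    rw [hal u hu, hkl v hv, hsk a haL]
  have e2' : ω u (f1 ((e1 * (f1 * (w * (e2 * (f2 * l))))) v)) =
      - ω (l u) (k (f1 (a (l v)))) := by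
    rw [hal v hv]
    nth_rewrite 1 [← hkl u hu]
    rw [hsk k Y.hk]
  have e3' : ω u (f1 v) = - (Q * ω (l u) (f2 (l v))) := by
    nth_rewrite 1 [← hkl u hu]
    nth_rewrite 1 [← hkl v hv]
    rw [hsk k Y.hk]
    have := congrArg (fun A : Module.End K V => A (l v)) Y.kfk
    simp only [Module.End.mul_apply, LinearMap.smul_apply] at this
    rw [this, map_smul, smul_eq_mul]
  have e4' : a * (f1 * k) + k * (f1 * a) = t • f2 := by
    rw [← ht, ha]
    have k1 : k * (e2 * f2) = e1 * (f1 * k) := Y.kef
    have g1 : f1 * k = f1 * (k * (e2 * f2)) := by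
      rw [Y.kef]; simp only [R]
    have g2 : e2 * k = e2 * (k * (f1 * e1)) := by
      rw [Y.kfe]; simp only [R]
    have g3 : k * f1 = f2 * (e2 * (k * f1)) := by
      have : k * (f1 * e1) * f1 = f2 * (e2 * k) * f1 := by rw [Y.kfe]
      simp only [mul_assoc, R] at this
      exact this
    have h1 : (e1 * f1 * w * (e2 * f2) + f2 * e2 * w * (f1 * e1)) * (f1 * k) =
        f2 * (e2 * (w * (f1 * (k * (e2 * f2))))) := by
      have : (e1 * f1 * w * (e2 * f2) + f2 * e2 * w * (f1 * e1)) * (f1 * k) =
        f2 * (e2 * (w * (f1 * k))) := by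
        simp only [add_mul, mul_assoc, R, R2, mul_zero, zero_add]
      rw [this, ← g1]
    have h2 : k * (f1 * (e1 * f1 * w * (e2 * f2) + f2 * e2 * w * (f1 * e1))) =
        f2 * (e2 * (k * (f1 * (w * (e2 * f2))))) := by
      have : k * (f1 * (e1 * f1 * w * (e2 * f2) + f2 * e2 * w * (f1 * e1))) =
        (k * f1) * (w * (e2 * f2)) := by
        simp only [mul_add, mul_assoc, R, R2, mul_zero, add_zero]
      rw [this, g3]
      simp only [mul_assoc]
    rw [h1, h2]
  have e5' := congrArg (fun A : Module.End K V => A (l v)) e4'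
  simp only [Module.End.mul_apply, LinearMap.smul_apply, LinearMap.add_apply] at e5'
  rw [e1', e2', e3']
  have e6 : ω (l u) (a (f1 (k (l v)))) + ω (l u) (k (f1 (a (l v)))) = t * ω (l u) (f2 (l v)) := by
    rw [← map_add, e5', map_smul, smul_eq_mul]
  have hQ := Y.Q0
  have e7 : -ω (l u) (a (f1 (k (l v)))) + -ω (l u) (k (f1 (a (l v)))) =
      -(t * ω (l u) (f2 (l v))) := by
    rw [← e6]; ring
  rw [e7]
  field_simp

/-- In the symplectic case the least rank is one. -/
theorem rank_one [IsAlgClosed K] (hω : ω.Nondegenerate) (halt : ω.IsAlt)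
    (hsk : ∀ z ∈ L, IsSk ω z) : rk e1 = 1 := by
  have R := T.X.rules
  obtain ⟨k, l, Q, Y⟩ := T.exists_kl
  have hanti : ∀ u v : V, ω u v = - ω v u := fun u v => (halt.neg_eq v u).symm
  have hsymm : ∀ u v : V, ω u (f1 v) = ω v (f1 u) := by
    intro u v
    rw [hanti u, hsk f1 T.mf1, neg_neg]
  -- no isotropic vectors
  have hiso : ∀ u : V, (e1 * f1) u = u → ω u (f1 u) = 0 → u = 0 := by
    intro u hu h0
    by_contra hne
    let U : Submodule K V := (YY L e1 f1 c d).map (LinearMap.applyₗ u : Module.End K V →ₗ[K] V)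
    have hU : ∀ w, w ∈ U ↔ ∃ y ∈ YY L e1 f1 c d, y u = w := by
      intro w; rfl
    have key := top_irr (π := e1 * f1) (U := U) T.br T.irr (by
        intro x hx
        obtain ⟨_, _, _, _, _, _, w, hw, hwe⟩ := T.comps hx
        refine ⟨w, hw, ?_, ?_⟩
        · rw [hwe]
          simp only [mul_add, mul_sub, sub_mul, mul_one, one_mul, mul_assoc, R, sub_zero,
            mul_zero, sub_self, add_zero]
        · rw [hwe]
          simp only [add_mul, mul_sub, sub_mul, mul_one, one_mul, mul_assoc, R, sub_zero,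
            mul_zero, sub_self, add_zero]
          abel) (by
        intro w hw
        obtain ⟨y, hy, rfl⟩ := (hU w).mp hw
        have := congrArg (fun A : Module.End K V => A u) (T.YY_end hy).2
        simpa using this) (by
        intro hb
        apply hne
        have : u ∈ U := (hU u).mpr ⟨_, T.one_mem Y, hu⟩
        rw [hb, Submodule.mem_bot] at this
        exact this) (by
        intro x hx w hw
        obtain ⟨y, hy, rfl⟩ := (hU w).mp hw
        rw [hU]
        refine ⟨_, T.YY_mul Y (T.top_mem Y hx) hy, ?_⟩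
        have e : e1 * (f1 * (x * (e1 * f1))) * y = (e1 * f1) * (x * y) := by
          have := (T.YY_end hy).2
          calc e1 * (f1 * (x * (e1 * f1))) * y = e1 * (f1 * (x * (e1 * (f1 * y)))) := by
                simp only [mul_assoc]
            _ = _ := by rw [this]; simp only [mul_assoc]
        rw [e]; rfl)
    have h1 : ∀ v : V, ω ((e1 * f1) v) (f1 u) = 0 := by
      intro v
      obtain ⟨y, hy, hyv⟩ := (hU _).mp (key v)
      rw [← hyv]
      obtain ⟨t, ht⟩ := T.form_rel hsk Y hy
      have h2 := ht u u hu hu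
      rw [h0, mul_zero, hsymm u (y u)] at h2
      have h3 : (2 : K) * ω (y u) (f1 u) = 0 := by rw [two_mul]; exact h2
      rcases mul_eq_zero.mp h3 with h | h
      · exact absurd h two_ne_zero
      · exact h
    have h2 : f1 u = 0 := by
      apply hω.2
      intro v
      have h3 := h1 v
      rw [Module.End.mul_apply, hsk e1 T.me1, hsk f1 T.mf1, neg_neg] at h3
      have h4 : f1 (e1 (f1 u)) = f1 u := by
        have := congrArg (fun A : Module.End K V => A u) T.X.s1
        simpa using this
      rw [h4] at h3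
      exact h3
    apply hne
    rw [← hu, Module.End.mul_apply, h2, map_zero]
  -- the rank
  have hr0 : 0 < rk e1 := rk_pos.mpr T.ne1
  by_contra hcon
  have hr : 1 < finrank K (LinearMap.range e1) := by
    change 1 < rk e1
    omega
  have hfix : ∀ x ∈ LinearMap.range e1, (e1 * f1) x = x := by
    rintro _ ⟨v, rfl⟩
    have := congrArg (fun A : Module.End K V => A v) T.X.t1
    simpa using this
  obtain ⟨u, v, huv⟩ : ∃ u v : LinearMap.range e1, LinearIndependent K ![u, v] := by
    have hb := Module.finBasis K (LinearMap.range e1)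
    have hn := hr
    let i0 : Fin (finrank K (LinearMap.range e1)) := ⟨0, by omega⟩
    let i1 : Fin (finrank K (LinearMap.range e1)) := ⟨1, by omega⟩
    refine ⟨hb i0, hb i1, ?_⟩
    have h1 := hb.linearIndependent.comp ![i0, i1] (by
      intro a b hab
      have h2 : (![i0, i1] a).val = (![i0, i1] b).val := congrArg Fin.val hab
      clear hab
      fin_cases a <;> fin_cases b
      · rfl
      · exact absurd h2 (by simp [i0, i1])
      · exact absurd h2 (by simp [i0, i1])
      · rfl)
    have : hb ∘ ![i0, i1] = ![hb i0, hb i1] := by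
      ext i; fin_cases i <;> rfl
    rwa [this] at h1
  have hv0 : v ≠ 0 := by
    have := huv.ne_zero 1
    simpa using this
  by_cases hvv : ω (v : V) (f1 v) = 0
  · exact hv0 (Subtype.ext (hiso v (hfix _ v.2) hvv))
  · obtain ⟨s, hs⟩ := IsAlgClosed.exists_eq_mul_self
      (discrim (ω (v : V) (f1 v)) (2 * ω (u : V) (f1 v)) (ω (u : V) (f1 u)))
    obtain ⟨x, hx⟩ := exists_quadratic_eq_zero hvv ⟨s, hs⟩
    have h1 := hiso ((u : V) + x • v) (by rw [map_add, map_smul, hfix _ u.2, hfix _ v.2]) (by
      simp only [map_add, map_smul, LinearMap.add_apply, LinearMap.smul_apply, smul_eq_mul]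
      rw [hsymm v u]
      linear_combination hx)
    have h2 : u + x • v = 0 := Subtype.ext h1
    have h3 := huv
    rw [LinearIndependent.pair_iff] at h3
    have := (h3 1 x (by rw [one_smul]; exact h2)).1
    exact one_ne_zero this

end PTwo

end MTP
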