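import Pool.Agent.Helper93.SR.Count
import Pool.Agent.Helper93.SR.RankOne

/-!
Simple irreducible Lie algebras of symplectic operators generated by involutions and containing
a square zero element of small rank.
-/

set_option linter.unusedSimpArgs false
set_option linter.unusedSectionVars false

open Module

namespace MTP

variable {K : Type*} [Field K] {V : Type*} [AddCommGroup V] [Module K V] [FiniteDimensional K V]
variable {ω : LinearMap.BilinForm K V} {L : Submodule K (Module.End K V)}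
  {S : Set (Module.End K V)} {r : ℕ}

/-- Corners outside a hyperbolic pair. -/
lemma corner_mem [CharZero K] {e f p q : Module.End K V} (H : Hyp e f p q)
    {L : Submodule K (Module.End K V)}
    (hh : ∀ x ∈ L, (e * f - f * e) * x - x * (e * f - f * e) ∈ L)
    (hs : ∀ x ∈ L, (p - q) * x - x * (p - q) ∈ L) {x : Module.End K V} (hx : x ∈ L) :
    (p - e * f) * x * (q - f * e) ∈ L ∧ (q - f * e) * x * (p - e * f) ∈ L := by
  have r1 := H.ee
  have r2 := H.ff
  have r3 : e * (f * e) = e := by rw [← mul_assoc, H.efe]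
  have r4 : f * (e * f) = f := by rw [← mul_assoc, H.fef]
  have r5 := H.pe
  have r6 := H.eq
  have r7 := H.qf
  have r8 := H.fp
  have r9 := H.pq
  have r10 := H.qp
  have r11 := H.ppp
  have r12 := H.qqq
  have r13 := H.qe
  have r14 := H.ep
  have r15 := H.pf
  have r16 := H.fq
  have z1 := zz r1
  have z2 := zz r2
  have z3 := zt r3
  have z4 := zt r4
  have z5 := zr r5
  have z6 := zr r6
  have z7 := zr r7
  have z8 := zr r8
  have z9 := zz r9
  have z10 := zz r10
  have z11 := zr r11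
  have z12 := zr r12
  have z13 := zz r13
  have z14 := zz r14
  have z15 := zz r15
  have z16 := zz r16
  let P : Fin 4 → Module.End K V := ![e * f, p - e * f, f * e, q - f * e]
  have hP : ∀ i j, P i * P j = if i = j then P i else 0 := by
    intro i j
    fin_cases i <;> fin_cases j <;>
      simp [P, mul_sub, sub_mul, mul_assoc, r1, r2, r3, r4, r5, r6, r7, r8, r9, r10, r11, r12, r13,
        r14, r15, r16, z1, z2, z3, z4, z5, z6, z7, z8, z9, z10, z11, z12, z13, z14, z15, z16]
  have hsum : ∑ i, P i = 1 := by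
    simp only [P, Fin.sum_univ_succ]
    simp
    rw [← H.sum]; abel
  have key : ∀ w : ℤ, (∑ i : Fin 4, ∑ j : Fin 4,
      if (![11, 10, -11, -10] : Fin 4 → ℤ) i - (![11, 10, -11, -10] : Fin 4 → ℤ) j = w then
        P i * x * P j else 0) ∈ L := by
    intro w
    apply extractZ P hP hsum _ _ hx
    intro y hy
    have e0 : (∑ i : Fin 4, (((![11, 10, -11, -10] : Fin 4 → ℤ) i : ℤ) : K) • P i) =
        (10 : K) • (p - q) + (e * f - f * e) := by
      simp only [P, Fin.sum_univ_succ]
      simp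
      match_scalars <;> norm_num
    rw [e0]
    have e' : ((10 : K) • (p - q) + (e * f - f * e)) * y -
        y * ((10 : K) • (p - q) + (e * f - f * e)) =
        (10 : K) • ((p - q) * y - y * (p - q)) +
        ((e * f - f * e) * y - y * (e * f - f * e)) := by
      rw [add_mul, mul_add, smul_mul_assoc, mul_smul_comm, smul_sub]
      abel
    rw [e']
    exact L.add_mem (L.smul_mem _ (hs y hy)) (hh y hy)
  constructor
  · have := key 20
    simp only [P, Fin.sum_univ_succ] at this
    simpa using this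
  · have := key (-20)
    simp only [P, Fin.sum_univ_succ] at this
    simpa using this

/-- **Theorem S.** A simple irreducible Lie algebra of infinitesimal symplectic operators which is
generated by involutions and contains a nonzero square zero element of rank less than a quarter of
the dimension is the symplectic Lie algebra. -/
theorem Ctx.eq_sp_of_small [IsAlgClosed K] [CharZero K] (hC : Ctx ω L S) (halt : ω.IsAlt)
    (hS : Smp L) {x : Module.End K V} (hx : x ∈ L) (hxx : x * x = 0) (hx0 : x ≠ 0)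
    (hsmall : 4 * rk x < finrank K V) {z : Module.End K V} (hz : IsSk ω z) : z ∈ L := by
  classical
  -- the least rank
  have hex : ∃ r, ∃ x ∈ L, x * x = 0 ∧ x ≠ 0 ∧ rk x = r := ⟨rk x, x, hx, hxx, hx0, rfl⟩
  obtain ⟨y, hy, hyy, hy0, hyr⟩ := Nat.find_spec hex
  have hle : Nat.find hex ≤ rk x := Nat.find_min' hex ⟨x, hx, hxx, hx0, rfl⟩
  have hmin : ∀ w ∈ L, w * w = 0 → w ≠ 0 → Nat.find hex ≤ rk w :=
    fun w hw hww hw0 => Nat.find_min' hex ⟨w, hw, hww, hw0, rfl⟩
  generalize hr : Nat.find hex = r at *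
  have hM : MinR L r := ⟨by rw [← hyr]; exact rk_pos.mpr hy0, hmin⟩
  have hE : (EE L r).Nonempty := ⟨y, hy, hyy, hyr⟩
  have hr0 : (r : K) ≠ 0 := by rw [Nat.cast_ne_zero]; exact hM.1.ne'
  -- an involution
  obtain ⟨s, hs⟩ : S.Nonempty := by
    by_contra hcon
    rw [Set.not_nonempty_iff_eq_empty] at hcon
    have h1 := hC.gen ⊥ (by
      intro a ha b hb
      rw [Submodule.mem_bot] at ha hb ⊢
      rw [ha, hb]; simp) (by
      intro s hs; rw [hcon] at hs; exact absurd hs (Set.notMem_empty s))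
    have h2 := h1 hx
    rw [Submodule.mem_bot] at h2
    exact hx0 h2
  obtain ⟨hsL, hss⟩ := hC.inv s hs
  have hsb : ∀ x ∈ L, s * x - x * s ∈ L := fun x hx => hC.irr.br s hsL x hx
  obtain ⟨e1, f1, he1, hf1, H1⟩ := hC.sr_hyp hS hM hE hs
  have hnz : ∀ {e : Module.End K V}, e ∈ EE L r → e ≠ 0 := by
    intro e he h
    have := he.2.2
    rw [h, rk_eq_zero.mpr rfl] at this
    have := hM.1
    omega
  -- traces
  have htr : ∀ {e f : Module.End K V}, e ∈ EE L r → f ∈ L → e * f * e = e →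
      LinearMap.trace K V (e * f) = r := by
    intro e f he hf h
    have h1 := hC.irr.extremalR hM he hf
    rw [h] at h1
    have h2 : (LinearMap.trace K V (e * f) / r - 1) • e = 0 := by
      rw [sub_smul, one_smul, ← h1, sub_self]
    rcases smul_eq_zero.mp h2 with h3 | h3
    · rw [sub_eq_zero, div_eq_one_iff_eq hr0] at h3
      exact h3
    · exact absurd h3 (hnz he)
  have hts : LinearMap.trace K V s = 0 := trace_eq_zero_of_sk hC.nd (hC.irr.sk s hsL)
  obtain ⟨a, ha⟩ := sr_trace_idem (pp s) (by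
    intro w; rw [← Module.End.mul_apply, pp_mul_pp hss])
  obtain ⟨b, hb⟩ := sr_trace_idem (qq s) (by
    intro w; rw [← Module.End.mul_apply, qq_mul_qq hss])
  have hab : a = b := by
    have h1 := congrArg (LinearMap.trace K V) (pp_sub_qq (s := s))
    rw [map_sub, hts, ha, hb, sub_eq_zero] at h1
    exact_mod_cast h1
  have hab2 : a + b = finrank K V := by
    have h1 := congrArg (LinearMap.trace K V) (pp_add_qq (s := s))
    rw [map_add, ha, hb, LinearMap.trace_one] at h1
    exact_mod_cast h1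
  -- a corner
  obtain ⟨x1, hx1, hx1ne⟩ := exists_corner hC.irr.br hC.irr.irr
    (fun z hz h => hC.irr.nondeg hC.nd hz h) hss hsb he1.1 H1 hM.1
    (htr he1 hf1.1 H1.efe) (fun x hx => hC.irr.extremalR hM hf1 hx) ha hb (by omega) (by omega)
    (by
      subst hab
      have : 2 * r ≤ a := by omega
      calc r * (a + a) = (2 * r) * a := by ring
        _ ≤ a * a := Nat.mul_le_mul_right _ this)
  have hcor : ∀ x ∈ L, (pp s - e1 * f1) * x * (qq s - f1 * e1) ∈ L ∧
      (qq s - f1 * e1) * x * (pp s - e1 * f1) ∈ L := by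
    intro x hx
    apply corner_mem H1 _ _ hx
    · intro y hy
      exact hC.irr.br _ (hC.irr.br _ he1.1 _ hf1.1) y hy
    · intro y hy
      rw [pp_sub_qq]
      exact hsb y hy
  -- rules for the first pair
  have r3 : e1 * (f1 * e1) = e1 := by rw [← mul_assoc, H1.efe]
  have r4 : f1 * (e1 * f1) = f1 := by rw [← mul_assoc, H1.fef]
  have pp1 : (pp s - e1 * f1) * (pp s - e1 * f1) = pp s - e1 * f1 := by
    simp only [mul_sub, sub_mul, mul_assoc, H1.ppp, H1.fp, zr H1.pe, r4]
    abel
  have qq1 : (qq s - f1 * e1) * (qq s - f1 * e1) = qq s - f1 * e1 := by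
    simp only [mul_sub, sub_mul, mul_assoc, H1.qqq, H1.eq, zr H1.qf, r3]
    abel
  have pq1 : (pp s - e1 * f1) * (qq s - f1 * e1) = 0 := by
    simp only [mul_sub, sub_mul, mul_assoc, H1.pq, H1.fq, zz H1.pf, zz H1.ff, mul_zero, sub_zero]
  have qp1 : (qq s - f1 * e1) * (pp s - e1 * f1) = 0 := by
    simp only [mul_sub, sub_mul, mul_assoc, H1.qp, H1.ep, zz H1.qe, zz H1.ee, mul_zero, sub_zero]
  obtain ⟨e2, f2, he2, hf2, a1, a2, a3, a4, a5, a6⟩ := hC.sr_pair hS hM hE pp1 qq1 pq1 qp1
    (fun x hx => (hcor x hx).1) (fun x hx => (hcor x hx).2) ⟨x1, hx1, hx1ne⟩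
  have H2 : Hyp e2 f2 (pp s) (qq s) := by
    refine ⟨he2.2.1, hf2.2.1, a5, a6, ?_, ?_, ?_, ?_, H1.pq, H1.qp, H1.ppp, H1.qqq, H1.sum⟩
    · rw [← a1]
      simp only [mul_sub, sub_mul, mul_assoc, zr H1.ppp, zr H1.pe]
    · rw [← a2]
      simp only [mul_sub, sub_mul, mul_assoc, H1.qqq, H1.eq]
    · rw [← a3]
      simp only [mul_sub, sub_mul, mul_assoc, zr H1.qqq, zr H1.qf]
    · rw [← a4]
      simp only [mul_sub, sub_mul, mul_assoc, H1.ppp, H1.fp]
  have ef12 : e1 * f2 = 0 := by
    rw [← a3]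
    simp only [mul_sub, sub_mul, mul_assoc, zr H1.eq, zt r3, sub_self]
  have ef21 : e2 * f1 = 0 := by
    rw [← a2]
    simp only [mul_sub, sub_mul, mul_assoc, H1.qf, r4, sub_self]
  have fe12 : f1 * e2 = 0 := by
    rw [← a1]
    simp only [mul_sub, sub_mul, mul_assoc, zr H1.fp, zt r4, sub_self]
  have fe21 : f2 * e1 = 0 := by
    rw [← a4]
    simp only [mul_sub, sub_mul, mul_assoc, H1.pe, r3, sub_self]
  have e12 : e1 * e2 = 0 := by rw [← H1.eq, mul_assoc, H2.qe, mul_zero]
  have e21 : e2 * e1 = 0 := by rw [← H2.eq, mul_assoc, H1.qe, mul_zero]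
  have f12 : f1 * f2 = 0 := by rw [← H1.fp, mul_assoc, H2.pf, mul_zero]
  have f21 : f2 * f1 = 0 := by rw [← H2.fp, mul_assoc, H1.pf, mul_zero]
  have s3 : e2 * (f2 * e2) = e2 := by rw [← mul_assoc, H2.efe]
  have s4 : f2 * (e2 * f2) = f2 := by rw [← mul_assoc, H2.fef]
  have X : Six e1 f1 e2 f2 (pp s - e1 * f1 - e2 * f2) (qq s - f1 * e1 - f2 * e2) := by
    refine ⟨H1.ee, e12, e21, H2.ee, H1.ff, f12, f21, H2.ff, ef12, ef21, fe12, fe21, r3, r4, s3, s4,
      ?_, ?_, ?_, ?_, ?_, ?_, ?_, ?_, ?_, ?_, ?_, ?_, ?_, ?_, ?_, ?_, ?_, ?_, ?_, ?_, ?_⟩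
    · simp only [sub_mul, mul_assoc, H1.pe, r3, fe21, mul_zero, sub_self]
    · simp only [mul_sub, zz H1.ee, zz e12, H1.ep, sub_self]
    · simp only [sub_mul, mul_assoc, H2.pe, s3, fe12, mul_zero, sub_zero, sub_self]
    · simp only [mul_sub, zz H2.ee, zz e21, H2.ep, sub_self]
    · simp only [sub_mul, mul_assoc, H1.pf, H1.ff, f21, mul_zero, sub_self]
    · simp only [mul_sub, H1.fp, r4, zz fe12, sub_self]
    · simp only [sub_mul, mul_assoc, H2.pf, H2.ff, f12, mul_zero, sub_self]
    · simp only [mul_sub, H2.fp, s4, zz fe21, sub_zero, sub_self]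
    · simp only [sub_mul, mul_assoc, H1.qe, H1.ee, e21, mul_zero, sub_self]
    · simp only [mul_sub, H1.eq, r3, zz ef12, sub_self]
    · simp only [sub_mul, mul_assoc, H2.qe, H2.ee, e12, mul_zero, sub_self]
    · simp only [mul_sub, H2.eq, s3, zz ef21, sub_zero, sub_self]
    · simp only [sub_mul, mul_assoc, H1.qf, r4, ef21, mul_zero, sub_self]
    · simp only [mul_sub, zz H1.ff, zz f12, H1.fq, sub_self]
    · simp only [sub_mul, mul_assoc, H2.qf, s4, ef12, mul_zero, sub_zero, sub_self]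
    · simp only [mul_sub, zz H2.ff, zz f21, H2.fq, sub_self]
    · simp only [mul_sub, sub_mul, mul_assoc, H1.ppp, H1.fp, H2.fp, zr H1.pe, zr H2.pe, r4, s4,
        zz fe12, zz fe21, mul_zero]
      abel
    · simp only [mul_sub, sub_mul, mul_assoc, H1.qqq, H1.eq, H2.eq, zr H1.qf, zr H2.qf, r3, s3,
        zz ef12, zz ef21, mul_zero]
      abel
    · simp only [mul_sub, sub_mul, mul_assoc, H1.pq, H1.fq, H2.fq, zz H1.pf, zz H2.pf, zz H1.ff,
        zz H2.ff, zz f12, zz f21, mul_zero, sub_zero]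
    · simp only [mul_sub, sub_mul, mul_assoc, H1.qp, H1.ep, H2.ep, zz H1.qe, zz H2.qe, zz H1.ee,
        zz H2.ee, zz e12, zz e21, mul_zero, sub_zero]
    · rw [← H1.sum]; abel
  have tr1 := htr he1 hf1.1 H1.efe
  have tr2 := htr he2 hf2.1 H2.efe
  have T : PTwo L e1 f1 e2 f2 (pp s - e1 * f1 - e2 * f2) (qq s - f1 * e1 - f2 * e2) := by
    refine ⟨X, he1.1, hf1.1, he2.1, hf2.1, hC.irr.br, ?_, ?_, ?_, ?_, hC.irr.irr,
      fun z hz h => hC.irr.nondeg hC.nd hz h, hS, hnz he1, hnz he2, ?_⟩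
    · intro x hx
      have e0 : e1 * f1 + e2 * f2 + (pp s - e1 * f1 - e2 * f2) -
          (f1 * e1 + f2 * e2 + (qq s - f1 * e1 - f2 * e2)) = pp s - qq s := by
        abel
      rw [e0, pp_sub_qq]
      exact hsb x hx
    · intro x hx; exact ⟨_, hC.irr.extremalR hM he1 hx⟩
    · intro x hx; exact ⟨_, hC.irr.extremalR hM hf1 hx⟩
    · intro x hx; exact ⟨_, hC.irr.extremalR hM he2 hx⟩
    · intro h0
      have h1 := congrArg (LinearMap.trace K V) h0
      simp only [map_add, map_sub, map_zero, ha, hb] at h1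
      rw [LinearMap.trace_mul_comm K f1 e1, LinearMap.trace_mul_comm K f2 e2, tr1, tr2] at h1
      have h2 : (a : K) + b = 4 * r := by linear_combination h1
      have h3 : a + b = 4 * r := by exact_mod_cast h2
      omega
  have h1 := T.rank_one hC.nd halt (fun z hz => hC.irr.sk z hz)
  rw [he1.2.2] at h1
  subst h1
  exact eq_sp_of_rank_one hC.nd halt hC.irr (hC.sr_span hS hM hE).ge hE hz

end MTP
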