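import Pool.Agent.Helper93.SR.Main

/-!
Commuting algebras acting irreducibly: ranks and signs.
-/

set_option linter.unusedSimpArgs false
set_option linter.unusedSectionVars false

open Module Polynomial

namespace MTP

variable {K : Type*} [Field K] {V : Type*} [AddCommGroup V] [Module K V] [FiniteDimensional K V]

/-- Two commuting algebras which together act irreducibly. -/
structure Pr (A A' : Subalgebra K (Module.End K V)) : Prop where
  comm : ∀ a ∈ A, ∀ b ∈ A', a * b = b * a
  irr : ∀ W : Submodule K V, (∀ a ∈ A, ∀ w ∈ W, a w ∈ W) → (∀ b ∈ A', ∀ w ∈ W, b w ∈ W) →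
    W = ⊥ ∨ W = ⊤

namespace Pr
variable {A A' : Subalgebra K (Module.End K V)} (P : Pr A A')
include P

lemma symm : Pr A' A := ⟨fun a ha b hb => (P.comm b hb a ha).symm, fun W h1 h2 => P.irr W h2 h1⟩

/-- Nonzero elements of the two algebras have nonzero product. -/
lemma star {a b : Module.End K V} (ha : a ∈ A) (hb : b ∈ A') (h : a * b = 0) : a = 0 ∨ b = 0 := by
  by_contra hcon
  push Not at hcon
  obtain ⟨ha0, hb0⟩ := hcon
  let W : Submodule K V :=
    { carrier := {v | ∀ c : Module.End K V, (∀ x ∈ A, c * x = x * c) → c * a = 0 → c v = 0}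
      add_mem' := by
        intro v w hv hw c h1 h2
        rw [map_add, hv c h1 h2, hw c h1 h2, add_zero]
      zero_mem' := by intro c _ _; exact map_zero c
      smul_mem' := by
        intro t v hv c h1 h2
        rw [map_smul, hv c h1 h2, smul_zero] }
  rcases P.irr W (by
      intro x hx w hw c h1 h2
      have := congrArg (fun z : Module.End K V => z w) (h1 x hx)
      simp only [Module.End.mul_apply] at this
      rw [this, hw c h1 h2, map_zero]) (by
      intro x hx w hw c h1 h2
      have h3 := hw (c * x) (by
        intro y hy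
        rw [mul_assoc, ← P.comm y hy x hx, ← mul_assoc, h1 y hy, mul_assoc]) (by
        rw [mul_assoc, ← P.comm a ha x hx, ← mul_assoc, h2, zero_mul])
      exact h3) with hW | hW
  · apply ha0
    apply LinearMap.ext
    intro v
    have : a v ∈ W := by
      intro c h1 h2
      have := congrArg (fun z : Module.End K V => z v) h2
      exact this
    rw [hW, Submodule.mem_bot] at this
    rw [this]; rfl
  · apply hb0
    apply LinearMap.ext
    intro v
    have : v ∈ W := by rw [hW]; trivial
    exact this b (fun x hx => (P.comm x hx b hb).symm) (by rw [← P.comm a ha b hb]; exact h)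

/-- Every nonzero vector generates. -/
lemma gen {u : V} (hu : u ≠ 0) (W : Submodule K V) (h : ∀ a ∈ A, ∀ b ∈ A', a (b u) ∈ W) (v : V) :
    v ∈ W := by
  have hle : Submodule.span K {w | ∃ a ∈ A, ∃ b ∈ A', w = a (b u)} ≤ W := by
    rw [Submodule.span_le]
    rintro _ ⟨a, ha, b, hb, rfl⟩
    exact h a ha b hb
  rcases P.irr (Submodule.span K {w | ∃ a ∈ A, ∃ b ∈ A', w = a (b u)}) (by
      intro x hx w hw
      refine Submodule.span_induction ?_ ?_ ?_ ?_ hw
      · rintro _ ⟨a, ha, b, hb, rfl⟩
        exact Submodule.subset_span ⟨x * a, A.mul_mem hx ha, b, hb, rfl⟩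
      · rw [map_zero]; exact Submodule.zero_mem _
      · intro y z _ _ hy hz
        rw [map_add]; exact Submodule.add_mem _ hy hz
      · intro t y _ hy
        rw [map_smul]; exact Submodule.smul_mem _ _ hy) (by
      intro x hx w hw
      refine Submodule.span_induction ?_ ?_ ?_ ?_ hw
      · rintro _ ⟨a, ha, b, hb, rfl⟩
        refine Submodule.subset_span ⟨a, ha, x * b, A'.mul_mem hx hb, ?_⟩
        have := congrArg (fun z : Module.End K V => z (b u)) (P.comm a ha x hx)
        simp only [Module.End.mul_apply] at this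
        rw [← this]; rfl
      · rw [map_zero]; exact Submodule.zero_mem _
      · intro y z _ _ hy hz
        rw [map_add]; exact Submodule.add_mem _ hy hz
      · intro t y _ hy
        rw [map_smul]; exact Submodule.smul_mem _ _ hy) with h1 | h1
  · exfalso
    apply hu
    have : u ∈ Submodule.span K {w | ∃ a ∈ A, ∃ b ∈ A', w = a (b u)} :=
      Submodule.subset_span ⟨1, A.one_mem, 1, A'.one_mem, rfl⟩
    rw [h1, Submodule.mem_bot] at this
    exact this
  · apply hle
    rw [h1]; trivial

/-- An element of `A` killing `A u` is zero. -/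
lemma kill {a : Module.End K V} (ha : a ∈ A) {u : V} (hu : u ≠ 0) (h : ∀ b ∈ A, a (b u) = 0) :
    a = 0 := by
  apply LinearMap.ext
  intro v
  have := P.gen hu (LinearMap.ker a) (by
    intro x hx b hb
    rw [LinearMap.mem_ker]
    have h1 := congrArg (fun z : Module.End K V => z u) (P.comm x hx b hb)
    simp only [Module.End.mul_apply] at h1
    rw [h1]
    have h2 := congrArg (fun z : Module.End K V => z (x u)) (P.comm a ha b hb)
    simp only [Module.End.mul_apply] at h2
    rw [h2, h x hx, map_zero]) v
  exact this

end Pr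

/-- `a` has minimal rank among the nonzero elements of `A`. -/
def MinA (A : Subalgebra K (Module.End K V)) (a : Module.End K V) : Prop :=
  a ∈ A ∧ a ≠ 0 ∧ ∀ b ∈ A, b ≠ 0 → rk a ≤ rk b

omit [FiniteDimensional K V] in
lemma exists_minA {A : Subalgebra K (Module.End K V)} {e : Module.End K V} (he : e ∈ A)
    (he0 : e ≠ 0) : ∃ a, MinA A a := by
  classical
  have hex : ∃ r, ∃ x ∈ A, x ≠ 0 ∧ rk x = r := ⟨rk e, e, he, he0, rfl⟩
  obtain ⟨a, ha, ha0, har⟩ := Nat.find_spec hex
  exact ⟨a, ha, ha0, fun b hb hb0 => by rw [har]; exact Nat.find_min' hex ⟨b, hb, hb0, rfl⟩⟩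

/-- Elements of minimal rank are extremal. -/
lemma MinA.extremal [IsAlgClosed K] {A : Subalgebra K (Module.End K V)} {a : Module.End K V}
    (h : MinA A a) {y : Module.End K V} (hy : y ∈ A) : ∃ c : K, a * y * a = c • a := by
  obtain ⟨ha, ha0, hmin⟩ := h
  have hA' : ∀ v ∈ LinearMap.range a, (a * y) v ∈ LinearMap.range a := fun v _ => ⟨y v, rfl⟩
  have hnt : Nontrivial (LinearMap.range a) := by
    rw [Submodule.nontrivial_iff_ne_bot]
    intro hb
    exact ha0 (LinearMap.range_eq_bot.mp hb)
  obtain ⟨c, hc⟩ := Module.End.exists_eigenvalue ((a * y).restrict hA')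
  refine ⟨c, ?_⟩
  have hz : aeval (a * y) (X - C c) * a ∈ A := by
    rw [map_sub, aeval_X, aeval_C]
    exact A.mul_mem (A.sub_mem (A.mul_mem ha hy) (A.algebraMap_mem c)) ha
  have hrk := rk_aeval_mul hA' (X - C c)
  have hz0 : aeval (a * y) (X - C c) * a = 0 := by
    by_contra hne
    have h1 := hmin _ hz hne
    rw [hrk] at h1
    have h2 := LinearMap.finrank_range_add_finrank_ker
      (aeval ((a * y).restrict hA') (X - C c))
    have h3 : 0 < finrank K (LinearMap.ker (aeval ((a * y).restrict hA') (X - C c))) := by
      rw [Module.finrank_pos_iff]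
      obtain ⟨v, hv⟩ := hc.exists_hasEigenvector
      refine ⟨⟨⟨v, ?_⟩, 0, ?_⟩⟩
      · rw [LinearMap.mem_ker, map_sub, aeval_X, aeval_C, LinearMap.sub_apply,
          Module.algebraMap_end_apply, hv.apply_eq_smul, sub_self]
      · intro h
        exact hv.2 (congrArg Subtype.val h)
    have h4 : finrank K (LinearMap.range a) = rk a := rfl
    omega
  rw [map_sub, aeval_X, aeval_C, sub_mul, sub_eq_zero] at hz0
  rw [hz0, Algebra.algebraMap_eq_smul_one, smul_mul_assoc, one_mul]

/-- The orbit of a vector. -/
def orb (A : Subalgebra K (Module.End K V)) (u : V) : Submodule K V :=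
  A.toSubmodule.map (LinearMap.applyₗ u : Module.End K V →ₗ[K] V)

omit [FiniteDimensional K V] in
lemma mem_orb {A : Subalgebra K (Module.End K V)} {u w : V} :
    w ∈ orb A u ↔ ∃ a ∈ A, a u = w := Iff.rfl

/-- If `u` is in the range of `e` and `e` commutes with `A` then the orbit is in the range. -/
lemma orb_le {A : Subalgebra K (Module.End K V)} {e : Module.End K V}
    (h : ∀ a ∈ A, a * e = e * a) {u : V} (hu : u ∈ LinearMap.range e) :
    orb A u ≤ LinearMap.range e := by
  obtain ⟨v, rfl⟩ := hu
  rintro _ ⟨a, ha, rfl⟩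
  refine ⟨a v, ?_⟩
  have := congrArg (fun z : Module.End K V => z v) (h a ha)
  exact this.symm

namespace Pr
variable {A A' : Subalgebra K (Module.End K V)} (P : Pr A A')
include P

/-- Upper bound for the dimension. -/
lemma dim_le {u : V} (hu : u ≠ 0) :
    finrank K V ≤ finrank K (orb A u) * finrank K (orb A' u) := by
  let β := Module.finBasis K (orb A u)
  have hβ : ∀ i, ∃ b ∈ A, b u = β i := fun i => (β i).2
  choose b hb hbu using hβ
  let Ψ : (Fin (finrank K (orb A u)) → orb A' u) →ₗ[K] V :=
    { toFun := fun x => ∑ i, b i (x i)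
      map_add' := by
        intro x y
        rw [← Finset.sum_add_distrib]
        apply Finset.sum_congr rfl
        intro i _
        rw [Pi.add_apply, Submodule.coe_add, map_add]
      map_smul' := by
        intro c x
        rw [Finset.smul_sum]
        apply Finset.sum_congr rfl
        intro i _
        rw [Pi.smul_apply, Submodule.coe_smul, map_smul]; rfl }
  have hΨ : ∀ x, Ψ x = ∑ i, b i (x i) := fun x => rfl
  have hsurj : Function.Surjective Ψ := by
    intro v
    refine P.gen hu (LinearMap.range Ψ) ?_ v
    intro x hx y hy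
    obtain ⟨κ, h3⟩ : ∃ κ : Fin (finrank K (orb A u)) → K, ∑ i, κ i • (β i : V) = x u := by
      have h1 : x u ∈ orb A u := mem_orb.mpr ⟨x, hx, rfl⟩
      have h2 := β.sum_repr ⟨x u, h1⟩
      have h3 := congrArg (fun w : orb A u => (w : V)) h2
      simp only [Submodule.coe_sum, Submodule.coe_smul] at h3
      exact ⟨_, h3⟩
    have hyu : y u ∈ orb A' u := mem_orb.mpr ⟨y, hy, rfl⟩
    refine ⟨fun i => κ i • ⟨y u, hyu⟩, ?_⟩
    rw [hΨ]
    have h4 : x (y u) = y (x u) := by
      have := congrArg (fun z : Module.End K V => z u) (P.comm x hx y hy)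
      exact this
    rw [h4, ← h3, map_sum]
    apply Finset.sum_congr rfl
    intro i _
    rw [Submodule.coe_smul, map_smul, map_smul, ← hbu i]
    congr 1
    have := congrArg (fun z : Module.End K V => z u) (P.comm (b i) (hb i) y hy)
    exact this
  have h1 := LinearMap.finrank_le_finrank_of_surjective hsurj
  rw [Module.finrank_pi_fintype] at h1
  simpa using h1

/-- Lower bound for the dimension. -/
lemma dim_ge {a u : _} (ha : a ∈ A) (hext : ∀ y ∈ A, ∃ c : K, a * y * a = c • a)
    (hu : u ∈ LinearMap.range a) (hu0 : u ≠ 0)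
    {B : Subalgebra K (Module.End K V)} (hB : B ≤ A') {W : Submodule K V}
    (hW : ∀ x ∈ A, ∀ y ∈ B, x (y u) ∈ W) :
    finrank K (orb A u) * finrank K (orb B u) ≤ finrank K W := by
  obtain ⟨v, rfl⟩ := hu
  let β := Module.finBasis K (orb A (a v))
  have hβ : ∀ i, ∃ b ∈ A, b (a v) = β i := fun i => (β i).2
  choose b hb hbu using hβ
  let θ := Module.finBasis K (orb B (a v))
  have hθ : ∀ i, ∃ b ∈ B, b (a v) = θ i := fun i => (θ i).2
  choose t ht htu using hθ
  have hli : LinearIndependent K (fun p : Fin (finrank K (orb A (a v))) ×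
      Fin (finrank K (orb B (a v))) => (⟨b p.1 (t p.2 (a v)), hW _ (hb p.1) _ (ht p.2)⟩ : W)) := by
    rw [Fintype.linearIndependent_iff]
    intro g hg
    have hg' := congrArg (fun w : W => (w : V)) hg
    simp only [Submodule.coe_sum, Submodule.coe_smul, Submodule.coe_zero] at hg'
    rw [Fintype.sum_prod_type] at hg'
    -- the vectors `x j`
    let x : Fin (finrank K (orb B (a v))) → orb A (a v) := fun j => ∑ i, g (i, j) • β i
    have hx : ∀ j, (x j : V) = ∑ i, g (i, j) • b i (a v) := by
      intro j
      simp only [x, Submodule.coe_sum, Submodule.coe_smul]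
      apply Finset.sum_congr rfl
      intro i _
      rw [hbu]
    have hsum : ∑ j, t j (x j : V) = 0 := by
      rw [← hg', Finset.sum_comm]
      apply Finset.sum_congr rfl
      intro j _
      rw [hx, map_sum]
      apply Finset.sum_congr rfl
      intro i _
      rw [map_smul]
      congr 1
      have := congrArg (fun z : Module.End K V => z (a v)) (P.comm (b i) (hb i) (t j) (hB (ht j)))
      exact this.symm
    -- extremality
    have hlam : ∀ y ∈ A, ∀ w : orb A (a v), ∃ c : K, a (y w) = c • a v := by
      intro y hy w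
      obtain ⟨z, hz, hzw⟩ := w.2
      obtain ⟨c, hc⟩ := hext (y * z) (A.mul_mem hy hz)
      refine ⟨c, ?_⟩
      rw [← hzw]
      have := congrArg (fun z : Module.End K V => z v) hc
      exact this
    have hx0 : ∀ j, (x j : V) = 0 := by
      intro j
      by_contra hne
      apply hu0
      have ha0 : a = 0 := by
        apply P.kill ha hne
        intro y hy
        choose c hc using hlam y hy
        have h1 : ∑ j, c (x j) • θ j = 0 := by
          apply Subtype.ext
          simp only [Submodule.coe_sum, Submodule.coe_smul, Submodule.coe_zero]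
          have h2 := congrArg (fun w => a (y w)) hsum
          simp only [map_sum, map_zero] at h2
          rw [← h2]
          apply Finset.sum_congr rfl
          intro j _
          rw [← htu j, ← map_smul, ← hc (x j)]
          have e1 : ∀ w : V, t j (a (y w)) = a (y (t j w)) := by
            intro w
            have f1 := congrArg (fun z : Module.End K V => z w)
              (P.comm (a * y) (A.mul_mem ha hy) (t j) (hB (ht j)))
            exact f1.symm
          exact e1 _
        have h3 := Fintype.linearIndependent_iff.mp θ.linearIndependent (fun j => c (x j)) h1 j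
        rw [hc (x j), h3, zero_smul]
      rw [ha0]; rfl
    rintro ⟨i, j⟩
    have h1 : ∑ i, g (i, j) • β i = 0 := Subtype.ext (hx0 j)
    exact Fintype.linearIndependent_iff.mp β.linearIndependent (fun i => g (i, j)) h1 i
  have h1 := hli.fintype_card_le_finrank
  simpa using h1

end Pr

end MTP
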