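import Pool.Agent.Helper93.SR.Setup

/-!
Irreducibility of the top component, and gradings.
-/

open Module

namespace MTP

variable {K : Type*} [Field K] {V : Type*} [AddCommGroup V] [Module K V]
variable {L : Submodule K (Module.End K V)}

/-- Operators and their commutators with elements of `L` in powers of `1 ⊔ L`. -/
lemma comm_pow_mem (hbr : ∀ x ∈ L, ∀ y ∈ L, x * y - y * x ∈ L) (n : ℕ) :
    ∀ w ∈ ((1 : Submodule K (Module.End K V)) ⊔ L) ^ n, ∀ z ∈ L,
      w * z - z * w ∈ ((1 : Submodule K (Module.End K V)) ⊔ L) ^ n := by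
  intro w hw z hz
  induction n generalizing w with
  | zero =>
    rw [pow_zero] at hw ⊢
    obtain ⟨c, rfl⟩ := Submodule.mem_one.mp hw
    rw [Algebra.algebraMap_eq_smul_one]
    have : (c • (1 : Module.End K V)) * z - z * (c • (1 : Module.End K V)) = 0 := by
      rw [smul_mul_assoc, mul_smul_comm, one_mul, mul_one, sub_self]
    rw [this]; exact Submodule.zero_mem _
  | succ n ih =>
    rw [pow_succ] at hw ⊢
    refine Submodule.mul_induction_on hw ?_ ?_
    · intro a ha b hb
      have e : a * b * z - z * (a * b) = a * (b * z - z * b) + (a * z - z * a) * b := by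
        noncomm_ring
      rw [e]
      refine Submodule.add_mem _ (Submodule.mul_mem_mul ha ?_) (Submodule.mul_mem_mul (ih a ha) hb)
      obtain ⟨b1, hb1, b2, hb2, rfl⟩ := Submodule.mem_sup.mp hb
      obtain ⟨c, rfl⟩ := Submodule.mem_one.mp hb1
      have e2 : (algebraMap K (Module.End K V) c + b2) * z - z * (algebraMap K (Module.End K V) c + b2)
          = b2 * z - z * b2 := by
        rw [Algebra.algebraMap_eq_smul_one, add_mul, mul_add, smul_mul_assoc, mul_smul_comm,
          one_mul, mul_one]
        abel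
      rw [e2]
      exact Submodule.mem_sup_right (hbr _ hb2 _ hz)
    · intro a b ha hb
      have e : (a + b) * z - z * (a + b) = (a * z - z * a) + (b * z - z * b) := by noncomm_ring
      rw [e]
      exact Submodule.add_mem _ ha hb

/-- The top component of an irreducible module is irreducible under the degree zero part. -/
theorem top_irr (hbr : ∀ x ∈ L, ∀ y ∈ L, x * y - y * x ∈ L)
    (hirr : ∀ W : Submodule K V, (∀ z ∈ L, ∀ w ∈ W, z w ∈ W) → W = ⊥ ∨ W = ⊤)
    {π : Module.End K V}
    (hminus : ∀ x ∈ L, ∃ x' ∈ L, π * x' = 0 ∧ x' * π = x * π - π * x * π)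
    {U : Submodule K V} (hU : ∀ u ∈ U, π u = u) (hU0 : U ≠ ⊥)
    (hst : ∀ x ∈ L, ∀ u ∈ U, π (x u) ∈ U) (v : V) : π v ∈ U := by
  set A : Submodule K (Module.End K V) := (1 : Submodule K (Module.End K V)) ⊔ L with hA
  have P : ∀ n : ℕ, ∀ w ∈ A ^ n, ∀ u ∈ U, π (w u) ∈ U := by
    intro n
    induction n with
    | zero =>
      intro w hw u hu
      rw [pow_zero] at hw
      obtain ⟨c, rfl⟩ := Submodule.mem_one.mp hw
      rw [Module.algebraMap_end_apply, map_smul, hU u hu]
      exact U.smul_mem _ hu
    | succ n ih =>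
      intro w hw u hu
      rw [pow_succ] at hw
      refine Submodule.mul_induction_on hw ?_ ?_
      · intro a ha b hb
        obtain ⟨b1, hb1, x, hx, rfl⟩ := Submodule.mem_sup.mp hb
        obtain ⟨c, rfl⟩ := Submodule.mem_one.mp hb1
        have e1 : (a * (algebraMap K (Module.End K V) c + x)) u = c • a u + a (x u) := by
          rw [Module.End.mul_apply, LinearMap.add_apply, Module.algebraMap_end_apply, map_add,
            map_smul]
        rw [e1, map_add, map_smul]
        refine U.add_mem (U.smul_mem _ (ih a ha u hu)) ?_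
        obtain ⟨x', hx', h1, h2⟩ := hminus x hx
        have e2 : x u = x' u + π (x u) := by
          have := congrArg (fun z : Module.End K V => z u) h2
          simp only [Module.End.mul_apply, LinearMap.sub_apply, hU u hu] at this
          rw [this]; abel
        rw [e2, map_add, map_add]
        refine U.add_mem ?_ (ih a ha _ (hst x hx u hu))
        have e3 : a (x' u) = x' (a u) + (a * x' - x' * a) u := by
          simp only [Module.End.mul_apply, LinearMap.sub_apply]; abel
        rw [e3, map_add]
        have e4 : π (x' (a u)) = 0 := by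
          have := congrArg (fun z : Module.End K V => z (a u)) h1
          simpa using this
        rw [e4, zero_add]
        exact ih _ (comm_pow_mem hbr n a ha x' hx') u hu
      · intro a b ha hb
        rw [LinearMap.add_apply, map_add]
        exact U.add_mem ha hb
  let W : Submodule K V :=
    { carrier := {v | ∀ n : ℕ, ∀ w ∈ A ^ n, π (w v) ∈ U}
      add_mem' := by
        intro a b ha hb n w hw
        rw [map_add, map_add]
        exact U.add_mem (ha n w hw) (hb n w hw)
      zero_mem' := by
        intro n w _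
        rw [map_zero, map_zero]; exact U.zero_mem
      smul_mem' := by
        intro c a ha n w hw
        rw [map_smul, map_smul]
        exact U.smul_mem _ (ha n w hw) }
  have hUW : U ≤ W := fun u hu n w hw => P n w hw u hu
  have hW : W = ⊤ := by
    rcases hirr W (by
      intro z hz w hw n a ha
      have : a * z ∈ A ^ (n + 1) := by
        rw [pow_succ]
        exact Submodule.mul_mem_mul ha (Submodule.mem_sup_right hz)
      exact hw (n + 1) _ this) with h | h
    · exact absurd (le_bot_iff.mp (h ▸ hUW)) hU0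
    · exact h
  have hv : v ∈ W := by rw [hW]; trivial
  have := hv 0 1 (by rw [pow_zero]; exact Submodule.one_le.mp le_rfl)
  simpa using this

/-- The ideal generated by the part of nonzero degree. -/
lemma gen_ideal (hbr : ∀ x ∈ L, ∀ y ∈ L, x * y - y * x ∈ L) {N : Submodule K (Module.End K V)}
    (hN : N ≤ L) (Z : Module.End K V → Prop)
    (hZ : ∀ x ∈ L, ∃ z ∈ L, Z z ∧ x - z ∈ N)
    (hZN : ∀ z ∈ L, Z z → ∀ n ∈ N, z * n - n * z ∈ N) :
    let I := N ⊔ Submodule.span K {c | ∃ a ∈ N, ∃ b ∈ N, c = a * b - b * a}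
    I ≤ L ∧ ∀ x ∈ L, ∀ y ∈ I, x * y - y * x ∈ I := by
  intro I
  have hIL : I ≤ L := by
    refine sup_le hN ?_
    rw [Submodule.span_le]
    rintro _ ⟨a, ha, b, hb, rfl⟩
    exact hbr _ (hN ha) _ (hN hb)
  refine ⟨hIL, ?_⟩
  have hNN : ∀ a ∈ N, ∀ b ∈ N, a * b - b * a ∈ I := fun a ha b hb =>
    Submodule.mem_sup_right (Submodule.subset_span ⟨a, ha, b, hb, rfl⟩)
  -- commutators with elements of `N`
  have h1 : ∀ x ∈ L, ∀ n ∈ N, x * n - n * x ∈ I := by
    intro x hx n hn
    obtain ⟨z, hz, hzz, hxz⟩ := hZ x hx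
    have e : x * n - n * x = (z * n - n * z) + ((x - z) * n - n * (x - z)) := by noncomm_ring
    rw [e]
    exact I.add_mem (Submodule.mem_sup_left (hZN z hz hzz n hn)) (hNN _ hxz _ hn)
  intro x hx y hy
  obtain ⟨n, hn, c, hc, rfl⟩ := Submodule.mem_sup.mp hy
  have e : x * (n + c) - (n + c) * x = (x * n - n * x) + (x * c - c * x) := by noncomm_ring
  rw [e]
  refine I.add_mem (h1 x hx n hn) ?_
  clear e hy
  refine Submodule.span_induction ?_ ?_ ?_ ?_ hc
  · rintro _ ⟨a, ha, b, hb, rfl⟩
    obtain ⟨z, hz, hzz, hxz⟩ := hZ x hx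
    have e : x * (a * b - b * a) - (a * b - b * a) * x =
        (((z * a - a * z) * b - b * (z * a - a * z)) + (a * (z * b - b * z) - (z * b - b * z) * a))
        - ((a * b - b * a) * (x - z) - (x - z) * (a * b - b * a)) := by noncomm_ring
    rw [e]
    refine I.sub_mem (I.add_mem (hNN _ (hZN z hz hzz a ha) _ hb)
      (hNN _ ha _ (hZN z hz hzz b hb))) ?_
    exact h1 _ (hbr _ (hN ha) _ (hN hb)) _ hxz
  · simp
  · intro a b _ _ ha hb
    have e : x * (a + b) - (a + b) * x = (x * a - a * x) + (x * b - b * x) := by noncomm_ring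
    rw [e]; exact I.add_mem ha hb
  · intro t a _ ha
    have e : x * (t • a) - (t • a) * x = t • (x * a - a * x) := by
      rw [mul_smul_comm, smul_mul_assoc, smul_sub]
    rw [e]; exact I.smul_mem _ ha

end MTP
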