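import Pool.Agent.Helper93.SR.Six
import Pool.Agent.Helper93.SR.TopIrr

/-!
Coordinates of a graded irreducible Lie algebra attached to two strongly orthogonal
hyperbolic pairs.
-/

set_option linter.unusedSimpArgs false
set_option linter.unusedSectionVars false

open Module

namespace MTP

variable {K : Type*} [Field K] {V : Type*} [AddCommGroup V] [Module K V] [FiniteDimensional K V]

/-- A simple irreducible Lie algebra with two strongly orthogonal hyperbolic pairs. -/
structure PTwo (L : Submodule K (Module.End K V)) (e1 f1 e2 f2 c d : Module.End K V) : Prop where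
  X : Six e1 f1 e2 f2 c d
  me1 : e1 ∈ L
  mf1 : f1 ∈ L
  me2 : e2 ∈ L
  mf2 : f2 ∈ L
  br : ∀ x ∈ L, ∀ y ∈ L, x * y - y * x ∈ L
  hs : ∀ x ∈ L, (e1 * f1 + e2 * f2 + c - (f1 * e1 + f2 * e2 + d)) * x
      - x * (e1 * f1 + e2 * f2 + c - (f1 * e1 + f2 * e2 + d)) ∈ L
  xe1 : ∀ x ∈ L, ∃ t : K, e1 * x * e1 = t • e1
  xf1 : ∀ x ∈ L, ∃ t : K, f1 * x * f1 = t • f1
  xe2 : ∀ x ∈ L, ∃ t : K, e2 * x * e2 = t • e2
  irr : ∀ W : Submodule K V, (∀ z ∈ L, ∀ w ∈ W, z w ∈ W) → W = ⊥ ∨ W = ⊤
  nd : ∀ z ∈ L, (∀ y ∈ L, LinearMap.trace K V (z * y) = 0) → z = 0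
  smp : Smp L
  ne1 : e1 ≠ 0
  ne2 : e2 ≠ 0
  ncd : c + d ≠ 0

namespace PTwo
variable {L : Submodule K (Module.End K V)} {e1 f1 e2 f2 c d : Module.End K V}
  (T : PTwo L e1 f1 e2 f2 c d) [CharZero K]
include T

lemma mh1 : e1 * f1 - f1 * e1 ∈ L := T.br _ T.me1 _ T.mf1
lemma mh2 : e2 * f2 - f2 * e2 ∈ L := T.br _ T.me2 _ T.mf2

lemma A {x : Module.End K V} (hx : x ∈ L) :
    e1 * f1 * x * (e2 * f2) + f2 * e2 * x * (f1 * e1) ∈ L :=
  (T.X.blocks (fun x hx => T.br _ T.mh1 x hx) (fun x hx => T.br _ T.mh2 x hx) T.hs hx).1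

lemma M {x : Module.End K V} (hx : x ∈ L) :
    e1 * f1 * x * c + d * x * (f1 * e1) ∈ L :=
  (T.X.blocks (fun x hx => T.br _ T.mh1 x hx) (fun x hx => T.br _ T.mh2 x hx) T.hs hx).2.1

lemma B {x : Module.End K V} (hx : x ∈ L) :
    e1 * f1 * x * d + c * x * (f1 * e1) ∈ L :=
  (T.X.blocks (fun x hx => T.br _ T.mh1 x hx) (fun x hx => T.br _ T.mh2 x hx) T.hs hx).2.2

/-- The components of `x` for the commutator with `h1`. -/
lemma comps {x : Module.End K V} (hx : x ∈ L) :
    ∃ z ∈ L, (e1 * f1 - f1 * e1) * z = z * (e1 * f1 - f1 * e1) ∧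
      ∃ y ∈ L, x - z = (e1 * f1 - f1 * e1) * y - y * (e1 * f1 - f1 * e1) ∧
      ∃ w ∈ L, w = f1 * e1 * x * (e1 * f1) + (1 - e1 * f1 - f1 * e1) * x * (e1 * f1)
        + f1 * e1 * x * (1 - e1 * f1 - f1 * e1) := by
  have R := T.X.rules
  set κ := 1 - e1 * f1 - f1 * e1 with hκ
  have ke : κ * e1 = 0 := by rw [hκ]; simp [sub_mul, mul_assoc, R]
  have ek : e1 * κ = 0 := by rw [hκ]; simp [mul_sub, mul_assoc, R]
  have kf : κ * f1 = 0 := by rw [hκ]; simp [sub_mul, mul_assoc, R]
  have fk : f1 * κ = 0 := by rw [hκ]; simp [mul_sub, mul_assoc, R]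
  have kk : κ * κ = κ := by
    nth_rewrite 2 [hκ]
    rw [mul_sub, mul_sub, ← mul_assoc, ke, ← mul_assoc, kf]; simp
  have zke := zz ke
  have zek := zz ek
  have zkf := zz kf
  have zfk := zz fk
  let P : Fin 3 → Module.End K V := ![e1 * f1, κ, f1 * e1]
  have hP : ∀ i j, P i * P j = if i = j then P i else 0 := by
    intro i j
    fin_cases i <;> fin_cases j <;> simp [P, mul_assoc, R, ke, ek, kf, fk, kk, zke, zek, zkf, zfk]
  have hsum : ∑ i, P i = 1 := by
    simp only [P, Fin.sum_univ_succ]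
    simp
    rw [hκ]; abel
  have key : ∀ w : ℤ, (∑ i : Fin 3, ∑ j : Fin 3,
      if (![1, 0, -1] : Fin 3 → ℤ) i - (![1, 0, -1] : Fin 3 → ℤ) j = w then
        P i * x * P j else 0) ∈ L := by
    intro w
    apply extractZ P hP hsum _ _ hx
    intro y hy
    have e : (∑ i : Fin 3, (((![1, 0, -1] : Fin 3 → ℤ) i : ℤ) : K) • P i) =
        e1 * f1 - f1 * e1 := by
      simp only [P, Fin.sum_univ_succ]
      simp
      abel
    rw [e]
    exact T.br _ T.mh1 y hy
  have k0 := key 0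
  have k1 := key 1
  have k2 := key 2
  have k3 := key (-1)
  have k4 := key (-2)
  simp only [P, Fin.sum_univ_succ] at k0 k1 k2 k3 k4
  simp at k0 k1 k2 k3 k4
  have ex : x = (e1 * f1 + κ + f1 * e1) * x * (e1 * f1 + κ + f1 * e1) := by
    have : e1 * f1 + κ + f1 * e1 = 1 := by rw [hκ]; abel
    rw [this]; simp
  have k2' : e1 * f1 * x * (f1 * e1) ∈ L := by simpa [mul_assoc] using k2
  have k4' : f1 * e1 * x * (e1 * f1) ∈ L := by simpa [mul_assoc] using k4
  have k1' : e1 * f1 * x * κ + κ * x * (f1 * e1) ∈ L := by simpa [mul_assoc] using k1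
  have k3' : κ * x * (e1 * f1) + f1 * e1 * x * κ ∈ L := by simpa [mul_assoc] using k3
  have k0' : e1 * f1 * x * (e1 * f1) + κ * x * κ + f1 * e1 * x * (f1 * e1) ∈ L := by
    have := k0
    rw [add_assoc]
    simpa [mul_assoc] using this
  refine ⟨_, k0', ?_, (2 : K)⁻¹ • (e1 * f1 * x * (f1 * e1)) + (e1 * f1 * x * κ + κ * x * (f1 * e1))
    - (κ * x * (e1 * f1) + f1 * e1 * x * κ) - (2 : K)⁻¹ • (f1 * e1 * x * (e1 * f1)), ?_, ?_,
    _, L.add_mem k4' k3', ?_⟩
  · simp only [sub_mul, mul_sub, mul_add, add_mul, mul_assoc, R, ke, ek, kf, fk, zke, zek, zkf,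
      zfk, mul_zero, zero_mul, add_zero, zero_add, sub_zero, zero_sub]
    abel
  · exact L.sub_mem (L.sub_mem (L.add_mem (L.smul_mem _ k2') k1') k3') (L.smul_mem _ k4')
  · nth_rewrite 1 [ex]
    simp only [sub_mul, mul_sub, mul_add, add_mul, mul_assoc, R, ke, ek, kf, fk, zke, zek, zkf,
      zfk, mul_zero, zero_mul, add_zero, zero_add, sub_zero, zero_sub, smul_mul_assoc,
      mul_smul_comm, smul_zero]
    match_scalars <;> norm_num
  · abel

/-- The block joining the two pairs is not zero on `L`. -/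
lemma A_ne : ∃ x ∈ L, e1 * f1 * x * (e2 * f2) + f2 * e2 * x * (f1 * e1) ≠ 0 := by
  by_contra hcon
  push Not at hcon
  have R := T.X.rules
  -- the two parts vanish
  have a1 : ∀ x ∈ L, e1 * (f1 * (x * (e2 * f2))) = 0 := by
    intro x hx
    have := congrArg (fun z => e1 * f1 * z) (hcon x hx)
    simpa [mul_add, mul_assoc, R] using this
  have a2 : ∀ x ∈ L, f2 * (e2 * (x * (f1 * e1))) = 0 := by
    intro x hx
    have := congrArg (fun z => f2 * e2 * z) (hcon x hx)
    simpa [mul_add, mul_assoc, R] using this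
  have a3 : ∀ x ∈ L, e2 * (x * (f1 * e1)) = 0 := by
    intro x hx
    have := congrArg (fun z => e2 * z) (a2 x hx)
    simpa [mul_add, mul_assoc, R] using this
  have a4 : ∀ x ∈ L, e1 * (f1 * (x * e2)) = 0 := by
    intro x hx
    have := congrArg (fun z => z * e2) (a1 x hx)
    simpa [mul_add, mul_assoc, R] using this
  have a5 : ∀ x ∈ L, e2 * (x * (e1 * f1)) = 0 := by
    intro x hx
    have := congrArg (fun z => z * f1) (a3 _ (T.br x hx e1 T.me1))
    simpa [mul_sub, sub_mul, mul_assoc, R] using this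
  have a6 : ∀ x ∈ L, f1 * (e1 * (x * e2)) = 0 := by
    intro x hx
    have := congrArg (fun z => f1 * z) (a4 _ (T.br e1 T.me1 x hx))
    simpa [mul_sub, sub_mul, mul_assoc, R] using this
  -- `e2` commutes with the part of nonzero degree
  let N : Submodule K (Module.End K V) := L.map (adm (e1 * f1 - f1 * e1))
  have hN : N ≤ L := by
    rintro _ ⟨x, hx, rfl⟩
    exact T.br _ T.mh1 x hx
  have hNe : ∀ n ∈ N, e2 * n = n * e2 := by
    rintro _ ⟨x, hx, rfl⟩
    have h1 : e2 * adm (e1 * f1 - f1 * e1) x = 0 := by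
      rw [adm_apply]
      simp only [mul_sub, sub_mul, mul_assoc, R, a3 x hx, a5 x hx]
      simp
    have h2 : adm (e1 * f1 - f1 * e1) x * e2 = 0 := by
      rw [adm_apply]
      simp only [mul_sub, sub_mul, mul_assoc, R, a4 x hx, a6 x hx]
      simp
    rw [h1, h2]
  obtain ⟨hIL, hId⟩ := gen_ideal T.br hN
    (fun z => (e1 * f1 - f1 * e1) * z = z * (e1 * f1 - f1 * e1)) (by
      intro x hx
      obtain ⟨z, hz, hc, y, hy, hxz, _⟩ := T.comps hx
      exact ⟨z, hz, hc, y, hy, hxz.symm⟩) (by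
      rintro z hz hc _ ⟨x, hx, rfl⟩
      refine ⟨z * x - x * z, T.br z hz x hx, ?_⟩
      rw [adm_apply, adm_apply]
      generalize e1 * f1 - f1 * e1 = h at hc ⊢
      have e : h * (z * x - x * z) - (z * x - x * z) * h = (h * z) * x - h * x * z - z * x * h +
        x * (z * h) := by noncomm_ring
      have e' : z * (h * x - x * h) - (h * x - x * h) * z = (z * h) * x - h * x * z - z * x * h +
        x * (h * z) := by noncomm_ring
      rw [e, e', hc])
  set I := N ⊔ Submodule.span K {c | ∃ a ∈ N, ∃ b ∈ N, c = a * b - b * a} with hI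
  have he1 : e1 ∈ N := by
    refine ⟨(2 : K)⁻¹ • e1, L.smul_mem _ T.me1, ?_⟩
    rw [map_smul, adm_apply]
    simp only [mul_sub, sub_mul, mul_assoc, R, mul_zero, sub_zero, zero_sub]
    match_scalars <;> norm_num
  have hIe : ∀ n ∈ I, e2 * n = n * e2 := by
    intro n hn
    obtain ⟨a, ha, b, hb, rfl⟩ := Submodule.mem_sup.mp hn
    rw [mul_add, add_mul, hNe a ha]
    congr 1
    refine Submodule.span_induction ?_ ?_ ?_ ?_ hb
    · rintro _ ⟨u, hu, v, hv, rfl⟩
      have h1 := hNe u hu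
      have h2 := hNe v hv
      rw [mul_sub, sub_mul, ← mul_assoc, ← mul_assoc, h1, h2, mul_assoc, mul_assoc, h1, h2,
        ← mul_assoc, ← mul_assoc]
    · simp
    · intro u v _ _ hu hv
      rw [mul_add, add_mul, hu, hv]
    · intro t u _ hu
      rw [mul_smul_comm, smul_mul_assoc, hu]
  have hIL2 : I = L := by
    rcases T.smp I hIL hId with h | h
    · exfalso
      have : e1 ∈ I := Submodule.mem_sup_left he1
      rw [h, Submodule.mem_bot] at this
      exact T.ne1 this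
    · exact h
  have hcen : ∀ x ∈ L, e2 * x = x * e2 := by
    intro x hx
    rw [← hIL2] at hx
    exact hIe x hx
  rcases T.smp (Submodule.span K {e2}) (by
      rw [Submodule.span_le]; rintro _ rfl; exact T.me2) (by
      intro x hx y hy
      rw [Submodule.mem_span_singleton] at hy
      obtain ⟨t, rfl⟩ := hy
      rw [mul_smul_comm, smul_mul_assoc, ← hcen x hx, sub_self]
      exact Submodule.zero_mem _) with h | h
  · have : e2 ∈ Submodule.span K {e2} := Submodule.mem_span_singleton_self e2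
    rw [h, Submodule.mem_bot] at this
    exact T.ne2 this
  · have h1 := T.me1
    rw [← h, Submodule.mem_span_singleton] at h1
    obtain ⟨t, ht⟩ := h1
    apply T.ne1
    have h2 := congrArg (fun z => e1 * f1 * z) ht
    simp only [mul_smul_comm, mul_assoc, R] at h2
    rw [← h2]
    simp [mul_assoc, R]

end PTwo

end MTP
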