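import Pool.Agent.Helper93.SR.StrongG
import Pool.Agent.Helper93.SR.Rat
import Pool.Agent.Helper93.SR.RatDefs

/-!
The group theorem for strong pairs with a dense set of rational quadratic elements.
-/

set_option linter.unusedSimpArgs false
set_option linter.unusedSectionVars false

open Module MTPairs Matrix

namespace MTP

variable {K : Type*} [Field K] {m : Type*} [Fintype m] [DecidableEq m]

section ind
variable {U : Submodule K (m → K)} {θ θ' : Equiv.Perm (m → K)}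
  {τ τ' : Module.End K U ≃+* Module.End K U}

/-- Two induced automorphisms agree on `x` if the bijections agree on a basis and on its image
under `x`. -/
lemma IsInd.agree {ι : Type*} [Finite ι] (b : Basis ι K U) (h : IsInd U θ τ)
    (h' : IsInd U θ' τ') (hadd : ∀ v w, θ (v + w) = θ v + θ w) {σ : K ≃+* K}
    (hσ : ∀ (c : K) v, θ (c • v) = σ c • θ v) (h1 : ∀ v ∈ U, θ v ∈ U)
    (h2 : ∀ v ∈ U, θ⁻¹ v ∈ U) {x : Module.End K U}
    (hb : ∀ i, θ' (b i) = θ (b i)) (hx : ∀ i, θ' (x (b i)) = θ (x (b i))) : τ' x = τ x := by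
  have hspan : ∀ v : U, (⟨θ v, h1 v v.2⟩ : U) ∈
      Submodule.span K (Set.range fun i => (⟨θ (b i), h1 _ (b i).2⟩ : U)) := by
    intro v
    have hv : v ∈ Submodule.span K (Set.range b) := by rw [b.span_eq]; trivial
    refine Submodule.span_induction (p := fun (v : U) _ => (⟨θ v, h1 v v.2⟩ : U) ∈
      Submodule.span K (Set.range fun i => (⟨θ (b i), h1 _ (b i).2⟩ : U))) ?_ ?_ ?_ ?_ hv
    · rintro _ ⟨i, rfl⟩
      exact Submodule.subset_span ⟨i, rfl⟩
    · have e : (⟨θ ((0 : U) : m → K), h1 _ (0 : U).2⟩ : U) = 0 := by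
        apply Subtype.ext
        change θ (0 : m → K) = 0
        have h3 := hσ 0 0
        rwa [zero_smul, map_zero σ, zero_smul] at h3
      rw [e]; exact Submodule.zero_mem _
    · intro v w _ _ hv hw
      have e : (⟨θ ((v + w : U) : m → K), h1 _ (v + w : U).2⟩ : U) =
          ⟨θ v, h1 v v.2⟩ + ⟨θ w, h1 w w.2⟩ := Subtype.ext (hadd v w)
      rw [e]; exact Submodule.add_mem _ hv hw
    · intro c v _ hv
      have e : (⟨θ ((c • v : U) : m → K), h1 _ (c • v : U).2⟩ : U) =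
          σ c • ⟨θ v, h1 v v.2⟩ := Subtype.ext (hσ c v)
      rw [e]; exact Submodule.smul_mem _ _ hv
  have htop : ∀ w : U, w ∈ Submodule.span K
      (Set.range fun i => (⟨θ (b i), h1 _ (b i).2⟩ : U)) := by
    intro w
    have h3 := hspan ⟨θ⁻¹ w, h2 w w.2⟩
    have e : (⟨θ ((⟨θ⁻¹ w, h2 w w.2⟩ : U) : m → K), h1 _ (⟨θ⁻¹ w, h2 w w.2⟩ : U).2⟩ : U) = w :=
      Subtype.ext (perm_apply_inv θ w)
    rwa [e] at h3
  ext1 w
  refine Submodule.span_induction (p := fun w _ => τ' x w = τ x w) ?_ ?_ ?_ ?_ (htop w)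
  · rintro _ ⟨i, rfl⟩
    apply Subtype.ext
    rw [h x (b i) ⟨θ (b i), h1 _ (b i).2⟩ rfl, h' x (b i) ⟨θ (b i), h1 _ (b i).2⟩ (hb i).symm]
    exact hx i
  · rw [map_zero, map_zero]
  · intro v w _ _ hv hw
    rw [map_add, map_add, hv, hw]
  · intro c v _ hv
    rw [map_smul, map_smul, hv]

/-- An operator commuting with the bijection is fixed. -/
lemma IsInd.fix (h : IsInd U θ τ) (h2 : ∀ v ∈ U, θ⁻¹ v ∈ U) {A : Matrix m m K}
    (hA : ∀ v, A.mulVec (θ v) = θ (A.mulVec v)) {φ : Module.End K U} (hφ : Res U A φ) :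
    τ φ = φ := (h.res h2 hA hφ).unique hφ

end ind

variable {Γ : Subgroup (Equiv.Perm (m → K))} {J : Matrix m m K}
  {G : Subgroup (Matrix.GeneralLinearGroup m K)} {π : Matrix m m K}
  {ι : Type*} [Fintype ι] [DecidableEq ι] {W : ι → Submodule K (m → K)}

/-- Density on a summand. -/
lemma dense_res [IsAlgClosed K] [CharZero K] (D : IsStrongMTPair Γ J G π) (hW : IsSplit J G W)
    (hR : IsStable Γ W) (j : ι) {p0 : Module.End K (W j)}
    (S : Str (form J W j) (GR (W j) G) (TR (W j) Γ) p0) {r : ℕ} (hr : 0 < r)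
    (hd : DenseQuad Γ G (W j) r) :
    ∀ τ ∈ TR (W j) Γ, ∀ E : Finset (Module.End K (W j)), ∃ τ' ∈ TR (W j) Γ,
      (∀ x ∈ E, τ' x = τ x) ∧ ∃ N ∈ SL (form J W j) (GR (W j) G) (TR (W j) Γ) p0,
        N * N = 0 ∧ N ≠ 0 ∧ τ' N = N := by
  classical
  rintro τ ⟨θ, hθ, hτ⟩ E
  let b := Module.finBasis K (W j)
  let E0 : Finset (m → K) := (Finset.univ.image fun i => ((b i : W j) : m → K)) ∪
    E.biUnion fun x => Finset.univ.image fun i => ((x (b i) : W j) : m → K)
  obtain ⟨γ', hγ', hE, u, hu, hcomm, hquad⟩ := hd θ hθ E0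
  obtain ⟨σ, hadd, hσ⟩ := D.semi θ hθ
  obtain ⟨σ', hadd', hσ'⟩ := D.semi γ' hγ'
  have s1 : ∀ v ∈ W j, θ v ∈ W j := fun v hv => hR θ hθ j v hv
  have s2 : ∀ v ∈ W j, θ⁻¹ v ∈ W j := fun v hv => hR θ⁻¹ (Γ.inv_mem hθ) j v hv
  have s1' : ∀ v ∈ W j, γ' v ∈ W j := fun v hv => hR γ' hγ' j v hv
  have s2' : ∀ v ∈ W j, γ'⁻¹ v ∈ W j := fun v hv => hR γ'⁻¹ (Γ.inv_mem hγ') j v hv
  have hτ' := isInd_indE hadd' hσ' s1' s2'
  refine ⟨_, ⟨γ', hγ', hτ'⟩, ?_, ?_⟩
  · intro x hx
    refine IsInd.agree b hτ hτ' hadd hσ s1 s2 ?_ ?_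
    · intro i
      apply hE
      apply Finset.mem_union_left
      exact Finset.mem_image_of_mem _ (Finset.mem_univ i)
    · intro i
      apply hE
      apply Finset.mem_union_right
      rw [Finset.mem_biUnion]
      exact ⟨x, hx, Finset.mem_image_of_mem _ (Finset.mem_univ i)⟩
  · obtain ⟨a, ha⟩ := exists_res (hW.stable u hu j)
    obtain ⟨h1, h2, h3⟩ := quad_of_res ha hquad hr
    refine ⟨a - 1, S.quad_mem ⟨u, hu, ha⟩ h1, h1, h2, ?_⟩
    have e1 := map_sub (indE hadd' hσ' s1' s2') a 1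
    rw [map_one, hτ'.fix s2' hcomm ha] at e1
    exact e1

/-- **The group theorem for strong pairs with rational quadratic elements**, with the
classification of simple Lie algebras as a hypothesis. -/
theorem isFull_of_rational [IsAlgClosed K] [CharZero K] (D : IsStrongMTPair Γ J G π)
    (hW : IsSplit J G W) (hR : IsStable Γ W) (hSC : ∀ j, SimpleClass (form J W j))
    (hq : ∀ j, ∃ r, 0 < r ∧ DenseQuad Γ G (W j) r ∧ ¬ SimpExc r (finrank K (W j))) :
    IsFull J G W := by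
  apply isFull_of_core D hW hR
  · intro j hj
    obtain ⟨r, h1, h2, -⟩ := hq j
    obtain ⟨γ', -, -, u, hu, -, hqr⟩ := h2 1 Γ.one_mem ∅
    obtain ⟨a, ha, hNN, h0, hrk⟩ := quad_res hW hu hqr h1
    apply h0
    have : Subsingleton (W j) := by
      rw [hj]; infer_instance
    exact LinearMap.ext fun v => Subsingleton.elim _ _
  · intro j p0 S z hz
    obtain ⟨r, hr0, hd, hr⟩ := hq j
    have hsmp := S.ctx.irr.smp_of_dense S.nd (fun τ hτ => S.isTw hτ) S.tsmp S.tmul S.tone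
      S.tinv (dense_res D hW hR j S hr0 hd)
    obtain ⟨γ', -, -, u, hu, -, hqr⟩ := hd 1 Γ.one_mem ∅
    obtain ⟨a, ha, hNN, h0, hrk⟩ := quad_res hW hu hqr hr0
    have hx := S.quad_mem ha hNN
    obtain ⟨y, hy, hxy⟩ := S.ctx.irr.exists_not_comm hx hNN h0
    have hsimp := toLie_simple S.ctx.irr.br hsmp hx hy hxy
    rcases hSC j (toLie _ S.ctx.irr.br) _ S.ctx S.alt hsimp (a - 1) hx hNN h0 with h | h
    · exact h z hz
    · rw [hrk] at h
      exact absurd h hr

end MTP
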