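import Pool.Agent.Helper93.SR.NormC
import Pool.Agent.Helper93.SR.Str
import Pool.Agent.Helper21.MT.Trans2

/-!
Restriction of a strong Mumford-Tate pair to a summand.
-/

set_option linter.unusedSimpArgs false
set_option linter.unusedSectionVars false

open Module MTPairs

namespace MTP

variable {K : Type*} [Field K] {m : Type*} [Fintype m] [DecidableEq m]

/-- The operator `φ` of the subspace `U` is the restriction of the matrix `A`. -/
def Res (U : Submodule K (m → K)) (A : Matrix m m K) (φ : Module.End K U) : Prop :=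
  ∀ v : U, ((φ v : U) : m → K) = A.mulVec (v : m → K)

section res
variable {U : Submodule K (m → K)} {A B : Matrix m m K} {φ ψ : Module.End K U}

lemma Res.mul (h : Res U A φ) (h' : Res U B ψ) : Res U (A * B) (φ * ψ) := by
  intro v
  rw [Module.End.mul_apply, h, h', Matrix.mulVec_mulVec]

lemma Res.add (h : Res U A φ) (h' : Res U B ψ) : Res U (A + B) (φ + ψ) := by
  intro v
  rw [LinearMap.add_apply, Matrix.add_mulVec, ← h, ← h']
  rfl

lemma Res.sub (h : Res U A φ) (h' : Res U B ψ) : Res U (A - B) (φ - ψ) := by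
  intro v
  rw [LinearMap.sub_apply, Matrix.sub_mulVec, ← h, ← h']
  rfl

lemma Res.smul (c : K) (h : Res U A φ) : Res U (c • A) (c • φ) := by
  intro v
  rw [LinearMap.smul_apply, Matrix.smul_mulVec, ← h]
  rfl

lemma Res.one : Res U (1 : Matrix m m K) 1 := by
  intro v
  rw [Matrix.one_mulVec]
  rfl

lemma Res.zero : Res U (0 : Matrix m m K) 0 := by
  intro v
  rw [Matrix.zero_mulVec]
  rfl

lemma Res.unique (h : Res U A φ) (h' : Res U A ψ) : φ = ψ := by
  ext1 v
  apply Subtype.ext
  rw [h, h']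

lemma exists_res (h : ∀ v ∈ U, A.mulVec v ∈ U) : ∃ φ, Res U A φ :=
  ⟨(Matrix.mulVecLin A).restrict (p := U) (q := U) (fun v hv => h v hv), fun _ => rfl⟩

end res

/-- The ring automorphism `τ` of the operators on `U` is induced by the bijection `θ`. -/
def IsInd (U : Submodule K (m → K)) (θ : Equiv.Perm (m → K))
    (τ : Module.End K U ≃+* Module.End K U) : Prop :=
  ∀ (x : Module.End K U) (v w : U), (w : m → K) = θ v → ((τ x w : U) : m → K) = θ (x v : U)

section ind
variable {U : Submodule K (m → K)} {θ : Equiv.Perm (m → K)} {σ : K ≃+* K}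
  (hadd : ∀ v w, θ (v + w) = θ v + θ w) (hσ : ∀ (c : K) v, θ (c • v) = σ c • θ v)
  (h1 : ∀ v ∈ U, θ v ∈ U) (h2 : ∀ v ∈ U, θ⁻¹ v ∈ U)

/-- The action of a bijection on a stable subspace. -/
def indV : U ≃+ U where
  toFun := fun v => ⟨θ v, h1 v v.2⟩
  invFun := fun v => ⟨θ⁻¹ v, h2 v v.2⟩
  left_inv := by intro v; apply Subtype.ext; exact perm_inv_apply θ v
  right_inv := by intro v; apply Subtype.ext; exact perm_apply_inv θ v
  map_add' := by intro v w; apply Subtype.ext; exact hadd v w

lemma indV_apply (v : U) : ((indV hadd h1 h2 v : U) : m → K) = θ v := rfl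

include hσ in
lemma indV_smul (c : K) (v : U) : indV hadd h1 h2 (c • v) = σ c • indV hadd h1 h2 v := by
  apply Subtype.ext
  exact hσ c v

include hσ in
lemma indV_symm_smul (c : K) (v : U) :
    (indV hadd h1 h2).symm (c • v) = σ.symm c • (indV hadd h1 h2).symm v := by
  rw [AddEquiv.symm_apply_eq, indV_smul hadd hσ, RingEquiv.apply_symm_apply,
    AddEquiv.apply_symm_apply]

/-- The induced automorphism. -/
def indE : Module.End K U ≃+* Module.End K U where
  toFun := fun x =>
    { toFun := fun v => indV hadd h1 h2 (x ((indV hadd h1 h2).symm v))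
      map_add' := by intro v w; rw [map_add, map_add, map_add]
      map_smul' := by
        intro c v
        rw [indV_symm_smul hadd hσ, map_smul, indV_smul hadd hσ, RingEquiv.apply_symm_apply]
        rfl }
  invFun := fun x =>
    { toFun := fun v => (indV hadd h1 h2).symm (x (indV hadd h1 h2 v))
      map_add' := by intro v w; rw [map_add, map_add, map_add]
      map_smul' := by
        intro c v
        rw [indV_smul hadd hσ, map_smul, indV_symm_smul hadd hσ, RingEquiv.symm_apply_apply]
        rfl }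
  left_inv := by intro x; ext1 v; simp
  right_inv := by intro x; ext1 v; simp
  map_mul' := by intro x y; ext1 v; simp
  map_add' := by intro x y; ext1 v; simp

lemma isInd_indE : IsInd U θ (indE hadd hσ h1 h2) := by
  intro x v w h
  have e : (indV hadd h1 h2).symm w = v := by
    rw [AddEquiv.symm_apply_eq]
    apply Subtype.ext
    exact h
  change ((indV hadd h1 h2 (x ((indV hadd h1 h2).symm w)) : U) : m → K) = _
  rw [e]
  rfl

end ind

section ind2
variable {U : Submodule K (m → K)} {θ θ' : Equiv.Perm (m → K)} {σ : K ≃+* K}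
  {τ τ' : Module.End K U ≃+* Module.End K U}

lemma isInd_refl : IsInd U 1 (RingEquiv.refl _) := by
  intro x v w h
  have : w = v := Subtype.ext h
  rw [this]; rfl

lemma IsInd.trans (h : IsInd U θ τ) (h' : IsInd U θ' τ') (hU : ∀ v ∈ U, θ' v ∈ U) :
    IsInd U (θ * θ') (τ'.trans τ) := by
  intro x v w hw
  have e1 := h (τ' x) ⟨_, hU v v.2⟩ w hw
  rw [RingEquiv.trans_apply, e1, Equiv.Perm.mul_apply]
  congr 1
  exact h' x v _ rfl

lemma IsInd.symm (h : IsInd U θ τ) : IsInd U θ⁻¹ τ.symm := by
  intro x v w hw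
  have e1 := h (τ.symm x) w v (by rw [hw, perm_apply_inv])
  rw [RingEquiv.apply_symm_apply] at e1
  rw [e1, perm_inv_apply]

lemma IsInd.semi (h : IsInd U θ τ) (hσ : ∀ (c : K) v, θ (c • v) = σ c • θ v)
    (hU : ∀ v ∈ U, θ⁻¹ v ∈ U) (c : K) (x : Module.End K U) : τ (c • x) = σ c • τ x := by
  ext1 w
  apply Subtype.ext
  have hw : (w : m → K) = θ ((⟨_, hU w w.2⟩ : U) : m → K) := (perm_apply_inv θ w).symm
  rw [h (c • x) ⟨_, hU w w.2⟩ w hw, LinearMap.smul_apply, LinearMap.smul_apply,
    Submodule.coe_smul, Submodule.coe_smul, hσ, h x ⟨_, hU w w.2⟩ w hw]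

lemma IsInd.rk (h : IsInd U θ τ) (hadd : ∀ v w, θ (v + w) = θ v + θ w)
    (hσ : ∀ (c : K) v, θ (c • v) = σ c • θ v) (h1 : ∀ v ∈ U, θ v ∈ U)
    (h2 : ∀ v ∈ U, θ⁻¹ v ∈ U) (x : Module.End K U) : MTP.rk (τ x) = MTP.rk x := by
  have key : ∀ w : U, τ x (indV hadd h1 h2 w) = indV hadd h1 h2 (x w) := by
    intro w
    apply Subtype.ext
    exact h x w _ rfl
  have hr : Module.rank K (LinearMap.range x) = Module.rank K (LinearMap.range (τ x)) := by
    let j : LinearMap.range x ≃+ LinearMap.range (τ x) :=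
      { toFun := fun v => ⟨indV hadd h1 h2 v, by
          obtain ⟨w, hw⟩ := v.2
          exact ⟨indV hadd h1 h2 w, by rw [key, hw]⟩⟩
        invFun := fun v => ⟨(indV hadd h1 h2).symm v, by
          obtain ⟨w, hw⟩ := v.2
          refine ⟨(indV hadd h1 h2).symm w, ?_⟩
          rw [AddEquiv.eq_symm_apply, ← key, AddEquiv.apply_symm_apply, hw]⟩
        left_inv := by intro v; apply Subtype.ext; simp
        right_inv := by intro v; apply Subtype.ext; simp
        map_add' := by intro v w; apply Subtype.ext; simp }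
    refine rank_eq_of_equiv_equiv (σ : K → K) j σ.bijective ?_
    intro c v
    apply Subtype.ext
    exact indV_smul hadd hσ h1 h2 c v
  unfold MTP.rk finrank
  rw [hr]

lemma IsInd.res (h : IsInd U θ τ) (hU : ∀ v ∈ U, θ⁻¹ v ∈ U) {A B : Matrix m m K}
    (hAB : ∀ v, B.mulVec (θ v) = θ (A.mulVec v)) {φ : Module.End K U} (hA : Res U A φ) :
    Res U B (τ φ) := by
  intro w
  have hw : (w : m → K) = θ ((⟨_, hU w w.2⟩ : U) : m → K) := (perm_apply_inv θ w).symm
  rw [h φ ⟨_, hU w w.2⟩ w hw, hA, ← hAB, ← hw]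

end ind2

end MTP
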