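import Pool.Agent.Helper93.SR.Extract
import Pool.Agent.Helper21.MT.Sp

/-!
Square zero elements of least rank in a simple irreducible Lie algebra of symplectic operators
generated by involutions.
-/

open Module Polynomial

namespace MTP

variable {K : Type*} [Field K] {V : Type*} [AddCommGroup V] [Module K V] [FiniteDimensional K V]
variable {ω : LinearMap.BilinForm K V} {L : Submodule K (Module.End K V)}
  {S : Set (Module.End K V)} {r : ℕ}

/-- `r` is a lower bound for the ranks of the nonzero square zero elements. -/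
def MinR (L : Submodule K (Module.End K V)) (r : ℕ) : Prop :=
  0 < r ∧ ∀ z ∈ L, z * z = 0 → z ≠ 0 → r ≤ rk z

/-- `L` has no proper nonzero ideals. -/
def Smp (L : Submodule K (Module.End K V)) : Prop :=
  ∀ M : Submodule K (Module.End K V), M ≤ L → (∀ x ∈ L, ∀ y ∈ M, x * y - y * x ∈ M) →
    M = ⊥ ∨ M = L

/-- Extremality of the square zero elements of least rank. -/
theorem IrrSymp.extremalR [IsAlgClosed K] [CharZero K] (hL : IrrSymp ω L)
    (hr : MinR L r) {x y : Module.End K V} (hx : x ∈ EE L r) (hy : y ∈ L) :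
    x * y * x = (LinearMap.trace K V (x * y) / r) • x := by
  obtain ⟨hxL, hxx, hxr⟩ := hx
  have hA : ∀ v, (x * y) v ∈ LinearMap.range x := fun v => ⟨y v, rfl⟩
  have hA' : ∀ v ∈ LinearMap.range x, (x * y) v ∈ LinearMap.range x := fun v _ => hA v
  set T : Module.End K (LinearMap.range x) := (x * y).restrict hA' with hT
  have hU : finrank K (LinearMap.range x) = r := hxr
  have hnt : Nontrivial (LinearMap.range x) := by
    apply Module.nontrivial_of_finrank_pos (R := K)
    rw [hU]; exact hr.1
  obtain ⟨c, hc⟩ := Module.End.exists_eigenvalue T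
  have hz : aeval (x * y) (X - C c) * x ∈ L := hL.aeval_mem hxL hxx hy _
  have hzz := aeval_sq (y := y) hxx (X - C c)
  have hrk := rk_aeval_mul hA' (X - C c)
  have hz0 : aeval (x * y) (X - C c) * x = 0 := by
    by_contra hne
    have h1 := hr.2 _ hz hzz hne
    rw [hrk] at h1
    have h2 := LinearMap.finrank_range_add_finrank_ker (aeval T (X - C c))
    have h3 : 0 < finrank K (LinearMap.ker (aeval T (X - C c))) := by
      rw [Module.finrank_pos_iff]
      obtain ⟨v, hv⟩ := hc.exists_hasEigenvector
      refine ⟨⟨⟨v, ?_⟩, 0, ?_⟩⟩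
      · rw [LinearMap.mem_ker, map_sub, aeval_X, aeval_C, LinearMap.sub_apply,
          Module.algebraMap_end_apply, hv.apply_eq_smul, sub_self]
      · intro h
        exact hv.2 (congrArg Subtype.val h)
    rw [hU] at h2
    have h4 : (x * y).restrict hA' = T := rfl
    rw [h4] at h1
    omega
  have e1 : x * y * x = c • x := by
    rw [map_sub, aeval_X, aeval_C, sub_mul, sub_eq_zero] at hz0
    rw [hz0, Algebra.algebraMap_eq_smul_one, smul_mul_assoc, one_mul]
  have hTc : T = c • (1 : Module.End K (LinearMap.range x)) := by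
    apply LinearMap.ext
    rintro ⟨_, ⟨v, rfl⟩⟩
    apply Subtype.ext
    have := congrArg (fun z : Module.End K V => z v) e1
    exact this
  have t1 : LinearMap.trace K V (x * y) = r * c := by
    rw [← LinearMap.trace_restrict_eq_of_forall_mem (LinearMap.range x) (x * y) hA hA']
    change LinearMap.trace K _ T = _
    rw [hTc, map_smul, LinearMap.trace_one, hU, smul_eq_mul]
    ring
  have hr0 : (r : K) ≠ 0 := by rw [Nat.cast_ne_zero]; exact hr.1.ne'
  rw [e1, t1, mul_div_cancel_left₀ _ hr0]

/-- The square zero elements of rank `r` span `L`. -/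
lemma Ctx.sr_span [CharZero K] (hC : Ctx ω L S) (hS : Smp L) (hr : MinR L r)
    (hE : (EE L r).Nonempty) : Submodule.span K (EE L r) = L := by
  rcases hS _ (span_le L r) (fun x hx y hy => hC.ideal hx hy) with h | h
  · exfalso
    obtain ⟨x, hx⟩ := hE
    have h1 : x ∈ Submodule.span K (EE L r) := Submodule.subset_span hx
    rw [h, Submodule.mem_bot] at h1
    have h2 := hx.2.2
    rw [h1] at h2
    have h3 : rk (0 : Module.End K V) = 0 := rk_eq_zero.mpr rfl
    have := hr.1
    omega
  · exact h

lemma Ctx.exists_pairR [IsAlgClosed K] [CharZero K] (hC : Ctx ω L S) (hS : Smp L)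
    (hr : MinR L r) (hE : (EE L r).Nonempty) {z : Module.End K V} (hz : z ∈ L) (hz0 : z ≠ 0) :
    ∃ y ∈ EE L r, LinearMap.trace K V (z * y) ≠ 0 := by
  rw [← hC.sr_span hS hr hE] at hz
  exact hC.exists_pair hz hz0

omit [FiniteDimensional K V] in
/-- A nonzero square zero element of `L` of rank at most that of an element of `EE` is in
`EE`. -/
lemma mem_EE_of (hr : MinR L r) {x z : Module.End K V} (hx : x ∈ EE L r) (hz : z ∈ L)
    (hzz : z * z = 0) (h : rk z ≤ rk x) (h0 : z ≠ 0) : z ∈ EE L r := by
  refine ⟨hz, hzz, le_antisymm ?_ (hr.2 z hz hzz h0)⟩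
  rw [← hx.2.2]; exact h

/-- If an additive condition fails for some element of `L` it fails for an element of `EE`. -/
lemma Ctx.exists_EE [CharZero K] (hC : Ctx ω L S) (hS : Smp L) (hr : MinR L r)
    (hE : (EE L r).Nonempty) (F : Module.End K V →ₗ[K] Module.End K V)
    {x : Module.End K V} (hx : x ∈ L) (h : F x ≠ 0) : ∃ y ∈ EE L r, F y ≠ 0 := by
  by_contra hcon
  push Not at hcon
  apply h
  rw [← hC.sr_span hS hr hE] at hx
  have : Submodule.span K (EE L r) ≤ LinearMap.ker F := by
    rw [Submodule.span_le]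
    intro y hy
    exact hcon y hy
  exact this hx

/-- Existence of a hyperbolic pair in prescribed corners. -/
lemma Ctx.sr_pair [IsAlgClosed K] [CharZero K] (hC : Ctx ω L S) (hS : Smp L) (hr : MinR L r)
    (hE : (EE L r).Nonempty) {c d : Module.End K V} (hcc : c * c = c) (hdd : d * d = d)
    (hcd : c * d = 0) (hdc : d * c = 0) (h1 : ∀ x ∈ L, c * x * d ∈ L)
    (h2 : ∀ x ∈ L, d * x * c ∈ L) (hne : ∃ x ∈ L, c * x * d ≠ 0) :
    ∃ e f, e ∈ EE L r ∧ f ∈ EE L r ∧ c * e = e ∧ e * d = e ∧ d * f = f ∧ f * c = f ∧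
      e * f * e = e ∧ f * e * f = f := by
  obtain ⟨x, hx, hxne⟩ := hne
  let F : Module.End K V →ₗ[K] Module.End K V :=
    { toFun := fun z => c * z * d
      map_add' := by intro a b; noncomm_ring
      map_smul' := by intro t a; simp }
  obtain ⟨y, hy, hyne⟩ := hC.exists_EE hS hr hE F hx hxne
  have hyne' : c * y * d ≠ 0 := hyne
  set e := c * y * d with he
  have hce : c * e = e := by rw [he, ← mul_assoc, ← mul_assoc, hcc]
  have hed : e * d = e := by rw [he, mul_assoc, hdd]
  have heE : e ∈ EE L r := by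
    apply mem_EE_of hr hy (h1 y hy.1) _ ((rk_mul_le_left _ _).trans (rk_mul_le_right _ _)) hyne'
    calc c * y * d * (c * y * d) = c * y * (d * c) * y * d := by noncomm_ring
      _ = 0 := by rw [hdc]; simp
  obtain ⟨z, hz, hzne⟩ := hC.exists_pairR hS hr hE heE.1 hyne'
  have ht : LinearMap.trace K V (e * (d * z * c)) = LinearMap.trace K V (e * z) := by
    have e1 : e * (d * z * c) = (e * d) * z * c := by noncomm_ring
    rw [e1, hed, LinearMap.trace_mul_comm, ← mul_assoc, hce]
  set f0 := d * z * c with hf0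
  have hf0ne : f0 ≠ 0 := by
    intro h
    rw [h, mul_zero, map_zero] at ht
    exact hzne ht.symm
  have hf0E : f0 ∈ EE L r := by
    apply mem_EE_of hr hz (h2 z hz.1) _ ((rk_mul_le_left _ _).trans (rk_mul_le_right _ _)) hf0ne
    calc d * z * c * (d * z * c) = d * z * (c * d) * z * c := by noncomm_ring
      _ = 0 := by rw [hcd]; simp
  have hr0 : (r : K) ≠ 0 := by rw [Nat.cast_ne_zero]; exact hr.1.ne'
  set t := LinearMap.trace K V (e * z) with htdef
  have hc0 : (r : K) / t ≠ 0 := div_ne_zero hr0 hzne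
  have hfE : ((r : K) / t) • f0 ∈ EE L r := EE_smul hc0 hf0E
  have htr : LinearMap.trace K V (e * (((r : K) / t) • f0)) = r := by
    rw [mul_smul_comm, map_smul, ht, smul_eq_mul]
    field_simp
  refine ⟨e, ((r : K) / t) • f0, heE, hfE, hce, hed, ?_, ?_, ?_, ?_⟩
  · rw [mul_smul_comm, hf0, ← mul_assoc, ← mul_assoc, hdd]
  · rw [smul_mul_assoc, hf0, mul_assoc, hcc]
  · rw [hC.irr.extremalR hr heE hfE.1, htr, div_self hr0, one_smul]
  · rw [hC.irr.extremalR hr hfE heE.1, LinearMap.trace_mul_comm, htr, div_self hr0, one_smul]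

/-- Existence of a hyperbolic pair. -/
lemma Ctx.sr_hyp [IsAlgClosed K] [CharZero K] (hC : Ctx ω L S) (hS : Smp L) (hr : MinR L r)
    (hE : (EE L r).Nonempty) {s : Module.End K V} (hs : s ∈ S) :
    ∃ e f, e ∈ EE L r ∧ f ∈ EE L r ∧ Hyp e f (pp s) (qq s) := by
  obtain ⟨hsL, hss⟩ := hC.inv s hs
  have hcomp := fun x hx => comps_mem hss (M := L) (fun x hx => hC.irr.br s hsL x hx)
    (x := x) hx
  have hne : ∃ x ∈ L, pp s * x * qq s ≠ 0 := by
    by_contra hcon
    push Not at hcon
    have hq : ∀ x ∈ L, qq s * x * pp s = 0 := by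
      intro x hx
      apply hC.irr.nondeg hC.nd (hcomp x hx).2.1
      intro y hy
      have e1 : LinearMap.trace K V (qq s * x * pp s * y) =
          LinearMap.trace K V (x * (pp s * y * qq s)) := by
        have e2 : qq s * x * pp s * y = qq s * (x * pp s * y) := by noncomm_ring
        rw [e2, LinearMap.trace_mul_comm]
        congr 1
      rw [e1, hcon y hy, mul_zero, map_zero]
    have hcomm : ∀ x ∈ L, s * x - x * s = 0 := by
      intro x hx
      have e1 : s * x - x * s = (pp s - qq s) * x * (pp s + qq s)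
          - (pp s + qq s) * x * (pp s - qq s) := by
        rw [pp_sub_qq, pp_add_qq]; simp
      have e2 : (pp s - qq s) * x * (pp s + qq s) - (pp s + qq s) * x * (pp s - qq s)
        = 2 • (pp s * x * qq s) - 2 • (qq s * x * pp s) := by noncomm_ring
      rw [e1, e2, hcon x hx, hq x hx]
      simp
    obtain ⟨x, hx⟩ := hE
    have hx0 : x ≠ 0 := by
      intro h
      have h2 := hx.2.2
      rw [h, rk_eq_zero.mpr rfl] at h2
      have := hr.1
      omega
    rcases hS (Submodule.span K {s}) (by
        rw [Submodule.span_le]; rintro _ rfl; exact hsL) (by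
        intro x hx y hy
        rw [Submodule.mem_span_singleton] at hy
        obtain ⟨c, rfl⟩ := hy
        have := hcomm x hx
        have e3 : x * (c • s) - (c • s) * x = (-c) • (s * x - x * s) := by
          rw [mul_smul_comm, smul_mul_assoc, neg_smul, smul_sub]; abel
        rw [e3, this, smul_zero]
        exact Submodule.zero_mem _) with h | h
    · have : s ∈ Submodule.span K {s} := Submodule.mem_span_singleton_self s
      rw [h, Submodule.mem_bot] at this
      rw [this, mul_zero] at hss
      apply hx0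
      rw [← mul_one x, ← hss, mul_zero]
    · have h1 := hx.1
      rw [← h, Submodule.mem_span_singleton] at h1
      obtain ⟨c, hc⟩ := h1
      have h2 := hx.2.1
      rw [← hc, smul_mul_assoc, mul_smul_comm, hss, smul_smul] at h2
      have h3 : c * c = 0 := by
        by_contra hne
        apply hx0
        have h4 : (1 : Module.End K V) = 0 := by
          have := congrArg (fun z => (c * c)⁻¹ • z) h2
          rwa [smul_smul, inv_mul_cancel₀ hne, one_smul, smul_zero] at this
        rw [← mul_one x, h4, mul_zero]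
      have h4 : c = 0 := by simpa using h3
      apply hx0
      rw [← hc, h4, zero_smul]
  obtain ⟨e, f, he, hf, h1, h2, h3, h4, h5, h6⟩ := hC.sr_pair hS hr hE (pp_mul_pp hss)
    (qq_mul_qq hss) (pp_mul_qq hss) (qq_mul_pp hss) (fun x hx => (hcomp x hx).1)
    (fun x hx => (hcomp x hx).2.1) hne
  exact ⟨e, f, he, hf, ⟨he.2.1, hf.2.1, h5, h6, h1, h2, h3, h4, pp_mul_qq hss, qq_mul_pp hss,
    pp_mul_pp hss, qq_mul_qq hss, pp_add_qq⟩⟩

end MTP
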