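import Pool.Agent.Helper93.SR.Pairs

/-!
Signs of the adjoint involution.
-/

set_option linter.unusedSimpArgs false
set_option linter.unusedSectionVars false

open Module

namespace MTP

variable {K : Type*} [Field K] {V : Type*} [AddCommGroup V] [Module K V] [FiniteDimensional K V]
variable {ω : LinearMap.BilinForm K V}

/-- `y` is the adjoint of `x`. -/
def IsAdj (ω : LinearMap.BilinForm K V) (x y : Module.End K V) : Prop :=
  ∀ v w, ω (x v) w = ω v (y w)

lemma IsAdj.mul {x y x' y' : Module.End K V} (h : IsAdj ω x y) (h' : IsAdj ω x' y') :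
    IsAdj ω (x * x') (y' * y) := by
  intro v w
  rw [Module.End.mul_apply, h, h', Module.End.mul_apply]

lemma IsAdj.add {x y x' y' : Module.End K V} (h : IsAdj ω x y) (h' : IsAdj ω x' y') :
    IsAdj ω (x + x') (y + y') := by
  intro v w
  rw [LinearMap.add_apply, map_add, LinearMap.add_apply, h, h', LinearMap.add_apply, map_add]

lemma IsAdj.smul {x y : Module.End K V} (h : IsAdj ω x y) (c : K) : IsAdj ω (c • x) (c • y) := by
  intro v w
  rw [LinearMap.smul_apply, map_smul, LinearMap.smul_apply, h, LinearMap.smul_apply, map_smul]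

lemma IsAdj.unique (hω : ω.Nondegenerate) {x y z : Module.End K V} (h : IsAdj ω x y)
    (h' : IsAdj ω x z) : y = z := by
  apply LinearMap.ext
  intro w
  rw [← sub_eq_zero]
  apply hω.2
  intro v
  rw [map_sub, ← h, ← h', sub_self]

lemma IsAdj.symm (halt : ω.IsAlt) {x y : Module.End K V} (h : IsAdj ω x y) : IsAdj ω y x := by
  intro v w
  have hanti : ∀ u v : V, ω u v = - ω v u := fun u v => (halt.neg_eq v u).symm
  rw [hanti, ← h, hanti, neg_neg]

lemma IsAdj.of_sk {x : Module.End K V} (h : IsSk ω x) : IsAdj ω x (-x) := by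
  intro v w
  rw [h, LinearMap.neg_apply, map_neg]

/-- The sign of the adjoint involution on `a* A a`. -/
lemma Pr.sign [IsAlgClosed K] (hω : ω.Nondegenerate) (halt : ω.IsAlt)
    {A A' : Subalgebra K (Module.End K V)} (P : Pr A A')
    (hst : ∀ a ∈ A, ∃ b ∈ A, IsAdj ω a b) {a : Module.End K V} (ha : MinA A a) :
    ∃ as ∈ A, ∃ b ∈ A, ∃ ε : K, IsAdj ω a as ∧ as * b * a ≠ 0 ∧ (ε = 1 ∨ ε = -1) ∧
      IsAdj ω (as * b * a) (ε • (as * b * a)) := by
  obtain ⟨as, has, hadj⟩ := hst a ha.1
  have has0 : as ≠ 0 := by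
    intro h
    have h1 : rk a = rk as := rk_adjoint hω hadj
    rw [h, rk_eq_zero.mpr rfl] at h1
    exact ha.2.1 (rk_eq_zero.mp h1)
  have hadj' := hadj.symm halt
  -- nonvanishing
  have key : ∀ x y : Module.End K V, x ∈ A → x ≠ 0 → y ≠ 0 → ∃ b ∈ A, x * b * y ≠ 0 := by
    intro x y hx hx0 hy0
    by_contra hcon
    push Not at hcon
    obtain ⟨v, hv⟩ : ∃ v, y v ≠ 0 := by
      by_contra h
      push Not at h
      exact hy0 (LinearMap.ext h)
    apply hx0
    apply P.kill hx hv
    intro b hb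
    have := congrArg (fun z : Module.End K V => z v) (hcon b hb)
    exact this
  obtain ⟨b, hb, hm⟩ := key as a has has0 ha.2.1
  obtain ⟨b1, hb1, hm1⟩ := key a (as * b * a) ha.1 ha.2.1 hm
  obtain ⟨c, hc⟩ := ha.extremal (y := b1 * as * b) (A.mul_mem (A.mul_mem hb1 has) hb)
  have e1 : a * b1 * (as * b * a) = c • a := by rw [← hc]; noncomm_ring
  have hc0 : c ≠ 0 := by
    intro h
    rw [e1, h, zero_smul] at hm1
    exact hm1 rfl
  -- extremality of the adjoint
  have hext' : ∀ y ∈ A, ∃ c : K, as * y * as = c • as := by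
    intro y hy
    obtain ⟨ys, hys, hyadj⟩ := hst y hy
    obtain ⟨c', hc'⟩ := ha.extremal hys
    refine ⟨c', ?_⟩
    have h1 : IsAdj ω (a * ys * a) (as * (y * as)) :=
      ((hadj.mul (hyadj.symm halt)).mul hadj)
    rw [hc'] at h1
    have := h1.unique hω (hadj.smul c')
    rw [← this, mul_assoc]
  -- one dimensionality
  have hone : ∀ x ∈ A, ∃ t : K, as * x * a = t • (as * b * a) := by
    intro x hx
    obtain ⟨c', hc'⟩ := hext' (x * a * b1) (A.mul_mem (A.mul_mem hx ha.1) hb1)
    refine ⟨c⁻¹ * c', ?_⟩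
    have h1 : a = c⁻¹ • (a * b1 * (as * b * a)) := by
      rw [e1, smul_smul, inv_mul_cancel₀ hc0, one_smul]
    nth_rewrite 1 [h1]
    have h2 : as * x * (a * b1 * (as * b * a)) = (as * (x * a * b1) * as) * (b * a) := by
      noncomm_ring
    rw [mul_smul_comm, h2, hc', smul_mul_assoc, smul_smul, mul_assoc as b a]
  obtain ⟨bs, hbs, hbadj⟩ := hst b hb
  obtain ⟨ε, hε⟩ := hone bs hbs
  have h3 : IsAdj ω (as * b * a) (ε • (as * b * a)) := by
    rw [← hε]
    have := (hadj'.mul hbadj).mul hadj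
    rw [mul_assoc as bs a]
    exact this
  refine ⟨as, has, b, hb, ε, hadj, hm, ?_, h3⟩
  have h4 := h3.symm halt
  have h5 := (h3.smul ε).unique hω h4
  have h6 : (ε * ε - 1) • (as * b * a) = 0 := by
    rw [sub_smul, one_smul, ← smul_smul, h5, sub_self]
  rcases smul_eq_zero.mp h6 with h7 | h7
  · have : (ε - 1) * (ε + 1) = 0 := by rw [← h7]; ring
    rcases mul_eq_zero.mp this with h8 | h8
    · left; exact sub_eq_zero.mp h8
    · right; exact eq_neg_of_add_eq_zero_left h8
  · exact absurd h7 hm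

/-- Adjoints and twists. -/
lemma adj_twist {I I' : Submodule K (Module.End K V)} (hI : ∀ x ∈ I, IsSk ω x)
    (hI' : ∀ x ∈ I', IsSk ω x) {τ : Module.End K V ≃+* Module.End K V} {σ : K ≃+* K}
    (hτ : ∀ (c : K) (x : Module.End K V), τ (c • x) = σ c • τ x) (hmap : ∀ x ∈ I, τ x ∈ I')
    {a : Module.End K V} (ha : a ∈ Algebra.adjoin K (I : Set (Module.End K V))) :
    ∃ b ∈ Algebra.adjoin K (I : Set (Module.End K V)), IsAdj ω a b ∧
      τ a ∈ Algebra.adjoin K (I' : Set (Module.End K V)) ∧ IsAdj ω (τ a) (τ b) := by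
  induction ha using Algebra.adjoin_induction with
  | mem x hx =>
    refine ⟨-x, neg_mem (Algebra.subset_adjoin hx), IsAdj.of_sk (hI x hx),
      Algebra.subset_adjoin (hmap x hx), ?_⟩
    rw [map_neg]
    exact IsAdj.of_sk (hI' _ (hmap x hx))
  | algebraMap r =>
    have h1 : ∀ r : K, IsAdj ω (algebraMap K (Module.End K V) r) (algebraMap K _ r) := by
      intro r v w
      simp [Module.algebraMap_end_apply]
    have h2 : τ (algebraMap K (Module.End K V) r) = algebraMap K _ (σ r) := by
      rw [Algebra.algebraMap_eq_smul_one, hτ, map_one, Algebra.algebraMap_eq_smul_one]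
    refine ⟨algebraMap K _ r, Subalgebra.algebraMap_mem _ r, h1 r, ?_, ?_⟩
    · rw [h2]; exact Subalgebra.algebraMap_mem _ _
    · rw [h2]; exact h1 _
  | add x y _ _ hx hy =>
    obtain ⟨b, hb, h1, h2, h3⟩ := hx
    obtain ⟨b', hb', h1', h2', h3'⟩ := hy
    refine ⟨b + b', add_mem hb hb', h1.add h1', ?_, ?_⟩
    · rw [map_add]; exact add_mem h2 h2'
    · rw [map_add, map_add]; exact h3.add h3'
  | mul x y _ _ hx hy =>
    obtain ⟨b, hb, h1, h2, h3⟩ := hx
    obtain ⟨b', hb', h1', h2', h3'⟩ := hy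
    refine ⟨b' * b, mul_mem hb' hb, h1.mul h1', ?_, ?_⟩
    · rw [map_mul]; exact mul_mem h2 h2'
    · rw [map_mul, map_mul]; exact h3.mul h3'

/-- Two commuting Lie algebras exchanged by a twist do not act irreducibly on a symplectic
space. -/
theorem no_swap [IsAlgClosed K] [CharZero K] (hω : ω.Nondegenerate) (halt : ω.IsAlt)
    {I I' : Submodule K (Module.End K V)} (hI : ∀ x ∈ I, IsSk ω x) (hI' : ∀ x ∈ I', IsSk ω x)
    {τ : Module.End K V ≃+* Module.End K V} {σ : K ≃+* K}
    (hτ : ∀ (c : K) (x : Module.End K V), τ (c • x) = σ c • τ x) (hmap : ∀ x ∈ I, τ x ∈ I')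
    (hsur : ∀ y ∈ I', ∃ x ∈ I, τ x = y)
    (P : Pr (Algebra.adjoin K (I : Set (Module.End K V)))
      (Algebra.adjoin K (I' : Set (Module.End K V))))
    (hne : ∃ x ∈ I, x ≠ 0) : False := by
  set A := Algebra.adjoin K (I : Set (Module.End K V)) with hA
  set A' := Algebra.adjoin K (I' : Set (Module.End K V)) with hA'
  have hst : ∀ a ∈ A, ∃ b ∈ A, IsAdj ω a b := by
    intro a ha
    obtain ⟨b, hb, h1, _⟩ := adj_twist hI hI' hτ hmap ha
    exact ⟨b, hb, h1⟩
  have hτA : ∀ a ∈ A, τ a ∈ A' := by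
    intro a ha
    obtain ⟨b, hb, _, h2, _⟩ := adj_twist hI hI' hτ hmap ha
    exact h2
  have hτadj : ∀ a ∈ A, ∀ b, IsAdj ω a b → IsAdj ω (τ a) (τ b) := by
    intro a ha b hab
    obtain ⟨b', hb', h1, _, h3⟩ := adj_twist hI hI' hτ hmap ha
    rw [hab.unique hω h1]
    exact h3
  have hsurA : ∀ y ∈ A', ∃ x ∈ A, τ x = y := by
    intro y hy
    induction hy using Algebra.adjoin_induction with
    | mem x hx =>
      obtain ⟨z, hz, hzx⟩ := hsur x hx
      exact ⟨z, Algebra.subset_adjoin hz, hzx⟩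
    | algebraMap r =>
      refine ⟨algebraMap K _ (σ.symm r), A.algebraMap_mem _, ?_⟩
      rw [Algebra.algebraMap_eq_smul_one, hτ, map_one, RingEquiv.apply_symm_apply,
        Algebra.algebraMap_eq_smul_one]
    | add x y _ _ hx hy =>
      obtain ⟨b, hb, h1⟩ := hx
      obtain ⟨b', hb', h1'⟩ := hy
      exact ⟨b + b', A.add_mem hb hb', by rw [map_add, h1, h1']⟩
    | mul x y _ _ hx hy =>
      obtain ⟨b, hb, h1⟩ := hx
      obtain ⟨b', hb', h1'⟩ := hy
      exact ⟨b * b', A.mul_mem hb hb', by rw [map_mul, h1, h1']⟩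
  obtain ⟨x0, hx0, hx0n⟩ := hne
  obtain ⟨a, ha⟩ := exists_minA (A := A) (Algebra.subset_adjoin hx0) hx0n
  obtain ⟨as, has, b, hb, ε, hadj, hm, hε, hsgn⟩ := P.sign hω halt hst ha
  have hinj : ∀ x, τ x = 0 → x = 0 := by
    intro x hx
    have := congrArg τ.symm hx
    simpa using this
  -- the two nonzero products
  set m := as * b * a with hmdef
  have hmA : m ∈ A := A.mul_mem (A.mul_mem has hb) ha.1
  have hy0 : m * τ m ≠ 0 := by
    intro h
    rcases P.star hmA (hτA m hmA) h with h1 | h1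
    · exact hm h1
    · exact hm (hinj m h1)
  have hadj2 : IsAdj ω (τ m) (ε • τ m) := by
    have h1 := hτadj m hmA _ hsgn
    rcases hε with rfl | rfl
    · rw [one_smul] at h1 ⊢; exact h1
    · rw [neg_smul, one_smul, map_neg] at h1
      rw [neg_smul, one_smul]; exact h1
  have hcomm : ∀ x ∈ A, ∀ y ∈ A, x * τ y = τ y * x := fun x hx y hy => P.comm x hx _ (hτA y hy)
  have hyy : IsAdj ω (m * τ m) (m * τ m) := by
    have h1 := hsgn.mul hadj2
    have h2 : ε • τ m * ε • m = m * τ m := by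
      rw [smul_mul_assoc, mul_smul_comm, smul_smul]
      have : ε * ε = 1 := by rcases hε with rfl | rfl <;> ring
      rw [this, one_smul, ← hcomm m hmA m hmA]
    rw [h2] at h1
    exact h1
  -- rank one
  set z := a * τ a with hz
  have hz0 : z ≠ 0 := by
    intro h
    rcases P.star ha.1 (hτA a ha.1) h with h1 | h1
    · exact ha.2.1 h1
    · exact ha.2.1 (hinj a h1)
  obtain ⟨v, hv⟩ : ∃ v, z v ≠ 0 := by
    by_contra h
    push Not at h
    exact hz0 (LinearMap.ext h)
  have hrank : ∀ w, ∃ c : K, z w = c • z v := by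
    intro w
    have h1 := P.gen hv ((Submodule.span K {z v}).comap z) (by
      intro x hx y hy
      rw [Submodule.mem_comap, Submodule.mem_span_singleton]
      obtain ⟨y', hy', rfl⟩ := hsurA y hy
      obtain ⟨c, hc⟩ := ha.extremal hx
      obtain ⟨c', hc'⟩ := ha.extremal hy'
      refine ⟨c * σ c', ?_⟩
      have e : z * x * τ y' * z = (c * σ c') • z := by
        have h2 : τ a * τ y' * τ a = σ c' • τ a := by
          rw [← map_mul, ← map_mul, hc', hτ]
        have h3 : z * x * τ y' * z = (a * x * a) * (τ a * τ y' * τ a) := by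
          rw [hz]
          have k1 := hcomm x hx a ha.1
          have k2 := hcomm a ha.1 y' hy'
          have k3 := hcomm a ha.1 a ha.1
          calc a * τ a * x * τ y' * (a * τ a) = a * (τ a * x) * (τ y' * a) * τ a := by
                noncomm_ring
            _ = a * (x * τ a) * (a * τ y') * τ a := by rw [k1, k2]
            _ = a * x * (τ a * a) * τ y' * τ a := by noncomm_ring
            _ = a * x * (a * τ a) * τ y' * τ a := by rw [k3]
            _ = _ := by noncomm_ring
        rw [h3, hc, h2, smul_mul_assoc, mul_smul_comm, smul_smul]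
      have := congrArg (fun t : Module.End K V => t v) e
      exact this.symm) w
    rw [Submodule.mem_comap, Submodule.mem_span_singleton] at h1
    obtain ⟨c, hc⟩ := h1
    exact ⟨c, hc.symm⟩
  choose φ hφ using hrank
  have hzadj : IsAdj ω z (τ as * as) := hadj.mul (hτadj a ha.1 as hadj)
  have hprod : m * τ m = (τ as * as) * (b * τ b) * z := by
    rw [hmdef, map_mul, map_mul, hz]
    have k1 := hcomm as has as has
    have k2 := hcomm a ha.1 as has
    have k3 := hcomm a ha.1 b hb
    have k4 := hcomm b hb as has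
    calc as * b * a * (τ as * τ b * τ a) = as * b * (a * τ as) * τ b * τ a := by noncomm_ring
      _ = as * (b * τ as) * (a * τ b) * τ a := by rw [k2]; noncomm_ring
      _ = (as * τ as) * b * (τ b * a) * τ a := by rw [k4, k3]; noncomm_ring
      _ = _ := by rw [k1]; noncomm_ring
  have hanti : ∀ u v : V, ω u v = - ω v u := fun u v => (halt.neg_eq v u).symm
  apply hy0
  apply LinearMap.ext
  intro w2
  rw [LinearMap.zero_apply]
  apply hω.2
  intro w1
  have hform : ∀ w1 w2, ω w1 ((m * τ m) w2) = φ w1 * φ w2 * ω (z v) ((b * τ b) (z v)) := by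
    intro w1 w2
    have h0 : ω w1 ((m * τ m) w2) = ω (z w1) ((b * τ b) (z w2)) := by
      rw [hprod]
      exact (hzadj w1 _).symm
    rw [h0, hφ w1, hφ w2]
    simp only [map_smul, LinearMap.smul_apply, smul_eq_mul]
    ring
  have h1 : ω w1 ((m * τ m) w2) = ω w2 ((m * τ m) w1) := by
    rw [hform, hform]; ring
  have h2 : ω w2 ((m * τ m) w1) = - ω w1 ((m * τ m) w2) := by
    rw [← hyy, hanti]
  rw [h2] at h1
  have h3 : (2 : K) * ω w1 ((m * τ m) w2) = 0 := by linear_combination h1
  rcases mul_eq_zero.mp h3 with h | h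
  · exact absurd h two_ne_zero
  · exact h

end MTP
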