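import Pool.Agent.Helper93.SR.Extract

/-!
Two strongly orthogonal hyperbolic pairs and the six corresponding idempotents.
-/

open Module

namespace MTP

variable {K : Type*} [Field K] {V : Type*} [AddCommGroup V] [Module K V]

/-- Two strongly orthogonal hyperbolic pairs with complementary idempotents `c`, `d`. -/
structure Six (e1 f1 e2 f2 c d : Module.End K V) : Prop where
  e11 : e1 * e1 = 0
  e12 : e1 * e2 = 0
  e21 : e2 * e1 = 0
  e22 : e2 * e2 = 0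
  f11 : f1 * f1 = 0
  f12 : f1 * f2 = 0
  f21 : f2 * f1 = 0
  f22 : f2 * f2 = 0
  ef12 : e1 * f2 = 0
  ef21 : e2 * f1 = 0
  fe12 : f1 * e2 = 0
  fe21 : f2 * e1 = 0
  t1 : e1 * (f1 * e1) = e1
  s1 : f1 * (e1 * f1) = f1
  t2 : e2 * (f2 * e2) = e2
  s2 : f2 * (e2 * f2) = f2
  ce1 : c * e1 = 0
  ec1 : e1 * c = 0
  ce2 : c * e2 = 0
  ec2 : e2 * c = 0
  cf1 : c * f1 = 0
  fc1 : f1 * c = 0
  cf2 : c * f2 = 0
  fc2 : f2 * c = 0
  de1 : d * e1 = 0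
  ed1 : e1 * d = 0
  de2 : d * e2 = 0
  ed2 : e2 * d = 0
  df1 : d * f1 = 0
  fd1 : f1 * d = 0
  df2 : d * f2 = 0
  fd2 : f2 * d = 0
  cc : c * c = c
  dd : d * d = d
  cd : c * d = 0
  dc : d * c = 0
  sum : e1 * f1 + e2 * f2 + c + f1 * e1 + f2 * e2 + d = 1

lemma zz {x y : Module.End K V} (h : x * y = 0) (z : Module.End K V) : x * (y * z) = 0 := by
  rw [← mul_assoc, h, zero_mul]

lemma zr {x y w : Module.End K V} (h : x * y = w) (z : Module.End K V) :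
    x * (y * z) = w * z := by
  rw [← mul_assoc, h]

lemma zt {x y w : Module.End K V} (h : x * (y * w) = x) (z : Module.End K V) :
    x * (y * (w * z)) = x * z := by
  rw [← mul_assoc y w, ← mul_assoc x, h]

namespace Six
variable {e1 f1 e2 f2 c d : Module.End K V} (X : Six e1 f1 e2 f2 c d)
include X

/-- All rewriting rules. -/
lemma rules :
    (e1 * e1 = 0 ∧ e1 * e2 = 0 ∧ e2 * e1 = 0 ∧ e2 * e2 = 0 ∧ f1 * f1 = 0 ∧ f1 * f2 = 0 ∧
      f2 * f1 = 0 ∧ f2 * f2 = 0 ∧ e1 * f2 = 0 ∧ e2 * f1 = 0 ∧ f1 * e2 = 0 ∧ f2 * e1 = 0 ∧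
      e1 * (f1 * e1) = e1 ∧ f1 * (e1 * f1) = f1 ∧ e2 * (f2 * e2) = e2 ∧ f2 * (e2 * f2) = f2) ∧
    (c * e1 = 0 ∧ e1 * c = 0 ∧ c * e2 = 0 ∧ e2 * c = 0 ∧ c * f1 = 0 ∧ f1 * c = 0 ∧ c * f2 = 0 ∧
      f2 * c = 0 ∧ d * e1 = 0 ∧ e1 * d = 0 ∧ d * e2 = 0 ∧ e2 * d = 0 ∧ d * f1 = 0 ∧ f1 * d = 0 ∧
      d * f2 = 0 ∧ f2 * d = 0 ∧ c * c = c ∧ d * d = d ∧ c * d = 0 ∧ d * c = 0) ∧
    (∀ z, e1 * (e1 * z) = 0 ∧ e1 * (e2 * z) = 0 ∧ e2 * (e1 * z) = 0 ∧ e2 * (e2 * z) = 0 ∧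
      f1 * (f1 * z) = 0 ∧ f1 * (f2 * z) = 0 ∧ f2 * (f1 * z) = 0 ∧ f2 * (f2 * z) = 0 ∧
      e1 * (f2 * z) = 0 ∧ e2 * (f1 * z) = 0 ∧ f1 * (e2 * z) = 0 ∧ f2 * (e1 * z) = 0 ∧
      e1 * (f1 * (e1 * z)) = e1 * z ∧ f1 * (e1 * (f1 * z)) = f1 * z ∧
      e2 * (f2 * (e2 * z)) = e2 * z ∧ f2 * (e2 * (f2 * z)) = f2 * z) ∧
    (∀ z, c * (e1 * z) = 0 ∧ e1 * (c * z) = 0 ∧ c * (e2 * z) = 0 ∧ e2 * (c * z) = 0 ∧
      c * (f1 * z) = 0 ∧ f1 * (c * z) = 0 ∧ c * (f2 * z) = 0 ∧ f2 * (c * z) = 0 ∧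
      d * (e1 * z) = 0 ∧ e1 * (d * z) = 0 ∧ d * (e2 * z) = 0 ∧ e2 * (d * z) = 0 ∧
      d * (f1 * z) = 0 ∧ f1 * (d * z) = 0 ∧ d * (f2 * z) = 0 ∧ f2 * (d * z) = 0 ∧
      c * (c * z) = c * z ∧ d * (d * z) = d * z ∧ c * (d * z) = 0 ∧ d * (c * z) = 0) := by
  refine ⟨⟨X.e11, X.e12, X.e21, X.e22, X.f11, X.f12, X.f21, X.f22, X.ef12, X.ef21, X.fe12,
    X.fe21, X.t1, X.s1, X.t2, X.s2⟩, ⟨X.ce1, X.ec1, X.ce2, X.ec2, X.cf1, X.fc1, X.cf2, X.fc2,
    X.de1, X.ed1, X.de2, X.ed2, X.df1, X.fd1, X.df2, X.fd2, X.cc, X.dd, X.cd, X.dc⟩, ?_, ?_⟩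
  · intro z
    exact ⟨zz X.e11 z, zz X.e12 z, zz X.e21 z, zz X.e22 z, zz X.f11 z, zz X.f12 z, zz X.f21 z,
      zz X.f22 z, zz X.ef12 z, zz X.ef21 z, zz X.fe12 z, zz X.fe21 z, zt X.t1 z, zt X.s1 z,
      zt X.t2 z, zt X.s2 z⟩
  · intro z
    exact ⟨zz X.ce1 z, zz X.ec1 z, zz X.ce2 z, zz X.ec2 z, zz X.cf1 z, zz X.fc1 z, zz X.cf2 z,
      zz X.fc2 z, zz X.de1 z, zz X.ed1 z, zz X.de2 z, zz X.ed2 z, zz X.df1 z, zz X.fd1 z,
      zz X.df2 z, zz X.fd2 z, zr X.cc z, zr X.dd z, zz X.cd z, zz X.dc z⟩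

/-- The six idempotents. -/
lemma PP (i j : Fin 6) : (![e1 * f1, e2 * f2, c, f1 * e1, f2 * e2, d] : Fin 6 → Module.End K V) i *
    (![e1 * f1, e2 * f2, c, f1 * e1, f2 * e2, d] : Fin 6 → Module.End K V) j =
    if i = j then (![e1 * f1, e2 * f2, c, f1 * e1, f2 * e2, d] : Fin 6 → Module.End K V) i
      else 0 := by
  have R := X.rules
  fin_cases i <;> fin_cases j <;> simp [mul_assoc, R]

lemma Psum : ∑ i, (![e1 * f1, e2 * f2, c, f1 * e1, f2 * e2, d] : Fin 6 → Module.End K V) i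
    = 1 := by
  have h := X.sum
  simp only [Fin.sum_univ_succ]
  simp
  rw [← h]
  abel

end Six

/-- Extraction with integral weights. -/
lemma extractZ [CharZero K] {ι : Type*} [Fintype ι] [DecidableEq ι] (P : ι → Module.End K V)
    (hP : ∀ i j, P i * P j = if i = j then P i else 0) (hsum : ∑ i, P i = 1) (v : ι → ℤ)
    {M : Submodule K (Module.End K V)}
    (hM : ∀ x ∈ M, (∑ i, (v i : K) • P i) * x - x * (∑ i, (v i : K) • P i) ∈ M)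
    {x : Module.End K V} (hx : x ∈ M) (c : ℤ) :
    (∑ i, ∑ j, if v i - v j = c then P i * x * P j else 0) ∈ M := by
  classical
  have h := extract P hP hsum (fun i => (v i : K)) hM hx (c : K)
  have e : (∑ i, ∑ j, if (v i : K) - (v j : K) = (c : K) then P i * x * P j else 0) =
      ∑ i, ∑ j, if v i - v j = c then P i * x * P j else 0 := by
    apply Finset.sum_congr rfl
    intro i _
    apply Finset.sum_congr rfl
    intro j _
    have : ((v i : K) - (v j : K) = (c : K)) ↔ (v i - v j = c) := by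
      rw [← Int.cast_sub, Int.cast_inj]
    simp only [this]
  rw [← e]
  exact h

namespace Six
variable {e1 f1 e2 f2 c d : Module.End K V} (X : Six e1 f1 e2 f2 c d)
include X

/-- The blocks of an element of a stable subspace. -/
lemma blocks [CharZero K] {M : Submodule K (Module.End K V)}
    (h1 : ∀ x ∈ M, (e1 * f1 - f1 * e1) * x - x * (e1 * f1 - f1 * e1) ∈ M)
    (h2 : ∀ x ∈ M, (e2 * f2 - f2 * e2) * x - x * (e2 * f2 - f2 * e2) ∈ M)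
    (hs : ∀ x ∈ M, (e1 * f1 + e2 * f2 + c - (f1 * e1 + f2 * e2 + d)) * x
      - x * (e1 * f1 + e2 * f2 + c - (f1 * e1 + f2 * e2 + d)) ∈ M)
    {x : Module.End K V} (hx : x ∈ M) :
    e1 * f1 * x * (e2 * f2) + f2 * e2 * x * (f1 * e1) ∈ M ∧
    e1 * f1 * x * c + d * x * (f1 * e1) ∈ M ∧
    e1 * f1 * x * d + c * x * (f1 * e1) ∈ M := by
  have key : ∀ w : ℤ, (∑ i : Fin 6, ∑ j : Fin 6,
      if (![110, 101, 100, -110, -101, -100] : Fin 6 → ℤ) i -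
        (![110, 101, 100, -110, -101, -100] : Fin 6 → ℤ) j = w then
        (![e1 * f1, e2 * f2, c, f1 * e1, f2 * e2, d] : Fin 6 → Module.End K V) i * x *
        (![e1 * f1, e2 * f2, c, f1 * e1, f2 * e2, d] : Fin 6 → Module.End K V) j else 0) ∈ M := by
    intro w
    apply extractZ _ X.PP X.Psum _ _ hx
    intro y hy
    have e : (∑ i : Fin 6, (((![110, 101, 100, -110, -101, -100] : Fin 6 → ℤ) i : ℤ) : K) •
        (![e1 * f1, e2 * f2, c, f1 * e1, f2 * e2, d] : Fin 6 → Module.End K V) i) =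
        (100 : K) • (e1 * f1 + e2 * f2 + c - (f1 * e1 + f2 * e2 + d)) +
        (10 : K) • (e1 * f1 - f1 * e1) + (e2 * f2 - f2 * e2) := by
      simp only [Fin.sum_univ_succ]
      simp
      match_scalars <;> norm_num
    rw [e]
    have e' : ((100 : K) • (e1 * f1 + e2 * f2 + c - (f1 * e1 + f2 * e2 + d)) +
        (10 : K) • (e1 * f1 - f1 * e1) + (e2 * f2 - f2 * e2)) * y -
        y * ((100 : K) • (e1 * f1 + e2 * f2 + c - (f1 * e1 + f2 * e2 + d)) +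
        (10 : K) • (e1 * f1 - f1 * e1) + (e2 * f2 - f2 * e2)) =
        (100 : K) • ((e1 * f1 + e2 * f2 + c - (f1 * e1 + f2 * e2 + d)) * y
          - y * (e1 * f1 + e2 * f2 + c - (f1 * e1 + f2 * e2 + d))) +
        (10 : K) • ((e1 * f1 - f1 * e1) * y - y * (e1 * f1 - f1 * e1)) +
        ((e2 * f2 - f2 * e2) * y - y * (e2 * f2 - f2 * e2)) := by
      rw [add_mul, add_mul, mul_add, mul_add, smul_mul_assoc, smul_mul_assoc, mul_smul_comm,
        mul_smul_comm, smul_sub, smul_sub]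
      abel
    rw [e']
    exact M.add_mem (M.add_mem (M.smul_mem _ (hs y hy)) (M.smul_mem _ (h1 y hy))) (h2 y hy)
  refine ⟨?_, ?_, ?_⟩
  · have := key 9
    simp only [Fin.sum_univ_succ] at this
    simpa using this
  · have := key 10
    simp only [Fin.sum_univ_succ] at this
    simpa using this
  · have := key 210
    simp only [Fin.sum_univ_succ] at this
    simpa [add_comm] using this

end Six

end MTP
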