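import Pool.Agent.Helper93.SR.Fin
import Pool.Agent.Helper93.SR.Strong

/-!
The group theorem for strong pairs, all ranks.
-/

open Module MTPairs Matrix

namespace MTP

variable {K : Type*} [Field K] {m : Type*} [Fintype m] [DecidableEq m]
variable {Γ : Subgroup (Equiv.Perm (m → K))} {J : Matrix m m K}
  {G : Subgroup (Matrix.GeneralLinearGroup m K)} {π : Matrix m m K}
  {ι : Type*} [Fintype ι] [DecidableEq ι] {W : ι → Submodule K (m → K)}

lemma two_rk_le {V : Type*} [AddCommGroup V] [Module K V] [FiniteDimensional K V]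
    {N : Module.End K V} (hN : N * N = 0) : 2 * MTP.rk N ≤ finrank K V := by
  have h1 : LinearMap.range N ≤ LinearMap.ker N := by
    rintro _ ⟨v, rfl⟩
    rw [LinearMap.mem_ker]
    exact congrArg (fun f : Module.End K V => f v) hN
  have h2 := Submodule.finrank_mono h1
  have h3 := LinearMap.finrank_range_add_finrank_ker N
  unfold MTP.rk
  omega

/-- **The group theorem for strong pairs**, with the classification of simple Lie algebras as a
hypothesis. -/
theorem isFull_of_strong [IsAlgClosed K] [CharZero K] (D : IsStrongMTPair Γ J G π)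
    (hW : IsSplit J G W) (hR : IsStable Γ W) (hSC : ∀ j, SimpleClass (form J W j))
    (hq : ∀ j, ∃ u ∈ G, ∃ r, IsQuadraticOn u (W j) r ∧ 0 < r ∧
      (2 * r ≤ finrank K (W j) → Even (finrank K (W j)) → ¬ StrExc r (finrank K (W j)))) :
    IsFull J G W := by
  apply isFull_of_core D hW hR
  · intro j hj
    obtain ⟨u, hu, r, hqr, h1, -⟩ := hq j
    obtain ⟨a, ha, hNN, h0, hrk⟩ := quad_res hW hu hqr h1
    apply h0
    have : Subsingleton (W j) := by
      rw [hj]; infer_instance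
    exact LinearMap.ext fun v => Subsingleton.elim _ _
  · intro j p0 S z hz
    obtain ⟨u, hu, r, hqr, hr0, hr⟩ := hq j
    obtain ⟨a, ha, hNN, h0, hrk⟩ := quad_res hW hu hqr hr0
    refine S.full_strong (hSC j) ha hNN h0 ?_ hz
    rw [hrk]
    apply hr
    · rw [← hrk]; exact two_rk_le hNN
    · exact even_finrank_of_alt S.nd S.alt

/-- The non exceptional pairs, in terms of a set of pairs. -/
theorem isFull_of_strong_set [IsAlgClosed K] [CharZero K] (D : IsStrongMTPair Γ J G π)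
    (hW : IsSplit J G W) (hR : IsStable Γ W) (hSC : ∀ j, SimpleClass (form J W j))
    {R : Set (ℕ × ℕ)} (hR0 : ∀ r D, (r, D) ∈ R → 0 < r)
    (h1 : ∀ d k s, Even d → Odd k → 3 ≤ k → 2 * s ≤ d → (s * d ^ (k - 1), d ^ k) ∉ R)
    (h2 : ∀ m, Odd m → 3 ≤ m → ((2 * m - 2).choose (m - 1), (2 * m).choose m) ∉ R)
    (h3 : ∀ n, n % 4 = 1 → 5 ≤ n → (2 ^ (n - 2), 2 ^ n) ∉ R)
    (hq : ∀ j, ∃ u ∈ G, ∃ r, IsQuadraticOn u (W j) r ∧ (r, finrank K (W j)) ∈ R) :
    IsFull J G W := by
  apply isFull_of_strong D hW hR hSC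
  intro j
  obtain ⟨u, hu, r, hur, hmem⟩ := hq j
  refine ⟨u, hu, r, hur, hR0 _ _ hmem, ?_⟩
  intro h2r hev hexc
  have hr0 := hR0 _ _ hmem
  generalize finrank K (W j) = D at *
  rcases hexc with ⟨d, k, s, hk, hk3, rfl, rfl⟩ | ⟨m, hm, hm3, rfl, rfl⟩ | ⟨n, hn, hn5, rfl, rfl⟩
  · refine h1 d k s (Nat.even_pow.mp hev).1 hk hk3 ?_ hmem
    have hd : d ^ k = d ^ (k - 1) * d := by
      rw [← pow_succ]; congr 1; omega
    have hpos : 0 < d ^ (k - 1) := Nat.pos_of_mul_pos_left hr0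
    rw [hd, ← mul_assoc, mul_comm (d ^ (k - 1)) d] at h2r
    exact Nat.le_of_mul_le_mul_right h2r hpos
  · exact h2 m hm hm3 hmem
  · exact h3 n hn hn5 hmem

end MTP
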