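import Pool.Agent.Helper93.SR.Rat

/-!
Operators of small support normalising an irreducible Lie algebra of symplectic operators:
Lie algebra part.
-/

set_option linter.unusedSimpArgs false
set_option linter.unusedSectionVars false

open Module

namespace MTP

variable {K : Type*} [Field K] {V : Type*} [AddCommGroup V] [Module K V] [FiniteDimensional K V]
variable {ω : LinearMap.BilinForm K V} {L I I' M : Submodule K (Module.End K V)}
  {S : Set (Module.End K V)}

/-- Operators commuting with an irreducible Lie algebra are scalar. -/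
lemma IrrSymp.scalar_of_comm [IsAlgClosed K] (hL : IrrSymp ω L) {x : Module.End K V}
    (h : ∀ y ∈ L, x * y = y * x) : ∃ c : K, x = c • 1 := by
  rcases subsingleton_or_nontrivial V with hV | hV
  · exact ⟨0, LinearMap.ext fun v => Subsingleton.elim _ _⟩
  obtain ⟨c, hc⟩ := Module.End.exists_eigenvalue x
  obtain ⟨v, hv⟩ := hc.exists_hasEigenvector
  refine ⟨c, ?_⟩
  have h1 : LinearMap.ker (x - c • 1) = ⊤ := by
    rcases hL.irr (LinearMap.ker (x - c • 1)) (by
      intro z hz w hw
      rw [LinearMap.mem_ker, LinearMap.sub_apply, LinearMap.smul_apply, Module.End.one_apply,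
        sub_eq_zero] at hw ⊢
      have := congrArg (fun t : Module.End K V => t w) (h z hz)
      simp only [Module.End.mul_apply] at this
      rw [this, hw, map_smul]) with h | h
    · exfalso
      have : v ∈ LinearMap.ker (x - c • 1) := by
        rw [LinearMap.mem_ker, LinearMap.sub_apply, LinearMap.smul_apply, Module.End.one_apply,
          hv.apply_eq_smul, sub_self]
      rw [h, Submodule.mem_bot] at this
      exact hv.2 this
    · exact h
  apply LinearMap.ext
  intro w
  have : w ∈ LinearMap.ker (x - c • 1) := by rw [h1]; trivial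
  rw [LinearMap.mem_ker, LinearMap.sub_apply, sub_eq_zero] at this
  exact this

/-- Conjugation moves elements by little. -/
lemma rk_conj_sub_le {g h : Module.End K V} (hgh : g * h = 1) {c : K} (y : Module.End K V) :
    rk (g * y * h - y) ≤ 2 * rk (g - c • 1) := by
  have e : g * y * h - y = (g - c • 1) * (y * h) + (-(y * (g - c • 1))) * h := by
    have e1 : (g - c • 1) * (y * h) + (-(y * (g - c • 1))) * h = g * y * h - y * (g * h) := by
      simp only [sub_mul, mul_sub, smul_mul_assoc, mul_smul_comm, one_mul, mul_one, neg_mul,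
        neg_sub, mul_assoc]
      abel
    rw [e1, hgh, mul_one]
  rw [e]
  have h1 := rk_add_le ((g - c • 1) * (y * h)) ((-(y * (g - c • 1))) * h)
  have h2 := rk_mul_le_left (g - c • (1 : Module.End K V)) (y * h)
  have h3 := rk_mul_le_left (-(y * (g - c • 1))) h
  rw [rk_neg] at h3
  have h4 := rk_mul_le_right y (g - c • (1 : Module.End K V))
  omega

/-- A nonzero element of low rank gives a square zero element of low rank. -/
lemma Ctx.exists_sq_zero [IsAlgClosed K] [CharZero K] (hC : Ctx ω L S) {x : Module.End K V}
    (hx : x ∈ L) (hx0 : x ≠ 0) : ∃ N ∈ L, N * N = 0 ∧ N ≠ 0 ∧ rk N ≤ rk x := by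
  by_contra hcon
  push Not at hcon
  apply hx0
  -- `x` commutes with the involutions
  have hcomm : ∀ s ∈ S, x * s = s * x := by
    intro s hs
    obtain ⟨hsL, hss⟩ := hC.inv s hs
    obtain ⟨h1, h2, -⟩ := comps_mem hss (M := L) (fun x hx => hC.irr.br s hsL x hx) hx
    have z1 : pp s * x * qq s = 0 := by
      by_contra hne
      have h3 := hcon _ h1 (by
        calc pp s * x * qq s * (pp s * x * qq s) = pp s * x * (qq s * pp s) * (x * qq s) := by
              simp only [mul_assoc]
          _ = 0 := by rw [qq_mul_pp hss]; simp) hne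
      have h4 := (rk_mul_le_left (pp s * x) (qq s)).trans (rk_mul_le_right (pp s) x)
      omega
    have z2 : qq s * x * pp s = 0 := by
      by_contra hne
      have h3 := hcon _ h2 (by
        calc qq s * x * pp s * (qq s * x * pp s) = qq s * x * (pp s * qq s) * (x * pp s) := by
              simp only [mul_assoc]
          _ = 0 := by rw [pp_mul_qq hss]; simp) hne
      have h4 := (rk_mul_le_left (qq s * x) (pp s)).trans (rk_mul_le_right (qq s) x)
      omega
    have e : s * x - x * s = (2 : K) • (pp s * x * qq s) - (2 : K) • (qq s * x * pp s) := by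
      have e1 : s * x - x * s = (pp s - qq s) * x * (pp s + qq s)
          - (pp s + qq s) * x * (pp s - qq s) := by
        rw [pp_sub_qq, pp_add_qq]; simp
      rw [e1]
      simp only [sub_mul, mul_sub, add_mul, mul_add, mul_assoc]
      module
    rw [z1, z2, smul_zero, sub_zero] at e
    exact (sub_eq_zero.mp e).symm
  -- so with `L`
  have hle : L ≤ (Submodule.mk (AddSubmonoid.mk (AddSubsemigroup.mk
      {y : Module.End K V | x * y = y * x} (by
        intro a b ha hb
        rw [Set.mem_ofPred_eq] at *
        rw [mul_add, add_mul, ha, hb])) (by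
        rw [Set.mem_ofPred_eq] at *; simp)) (by
        intro c a ha
        change x * a = a * x at ha
        change x * (c • a) = (c • a) * x
        rw [mul_smul_comm, smul_mul_assoc, ha]) : Submodule K (Module.End K V)) := by
    apply hC.gen
    · intro a ha b hb
      change x * a = a * x at ha
      change x * b = b * x at hb
      change x * (a * b - b * a) = (a * b - b * a) * x
      have e1 : x * (a * b) = a * b * x := by rw [← mul_assoc, ha, mul_assoc, hb, ← mul_assoc]
      have e2 : x * (b * a) = b * a * x := by rw [← mul_assoc, hb, mul_assoc, ha, ← mul_assoc]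
      rw [mul_sub, sub_mul, e1, e2]
    · exact hcomm
  exact hC.irr.center hC.nd hx (fun y hy => hle hy)

namespace Pr
variable {A C : Subalgebra K (Module.End K V)} (P : Pr A C)
include P

/-- The range of an extremal element is irreducible. -/
lemma range_eq {b : Module.End K V} (hb : b ∈ A)
    (hext : ∀ y ∈ A, ∃ c : K, b * y * b = c • b) {u : V} (hu : u ∈ LinearMap.range b)
    (hu0 : u ≠ 0) : LinearMap.range b = orb C u := by
  apply le_antisymm
  · obtain ⟨v, rfl⟩ := hu
    rintro _ ⟨w, rfl⟩
    let W : Submodule K V := (orb C (b v)).comap b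
    have := P.gen hu0 W (by
      intro y hy z hz
      change b (y (z (b v))) ∈ orb C (b v)
      obtain ⟨c, hc⟩ := hext y hy
      have h1 := congrArg (fun t : Module.End K V => t v) hc
      simp only [Module.End.mul_apply, LinearMap.smul_apply] at h1
      have h2 : b (y (z (b v))) = z (b (y (b v))) := by
        have h3 := congrArg (fun t : Module.End K V => t (b v)) (P.comm (b * y)
          (A.mul_mem hb hy) z hz)
        exact h3
      rw [h2, h1]
      exact mem_orb.mpr ⟨c • z, C.smul_mem hz c, by rw [map_smul]; rfl⟩) w
    exact this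
  · exact orb_le (fun a ha => (P.comm b hb a ha).symm) hu

/-- An element of `A` killing a nonzero vector of the range of an extremal element kills the
range. -/
lemma kill_range {b : Module.End K V} (hb : b ∈ A)
    (hext : ∀ y ∈ A, ∃ c : K, b * y * b = c • b) {u : V} (hu : u ∈ LinearMap.range b)
    (hu0 : u ≠ 0) {z : Module.End K V} (hz : z ∈ A) (hzu : z u = 0) : z * b = 0 := by
  apply LinearMap.ext
  intro v
  have h1 : b v ∈ orb C u := by
    rw [← P.range_eq hb hext hu hu0]; exact ⟨v, rfl⟩
  obtain ⟨y, hy, hyu⟩ := mem_orb.mp h1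
  change z (b v) = 0
  rw [← hyu]
  have h2 := congrArg (fun t : Module.End K V => t u) (P.comm z hz y hy)
  simp only [Module.End.mul_apply] at h2
  rw [h2, hzu, map_zero]

/-- **Small support and tensor products.** An invertible operator normalising `A` which differs
from a scalar by an operator of rank less than that of an extremal element commutes with `A`. -/
theorem comm_of_small [IsAlgClosed K] {a : Module.End K V} (ha : a ∈ A) (ha0 : a ≠ 0)
    (hext : ∀ y ∈ A, ∃ c : K, a * y * a = c • a) {g h : Module.End K V} (hgh : g * h = 1)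
    (hhg : h * g = 1) (hA : ∀ y ∈ A, g * y * h ∈ A) (hA' : ∀ y ∈ A, h * y * g ∈ A) {c : K}
    (hc : rk (g - c • 1) < rk a) {x : Module.End K V} (hx : x ∈ A) : g * x * h = x := by
  have hg1 : ∀ v, h (g v) = v := fun v => LinearMap.congr_fun hhg v
  have hh1 : ∀ v, g (h v) = v := fun v => LinearMap.congr_fun hgh v
  set T := g - c • (1 : Module.End K V) with hT
  have hTv : ∀ v, T v = g v - c • v := fun v => rfl
  -- the scalar is not zero
  have hc0 : c ≠ 0 := by
    rintro rfl
    have h1 : rk a ≤ rk g := by
      have : a = g * (h * a) := by rw [← mul_assoc, hgh, one_mul]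
      rw [this]; exact rk_mul_le_left _ _
    have h2 : T = g := by rw [hT, zero_smul, sub_zero]
    rw [h2] at hc
    omega
  -- products with `a` on the right are extremal
  have hxa : ∀ x ∈ A, ∀ y ∈ A, ∃ t : K, x * a * y * (x * a) = t • (x * a) := by
    intro x hx y hy
    obtain ⟨t, ht⟩ := hext (y * x) (A.mul_mem hy hx)
    refine ⟨t, ?_⟩
    calc x * a * y * (x * a) = x * (a * (y * x) * a) := by simp only [mul_assoc]
      _ = _ := by rw [ht, mul_smul_comm]
  -- if `x a ≠ 0` then `x` is injective on the range of `a`
  have hinj : ∀ x ∈ A, x * a ≠ 0 → ∀ w ∈ LinearMap.range a, x w = 0 → w = 0 := by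
    intro x hx hxa0 w hw hxw
    by_contra hw0
    exact hxa0 (P.kill_range ha hext hw hw0 hx hxw)
  have hrkxa : ∀ x ∈ A, x * a ≠ 0 → rk (x * a) = rk a := by
    intro x hx hxa0
    have e : LinearMap.range (x * a) = (LinearMap.range a).map x := LinearMap.range_comp a x
    unfold rk
    rw [e]
    apply le_antisymm (Submodule.finrank_map_le _ _)
    have hi : Function.Injective (x.domRestrict (LinearMap.range a)) := by
      rw [← LinearMap.ker_eq_bot, LinearMap.ker_eq_bot']
      intro w hw
      exact Subtype.ext (hinj x hx hxa0 w w.2 hw)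
    have h1 := LinearMap.finrank_range_of_inj hi
    rw [← h1]
    apply Submodule.finrank_mono
    rintro _ ⟨w, rfl⟩
    exact ⟨w, w.2, rfl⟩
  -- the operator `g` preserves the range of `x a`
  have hF2 : ∀ x ∈ A, ∀ v ∈ LinearMap.range (x * a), g v ∈ LinearMap.range (x * a) := by
    intro x hx v hv
    by_cases hxa0 : x * a = 0
    · rw [hxa0] at hv ⊢
      obtain ⟨w, rfl⟩ := hv
      simp
    -- a common vector
    obtain ⟨u, hu, hu0, hgu⟩ : ∃ u ∈ LinearMap.range (x * a), u ≠ 0 ∧ g u = c • u := by
      by_contra hcon
      push Not at hcon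
      have hi : Function.Injective (T.domRestrict (LinearMap.range (x * a))) := by
        rw [← LinearMap.ker_eq_bot, LinearMap.ker_eq_bot']
        intro w hw
        by_contra hw0
        apply hcon w w.2 (fun h => hw0 (Subtype.ext h))
        have h1 : T w = 0 := hw
        rw [hTv, sub_eq_zero] at h1
        exact h1
      have h1 := LinearMap.finrank_range_of_inj hi
      have h2 : finrank K (LinearMap.range (T.domRestrict (LinearMap.range (x * a)))) ≤ rk T := by
        apply Submodule.finrank_mono
        rintro _ ⟨w, rfl⟩
        exact ⟨w, rfl⟩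
      have h3 : finrank K (LinearMap.range (x * a)) = rk a := hrkxa x hx hxa0
      omega
    -- the conjugate
    have hb' : g * (x * a) * h ∈ A := hA _ (A.mul_mem hx ha)
    have hext' : ∀ y ∈ A, ∃ t : K, g * (x * a) * h * y * (g * (x * a) * h) =
        t • (g * (x * a) * h) := by
      intro y hy
      obtain ⟨t, ht⟩ := hxa x hx (h * y * g) (hA' y hy)
      refine ⟨t, ?_⟩
      calc g * (x * a) * h * y * (g * (x * a) * h) =
            g * (x * a * (h * y * g) * (x * a)) * h := by simp only [mul_assoc]
        _ = _ := by rw [ht, mul_smul_comm, smul_mul_assoc]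
    have hu' : u ∈ LinearMap.range (g * (x * a) * h) := by
      obtain ⟨w, hw⟩ := hu
      refine ⟨c⁻¹ • g w, ?_⟩
      have e : (g * (x * a) * h) (c⁻¹ • g w) = c⁻¹ • g ((x * a) (h (g w))) := by
        rw [map_smul]; rfl
      rw [e, hg1, hw, hgu, smul_smul, inv_mul_cancel₀ hc0, one_smul]
    have hr : LinearMap.range (g * (x * a) * h) = LinearMap.range (x * a) := by
      rw [P.range_eq hb' hext' hu' hu0,
        P.range_eq (A.mul_mem hx ha) (hxa x hx) hu hu0]
    rw [← hr]
    obtain ⟨w, rfl⟩ := hv
    refine ⟨g w, ?_⟩
    change g ((x * a) (h (g w))) = _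
    rw [hg1]
  -- ranges
  have hX : ∀ v ∈ LinearMap.range a, g v ∈ LinearMap.range a := by
    have := hF2 1 (one_mem _)
    rwa [one_mul] at this
  have hXh : ∀ v ∈ LinearMap.range a, h v ∈ LinearMap.range a := by
    -- `g` maps the range onto itself
    intro v hv
    have h1 : (LinearMap.range a).map g = LinearMap.range a := by
      apply Submodule.eq_of_le_of_finrank_le
      · rintro _ ⟨w, hw, rfl⟩
        exact hX w hw
      · have hi : Function.Injective g := fun v w hvw => by
          rw [← hg1 v, ← hg1 w, hvw]
        rw [LinearEquiv.finrank_eq (Submodule.equivMapOfInjective g hi (LinearMap.range a))]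
    rw [← h1] at hv
    obtain ⟨w, hw, rfl⟩ := hv
    rw [hg1]; exact hw
  -- if `z a = 0` then `z' a = 0`
  have hkill : ∀ z ∈ A, z * a = 0 → g * z * h * a = 0 := by
    intro z hz hza
    apply LinearMap.ext
    intro v
    obtain ⟨w, hw⟩ := hXh (a v) ⟨v, rfl⟩
    change g (z (h (a v))) = 0
    rw [← hw]
    have h1 : z (a w) = 0 := LinearMap.congr_fun hza w
    rw [h1, map_zero]
  -- the main step
  have hF3 : ∀ x ∈ A, g * x * h * a = x * a := by
    intro x hx
    by_cases hint : ∃ u ∈ LinearMap.range a, u ≠ 0 ∧ x u ∈ LinearMap.range a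
    · -- `x` is a scalar on the range
      obtain ⟨u, hu, hu0, hxu⟩ := hint
      have hmaps : ∀ v ∈ LinearMap.range a, x v ∈ LinearMap.range a := by
        by_cases hxu0 : x u = 0
        · have h1 := P.kill_range ha hext hu hu0 hx hxu0
          rintro _ ⟨v, rfl⟩
          have h2 : x (a v) = 0 := LinearMap.congr_fun h1 v
          rw [h2]; exact Submodule.zero_mem _
        · have hxu' : x u ∈ LinearMap.range (x * a) := by
            obtain ⟨w, rfl⟩ := hu
            exact ⟨w, rfl⟩
          have h1 : LinearMap.range (x * a) = LinearMap.range a := by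
            rw [P.range_eq (A.mul_mem hx ha) (hxa x hx) hxu' hxu0, P.range_eq ha hext hxu hxu0]
          rintro _ ⟨v, rfl⟩
          rw [← h1]
          exact ⟨v, rfl⟩
      have hnt : Nontrivial (LinearMap.range a) := ⟨⟨⟨u, hu⟩, 0, fun h => hu0
        (congrArg Subtype.val h)⟩⟩
      obtain ⟨t, ht⟩ := Module.End.exists_eigenvalue (x.restrict hmaps)
      obtain ⟨w, hw⟩ := ht.exists_hasEigenvector
      have hw0 : (w : V) ≠ 0 := fun h => hw.2 (Subtype.ext h)
      have hxw : x w = t • (w : V) := congrArg Subtype.val hw.apply_eq_smul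
      have h1 : (x - t • 1) * a = 0 := by
        apply P.kill_range ha hext w.2 hw0 (A.sub_mem hx (A.smul_mem (one_mem _) t))
        rw [LinearMap.sub_apply, hxw, LinearMap.smul_apply, Module.End.one_apply, sub_self]
      have h2 := hkill _ (A.sub_mem hx (A.smul_mem (one_mem _) t)) h1
      rw [sub_mul, sub_eq_zero] at h1
      have e : g * (x - t • 1) * h * a = g * x * h * a - t • 1 * a := by
        simp only [mul_sub, sub_mul, mul_smul_comm, smul_mul_assoc, mul_one, hgh]
      rw [e, sub_eq_zero] at h2
      rw [h2, h1]
    · push Not at hint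
      have hxa0 : x * a ≠ 0 := by
        intro h1
        obtain ⟨v, hv⟩ : ∃ v, a v ≠ 0 := by
          by_contra h
          push Not at h
          exact ha0 (LinearMap.ext h)
        apply hint (a v) ⟨v, rfl⟩ hv
        have h2 : x (a v) = 0 := LinearMap.congr_fun h1 v
        rw [h2]; exact Submodule.zero_mem _
      -- a common vector
      obtain ⟨w, hw, hw0, hgw, hgxw⟩ : ∃ w ∈ LinearMap.range a, w ≠ 0 ∧ g w = c • w ∧
          g (x w) = c • x w := by
        set X := LinearMap.range a with hXdef
        let T1 : X →ₗ[K] V := T.domRestrict X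
        let T2 : X →ₗ[K] V := (T * x).domRestrict X
        have hT1 : ∀ w : X, T1 w = T w := fun w => rfl
        have hT2 : ∀ w : X, T2 w = T (x w) := fun w => rfl
        have hr1 : LinearMap.range T1 ≤ X := by
          rintro _ ⟨w, rfl⟩
          rw [hT1, hTv]
          exact X.sub_mem (hX w w.2) (X.smul_mem _ w.2)
        have hr2 : LinearMap.range T2 ≤ LinearMap.range (x * a) := by
          rintro _ ⟨w, rfl⟩
          have hxw : x w ∈ LinearMap.range (x * a) := by
            obtain ⟨v, hv⟩ := w.2
            exact ⟨v, by rw [← hv]; rfl⟩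
          rw [hT2, hTv]
          exact Submodule.sub_mem _ (hF2 x hx _ hxw) (Submodule.smul_mem _ _ hxw)
        have hdis : LinearMap.range T1 ⊓ LinearMap.range T2 = ⊥ := by
          rw [eq_bot_iff]
          rintro v ⟨h1, h2⟩
          have h3 := hr1 h1
          obtain ⟨w, rfl⟩ := hr2 h2
          rw [Submodule.mem_bot]
          by_contra hne
          apply hint (a w) ⟨w, rfl⟩ _ h3
          intro h0
          apply hne
          change x (a w) = 0
          rw [h0, map_zero]
        have hle : LinearMap.range T1 ⊔ LinearMap.range T2 ≤ LinearMap.range T := by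
          rw [sup_le_iff]
          constructor
          · rintro _ ⟨w, rfl⟩
            exact ⟨w, rfl⟩
          · rintro _ ⟨w, rfl⟩
            exact ⟨x w, rfl⟩
        have d1 := Submodule.finrank_sup_add_finrank_inf_eq (LinearMap.range T1)
          (LinearMap.range T2)
        rw [hdis, finrank_bot] at d1
        have d2 := Submodule.finrank_mono hle
        have d3 : finrank K (LinearMap.range T) = rk T := rfl
        have d4 : finrank K X = rk a := rfl
        have e1 := LinearMap.finrank_range_add_finrank_ker T1
        have e2 := LinearMap.finrank_range_add_finrank_ker T2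
        have e3 := Submodule.finrank_sup_add_finrank_inf_eq (LinearMap.ker T1)
          (LinearMap.ker T2)
        have e4 : finrank K (LinearMap.ker T1 ⊔ LinearMap.ker T2 : Submodule K X) ≤
            finrank K X := Submodule.finrank_le _
        have e5 : 0 < finrank K (LinearMap.ker T1 ⊓ LinearMap.ker T2 : Submodule K X) := by
          omega
        rw [Module.finrank_pos_iff] at e5
        obtain ⟨w, hw⟩ := exists_ne (0 : (LinearMap.ker T1 ⊓ LinearMap.ker T2 : Submodule K X))
        have hw1 : T1 w.1 = 0 := w.2.1
        have hw2 : T2 w.1 = 0 := w.2.2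
        refine ⟨w.1, w.1.2, fun h => hw (Subtype.ext (Subtype.ext h)), ?_, ?_⟩
        · rw [hT1, hTv, sub_eq_zero] at hw1
          exact hw1
        · rw [hT2, hTv, sub_eq_zero] at hw2
          exact hw2
      have h1 : (g * x * h - x) w = 0 := by
        have h2 : (g * x * h) (c • w) = c • x w := by
          rw [← hgw]
          change g (x (h (g w))) = _
          rw [hg1, hgxw]
        rw [map_smul] at h2
        have h3 := congrArg (fun v => c⁻¹ • v) h2
        simp only [smul_smul, inv_mul_cancel₀ hc0, one_smul] at h3
        rw [LinearMap.sub_apply, h3, sub_self]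
      have h2 := P.kill_range ha hext hw hw0 (A.sub_mem (hA x hx) hx) h1
      rwa [sub_mul, sub_eq_zero] at h2
  -- conclusion
  obtain ⟨v, hv⟩ : ∃ v, a v ≠ 0 := by
    by_contra h
    push Not at h
    exact ha0 (LinearMap.ext h)
  rw [← sub_eq_zero]
  apply P.kill (A.sub_mem (hA x hx) hx) hv
  intro y hy
  have h1 := hF3 (x * y) (A.mul_mem hx hy)
  have h2 := hF3 y hy
  have h3 : g * (x * y) * h * a = g * x * h * (y * a) := by
    rw [← h2]
    calc g * (x * y) * h * a = g * x * 1 * (y * h * a) := by simp only [mul_assoc, mul_one]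
      _ = g * x * (h * g) * (y * h * a) := by rw [hhg]
      _ = _ := by simp only [mul_assoc]
  rw [h3, mul_assoc x y a] at h1
  have h4 := congrArg (fun t : Module.End K V => t v) h1
  change (g * x * h) (y (a v)) = x (y (a v)) at h4
  rw [LinearMap.sub_apply, h4, sub_self]

end Pr

end MTP
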