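import Pool.Agent.Helper93.SR.Supp
import Pool.Agent.Helper93.SR.Count

/-!
Operators of small support normalising an irreducible Lie algebra of symplectic operators:
the structure theorem and the main theorem in abstract form.
-/

set_option linter.unusedSimpArgs false
set_option linter.unusedSectionVars false
set_option linter.unusedVariables false

open Module

namespace MTP

variable {K : Type*} [Field K] {V : Type*} [AddCommGroup V] [Module K V] [FiniteDimensional K V]
variable {ω : LinearMap.BilinForm K V} {L I I' M : Submodule K (Module.End K V)}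
  {S : Set (Module.End K V)}

/-- Structure of Lie algebras which are simple up to symmetries, with the extremal elements of
the algebras of all minimal ideals. -/
theorem IrrSymp.exact_marks [IsAlgClosed K] [CharZero K] (hL : IrrSymp ω L)
    (hω : ω.Nondegenerate) (halt : ω.IsAlt) {T : Set (Module.End K V ≃+* Module.End K V)}
    (hT : ∀ τ ∈ T, Tw L τ) (hS : TSmp L T) (hmul : ∀ τ ∈ T, ∀ τ' ∈ T, τ'.trans τ ∈ T)
    (hone : RingEquiv.refl _ ∈ T) (hL0 : L ≠ ⊥) :
    ∃ k d : ℕ, Odd k ∧ finrank K V = d ^ k ∧ (k = 1 → Smp L) ∧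
      ∀ I, IsMin L I → ∃ a ∈ alg I, a ≠ 0 ∧ (∀ y ∈ alg I, ∃ c : K, a * y * a = c • a) ∧
        rk a = d ^ (k - 1) := by
  have hV : Nontrivial V := by
    by_contra hcon
    rw [not_nontrivial_iff_subsingleton] at hcon
    apply hL0
    rw [eq_bot_iff]
    intro x hx
    rw [Submodule.mem_bot]
    exact LinearMap.ext fun v => Subsingleton.elim _ _
  have hLid : IsId L L := ⟨le_rfl, hL.br⟩
  obtain ⟨I0, -, hI0, hI00, hI0min⟩ := exists_min_ideal hLid hL0
  have P := hL.pr (fun x hx y hy => hL.orth_comm hω hI0 hx hy)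
    (fun z hz => hL.sup_orth hω hI0 hz)
  obtain ⟨ε, a0, hε, ha0⟩ := exists_mark hω halt (fun x hx => hL.sk x (hI0.1 hx)) P hI00
  obtain ⟨d, hd, hW⟩ := P.iso ha0.mem ha0.ne ha0.ext
  obtain ⟨n0, h1, h2, -⟩ := hW ⊤ (fun _ _ _ _ => Submodule.mem_top)
  have hρ : finrank K V = rk a0 * d := by
    rw [finrank_top] at h1
    rw [h1, ← h2, Submodule.map_top]; rfl
  have hQ0 : QI ω L (rk a0) ε I0 := ⟨hI0, hI00, hI0min, a0, ha0, rfl⟩
  -- every minimal ideal is in the class
  have hQall : ∀ I, IsMin L I → QI ω L (rk a0) ε I := by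
    intro I hI
    obtain ⟨τ, hτ, h⟩ := hL.min_trans hω hT hS hmul hone ⟨hI0, hI00, hI0min⟩ hI
    obtain ⟨σ, hσ⟩ := (hT τ hτ).semi
    have h1 := hQ0.tw hω hL.sk hε (hT τ hτ) hσ
    have e : imT τ hσ I0 = I := by
      ext y
      rw [mem_imT]
      exact (h y).symm
    rwa [e] at h1
  -- the span of the class
  have hspan : L ≤ Submodule.span K {x | ∃ I, QI ω L (rk a0) ε I ∧ x ∈ I} := by
    have hid : IsId L (Submodule.span K {x | ∃ I, QI ω L (rk a0) ε I ∧ x ∈ I}) := by
      constructor
      · rw [Submodule.span_le]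
        rintro x ⟨I, hI, hx⟩
        exact hI.1.1 hx
      · intro x hx y hy
        refine Submodule.span_induction ?_ ?_ ?_ ?_ hy
        · rintro z ⟨I, hI, hz⟩
          exact Submodule.subset_span ⟨I, hI, hI.1.2 x hx z hz⟩
        · simp
        · intro u v _ _ hu hv
          have e : x * (u + v) - (u + v) * x = (x * u - u * x) + (x * v - v * x) := by
            rw [mul_add, add_mul]; abel
          rw [e]; exact Submodule.add_mem _ hu hv
        · intro c u _ hu
          rw [mul_smul_comm, smul_mul_assoc, ← smul_sub]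
          exact Submodule.smul_mem _ _ hu
    rcases hS _ hid (by
      intro τ hτ y hy
      obtain ⟨σ, hσ⟩ := (hT τ hτ).semi
      refine Submodule.span_induction ?_ ?_ ?_ ?_ hy
      · rintro z ⟨I, hI, hz⟩
        apply Submodule.subset_span
        refine ⟨_, hI.tw hω hL.sk hε (hT τ hτ) hσ, ?_⟩
        rw [mem_imT, RingEquiv.symm_apply_apply]
        exact hz
      · rw [map_zero]; exact Submodule.zero_mem _
      · intro u v _ _ hu hv
        rw [map_add]; exact Submodule.add_mem _ hu hv
      · intro c u _ hu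
        rw [hσ]; exact Submodule.smul_mem _ _ hu) with h | h
    · exfalso
      apply hI00
      rw [eq_bot_iff, ← h]
      intro z hz
      exact Submodule.subset_span ⟨I0, hQ0, hz⟩
    · exact h.ge
  obtain ⟨k, hk⟩ := Dec.exists hL hω hρ hV hspan
  obtain ⟨-, b, hb, hbr⟩ := Dec.main hL hω hρ hV k L hk
  -- the marked element has rank one
  obtain ⟨v, hv⟩ : ∃ v, b v ≠ 0 := by
    by_contra h
    push Not at h
    exact hb.ne (LinearMap.ext h)
  have hone : ∀ w, ∃ c : K, b w = c • b v := by
    intro w
    have htop : orb (alg L) (b v) = ⊤ := by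
      rcases hL.irr (orb (alg L) (b v)) (by
        rintro z hz _ ⟨y, hy, rfl⟩
        exact ⟨z * y, (alg L).mul_mem (le_alg hz) hy, rfl⟩) with h | h
      · exfalso
        have h1 : b v ∈ orb (alg L) (b v) := ⟨1, (alg L).one_mem, rfl⟩
        rw [h, Submodule.mem_bot] at h1
        exact hv h1
      · exact h
    have hw : w ∈ orb (alg L) (b v) := by rw [htop]; trivial
    obtain ⟨y, hy, hyw⟩ := mem_orb.mp hw
    obtain ⟨c, hc⟩ := hb.ext y hy
    refine ⟨c, ?_⟩
    rw [← hyw]
    exact congrArg (fun z : Module.End K V => z v) hc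
  have hrb : rk b = 1 := by
    have e : LinearMap.range b = Submodule.span K {b v} := by
      apply le_antisymm
      · rintro _ ⟨w, rfl⟩
        obtain ⟨c, hc⟩ := hone w
        rw [hc]
        exact Submodule.smul_mem _ _ (Submodule.mem_span_singleton_self _)
      · rw [Submodule.span_singleton_le_iff_mem]
        exact ⟨v, rfl⟩
    unfold rk
    rw [e]
    exact finrank_span_singleton hv
  rw [hrb, one_mul] at hbr
  -- the sign
  have hanti : ∀ u v : V, ω u v = - ω v u := fun u v => (halt.neg_eq v u).symm
  have hsgn : ε ^ k ≠ 1 := by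
    intro h
    have hadj := hb.adj
    rw [h, one_smul] at hadj
    have h0 : ∀ x, ω (b x) x = 0 := by
      intro x
      have h1 := hadj x x
      rw [hanti x] at h1
      have h2 : (2 : K) * ω (b x) x = 0 := by linear_combination h1
      exact (mul_eq_zero.mp h2).resolve_left two_ne_zero
    apply hv
    apply hω.1
    intro y
    by_contra hy
    have h1 := h0 v
    obtain ⟨c, hc⟩ := hone y
    have h2 := h0 y
    rw [hc, map_smul, LinearMap.smul_apply, smul_eq_mul] at h2
    have hc0 : c = 0 := (mul_eq_zero.mp h2).resolve_right hy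
    have h3 := h0 (v + y)
    rw [map_add b, hc, hc0, zero_smul, add_zero, map_add, h1, zero_add] at h3
    exact hy h3
  have hodd : Odd k := by
    rw [← Nat.not_even_iff_odd]
    intro hev
    apply hsgn
    rcases hε with h | h
    · rw [h, one_pow]
    · rw [h]; exact hev.neg_one_pow
  refine ⟨k, d, hodd, hbr.symm, ?_, ?_⟩
  · intro hk1
    subst hk1
    obtain ⟨I', M', hI', hM', -, hLe⟩ := hk
    change M' = ⊥ at hM'
    rw [hM', sup_bot_eq] at hLe
    intro M hM hMi
    by_cases hM0 : M = ⊥
    · exact Or.inl hM0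
    · right
      rw [hLe]
      exact hI'.2.2.1 M (by rw [← hLe]; exact hM) ⟨hM, hMi⟩ hM0
  · intro I hI
    obtain ⟨-, -, -, a, ha, har⟩ := hQall I hI
    refine ⟨a, ha.mem, ha.ne, ha.ext, ?_⟩
    rw [har]
    have hk1 : 1 ≤ k := hodd.pos
    have h3 : d ^ k = rk a0 * d := by rw [hbr, hρ]
    have h4 : d ^ k = d ^ (k - 1) * d := by
      rw [← pow_succ]; congr 1; omega
    rw [h4] at h3
    exact (Nat.eq_of_mul_eq_mul_right hd h3).symm

/-- Conjugation by an invertible operator. -/
def cj (g h : Module.End K V) (hgh : g * h = 1) (hhg : h * g = 1) :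
    Module.End K V ≃+* Module.End K V where
  toFun x := g * x * h
  invFun x := h * x * g
  left_inv x := by
    change h * (g * x * h) * g = x
    calc h * (g * x * h) * g = (h * g) * x * (h * g) := by simp only [mul_assoc]
      _ = x := by rw [hhg, one_mul, mul_one]
  right_inv x := by
    change g * (h * x * g) * h = x
    calc g * (h * x * g) * h = (g * h) * x * (g * h) := by simp only [mul_assoc]
      _ = x := by rw [hgh, one_mul, mul_one]
  map_add' x y := by rw [mul_add, add_mul]
  map_mul' x y := by
    calc g * (x * y) * h = g * x * 1 * y * h := by rw [mul_one]; simp only [mul_assoc]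
      _ = g * x * (h * g) * y * h := by rw [hhg]
      _ = _ := by simp only [mul_assoc]

omit [FiniteDimensional K V] in
lemma cj_apply {g h : Module.End K V} (hgh : g * h = 1) (hhg : h * g = 1)
    (x : Module.End K V) : cj g h hgh hhg x = g * x * h := rfl

omit [FiniteDimensional K V] in
lemma cj_symm_apply {g h : Module.End K V} (hgh : g * h = 1) (hhg : h * g = 1)
    (x : Module.End K V) : (cj g h hgh hhg).symm x = h * x * g := rfl

omit [FiniteDimensional K V] in
lemma cj_semi {g h : Module.End K V} (hgh : g * h = 1) (hhg : h * g = 1) (c : K)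
    (x : Module.End K V) :
    cj g h hgh hhg (c • x) = (RingEquiv.refl K) c • cj g h hgh hhg x := by
  rw [cj_apply, cj_apply, mul_smul_comm, smul_mul_assoc]; rfl

/-- **Small support and minimal ideals.** An operator of small support preserves every minimal
ideal. -/
theorem Ctx.min_stable [IsAlgClosed K] [CharZero K] (hC : Ctx ω L S) {g h : Module.End K V}
    (hgh : g * h = 1) (hhg : h * g = 1) (hL : ∀ x ∈ L, g * x * h ∈ L)
    (hL' : ∀ x ∈ L, h * x * g ∈ L) {c : K} (hc : 4 * rk (g - c • 1) < finrank K V)
    (hI : IsMin L I) {x : Module.End K V} : g * x * h ∈ I ↔ x ∈ I := by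
  have hirr := hC.irr
  have hω := hC.nd
  -- the image is a minimal ideal
  have hmem : ∀ x, cj g h hgh hhg x ∈ L ↔ x ∈ L := by
    intro x
    constructor
    · intro h1
      have h2 := hL' _ h1
      have e : h * cj g h hgh hhg x * g = x := (cj g h hgh hhg).symm_apply_apply x
      rwa [e] at h2
    · exact hL x
  have hI' := hI.im hmem (cj_semi hgh hhg)
  have hmem' : ∀ y, y ∈ imT (cj g h hgh hhg) (cj_semi hgh hhg) I ↔ h * y * g ∈ I :=
    fun y => Iff.rfl
  have key : imT (cj g h hgh hhg) (cj_semi hgh hhg) I = I := by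
    by_contra hne
    have hinf : I ⊓ imT (cj g h hgh hhg) (cj_semi hgh hhg) I = ⊥ := by
      by_contra hb
      exact hne (hI.eq hI' hb).symm
    -- an involution in the ideal
    obtain ⟨s, hsI, hss⟩ : ∃ s ∈ I, s * s = 1 := by
      by_contra hcon
      push Not at hcon
      apply hI.2.1
      have hLo : L ≤ orth L I := by
        apply hC.gen
        · intro a ha b hb
          exact (orth_isId hirr.br hI.1).2 a ha.1 b hb
        · intro s hs
          obtain ⟨hsL, hss⟩ := hC.inv s hs
          exact (hirr.inv_dich hω hI.1 hsL hss).resolve_left (fun h1 => hcon s h1 hss)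
      rw [eq_bot_iff]
      intro x hx
      rw [Submodule.mem_bot]
      exact hirr.inf_orth hω hI.1 hx (hLo (hI.1.1 hx))
    set s' := g * s * h with hs'
    have hs'I : s' ∈ imT (cj g h hgh hhg) (cj_semi hgh hhg) I := by
      rw [hmem', hs']
      have e : h * (g * s * h) * g = s := (cj g h hgh hhg).symm_apply_apply s
      rwa [e]
    have hs'o := hirr.le_orth hω hI.1 hI'.1 hinf hs'I
    have hcomm : s * s' = s' * s := hirr.orth_comm hω hI.1 hsI hs'o
    have htr : LinearMap.trace K V (s' * s) = 0 := hs'o.2 s hsI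
    have hs's' : s' * s' = 1 := by
      calc s' * s' = g * s * (h * g) * s * h := by rw [hs']; simp only [mul_assoc]
        _ = g * (s * s) * h := by rw [hhg, mul_one]; simp only [mul_assoc]
        _ = 1 := by rw [hss, mul_one, hgh]
    -- the idempotent
    set e := (2 : K)⁻¹ • (1 - s' * s) with he
    have hinv : (s' * s) * (s' * s) = 1 := by
      calc s' * s * (s' * s) = s' * (s * s') * s := by simp only [mul_assoc]
        _ = (s' * s') * (s * s) := by rw [hcomm]; simp only [mul_assoc]
        _ = 1 := by rw [hss, hs's', mul_one]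
    have hee : e * e = e := by
      rw [he, smul_mul_assoc, mul_smul_comm, smul_smul]
      have e1 : (1 - s' * s) * (1 - s' * s) = (2 : K) • (1 - s' * s) := by
        rw [sub_mul, mul_sub, mul_sub, one_mul, mul_one, one_mul, hinv]
        module
      rw [e1, smul_smul]
      congr 1
      norm_num
    have hproj : LinearMap.IsProj (LinearMap.range e) e := by
      constructor
      · intro z; exact ⟨z, rfl⟩
      · rintro _ ⟨z, rfl⟩
        exact LinearMap.congr_fun hee z
    have htre := hproj.trace
    have htre' : LinearMap.trace K V e = (2 : K)⁻¹ * finrank K V := by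
      rw [he, map_smul, map_sub, htr, sub_zero, LinearMap.trace_one, smul_eq_mul]
    rw [htre'] at htre
    have hdim : finrank K V = 2 * rk e := by
      have h1 : (finrank K V : K) = 2 * (rk e : K) := by
        have h2 : (2 : K)⁻¹ * finrank K V = (rk e : K) := htre
        rw [← h2, ← mul_assoc, mul_inv_cancel₀ two_ne_zero, one_mul]
      exact_mod_cast h1
    -- the difference
    have hrk := rk_conj_sub_le hgh (c := c) s
    rw [← hs'] at hrk
    have hle : rk e ≤ rk (s' - s) := by
      have e1 : e = ((-(2 : K)⁻¹) • (s' - s)) * s := by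
        rw [smul_mul_assoc, sub_mul, hss, he, neg_smul, ← smul_neg, neg_sub]
      rw [e1]
      refine (rk_mul_le_left _ _).trans ?_
      rw [rk_smul (by simp)]
    omega
  rw [← key, hmem']
  have e : h * (g * x * h) * g = x := (cj g h hgh hhg).symm_apply_apply x
  constructor
  · intro h1
    rw [e] at h1
    rw [key]; exact h1
  · intro h1
    rw [e]
    rw [key] at h1
    exact h1

omit [FiniteDimensional K V] in
lemma alg_cj {g h : Module.End K V} (hgh : g * h = 1) (hhg : h * g = 1)
    (hI : ∀ x ∈ I, g * x * h ∈ I) {y : Module.End K V} (hy : y ∈ alg I) :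
    g * y * h ∈ alg I := by
  unfold alg at hy
  induction hy using Algebra.adjoin_induction with
  | mem x hx => exact le_alg (hI x hx)
  | algebraMap r =>
    have e : g * algebraMap K (Module.End K V) r * h = algebraMap K _ r := by
      rw [Algebra.algebraMap_eq_smul_one, mul_smul_comm, smul_mul_assoc, mul_one, hgh]
    rw [e]; exact Subalgebra.algebraMap_mem _ _
  | add a b _ _ ha hb => rw [mul_add, add_mul]; exact add_mem ha hb
  | mul a b _ _ ha hb =>
    have e : g * (a * b) * h = g * a * h * (g * b * h) :=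
      (cj g h hgh hhg).map_mul a b
    rw [e]; exact mul_mem ha hb

/-- **The main theorem, Lie algebra form.** -/
theorem Ctx.eq_sp_of_supp [IsAlgClosed K] [CharZero K] (hC : Ctx ω L S) (halt : ω.IsAlt)
    {T : Set (Module.End K V ≃+* Module.End K V)} (hT : ∀ τ ∈ T, Tw L τ) (hS : TSmp L T)
    (hmul : ∀ τ ∈ T, ∀ τ' ∈ T, τ'.trans τ ∈ T) (hone : RingEquiv.refl _ ∈ T)
    {g h : Module.End K V} (hgh : g * h = 1) (hhg : h * g = 1) (hL : ∀ x ∈ L, g * x * h ∈ L)
    (hL' : ∀ x ∈ L, h * x * g ∈ L) (hns : ¬ ∃ c : K, g = c • 1) {c : K}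
    (h8 : 8 * rk (g - c • 1) < finrank K V)
    (hno : ∀ k d, Odd k → 3 ≤ k → finrank K V = d ^ k → rk (g - c • 1) < d ^ (k - 1))
    {z : Module.End K V} (hz : IsSk ω z) : z ∈ L := by
  have hirr := hC.irr
  have hω := hC.nd
  -- an element of low rank
  obtain ⟨y, hy, hgy⟩ : ∃ y ∈ L, g * y ≠ y * g := by
    by_contra hcon
    push Not at hcon
    exact hns (hirr.scalar_of_comm hcon)
  have hx : g * y * h - y ∈ L := L.sub_mem (hL y hy) hy
  have hx0 : g * y * h - y ≠ 0 := by
    intro h0
    apply hgy
    have h1 : g * y * h = y := sub_eq_zero.mp h0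
    calc g * y = g * y * (h * g) := by rw [hhg, mul_one]
      _ = (g * y * h) * g := by simp only [mul_assoc]
      _ = _ := by rw [h1]
  have hxr := rk_conj_sub_le hgh (c := c) y
  have hL0 : L ≠ ⊥ := by
    intro hb
    rw [hb, Submodule.mem_bot] at hx
    exact hx0 hx
  obtain ⟨k, d, hodd, hD, hk1, hmarks⟩ := hirr.exact_marks hω halt hT hS hmul hone hL0
  by_cases hk : k = 1
  · obtain ⟨N, hN, hNN, hN0, hNr⟩ := hC.exists_sq_zero hx hx0
    exact hC.eq_sp_of_small halt (hk1 hk) hN hNN hN0 (by omega) hz
  · exfalso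
    have hk3 : 3 ≤ k := by
      obtain ⟨l, hl⟩ := hodd
      omega
    have hsmall := hno k d hodd hk3 hD
    -- `g` commutes with the minimal ideals
    have hcommI : ∀ I, IsMin L I → ∀ w ∈ I, g * w * h = w := by
      intro I hI w hw
      have hst := fun {x} => hC.min_stable hgh hhg hL hL' (c := c) (by omega) hI (x := x)
      have hst1 : ∀ x ∈ I, g * x * h ∈ I := fun x hx => hst.mpr hx
      have hst2 : ∀ x ∈ I, h * x * g ∈ I := by
        intro x hx
        apply hst.mp
        have e : g * (h * x * g) * h = x := (cj g h hgh hhg).apply_symm_apply x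
        rwa [e]
      obtain ⟨a, ha, ha0, hext, har⟩ := hmarks I hI
      have P := hirr.pr (fun x hx y hy => hirr.orth_comm hω hI.1 hx hy)
        (fun z hz => hirr.sup_orth hω hI.1 hz)
      exact P.comm_of_small ha ha0 hext hgh hhg (fun y hy => alg_cj hgh hhg hst1 hy)
        (fun y hy => alg_cj hhg hgh hst2 hy) (c := c) (by rw [har]; exact hsmall) (le_alg hw)
    apply hx0
    apply hirr.zero_of_comm_min hω hx
    intro I hI w hw
    have h1 := hcommI I hI w hw
    have h2 := hcommI I hI _ (hI.1.2 y hy w hw)
    have hwg : g * w = w * g := by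
      calc g * w = g * w * (h * g) := by rw [hhg, mul_one]
        _ = (g * w * h) * g := by simp only [mul_assoc]
        _ = _ := by rw [h1]
    have hwh : w * h = h * w := by
      calc w * h = (h * g) * w * h := by rw [hhg, one_mul]
        _ = h * (g * w * h) := by simp only [mul_assoc]
        _ = _ := by rw [h1]
    have e : g * (y * w - w * y) * h = (g * y * h) * w - w * (g * y * h) := by
      rw [mul_sub, sub_mul]
      have e1 : g * (y * w) * h = g * y * h * w := by
        calc g * (y * w) * h = g * y * (w * h) := by simp only [mul_assoc]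
          _ = _ := by rw [hwh]; simp only [mul_assoc]
      have e2 : g * (w * y) * h = w * (g * y * h) := by
        calc g * (w * y) * h = (g * w) * y * h := by simp only [mul_assoc]
          _ = _ := by rw [hwg]; simp only [mul_assoc]
      rw [e1, e2]
    rw [e] at h2
    rw [mul_sub, sub_mul]
    have h3 : g * y * h * w - w * (g * y * h) - (y * w - w * y) = 0 := by rw [h2, sub_self]
    have h4 : w * (g * y * h) - w * y - (g * y * h * w - y * w) = 0 := by
      have : w * (g * y * h) - w * y - (g * y * h * w - y * w) =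
          -(g * y * h * w - w * (g * y * h) - (y * w - w * y)) := by abel
      rw [this, h3, neg_zero]
    exact sub_eq_zero.mp h4

omit [FiniteDimensional K V] in
lemma idem_inv' {p : Module.End K V} (hp : p * p = p) {t : K} (ht : t ≠ 0) :
    (1 + (t - 1) • p) * (1 + (t⁻¹ - 1) • p) = 1 := by
  simp only [mul_add, add_mul, mul_one, one_mul, smul_mul_assoc, mul_smul_comm, hp]
  have : (t - 1) + (t⁻¹ - 1) + (t - 1) * (t⁻¹ - 1) = 0 := by field_simp; ring
  trans (1 + ((t - 1) + (t⁻¹ - 1) + (t - 1) * (t⁻¹ - 1)) • p)
  · module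
  · rw [this, zero_smul, add_zero]

namespace Str
variable {G : Set (Module.End K V)}
  {T : Set (Module.End K V ≃+* Module.End K V)} {p0 : Module.End K V} (D : Str ω G T p0)
include D

/-- Trichotomy for arbitrary cocharacters. -/
lemma c2' [CharZero K] {p : Module.End K V} (hpp : p * p = p)
    (hp : ∀ t : K, t ≠ 0 → 1 + (t - 1) • p ∈ G) :
    IsSk ω ((2 : K) • p - 1) ∨ p = 0 ∨ p = 1 := by
  obtain ⟨c, hc⟩ := D.sim _ (hp 2 two_ne_zero)
  have e : (1 + ((2 : K) - 1) • p) = 1 + p := by norm_num
  rw [e] at hc
  have h4 := four hpp hc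
  have hnd := D.nd
  by_cases c2 : c = 2
  · left
    intro v w
    obtain ⟨a1, -, -, a4⟩ := h4 v w
    have b1 : ω (p v) (p w) = 0 := by
      rw [c2] at a1; exact (mul_eq_zero.mp a1).resolve_left (by norm_num)
    have b4 : ω (v - p v) (w - p w) = 0 := by
      rw [c2] at a4; exact (mul_eq_zero.mp a4).resolve_left (by norm_num)
    simp only [map_sub, LinearMap.sub_apply, LinearMap.smul_apply, map_smul,
      Module.End.one_apply, smul_eq_mul] at b1 b4 ⊢
    linear_combination 2 * b1 - 2 * b4
  · right
    have b2 : ∀ v w, ω (p v) (w - p w) = 0 := fun v w =>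
      (mul_eq_zero.mp (h4 v w).2.1).resolve_left (sub_ne_zero.mpr c2)
    have b3 : ∀ v w, ω (v - p v) (p w) = 0 := fun v w =>
      (mul_eq_zero.mp (h4 v w).2.2.1).resolve_left (sub_ne_zero.mpr c2)
    by_cases c4 : c = 4
    · right
      apply LinearMap.ext
      intro v
      have b4 : ∀ w, ω (v - p v) (w - p w) = 0 := by
        intro w
        have := (h4 v w).2.2.2
        rw [c4] at this
        exact (mul_eq_zero.mp this).resolve_left (by norm_num)
      have : v - p v = 0 := by
        apply hnd.1
        intro w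
        have e : w = p w + (w - p w) := by abel
        rw [e, map_add, b3, b4, add_zero]
      rw [sub_eq_zero] at this
      exact this.symm
    · left
      apply LinearMap.ext
      intro v
      have b1 : ∀ v w, ω (p v) (p w) = 0 := fun v w =>
        (mul_eq_zero.mp (h4 v w).1).resolve_left (sub_ne_zero.mpr c4)
      have : p v = 0 := by
        apply hnd.1
        intro w
        have e : w = p w + (w - p w) := by abel
        rw [e, map_add, b1, b2, add_zero]
      exact this

/-- The involutions of all cocharacters of `G` are in the Lie algebra. -/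
lemma inv_mem [IsAlgClosed K] [CharZero K] {p : Module.End K V} (hpp : p * p = p)
    (hp : ∀ t : K, t ≠ 0 → 1 + (t - 1) • p ∈ G) (hsk : IsSk ω ((2 : K) • p - 1)) :
    (2 : K) • p - 1 ∈ SL ω G T p0 := by
  have C := D.ctx
  apply C.irr.mem_of_normalize C.nd hsk
  intro x hx
  have h20 : (2 : K) ≠ 0 := two_ne_zero
  have i1 := idem_inv' hpp h20
  have i2 := idem_inv' hpp (inv_ne_zero h20)
  rw [inv_inv] at i2
  have h1 := D.lie_conj (hp 2 two_ne_zero) (hp _ (inv_ne_zero two_ne_zero)) i1 i2 hx
  have h2 := D.lie_conj (hp _ (inv_ne_zero two_ne_zero)) (hp 2 two_ne_zero) i2 i1 hx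
  have h3 := (SL ω G T p0).smul_mem (4 / 3 : K) ((SL ω G T p0).sub_mem h1 h2)
  have e : (4 / 3 : K) • ((1 + ((2 : K) - 1) • p) * x * (1 + ((2 : K)⁻¹ - 1) • p) -
      (1 + ((2 : K)⁻¹ - 1) • p) * x * (1 + ((2 : K) - 1) • p)) =
      ((2 : K) • p - 1) * x - x * ((2 : K) • p - 1) := by
    simp only [add_mul, mul_add, sub_mul, mul_sub, one_mul, mul_one, smul_mul_assoc,
      mul_smul_comm]
    match_scalars <;> norm_num
  rw [e] at h3
  exact h3

/-- Operators normalising `G` normalise the Lie algebra. -/
lemma lie_norm [IsAlgClosed K] [CharZero K] {g h : Module.End K V} (hgh : g * h = 1)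
    (hhg : h * g = 1) (hG : ∀ a ∈ G, g * a * h ∈ G) {x : Module.End K V}
    (hx : x ∈ SL ω G T p0) : g * x * h ∈ SL ω G T p0 := by
  let M : Submodule K (Module.End K V) :=
    { carrier := {x | g * x * h ∈ SL ω G T p0}
      add_mem' := by
        intro x y hx hy
        rw [Set.mem_ofPred_eq] at *
        rw [mul_add, add_mul]; exact Submodule.add_mem _ hx hy
      zero_mem' := by simp
      smul_mem' := by
        intro c x hx
        rw [Set.mem_ofPred_eq] at *
        rw [mul_smul_comm, smul_mul_assoc]; exact Submodule.smul_mem _ _ hx }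
  have : SL ω G T p0 ≤ M := by
    apply lieGen_le
    · intro x hx y hy
      have hx' : g * x * h ∈ SL ω G T p0 := hx
      have hy' : g * y * h ∈ SL ω G T p0 := hy
      have h1 := lieGen_comm hx' hy'
      change g * (x * y - y * x) * h ∈ SL ω G T p0
      have e : g * x * h * (g * y * h) - g * y * h * (g * x * h) = g * (x * y - y * x) * h := by
        calc g * x * h * (g * y * h) - g * y * h * (g * x * h)
            = g * x * (h * g) * y * h - g * y * (h * g) * x * h := by simp only [mul_assoc]
          _ = _ := by rw [hhg, mul_sub, sub_mul]; simp only [mul_one, mul_assoc]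
      rw [e] at h1
      exact h1
    · rintro s ⟨p, hp, hsk, rfl⟩
      change g * ((2 : K) • p - 1) * h ∈ SL ω G T p0
      have e : g * ((2 : K) • p - 1) * h = (2 : K) • (g * p * h) - 1 := by
        rw [mul_sub, sub_mul, mul_one, hgh, mul_smul_comm, smul_mul_assoc]
      rw [e]
      have hpp := D.c1 hp
      have hqq : g * p * h * (g * p * h) = g * p * h := by
        calc g * p * h * (g * p * h) = g * p * (h * g) * p * h := by simp only [mul_assoc]
          _ = g * (p * p) * h := by rw [hhg, mul_one]; simp only [mul_assoc]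
          _ = _ := by rw [hpp]
      have hq : ∀ t : K, t ≠ 0 → 1 + (t - 1) • (g * p * h) ∈ G := by
        intro t ht
        have h1 := hG _ (D.cpt p hp t ht)
        have e1 : g * (1 + (t - 1) • p) * h = 1 + (t - 1) • (g * p * h) := by
          rw [mul_add, add_mul, mul_one, hgh, mul_smul_comm, smul_mul_assoc]
        rwa [e1] at h1
      obtain ⟨k0, k1⟩ := D.sk_ne_zero hsk
      have e2 : p = h * (g * p * h) * g := by
        calc p = (h * g) * p * (h * g) := by rw [hhg, one_mul, mul_one]
          _ = _ := by simp only [mul_assoc]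
      rcases D.c2' hqq hq with h1 | h1 | h1
      · exact D.inv_mem hqq hq h1
      · exfalso
        apply k0
        rw [e2, h1]; simp
      · exfalso
        apply k1
        rw [e2, h1, mul_one, hhg]
  exact this hx

/-- **The group theorem for operators of small support, abstract form.** -/
theorem full_supp [IsAlgClosed K] [CharZero K] {g h : Module.End K V} (hgh : g * h = 1)
    (hhg : h * g = 1) (hG : ∀ a ∈ G, g * a * h ∈ G) (hG' : ∀ a ∈ G, h * a * g ∈ G)
    (hns : ¬ ∃ c : K, g = c • 1) {c : K} (h8 : 8 * MTP.rk (g - c • 1) < finrank K V)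
    (hno : ∀ k d, Odd k → 3 ≤ k → finrank K V = d ^ k → MTP.rk (g - c • 1) < d ^ (k - 1))
    {z : Module.End K V} (hz : IsSk ω z) : z ∈ SL ω G T p0 :=
  D.ctx.eq_sp_of_supp D.alt (fun τ hτ => D.isTw hτ) D.tsmp D.tmul D.tone hgh hhg
    (fun x hx => D.lie_norm hgh hhg hG hx) (fun x hx => D.lie_norm hhg hgh hG' hx) hns h8 hno hz

end Str

end MTP
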