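import Pool.Agent.Helper93.SR.Defs

/-!
Invertible matrices normalising a group and differing little from a scalar on a subspace.
-/

open Module

namespace MTPairs

variable {K : Type*} [Field K] {m : Type*} [Fintype m] [DecidableEq m]

/-- The invertible matrix `g` normalises the group `G` and maps the subspace `U` to itself; it
does not act on `U` as a scalar, but for some scalar `c` the matrix `g - c` has rank at most `r`
on `U`. -/
structure HasSmallSupport (G : Subgroup (Matrix.GeneralLinearGroup m K))
    (g : Matrix.GeneralLinearGroup m K) (U : Submodule K (m → K)) (r : ℕ) : Prop where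
  norm : ∀ h, g * h * g⁻¹ ∈ G ↔ h ∈ G
  maps : ∀ v ∈ U, (g : Matrix m m K).mulVec v ∈ U
  ne : ¬ ∃ c : K, ∀ v ∈ U, (g : Matrix m m K).mulVec v = c • v
  rank : ∃ c : K, finrank K (U.map ((g : Matrix m m K) - c • 1).mulVecLin) ≤ r

end MTPairs
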