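import Pool.Agent.Helper93.SR.Supp2
import Pool.Agent.Helper93.SR.SuppDefs
import Pool.Agent.Helper93.SR.Fin

/-!
Operators of small support normalising a strong Mumford-Tate pair: the exact criterion.
-/

set_option linter.unusedSimpArgs false
set_option linter.unusedSectionVars false

open Module MTPairs Matrix

namespace MTP

variable {K : Type*} [Field K] {m : Type*} [Fintype m] [DecidableEq m]
  {ι : Type*} [Fintype ι] [DecidableEq ι] {W : ι → Submodule K (m → K)}
  {Γ : Subgroup (Equiv.Perm (m → K))} {J : Matrix m m K}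
  {G : Subgroup (Matrix.GeneralLinearGroup m K)} {π : Matrix m m K}

/-- The inverse maps the subspace to itself. -/
lemma supp_maps_inv {g : Matrix.GeneralLinearGroup m K} {U : Submodule K (m → K)}
    {r : ℕ} (hg : HasSmallSupport G g U r) :
    ∀ v ∈ U, ((g⁻¹ : Matrix.GeneralLinearGroup m K) : Matrix m m K).mulVec v ∈ U := by
  intro v hv
  have hinj : Function.Injective (g : Matrix m m K).mulVecLin := by
    intro x y hxy
    have h1 := congrArg ((g⁻¹ : Matrix.GeneralLinearGroup m K) : Matrix m m K).mulVec hxy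
    simp only [Matrix.mulVecLin_apply, Matrix.mulVec_mulVec] at h1
    rwa [GL_inv_mul, Matrix.one_mulVec, Matrix.one_mulVec] at h1
  have h1 : U.map (g : Matrix m m K).mulVecLin = U := by
    apply Submodule.eq_of_le_of_finrank_le
    · rintro _ ⟨w, hw, rfl⟩
      exact hg.maps w hw
    · rw [LinearEquiv.finrank_eq (Submodule.equivMapOfInjective _ hinj U)]
  rw [← h1] at hv
  obtain ⟨w, hw, rfl⟩ := hv
  rw [Matrix.mulVecLin_apply, Matrix.mulVec_mulVec, GL_inv_mul, Matrix.one_mulVec]
  exact hw

/-- **The group theorem for operators of small support.** -/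
theorem isFull_of_supp [IsAlgClosed K] [CharZero K] (D : IsStrongMTPair Γ J G π)
    (hW : IsSplit J G W) (hR : IsStable Γ W)
    (hq : ∀ j, ∃ g r, HasSmallSupport G g (W j) r ∧ 8 * r < finrank K (W j) ∧
      ∀ k d, Odd k → 3 ≤ k → finrank K (W j) = d ^ k → r < d ^ (k - 1)) :
    IsFull J G W := by
  apply isFull_of_core D hW hR
  · intro j hj
    obtain ⟨g, r, -, h1, -⟩ := hq j
    rw [hj, finrank_bot] at h1
    omega
  · intro j p0 S z hz
    obtain ⟨g, r, hg, h8, hno⟩ := hq j
    obtain ⟨a, ha⟩ := exists_res hg.maps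
    obtain ⟨b, hb⟩ := exists_res (supp_maps_inv hg)
    have hab : a * b = 1 := by
      have h1 := ha.mul hb
      rw [GL_mul_inv] at h1
      exact h1.unique Res.one
    have hba : b * a = 1 := by
      have h1 := hb.mul ha
      rw [GL_inv_mul] at h1
      exact h1.unique Res.one
    obtain ⟨c, hc⟩ := hg.rank
    have hrk : MTP.rk (a - c • 1) ≤ r := by
      refine le_trans (le_of_eq ?_) hc
      have hres := ha.sub ((Res.one (U := W j)).smul c)
      have e : (W j).map ((g : Matrix m m K) - c • 1).mulVecLin =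
          (LinearMap.range (a - c • (1 : Module.End K (W j)))).map (W j).subtype := by
        apply le_antisymm
        · rintro _ ⟨v, hv, rfl⟩
          exact ⟨(a - c • 1) ⟨v, hv⟩, ⟨_, rfl⟩, hres ⟨v, hv⟩⟩
        · rintro _ ⟨_, ⟨v, rfl⟩, rfl⟩
          exact ⟨v, v.2, (hres v).symm⟩
      rw [e, Submodule.finrank_map_subtype_eq]
      rfl
    refine S.full_supp hab hba ?_ ?_ ?_ (c := c) (by omega) (fun k d h1 h2 h3 =>
      lt_of_le_of_lt hrk (hno k d h1 h2 h3)) hz
    · rintro x ⟨h, hh, hx⟩
      exact ⟨g * h * g⁻¹, (hg.norm h).mpr hh, (ha.mul hx).mul hb⟩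
    · rintro x ⟨h, hh, hx⟩
      refine ⟨g⁻¹ * h * g, ?_, (hb.mul hx).mul ha⟩
      rw [← hg.norm]
      have e : g * (g⁻¹ * h * g) * g⁻¹ = h := by group
      rwa [e]
    · rintro ⟨t, ht⟩
      apply hg.ne
      refine ⟨t, fun v hv => ?_⟩
      have h1 := ha ⟨v, hv⟩
      rw [ht] at h1
      exact h1.symm

lemma hasSmallSupport_of_quad [CharZero K] {u : Matrix.GeneralLinearGroup m K} (hu : u ∈ G)
    {U : Submodule K (m → K)} (hU : ∀ v ∈ U, (u : Matrix m m K).mulVec v ∈ U) {r : ℕ}
    (hq : IsQuadraticOn u U r) (hr : 0 < r) {r' : ℕ} (hrr : r ≤ r') :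
    HasSmallSupport G u U r' where
  norm := by
    intro h
    constructor
    · intro h1
      have h2 := G.mul_mem (G.mul_mem (G.inv_mem hu) h1) hu
      have e : u⁻¹ * (u * h * u⁻¹) * u = h := by group
      rwa [e] at h2
    · intro h1
      exact G.mul_mem (G.mul_mem hu h1) (G.inv_mem hu)
  maps := hU
  ne := by
    rintro ⟨c, hc⟩
    obtain ⟨hq1, hq2⟩ := hq
    have h1 : ∀ v ∈ U, ((u : Matrix m m K) - 1).mulVec v = (c - 1) • v := by
      intro v hv
      rw [Matrix.sub_mulVec, Matrix.one_mulVec, hc v hv, sub_smul, one_smul]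
    -- the subspace is nonzero
    obtain ⟨v, hv, hv0⟩ : ∃ v ∈ U, ((u : Matrix m m K) - 1).mulVec v ≠ 0 := by
      by_contra hcon
      push Not at hcon
      have h2 : U.map ((u : Matrix m m K) - 1).mulVecLin = ⊥ := by
        rw [eq_bot_iff]
        rintro _ ⟨v, hv, rfl⟩
        rw [Submodule.mem_bot]
        exact hcon v hv
      rw [h2, finrank_bot] at hq2
      omega
    have h3 := hq1 v hv
    rw [h1 v hv, Matrix.mulVec_smul, h1 v hv, smul_smul] at h3
    rcases smul_eq_zero.mp h3 with h4 | h4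
    · apply hv0
      rw [h1 v hv, mul_self_eq_zero.mp h4, zero_smul]
    · apply hv0
      rw [h4, Matrix.mulVec_zero]
  rank := ⟨1, by rw [one_smul]; exact hq.2.le.trans hrr⟩

/-- **The exact criterion for operators of small support.** -/
theorem supp_criterion {K : Type*} [Field K] [IsAlgClosed K] [CharZero K] (R : Set (ℕ × ℕ))
    (hR : ∀ r D, (r, D) ∈ R → 8 * r < D) :
    (∀ (m ι : Type) [Fintype m] [DecidableEq m] [Fintype ι] [DecidableEq ι]
      (Γ : Subgroup (Equiv.Perm (m → K))) (J : Matrix m m K)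
      (G : Subgroup (Matrix.GeneralLinearGroup m K)) (π : Matrix m m K)
      (W : ι → Submodule K (m → K)), IsStrongMTPair Γ J G π → IsSplit J G W → IsStable Γ W →
      (∀ j, ∃ g r, HasSmallSupport G g (W j) r ∧ (r, finrank K (W j)) ∈ R) → IsFull J G W) ↔
    ∀ r d k, Even d → Odd k → 3 ≤ k → (r, d ^ k) ∈ R → r < d ^ (k - 1) := by
  constructor
  · rintro h r d k ⟨n, rfl⟩ hk hk3 hmem
    by_contra hcon
    push Not at hcon
    have h8 := hR _ _ hmem
    have hn : 1 ≤ n := by
      rcases Nat.eq_zero_or_pos n with rfl | h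
      · exfalso
        rw [add_zero, Nat.zero_pow (by omega)] at h8
        omega
      · exact h
    obtain ⟨Γ, J, G, π, h1, h2, ⟨u, hu, hq⟩, h5, h6⟩ :=
      exists_strong_ex K hk hk3 one_pos hn
    apply h5
    apply h _ _ Γ J G π _ h1 h2
    · intro θ _ j v _
      trivial
    · intro j
      refine ⟨u, r, hasSmallSupport_of_quad hu (fun _ _ => Submodule.mem_top) hq ?_ ?_, ?_⟩
      · rw [one_mul]
        exact Nat.pow_pos (by omega)
      · rw [one_mul, two_mul]
        exact hcon
      · rw [h6, two_mul]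
        exact hmem
  · intro hex m ι _ _ _ _ Γ J G π W D hW hΓ hq
    apply isFull_of_supp D hW hΓ
    intro j
    obtain ⟨g, r, hg, hmem⟩ := hq j
    refine ⟨g, r, hg, hR _ _ hmem, ?_⟩
    intro k d hk hk3 hd
    rw [hd] at hmem
    refine hex r d k ?_ hk hk3 hmem
    have hev : Even (finrank K (W j)) :=
      even_finrank_of_alt (form_nd D.skew D.det hW.internal hW.orth j) (form_alt D.skew j)
    rw [hd] at hev
    exact (Nat.even_pow.mp hev).1

end MTP
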