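import Pool.Agent.Helper93.SR.NormC
import Pool.Agent.Helper21.MT.Sharp2

/-!
Tensor powers of matrices.
-/

set_option linter.unusedSimpArgs false
set_option linter.unusedSectionVars false

open Module MTPairs

namespace MTP

variable {K : Type*} [Field K] {E : Type*} [Fintype E] [DecidableEq E] {k : ℕ}

/-- The tensor product of the matrices `A i`. -/
def Tn (A : Fin k → Matrix E E K) : Matrix (Fin k → E) (Fin k → E) K :=
  fun x y => ∏ i, A i (x i) (y i)

lemma Tn_mul (A B : Fin k → Matrix E E K) : Tn A * Tn B = Tn (fun i => A i * B i) := by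
  ext x y
  rw [Matrix.mul_apply]
  simp only [Tn, Matrix.mul_apply]
  rw [Finset.prod_univ_sum, Fintype.piFinset_univ]
  apply Finset.sum_congr rfl
  intro z _
  rw [← Finset.prod_mul_distrib]

lemma Tn_transpose (A : Fin k → Matrix E E K) :
    (Tn A).transpose = Tn (fun i => (A i).transpose) := by
  ext x y
  rfl

lemma Tn_one : Tn (fun _ : Fin k => (1 : Matrix E E K)) = 1 := by
  ext x y
  simp only [Tn, Matrix.one_apply]
  by_cases h : x = y
  · subst h; simp
  · rw [if_neg h]
    obtain ⟨i, hi⟩ := Function.ne_iff.mp h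
    exact Finset.prod_eq_zero (Finset.mem_univ i) (by rw [if_neg hi])

lemma Tn_update (A : Fin k → Matrix E E K) (j : Fin k) (Z : Matrix E E K) (x y : Fin k → E) :
    Tn (Function.update A j Z) x y =
      Z (x j) (y j) * ∏ i ∈ Finset.univ \ {j}, A i (x i) (y i) := by
  have h : ∀ i, Function.update A j Z i (x i) (y i) =
      Function.update (fun i => A i (x i) (y i)) j (Z (x j) (y j)) i := by
    intro i
    by_cases hi : i = j
    · subst hi; simp
    · simp [hi]
  simp only [Tn, h]
  exact Finset.prod_update_of_mem (Finset.mem_univ j) _ _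

lemma Tn_update_add (A : Fin k → Matrix E E K) (j : Fin k) (X Y : Matrix E E K) :
    Tn (Function.update A j (X + Y)) = Tn (Function.update A j X) +
      Tn (Function.update A j Y) := by
  ext x y
  rw [Matrix.add_apply, Tn_update, Tn_update, Tn_update, Matrix.add_apply, add_mul]

lemma Tn_update_smul (A : Fin k → Matrix E E K) (j : Fin k) (c : K) (X : Matrix E E K) :
    Tn (Function.update A j (c • X)) = c • Tn (Function.update A j X) := by
  ext x y
  rw [Matrix.smul_apply, Tn_update, Tn_update, Matrix.smul_apply, smul_eq_mul, smul_eq_mul,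
    mul_assoc]

/-- The matrix `X` acting on the tensor factor `j`. -/
def loc (j : Fin k) (X : Matrix E E K) : Matrix (Fin k → E) (Fin k → E) K :=
  Tn (Function.update (fun _ => 1) j X)

lemma loc_add (j : Fin k) (X Y : Matrix E E K) : loc j (X + Y) = loc j X + loc j Y :=
  Tn_update_add _ _ _ _

lemma loc_smul (j : Fin k) (c : K) (X : Matrix E E K) : loc j (c • X) = c • loc j X :=
  Tn_update_smul _ _ _ _

lemma loc_mul (j : Fin k) (X Y : Matrix E E K) : loc j (X * Y) = loc j X * loc j Y := by
  rw [loc, loc, loc, Tn_mul]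
  congr 1
  funext i
  by_cases hi : i = j
  · subst hi; simp
  · simp [hi]

lemma loc_one (j : Fin k) : loc j (1 : Matrix E E K) = 1 := by
  rw [loc, ← Tn_one]
  congr 1
  funext i
  by_cases hi : i = j
  · subst hi; simp
  · simp [hi]

/-- `loc` as a linear map. -/
def locL (K : Type*) [Field K] (E : Type*) [Fintype E] [DecidableEq E] {k : ℕ} (j : Fin k) :
    Matrix E E K →ₗ[K] Matrix (Fin k → E) (Fin k → E) K where
  toFun := loc j
  map_add' := loc_add j
  map_smul' := loc_smul j

lemma loc_sub (j : Fin k) (X Y : Matrix E E K) : loc j (X - Y) = loc j X - loc j Y :=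
  map_sub (locL K E j) X Y

lemma loc_zero (j : Fin k) : loc j (0 : Matrix E E K) = 0 := map_zero (locL K E j)

lemma loc_comm {i j : Fin k} (h : i ≠ j) (X Y : Matrix E E K) :
    loc i X * loc j Y = loc j Y * loc i X := by
  rw [loc, loc, Tn_mul, Tn_mul]
  congr 1
  funext l
  by_cases hi : l = i
  · subst hi; simp [h]
  · by_cases hj : l = j
    · subst hj; simp [hi]
    · simp [hi, hj]

lemma loc_apply (j : Fin k) (X : Matrix E E K) (x y : Fin k → E) :
    loc j X x y = X (x j) (y j) * (if ∀ i, i ≠ j → x i = y i then 1 else 0) := by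
  rw [loc, Tn_update]
  congr 1
  split_ifs with h
  · apply Finset.prod_eq_one
    intro i hi
    have hi' : i ≠ j := by simpa using hi
    rw [h i hi', Matrix.one_apply_eq]
  · push Not at h
    obtain ⟨i, hi, hxy⟩ := h
    apply Finset.prod_eq_zero (i := i)
    · simp [hi]
    · rw [Matrix.one_apply_ne hxy]

/-- A set of matrices closed under products and containing the local matrices contains the
tensor products. -/
lemma Tn_mem {P : Matrix (Fin k → E) (Fin k → E) K → Prop} (h1 : P 1)
    (hmul : ∀ A B, P A → P B → P (A * B)) (hloc : ∀ j X, P (loc j X))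
    (A : Fin k → Matrix E E K) : P (Tn A) := by
  have key : ∀ s : Finset (Fin k), P (Tn (fun i => if i ∈ s then A i else 1)) := by
    intro s
    induction s using Finset.induction_on with
    | empty => simpa [Tn_one] using h1
    | insert a s ha ih =>
      have e : Tn (fun i => if i ∈ insert a s then A i else 1) =
          loc a (A a) * Tn (fun i => if i ∈ s then A i else 1) := by
        rw [loc, Tn_mul]
        congr 1
        funext i
        by_cases hi : i = a
        · subst hi; simp [ha]
        · simp [hi]
      rw [e]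
      exact hmul _ _ (hloc _ _) ih
  have := key Finset.univ
  simpa using this

lemma single_eq_Tn (x y : Fin k → E) :
    Matrix.single x y (1 : K) = Tn (fun i => Matrix.single (x i) (y i) (1 : K)) := by
  ext a b
  simp only [Tn, Matrix.single_apply]
  by_cases h : x = a ∧ y = b
  · obtain ⟨rfl, rfl⟩ := h
    simp
  · rw [if_neg h]
    symm
    rw [not_and_or] at h
    rcases h with h | h
    · obtain ⟨i, hi⟩ := Function.ne_iff.mp h
      exact Finset.prod_eq_zero (Finset.mem_univ i) (by rw [if_neg (fun hh => hi hh.1)])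
    · obtain ⟨i, hi⟩ := Function.ne_iff.mp h
      exact Finset.prod_eq_zero (Finset.mem_univ i) (by rw [if_neg (fun hh => hi hh.2)])

/-- Permutation of the tensor factors. -/
lemma loc_submatrix (σ : Equiv.Perm (Fin k)) (j : Fin k) (X : Matrix E E K) :
    (loc j X).submatrix (fun x => x ∘ σ) (fun x => x ∘ σ) = loc (σ j) X := by
  ext x y
  rw [Matrix.submatrix_apply, loc_apply, loc_apply]
  congr 1
  apply if_congr _ rfl rfl
  constructor
  · intro h i hi
    have := h (σ.symm i) (by
      intro h'
      apply hi
      rw [← h', Equiv.apply_symm_apply])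
    simpa using this
  · intro h i hi
    exact h (σ i) (fun h' => hi (σ.injective h'))

/-- The form on the tensor power. -/
def Jt (k : ℕ) (J : Matrix E E K) : Matrix (Fin k → E) (Fin k → E) K := Tn (fun _ => J)

lemma Jt_transpose {J : Matrix E E K} (hJ : J.transpose = -J) (hk : Odd k) :
    (Jt k J).transpose = - Jt k J := by
  rw [Jt, Tn_transpose]
  ext x y
  simp only [Tn, hJ, Matrix.neg_apply, Finset.prod_neg, Finset.card_univ, Fintype.card_fin,
    hk.neg_one_pow, neg_one_mul]

lemma Jt_det {J : Matrix E E K} {c : K} (hc : c ≠ 0) (hJ : J * J = c • 1) :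
    (Jt k J).det ≠ 0 := by
  have h : Jt k J * Jt k J = (c ^ k) • 1 := by
    rw [Jt, Tn_mul, ← Tn_one]
    ext x y
    simp only [Tn, hJ, Matrix.smul_apply, smul_eq_mul, Finset.prod_mul_distrib,
      Finset.prod_const, Finset.card_univ, Fintype.card_fin]
  intro h0
  have h1 := congrArg Matrix.det h
  rw [Matrix.det_mul, h0, zero_mul, Matrix.det_smul, Matrix.det_one, mul_one] at h1
  exact pow_ne_zero _ (pow_ne_zero _ hc) h1.symm

lemma loc_transpose (j : Fin k) (X : Matrix E E K) : (loc j X).transpose = loc j X.transpose := by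
  rw [loc, Tn_transpose, loc]
  congr 1
  funext i
  by_cases hi : i = j
  · subst hi; simp
  · simp [hi]

lemma loc_lag {J X : Matrix E E K} (h : X ∈ LagSet J) (j : Fin k) : loc j X ∈ LagSet (Jt k J) := by
  obtain ⟨h1, h2⟩ := h
  refine ⟨by rw [← loc_mul, h1], ?_⟩
  have e1 : (loc j X).transpose * Jt k J =
      Tn (Function.update (fun _ => J) j (X.transpose * J)) := by
    rw [loc_transpose, loc, Jt, Tn_mul]
    congr 1
    funext i
    by_cases hi : i = j
    · subst hi; simp
    · simp [hi]
  have e2 : Jt k J * loc j X = Tn (Function.update (fun _ => J) j (J * X)) := by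
    rw [loc, Jt, Tn_mul]
    congr 1
    funext i
    by_cases hi : i = j
    · subst hi; simp
    · simp [hi]
  rw [e1, e2, ← Tn_update_add, h2]
  rw [Jt]
  congr 1
  exact Function.update_eq_self j (fun _ => J)

end MTP
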