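import Pool.Agent.Helper93.SR.Ten2

/-!
The example: the strong Mumford-Tate pair given by a tensor power of the standard
representation of the symplectic group.
-/

set_option linter.unusedSimpArgs false
set_option linter.unusedSectionVars false

open Module MTPairs

namespace MTP

variable {K : Type*} [Field K] {n k : ℕ}

/-- The index set. -/
abbrev Ix (n k : ℕ) : Type := Fin k → (Fin 2 × Fin n)

/-- The local Lagrangian idempotents. -/
def Lam0 (K : Type*) [Field K] (n k : ℕ) : Set (Matrix (Ix n k) (Ix n k) K) :=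
  {P | ∃ (j : Fin k) (X : Matrix (Fin 2 × Fin n) (Fin 2 × Fin n) K),
    X ∈ LagSet (J1 K n) ∧ P = loc j X}

/-- The group of linear automorphisms permuting the local Lagrangian idempotents. -/
def NG (K : Type*) [Field K] (n k : ℕ) : Subgroup (Matrix.GeneralLinearGroup (Ix n k) K) where
  carrier := {h | ∀ P ∈ Lam0 K n k, (h : Matrix (Ix n k) (Ix n k) K) * P *
      ((h⁻¹ : Matrix.GeneralLinearGroup (Ix n k) K) : Matrix (Ix n k) (Ix n k) K) ∈ Lam0 K n k ∧
    ((h⁻¹ : Matrix.GeneralLinearGroup (Ix n k) K) : Matrix (Ix n k) (Ix n k) K) * P *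
      (h : Matrix (Ix n k) (Ix n k) K) ∈ Lam0 K n k}
  one_mem' := by
    intro P hP
    simpa using hP
  mul_mem' := by
    rintro g h hg hh P hP
    constructor
    · have := (hg _ (hh P hP).1).1
      rw [mul_inv_rev, Units.val_mul, Units.val_mul]
      simpa only [mul_assoc] using this
    · have := (hh _ (hg P hP).2).2
      rw [mul_inv_rev, Units.val_mul, Units.val_mul]
      simpa only [mul_assoc] using this
  inv_mem' := by
    rintro g hg P hP
    rw [inv_inv]
    exact ⟨(hg P hP).2, (hg P hP).1⟩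

/-- The group `Γ`. -/
def GamT (K : Type*) [Field K] (n k : ℕ) : Subgroup (Equiv.Perm (Ix n k → K)) where
  carrier := {θ | ∃ h ∈ NG K n k, ∀ v, θ v = (h : Matrix (Ix n k) (Ix n k) K).mulVec v}
  one_mem' := ⟨1, Subgroup.one_mem _, fun v => by simp⟩
  mul_mem' := by
    rintro θ θ' ⟨h, hh, h1⟩ ⟨h', hh', h2⟩
    refine ⟨h * h', Subgroup.mul_mem _ hh hh', fun v => ?_⟩
    rw [Equiv.Perm.mul_apply, h1, h2, Matrix.mulVec_mulVec, Units.val_mul]
  inv_mem' := by
    rintro θ ⟨h, hh, h1⟩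
    refine ⟨h⁻¹, Subgroup.inv_mem _ hh, fun v => ?_⟩
    apply θ.injective
    rw [perm_apply_inv, h1, Matrix.mulVec_mulVec, GL_mul_inv, Matrix.one_mulVec]

/-- The conjugates of the local idempotent. -/
def Lam (K : Type*) [Field K] (n k : ℕ) : Set (Matrix (Ix n (k + 1)) (Ix n (k + 1)) K) :=
  {P | ∃ h ∈ NG K n (k + 1), P = (h : Matrix (Ix n (k + 1)) (Ix n (k + 1)) K) *
    loc 0 (X0 K n) * ((h⁻¹ : Matrix.GeneralLinearGroup (Ix n (k + 1)) K) :
      Matrix (Ix n (k + 1)) (Ix n (k + 1)) K)}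

lemma Lam_sub {P : Matrix (Ix n (k + 1)) (Ix n (k + 1)) K} (hP : P ∈ Lam K n k) :
    P ∈ Lam0 K n (k + 1) := by
  obtain ⟨h, hh, rfl⟩ := hP
  exact (hh _ ⟨0, X0 K n, X0_lag, rfl⟩).1

lemma Lam0_lag {P : Matrix (Ix n k) (Ix n k) K} (hP : P ∈ Lam0 K n k) :
    P ∈ LagSet (Jt k (J1 K n)) := by
  obtain ⟨j, X, hX, rfl⟩ := hP
  exact loc_lag hX j

lemma Lam_conj {P : Matrix (Ix n (k + 1)) (Ix n (k + 1)) K} (hP : P ∈ Lam K n k)
    {h : Matrix.GeneralLinearGroup (Ix n (k + 1)) K} (hh : h ∈ NG K n (k + 1)) :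
    (h : Matrix (Ix n (k + 1)) (Ix n (k + 1)) K) * P *
      ((h⁻¹ : Matrix.GeneralLinearGroup (Ix n (k + 1)) K) :
        Matrix (Ix n (k + 1)) (Ix n (k + 1)) K) ∈ Lam K n k := by
  obtain ⟨h', hh', rfl⟩ := hP
  refine ⟨h * h', Subgroup.mul_mem _ hh hh', ?_⟩
  rw [mul_inv_rev, Units.val_mul, Units.val_mul]
  simp only [mul_assoc]

/-- Local isometries. -/
def locG (j : Fin k) {A B : Matrix (Fin 2 × Fin n) (Fin 2 × Fin n) K} (hAB : A * B = 1)
    (hBA : B * A = 1) : Matrix.GeneralLinearGroup (Ix n k) K :=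
  ⟨loc j A, loc j B, by rw [← loc_mul, hAB, loc_one], by rw [← loc_mul, hBA, loc_one]⟩

lemma locG_mem (j : Fin k) {A B : Matrix (Fin 2 × Fin n) (Fin 2 × Fin n) K} (hAB : A * B = 1)
    (hBA : B * A = 1) (hA : A.transpose * J1 K n * A = J1 K n) :
    locG j hAB hBA ∈ NG K n k := by
  have key : ∀ {A B : Matrix (Fin 2 × Fin n) (Fin 2 × Fin n) K}, A * B = 1 → B * A = 1 →
      A.transpose * J1 K n * A = J1 K n → ∀ P ∈ Lam0 K n k, loc j A * P * loc j B ∈
        Lam0 K n k := by
    rintro A B hAB hBA hA P ⟨i, X, hX, rfl⟩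
    by_cases hij : i = j
    · subst hij
      exact ⟨i, A * X * B, lag_isom hAB hBA hA hX, by rw [loc_mul, loc_mul]⟩
    · refine ⟨i, X, hX, ?_⟩
      rw [← loc_comm hij, mul_assoc, ← loc_mul, hAB, loc_one, mul_one]
  intro P hP
  exact ⟨key hAB hBA hA P hP, key hBA hAB (isom_inv hAB hA) P hP⟩

/-- Reindexing by a permutation of the factors. -/
def eσ (n : ℕ) {k : ℕ} (σ : Equiv.Perm (Fin k)) : Ix n k ≃ Ix n k where
  toFun := fun x => x ∘ σ
  invFun := fun x => x ∘ σ.symm
  left_inv := by intro x; funext i; simp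
  right_inv := by intro x; funext i; simp

/-- Permutations of the factors. -/
def permG (K : Type*) [Field K] (n : ℕ) {k : ℕ} (σ : Equiv.Perm (Fin k)) :
    Matrix.GeneralLinearGroup (Ix n k) K :=
  ⟨(1 : Matrix (Ix n k) (Ix n k) K).submatrix (eσ n σ) (Equiv.refl _),
    (1 : Matrix (Ix n k) (Ix n k) K).submatrix (Equiv.refl _) (eσ n σ), by
      rw [Matrix.submatrix_mul_equiv, one_mul, Matrix.submatrix_one_equiv], by
      rw [Matrix.submatrix_mul_equiv, one_mul, Matrix.submatrix_one_equiv]⟩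

lemma permG_conj (σ : Equiv.Perm (Fin k)) (P : Matrix (Ix n k) (Ix n k) K) :
    (permG K n σ : Matrix (Ix n k) (Ix n k) K) * P *
      (((permG K n σ)⁻¹ : Matrix.GeneralLinearGroup (Ix n k) K) :
        Matrix (Ix n k) (Ix n k) K) = P.submatrix (eσ n σ) (eσ n σ) := by
  have h : P = P.submatrix (Equiv.refl _) (Equiv.refl _) := by simp
  nth_rewrite 1 [h]
  change (1 : Matrix (Ix n k) (Ix n k) K).submatrix (eσ n σ) (Equiv.refl _) * _ *
    (1 : Matrix (Ix n k) (Ix n k) K).submatrix (Equiv.refl _) (eσ n σ) = _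
  rw [Matrix.submatrix_mul_equiv, one_mul, Matrix.submatrix_mul_equiv, mul_one]

lemma permG_conj' (σ : Equiv.Perm (Fin k)) (P : Matrix (Ix n k) (Ix n k) K) :
    (((permG K n σ)⁻¹ : Matrix.GeneralLinearGroup (Ix n k) K) :
        Matrix (Ix n k) (Ix n k) K) * P * (permG K n σ : Matrix (Ix n k) (Ix n k) K) =
      P.submatrix (eσ n σ⁻¹) (eσ n σ⁻¹) := by
  have h : P = (P.submatrix (eσ n σ⁻¹) (eσ n σ⁻¹)).submatrix (eσ n σ) (eσ n σ) := by
    ext x y
    simp [eσ, Function.comp_assoc]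
  have h2 := permG_conj σ (P.submatrix (eσ n σ⁻¹) (eσ n σ⁻¹))
  rw [← h] at h2
  generalize P.submatrix (eσ n σ⁻¹) (eσ n σ⁻¹) = Q at h2 ⊢
  rw [← h2, ← mul_assoc, ← mul_assoc, GL_inv_mul, one_mul, mul_assoc, GL_inv_mul, mul_one]

lemma permG_loc (σ : Equiv.Perm (Fin k)) (j : Fin k)
    (X : Matrix (Fin 2 × Fin n) (Fin 2 × Fin n) K) :
    (loc j X).submatrix (eσ n σ) (eσ n σ) = loc (σ j) X := loc_submatrix σ j X

lemma permG_mem (σ : Equiv.Perm (Fin k)) : permG K n σ ∈ NG K n k := by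
  rintro _ ⟨j, X, hX, rfl⟩
  rw [permG_conj, permG_conj', permG_loc, permG_loc]
  exact ⟨⟨_, X, hX, rfl⟩, ⟨_, X, hX, rfl⟩⟩

lemma loc_X0_mem (j : Fin (k + 1)) : loc j (X0 K n) ∈ Lam K n k := by
  refine ⟨permG K n (Equiv.swap 0 j), permG_mem _, ?_⟩
  rw [permG_conj, permG_loc, Equiv.swap_apply_left]

lemma loc_conj_mem {A B : Matrix (Fin 2 × Fin n) (Fin 2 × Fin n) K} (hAB : A * B = 1)
    (hBA : B * A = 1) (hA : A.transpose * J1 K n * A = J1 K n) (j : Fin (k + 1)) :
    loc j (A * X0 K n * B) ∈ Lam K n k := by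
  have h := Lam_conj (loc_X0_mem (K := K) (n := n) (k := k) j) (locG_mem j hAB hBA hA)
  rw [loc_mul, loc_mul]
  exact h

lemma loc_Up_mem {S : Matrix (Fin n) (Fin n) K} (hS : S.transpose = S) (j : Fin (k + 1)) :
    loc j (X0 K n - Up S) ∈ Lam K n k := by
  rw [← conj_Up]
  exact loc_conj_mem (one_add_mul (Up_sq S)) (one_sub_mul (Up_sq S))
    (isom_one_add (Up_sq S) (Up_sp hS)) j

lemma loc_Lw_mem {S : Matrix (Fin n) (Fin n) K} (hS : S.transpose = S) (j : Fin (k + 1)) :
    loc j (X0 K n + Lw S) ∈ Lam K n k := by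
  rw [← conj_Lw]
  exact loc_conj_mem (one_add_mul (Lw_sq S)) (one_sub_mul (Lw_sq S))
    (isom_one_add (Lw_sq S) (Lw_sp hS)) j

/-- Irreducibility. -/
lemma Lam_irr {U : Submodule K (Ix n (k + 1) → K)} (hU : ∀ P ∈ Lam K n k, Pres U P) :
    U = ⊥ ∨ U = ⊤ := by
  have hone : Pres U (1 : Matrix (Ix n (k + 1)) (Ix n (k + 1)) K) := by
    intro v hv; rwa [Matrix.one_mulVec]
  have hadd : ∀ {M N : Matrix (Ix n (k + 1)) (Ix n (k + 1)) K}, Pres U M → Pres U N →
      Pres U (M + N) := by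
    intro M N h1 h2 v hv
    rw [Matrix.add_mulVec]
    exact U.add_mem (h1 v hv) (h2 v hv)
  have hsmul : ∀ (c : K) {M : Matrix (Ix n (k + 1)) (Ix n (k + 1)) K}, Pres U M →
      Pres U (c • M) := by
    intro c M h1 v hv
    rw [Matrix.smul_mulVec]
    exact U.smul_mem c (h1 v hv)
  -- the local matrices
  have hX0 : ∀ j, Pres U (loc j (X0 K n)) := fun j => hU _ (loc_X0_mem j)
  have hUp : ∀ j (S : Matrix (Fin n) (Fin n) K), S.transpose = S → Pres U (loc j (Up S)) := by
    intro j S hS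
    have h := (hX0 j).sub (hU _ (loc_Up_mem hS j))
    rwa [← loc_sub, sub_sub_cancel] at h
  have hLw : ∀ j (S : Matrix (Fin n) (Fin n) K), S.transpose = S → Pres U (loc j (Lw S)) := by
    intro j S hS
    have h := (hU _ (loc_Lw_mem hS j)).sub (hX0 j)
    rwa [← loc_sub, add_sub_cancel_left] at h
  have hmul : ∀ j (X Y : Matrix (Fin 2 × Fin n) (Fin 2 × Fin n) K), Pres U (loc j X) →
      Pres U (loc j Y) → Pres U (loc j (X * Y)) := by
    intro j X Y h1 h2
    rw [loc_mul]; exact h1.mul h2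
  have hE : ∀ a : Fin n, (Matrix.single a a (1 : K)).transpose = Matrix.single a a 1 := by
    intro a; rw [Matrix.transpose_single]
  have hD : ∀ j (p : Fin 2 × Fin n), Pres U (loc j (Matrix.single p p (1 : K))) := by
    rintro j ⟨s, a⟩
    have e : s = 0 ∨ s = 1 := by fin_cases s <;> simp
    rcases e with rfl | rfl
    · have h := hmul j _ _ (hUp j _ (hE a)) (hLw j _ (hE a))
      have e : Up (Matrix.single a a (1 : K)) * Lw (Matrix.single a a (1 : K)) =
          Matrix.single (0, a) (0, a) 1 := by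
        ext ⟨s, b⟩ ⟨t, c⟩
        rw [Matrix.mul_apply, Fintype.sum_prod_type, Fin.sum_univ_two]
        fin_cases s <;> fin_cases t <;> simp [Up, Lw, Matrix.single_apply, ite_and] <;>
          split_ifs <;> rfl
      rwa [e] at h
    · have h := hmul j _ _ (hLw j _ (hE a)) (hUp j _ (hE a))
      have e : Lw (Matrix.single a a (1 : K)) * Up (Matrix.single a a (1 : K)) =
          Matrix.single (1, a) (1, a) 1 := by
        ext ⟨s, b⟩ ⟨t, c⟩
        rw [Matrix.mul_apply, Fintype.sum_prod_type, Fin.sum_univ_two]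
        fin_cases s <;> fin_cases t <;> simp [Up, Lw, Matrix.single_apply, ite_and] <;>
          split_ifs <;> rfl
      rwa [e] at h
  have hcut : ∀ j (p q : Fin 2 × Fin n) (M : Matrix (Fin 2 × Fin n) (Fin 2 × Fin n) K),
      Pres U (loc j M) → M p q = 1 → Pres U (loc j (Matrix.single p q (1 : K))) := by
    intro j p q M hM hpq
    have h := hmul j _ _ (hmul j _ _ (hD j p) hM) (hD j q)
    have e : Matrix.single p p (1 : K) * M * Matrix.single q q 1 = Matrix.single p q 1 := by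
      ext x y
      rw [Matrix.mul_apply]
      simp only [Matrix.mul_apply, Matrix.single_apply]
      by_cases hx : p = x
      · subst hx
        by_cases hy : q = y
        · subst hy
          simp [hpq]
        · simp [hy]
      · simp [hx]
    rwa [e] at h
  have hones : (Matrix.of fun _ _ : Fin n => (1 : K)).transpose = Matrix.of fun _ _ => 1 := rfl
  have h01 : ∀ j (a b : Fin n), Pres U (loc j (Matrix.single ((0 : Fin 2), a) (1, b) (1 : K))) :=
    fun j a b => hcut j _ _ _ (hUp j _ hones) (by simp [Up])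
  have h10 : ∀ j (a b : Fin n), Pres U (loc j (Matrix.single ((1 : Fin 2), a) (0, b) (1 : K))) :=
    fun j a b => hcut j _ _ _ (hLw j _ hones) (by simp [Lw])
  have hall : ∀ j (p q : Fin 2 × Fin n), Pres U (loc j (Matrix.single p q (1 : K))) := by
    rintro j ⟨s, a⟩ ⟨t, b⟩
    have e : s = 0 ∨ s = 1 := by fin_cases s <;> simp
    have e' : t = 0 ∨ t = 1 := by fin_cases t <;> simp
    rcases e with rfl | rfl <;> rcases e' with rfl | rfl
    · have h := hmul j _ _ (h01 j a a) (h10 j a b)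
      rwa [Matrix.single_mul_single_same, one_mul] at h
    · exact h01 j a b
    · exact h10 j a b
    · have h := hmul j _ _ (h10 j a a) (h01 j a b)
      rwa [Matrix.single_mul_single_same, one_mul] at h
  have hloc : ∀ j (X : Matrix (Fin 2 × Fin n) (Fin 2 × Fin n) K), Pres U (loc j X) := by
    intro j X
    rw [Matrix.matrix_eq_sum_single X]
    have e : loc j (∑ p, ∑ q, Matrix.single p q (X p q)) =
        ∑ p, ∑ q, X p q • loc j (Matrix.single p q (1 : K)) := by
      have := map_sum (locL K (Fin 2 × Fin n) j) (fun p => ∑ q, Matrix.single p q (X p q))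
        Finset.univ
      change loc j _ = _ at this
      rw [this]
      apply Finset.sum_congr rfl
      intro p _
      rw [map_sum]
      apply Finset.sum_congr rfl
      intro q _
      have h : Matrix.single p q (X p q) = X p q • Matrix.single p q (1 : K) := by
        rw [Matrix.smul_single, smul_eq_mul, mul_one]
      rw [h, map_smul]
      rfl
    rw [e]
    intro v hv
    rw [Matrix.sum_mulVec]
    apply U.sum_mem
    intro p _
    rw [Matrix.sum_mulVec]
    apply U.sum_mem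
    intro q _
    exact hsmul _ (hall j p q) v hv
  apply trivial_of_single
  intro x y
  rw [single_eq_Tn]
  exact Tn_mem (P := fun M => Pres U M) hone (fun A B h1 h2 => h1.mul h2) hloc _

end MTP
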