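import Pool.Agent.Helper93.SR.Ideals

/-!
Small rank theorem for Lie algebras which are simple up to twists.
-/

set_option linter.unusedSimpArgs false
set_option linter.unusedSectionVars false

open Module

namespace MTP

variable {K : Type*} [Field K] {V : Type*} [AddCommGroup V] [Module K V] [FiniteDimensional K V]
variable {ω : LinearMap.BilinForm K V} {L : Submodule K (Module.End K V)}
  {S : Set (Module.End K V)} {r : ℕ}

omit [FiniteDimensional K V] in
lemma adjoin_mono' {I J : Submodule K (Module.End K V)} (h : I ≤ J) :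
    Algebra.adjoin K (I : Set (Module.End K V)) ≤ Algebra.adjoin K (J : Set (Module.End K V)) :=
  Algebra.adjoin_mono h

/-- A nonzero ideal of minimal dimension inside a given nonzero ideal. -/
lemma exists_min_ideal {M : Submodule K (Module.End K V)} (hM : IsId L M) (hM0 : M ≠ ⊥) :
    ∃ I ≤ M, IsId L I ∧ I ≠ ⊥ ∧ ∀ J ≤ I, IsId L J → J ≠ ⊥ → J = I := by
  classical
  have hex : ∃ n, ∃ I ≤ M, IsId L I ∧ I ≠ ⊥ ∧ finrank K I = n := ⟨_, M, le_rfl, hM, hM0, rfl⟩
  obtain ⟨I, hIM, hI, hI0, hn⟩ := Nat.find_spec hex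
  refine ⟨I, hIM, hI, hI0, ?_⟩
  intro J hJI hJ hJ0
  apply Submodule.eq_of_le_of_finrank_le hJI
  rw [hn]
  exact Nat.find_min' hex ⟨J, hJI.trans hIM, hJ, hJ0, rfl⟩

lemma inf_isId {I J : Submodule K (Module.End K V)} (hI : IsId L I) (hJ : IsId L J) :
    IsId L (I ⊓ J) :=
  ⟨fun x hx => hI.1 hx.1, fun x hx y hy => ⟨hI.2 x hx y hy.1, hJ.2 x hx y hy.2⟩⟩

/-- The case of at least three factors. -/
lemma Ctx.three [IsAlgClosed K] [CharZero K] (hC : Ctx ω L S) (hr : MinR L r)
    (hspan : L ≤ Submodule.span K (EE L r)) {I J : Submodule K (Module.End K V)}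
    (hI : IsId L I) (hI0 : I ≠ ⊥) (hJ : IsId L J) (hJI : J ≤ orth L I) (hJ0 : J ≠ ⊥)
    (hJne : J ≠ orth L I) : (finrank K V) ^ 2 ≤ r ^ 3 := by
  have hω := hC.nd
  have hL := hC.irr
  have hI' := orth_isId hL.br hI
  have hJ' := orth_isId hL.br hJ
  set M := orth L J ⊓ orth L I with hM
  have hMi : IsId L M := inf_isId hJ' hI'
  -- decompositions
  have hdI : ∀ z ∈ L, ∃ x ∈ I, z - x ∈ orth L I := fun z hz => hL.sup_orth hω hI hz
  have hdI' : ∀ z ∈ orth L I, ∃ y ∈ J, z - y ∈ M := by
    intro z hz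
    obtain ⟨y, hy, hzy⟩ := hL.sup_orth hω hJ (hI'.1 hz)
    exact ⟨y, hy, hzy, (orth L I).sub_mem hz (hJI hy)⟩
  have hM0 : M ≠ ⊥ := by
    intro h
    apply hJne
    apply le_antisymm hJI
    intro z hz
    obtain ⟨y, hy, hzy⟩ := hdI' z hz
    rw [h, Submodule.mem_bot, sub_eq_zero] at hzy
    rw [hzy]; exact hy
  -- commutation
  have cIJ : ∀ x ∈ I, ∀ y ∈ J, x * y = y * x := fun x hx y hy => hL.orth_comm hω hI hx (hJI hy)
  have cIM : ∀ x ∈ I, ∀ y ∈ M, x * y = y * x := fun x hx y hy => hL.orth_comm hω hI hx hy.2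
  have cJM : ∀ x ∈ J, ∀ y ∈ M, x * y = y * x := fun x hx y hy => hL.orth_comm hω hJ hx hy.1
  have P1 := hL.pr (fun x hx y hy => hL.orth_comm hω hI hx hy) hdI
  have P2 : Pr (Algebra.adjoin K (J : Set (Module.End K V)))
      (Algebra.adjoin K ((I ⊔ M : Submodule K (Module.End K V)) : Set (Module.End K V))) := by
    apply hL.pr
    · intro x hx y hy
      obtain ⟨a, ha, b, hb, rfl⟩ := Submodule.mem_sup.mp hy
      rw [mul_add, add_mul, ← cIJ a ha x hx, cJM x hx b hb]
    · intro z hz
      obtain ⟨x, hx, hzx⟩ := hdI z hz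
      obtain ⟨y, hy, hzy⟩ := hdI' _ hzx
      refine ⟨y, hy, ?_⟩
      have : z - y = x + (z - x - y) := by abel
      rw [this]
      exact Submodule.add_mem_sup hx hzy
  have P3 : Pr (Algebra.adjoin K (M : Set (Module.End K V)))
      (Algebra.adjoin K ((I ⊔ J : Submodule K (Module.End K V)) : Set (Module.End K V))) := by
    apply hL.pr
    · intro x hx y hy
      obtain ⟨a, ha, b, hb, rfl⟩ := Submodule.mem_sup.mp hy
      rw [mul_add, add_mul, ← cIM a ha x hx, ← cJM b hb x hx]
    · intro z hz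
      obtain ⟨x, hx, hzx⟩ := hdI z hz
      obtain ⟨y, hy, hzy⟩ := hdI' _ hzx
      refine ⟨z - x - y, hzy, ?_⟩
      have : z - (z - x - y) = x + y := by abel
      rw [this]
      exact Submodule.add_mem_sup hx hy
  -- inclusions of algebras
  have i1 : Algebra.adjoin K (J : Set (Module.End K V)) ≤
      Algebra.adjoin K ((orth L I : Submodule K (Module.End K V)) : Set (Module.End K V)) :=
    adjoin_mono' hJI
  have i2 : Algebra.adjoin K (M : Set (Module.End K V)) ≤
      Algebra.adjoin K ((orth L I : Submodule K (Module.End K V)) : Set (Module.End K V)) :=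
    adjoin_mono' inf_le_right
  have i3 : Algebra.adjoin K (M : Set (Module.End K V)) ≤
      Algebra.adjoin K ((I ⊔ M : Submodule K (Module.End K V)) : Set (Module.End K V)) :=
    adjoin_mono' le_sup_right
  have i4 : Algebra.adjoin K (I : Set (Module.End K V)) ≤
      Algebra.adjoin K ((I ⊔ M : Submodule K (Module.End K V)) : Set (Module.End K V)) :=
    adjoin_mono' le_sup_left
  have i5 : Algebra.adjoin K (I : Set (Module.End K V)) ≤
      Algebra.adjoin K ((I ⊔ J : Submodule K (Module.End K V)) : Set (Module.End K V)) :=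
    adjoin_mono' le_sup_left
  have i6 : Algebra.adjoin K (J : Set (Module.End K V)) ≤
      Algebra.adjoin K ((I ⊔ J : Submodule K (Module.End K V)) : Set (Module.End K V)) :=
    adjoin_mono' le_sup_right
  -- minimal elements
  have hmin : ∀ {N : Submodule K (Module.End K V)}, IsId L N → N ≠ ⊥ →
      ∃ a, MinA (Algebra.adjoin K (N : Set (Module.End K V))) a ∧ rk a ≤ r := by
    intro N hN hN0
    obtain ⟨e, he, heN⟩ := hL.EE_ideal hω hr hspan hN hN0
    have he0 : e ≠ 0 := by
      intro h
      have h1 := he.2.2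
      rw [h, rk_eq_zero.mpr rfl] at h1
      have := hr.1
      omega
    obtain ⟨a, ha⟩ := exists_minA (A := Algebra.adjoin K (N : Set (Module.End K V)))
      (Algebra.subset_adjoin heN) he0
    refine ⟨a, ha, ?_⟩
    have := ha.2.2 e (Algebra.subset_adjoin heN) he0
    rw [he.2.2] at this
    exact this
  obtain ⟨a1, m1, r1⟩ := hmin hI hI0
  obtain ⟨a2, m2, r2⟩ := hmin hJ hJ0
  obtain ⟨a3, m3, r3⟩ := hmin hMi hM0
  -- commutation of the minimal elements with the algebras
  have c1 : ∀ y ∈ Algebra.adjoin K ((orth L I : Submodule K (Module.End K V)) :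
      Set (Module.End K V)), y * a1 = a1 * y := fun y hy => (P1.comm a1 m1.1 y hy).symm
  have c2 : ∀ y ∈ Algebra.adjoin K ((I ⊔ M : Submodule K (Module.End K V)) :
      Set (Module.End K V)), y * a2 = a2 * y := fun y hy => (P2.comm a2 m2.1 y hy).symm
  have c3 : ∀ y ∈ Algebra.adjoin K ((I ⊔ J : Submodule K (Module.End K V)) :
      Set (Module.End K V)), y * a3 = a3 * y := fun y hy => (P3.comm a3 m3.1 y hy).symm
  have h23 : a2 * a3 ≠ 0 := by
    intro h
    rcases P2.star m2.1 (i3 m3.1) h with h | h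
    · exact m2.2.1 h
    · exact m3.2.1 h
  have h123 : a1 * (a2 * a3) ≠ 0 := by
    intro h
    rcases P1.star m1.1 (mul_mem (i1 m2.1) (i2 m3.1)) h with h | h
    · exact m1.2.1 h
    · exact h23 h
  obtain ⟨v, hv⟩ : ∃ v, (a1 * (a2 * a3)) v ≠ 0 := by
    by_contra h
    push Not at h
    exact h123 (LinearMap.ext h)
  set u := (a1 * (a2 * a3)) v with hu
  have u1 : u ∈ LinearMap.range a1 := ⟨(a2 * a3) v, rfl⟩
  have u2 : u ∈ LinearMap.range a2 := by
    refine ⟨(a1 * a3) v, ?_⟩
    have e : a2 * (a1 * a3) = a1 * (a2 * a3) := by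
      rw [← mul_assoc, ← c2 a1 (i4 m1.1), mul_assoc]
    exact congrArg (fun z : Module.End K V => z v) e
  have u3 : u ∈ LinearMap.range a3 := by
    refine ⟨(a1 * a2) v, ?_⟩
    have e : a3 * (a1 * a2) = a1 * (a2 * a3) := by
      rw [← c3 _ (mul_mem (i5 m1.1) (i6 m2.1)), mul_assoc]
    exact congrArg (fun z : Module.End K V => z v) e
  -- estimates
  have b1 := P1.dim_le hv
  have b2 := P2.dim_le hv
  have b3 : finrank K (orb (Algebra.adjoin K ((orth L I : Submodule K (Module.End K V)) :
      Set (Module.End K V))) u) ≤ r :=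
    (Submodule.finrank_mono (orb_le c1 u1)).trans r1
  have b4 : finrank K (orb (Algebra.adjoin K ((I ⊔ M : Submodule K (Module.End K V)) :
      Set (Module.End K V))) u) ≤ r :=
    (Submodule.finrank_mono (orb_le c2 u2)).trans r2
  have b5 := P1.dim_ge (a := a1) (u := u) m1.1 (fun y hy => m1.extremal hy) u1 hv i1
    (W := LinearMap.range a3) (by
      intro x hx y hy
      obtain ⟨w, hw⟩ := u3
      rw [← hw]
      refine ⟨x (y w), ?_⟩
      have e : x * y * a3 = a3 * (x * y) := c3 _ (mul_mem (i5 hx) (i6 hy))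
      exact (congrArg (fun z : Module.End K V => z w) e).symm)
  have b6 : finrank K (LinearMap.range a3) ≤ r := r3
  set d1 := finrank K (orb (Algebra.adjoin K (I : Set (Module.End K V))) u) with hd1
  set d2 := finrank K (orb (Algebra.adjoin K (J : Set (Module.End K V))) u) with hd2
  have b7 : finrank K V ≤ d1 * r := b1.trans (Nat.mul_le_mul_left _ b3)
  have b8 : finrank K V ≤ d2 * r := b2.trans (Nat.mul_le_mul_left _ b4)
  calc (finrank K V) ^ 2 = finrank K V * finrank K V := by ring
    _ ≤ (d1 * r) * (d2 * r) := Nat.mul_le_mul b7 b8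
    _ = (d1 * d2) * r ^ 2 := by ring
    _ ≤ r * r ^ 2 := Nat.mul_le_mul_right _ (b5.trans b6)
    _ = r ^ 3 := by ring

/-- The non simple case. -/
theorem Ctx.nonsimple [IsAlgClosed K] [CharZero K] (hC : Ctx ω L S) (halt : ω.IsAlt)
    (hr : MinR L r) (hE : (EE L r).Nonempty) {T : Set (Module.End K V ≃+* Module.End K V)}
    (hT : ∀ τ ∈ T, Tw L τ) (hS : TSmp L T) (hns : ¬ Smp L) : (finrank K V) ^ 2 ≤ r ^ 3 := by
  have hω := hC.nd
  have hL := hC.irr
  have hspan := (hC.span_twist hr hE hT hS).ge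
  unfold Smp at hns
  push Not at hns
  obtain ⟨M, hML, hMi, hM0, hMne⟩ := hns
  have hM : IsId L M := ⟨hML, hMi⟩
  obtain ⟨I, hIM, hI, hI0, hImin⟩ := exists_min_ideal hM hM0
  have hIne : I ≠ L := by
    intro h
    apply hMne
    exact le_antisymm hML (h ▸ hIM)
  have hI' := orth_isId hL.br hI
  have hI'0 : orth L I ≠ ⊥ := by
    intro h
    apply hIne
    apply le_antisymm hI.1
    intro z hz
    obtain ⟨x, hx, hzx⟩ := hL.sup_orth hω hI hz
    rw [h, Submodule.mem_bot, sub_eq_zero] at hzx
    rw [hzx]; exact hx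
  by_cases hJ : ∃ J : Submodule K (Module.End K V), IsId L J ∧ J ≤ orth L I ∧ J ≠ ⊥ ∧
      J ≠ orth L I
  · obtain ⟨J, hJ, hJI, hJ0, hJne⟩ := hJ
    exact hC.three hr hspan hI hI0 hJ hJI hJ0 hJne
  exfalso
  push Not at hJ
  -- a twist moving `I`
  obtain ⟨τ, hτT, x0, hx0, hx0n⟩ : ∃ τ ∈ T, ∃ x ∈ I, τ x ∉ I := by
    by_contra hcon
    push Not at hcon
    rcases hS I hI hcon with h | h
    · exact hI0 h
    · exact hIne h
  obtain ⟨⟨σ, hσ⟩, hτr, hτL⟩ := hT τ hτT
  have hsymm : ∀ (c : K) (x : Module.End K V), τ.symm (c • x) = σ.symm c • τ.symm x := by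
    intro c x
    apply τ.injective
    rw [hσ]; simp
  -- the image of an ideal
  let im : Submodule K (Module.End K V) → Submodule K (Module.End K V) := fun N =>
    { carrier := {y | τ.symm y ∈ N}
      add_mem' := by
        intro a b ha hb
        rw [Set.mem_ofPred_eq, map_add]; exact N.add_mem ha hb
      zero_mem' := by rw [Set.mem_ofPred_eq, map_zero]; exact N.zero_mem
      smul_mem' := by
        intro c a ha
        rw [Set.mem_ofPred_eq, hsymm]; exact N.smul_mem _ ha }
  have him : ∀ N y, y ∈ im N ↔ τ.symm y ∈ N := fun N y => Iff.rfl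
  have hsL : ∀ y, τ.symm y ∈ L ↔ y ∈ L := by
    intro y
    rw [← hτL, RingEquiv.apply_symm_apply]
  have himI : IsId L (im I) := by
    refine ⟨fun y hy => (hsL y).mp (hI.1 hy), ?_⟩
    intro x hx y hy
    rw [him, map_sub, map_mul, map_mul]
    exact hI.2 _ ((hsL x).mpr hx) _ hy
  have him0 : im I ≠ ⊥ := by
    intro h
    apply hI0
    rw [eq_bot_iff]
    intro x hx
    have h1 : τ x ∈ im I := by rw [him, RingEquiv.symm_apply_apply]; exact hx
    rw [h, Submodule.mem_bot] at h1
    rw [Submodule.mem_bot]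
    have := congrArg τ.symm h1
    simpa using this
  -- the image is the complement
  have hkey : im I = orth L I := by
    by_cases h1 : im I ⊓ orth L I = ⊥
    · exfalso
      have hle : im I ≤ I := by
        intro y hy
        obtain ⟨x, hx, hyx⟩ := hL.sup_orth hω hI (himI.1 hy)
        have hcen : y - x = 0 := by
          apply hL.center hω hyx.1
          intro z hz
          obtain ⟨z1, hz1, hz2⟩ := hL.sup_orth hω hI hz
          have f1 : (y - x) * z1 = z1 * (y - x) := (hL.orth_comm hω hI hz1 hyx).symm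
          have f2 : y * (z - z1) = (z - z1) * y := by
            have g1 := himI.2 _ hz2.1 y hy
            have g2 := hI'.2 _ (himI.1 hy) _ hz2
            have g3 : (z - z1) * y - y * (z - z1) ∈ im I ⊓ orth L I := by
              refine ⟨g1, ?_⟩
              have := (orth L I).neg_mem g2
              rwa [neg_sub] at this
            rw [h1, Submodule.mem_bot, sub_eq_zero] at g3
            exact g3.symm
          have f3 : x * (z - z1) = (z - z1) * x := hL.orth_comm hω hI hx hz2
          have f4 : (y - x) * (z - z1) = (z - z1) * (y - x) := by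
            rw [sub_mul, f2, f3, ← mul_sub]
          have : z = z1 + (z - z1) := by abel
          rw [this, mul_add, add_mul, f1, f4]
        rw [sub_eq_zero] at hcen
        rw [hcen]; exact hx
      have heq := hImin _ hle himI him0
      apply hx0n
      rw [← heq, him, RingEquiv.symm_apply_apply]
      exact hx0
    · have h2 : im I ⊓ orth L I = orth L I := hJ _ (inf_isId himI hI') inf_le_right h1
      have h3 : orth L I ≤ im I := by rw [← h2]; exact inf_le_left
      -- the preimage of the complement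
      let pre : Submodule K (Module.End K V) :=
        { carrier := {y | τ y ∈ orth L I}
          add_mem' := by
            intro a b ha hb
            rw [Set.mem_ofPred_eq, map_add]; exact (orth L I).add_mem ha hb
          zero_mem' := by rw [Set.mem_ofPred_eq, map_zero]; exact (orth L I).zero_mem
          smul_mem' := by
            intro c a ha
            rw [Set.mem_ofPred_eq, hσ]; exact (orth L I).smul_mem _ ha }
      have hpre : ∀ y, y ∈ pre ↔ τ y ∈ orth L I := fun y => Iff.rfl
      have hpreI : pre ≤ I := by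
        intro y hy
        have := h3 hy
        rw [him, RingEquiv.symm_apply_apply] at this
        exact this
      have hpid : IsId L pre := by
        refine ⟨fun y hy => hI.1 (hpreI hy), ?_⟩
        intro x hx y hy
        rw [hpre, map_sub, map_mul, map_mul]
        exact hI'.2 _ ((hτL x).mpr hx) _ hy
      have hp0 : pre ≠ ⊥ := by
        intro h
        apply hI'0
        rw [eq_bot_iff]
        intro y hy
        have h4 : τ.symm y ∈ pre := by rw [hpre, RingEquiv.apply_symm_apply]; exact hy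
        rw [h, Submodule.mem_bot] at h4
        rw [Submodule.mem_bot]
        have := congrArg τ h4
        simpa using this
      have hpe := hImin _ hpreI hpid hp0
      apply le_antisymm _ h3
      intro y hy
      rw [him, ← hpe, hpre, RingEquiv.apply_symm_apply] at hy
      exact hy
  refine no_swap hω halt (I := I) (I' := orth L I) (fun x hx => hL.sk x (hI.1 hx))
    (fun x hx => hL.sk x (hI'.1 hx)) hσ ?_ ?_
    (hL.pr (fun x hx y hy => hL.orth_comm hω hI hx hy) (fun z hz => hL.sup_orth hω hI hz)) ?_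
  · intro x hx
    rw [← hkey, him, RingEquiv.symm_apply_apply]; exact hx
  · intro y hy
    rw [← hkey, him] at hy
    exact ⟨_, hy, RingEquiv.apply_symm_apply _ _⟩
  · by_contra hcon
    push Not at hcon
    exact hI0 (by rw [eq_bot_iff]; intro x hx; rw [Submodule.mem_bot]; exact hcon x hx)

/-- **Small rank theorem, twisted form.** -/
theorem Ctx.eq_sp_of_small_twist [IsAlgClosed K] [CharZero K] (hC : Ctx ω L S) (halt : ω.IsAlt)
    {T : Set (Module.End K V ≃+* Module.End K V)} (hT : ∀ τ ∈ T, Tw L τ) (hS : TSmp L T)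
    {x : Module.End K V} (hx : x ∈ L) (hxx : x * x = 0) (hx0 : x ≠ 0)
    (h4 : 4 * rk x < finrank K V) (h3 : (rk x) ^ 3 < (finrank K V) ^ 2)
    {z : Module.End K V} (hz : IsSk ω z) : z ∈ L := by
  classical
  by_cases hs : Smp L
  · exact hC.eq_sp_of_small halt hs hx hxx hx0 h4 hz
  exfalso
  have hex : ∃ r, ∃ x ∈ L, x * x = 0 ∧ x ≠ 0 ∧ rk x = r := ⟨rk x, x, hx, hxx, hx0, rfl⟩
  obtain ⟨y, hy, hyy, hy0, hyr⟩ := Nat.find_spec hex
  have hle : Nat.find hex ≤ rk x := Nat.find_min' hex ⟨x, hx, hxx, hx0, rfl⟩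
  have hmin : ∀ w ∈ L, w * w = 0 → w ≠ 0 → Nat.find hex ≤ rk w :=
    fun w hw hww hw0 => Nat.find_min' hex ⟨w, hw, hww, hw0, rfl⟩
  generalize hr : Nat.find hex = r at *
  have hM : MinR L r := ⟨by rw [← hyr]; exact rk_pos.mpr hy0, hmin⟩
  have h1 := hC.nonsimple halt hM ⟨y, hy, hyy, hyr⟩ hT hS hs
  have h2 : r ^ 3 ≤ (rk x) ^ 3 := Nat.pow_le_pow_left hle 3
  omega

end MTP
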